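import Pool.Agent.Lib.MP_1b4d75_gt.Basic

/-!
# MP_1b4d75_gt, module A01

Orthonormal frames and traces of `T`.
-/

open scoped Quaternion Topology
open Filter

namespace MP_1b4d75_gt

noncomputable section

theorem frame_of {y n : V3} (hy : dot y y = 1) (hn : dot n n = 1) (hyn : dot y n = 0) :
    Frame y (cr n y) n := by
  have hny : dot n y = 0 := by rw [dot_comm]; exact hyn
  refine ⟨hy, ?_, hn, ?_, hyn, ?_, ?_, ?_, rfl⟩
  · rw [dot_cr_cr, hy, hn, hny, hyn]; ring
  · exact dot_cr_right n y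
  · rw [dot_comm]; exact dot_cr_left n y
  · rw [cr_cr_right, hy, hyn, one_smul, zero_smul, sub_zero]
  · rw [cr_cr_left, hn, hyn, one_smul, zero_smul, sub_zero]

theorem exists_frame {y : V3} (hy : dot y y = 1) : ∃ h k, Frame y h k := by
  obtain ⟨n, hn, hyn⟩ : ∃ n : V3, dot n n = 1 ∧ dot y n = 0 := by
    by_cases hc : 1 - y 0 ^ 2 ≤ 0
    · have e : y 0 ^ 2 + y 1 ^ 2 + y 2 ^ 2 = 1 := by
        have := hy
        simp only [dot] at this
        linarith
      have h1 : y 1 = 0 := by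
        have : y 1 ^ 2 ≤ 0 := by nlinarith [sq_nonneg (y 2)]
        exact pow_eq_zero_iff (two_ne_zero) |>.1 (le_antisymm this (sq_nonneg _))
      refine ⟨mk3 0 1 0, by simp [dot], by simp [dot, h1]⟩
    · push Not at hc
      have e : y 0 ^ 2 + y 1 ^ 2 + y 2 ^ 2 = 1 := by
        have := hy
        simp only [dot] at this
        linarith
      set c := 1 - y 0 ^ 2 with hcd
      have hs : Real.sqrt c ^ 2 = c := Real.sq_sqrt hc.le
      have hs0 : Real.sqrt c ≠ 0 := (Real.sqrt_pos.2 hc).ne'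
      refine ⟨mk3 0 (y 2 / Real.sqrt c) (-y 1 / Real.sqrt c), ?_, ?_⟩
      · simp only [dot, mk3_0, mk3_1, mk3_2]
        field_simp
        rw [hs, hcd]
        linarith
      · simp only [dot, mk3_0, mk3_1, mk3_2]
        field_simp
        ring
  exact ⟨cr n y, n, frame_of hy hn hyn⟩

/-- the completeness relations -/
theorem frame_rel {y h k : V3} (F : Frame y h k) :
    y 0 * y 0 + h 0 * h 0 + k 0 * k 0 = 1 ∧ y 1 * y 1 + h 1 * h 1 + k 1 * k 1 = 1 ∧
    y 2 * y 2 + h 2 * h 2 + k 2 * k 2 = 1 ∧ y 0 * y 1 + h 0 * h 1 + k 0 * k 1 = 0 ∧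
    y 0 * y 2 + h 0 * h 2 + k 0 * k 2 = 0 ∧ y 1 * y 2 + h 1 * h 2 + k 1 * k 2 = 0 := by
  obtain ⟨h1, h2, h3, h4, h5, h6, -, -, -⟩ := F
  simp only [dot] at h1 h2 h3 h4 h5 h6
  set M : Matrix (Fin 3) (Fin 3) ℝ :=
    !![y 0, y 1, y 2; h 0, h 1, h 2; k 0, k 1, k 2] with hM
  have hMM : M * M.transpose = 1 := by
    ext i j
    fin_cases i <;> fin_cases j <;>
      simp [hM, Matrix.mul_apply, Fin.sum_univ_three] <;> linarith
  have hMM' : M.transpose * M = 1 := mul_eq_one_comm.1 hMM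
  have key : ∀ i j : Fin 3, (M.transpose * M) i j = (1 : Matrix (Fin 3) (Fin 3) ℝ) i j := by
    intro i j; rw [hMM']
  have k00 := key 0 0
  have k11 := key 1 1
  have k22 := key 2 2
  have k01 := key 0 1
  have k02 := key 0 2
  have k12 := key 1 2
  simp [hM, Matrix.mul_apply, Fin.sum_univ_three] at k00 k11 k22 k01 k02 k12
  exact ⟨k00, k11, k22, k01, k02, k12⟩

theorem frame_expand {y h k : V3} (F : Frame y h k) (x : V3) :
    x = dot x y • y + dot x h • h + dot x k • k := by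
  obtain ⟨h1, h2, h3, h4, h5, h6⟩ := frame_rel F
  apply ext3
  · simp [dot]
    linear_combination (-(x 0)) * h1 - (x 1) * h4 - (x 2) * h5
  · simp [dot]
    linear_combination (-(x 0)) * h4 - (x 1) * h2 - (x 2) * h6
  · simp [dot]
    linear_combination (-(x 0)) * h5 - (x 1) * h6 - (x 2) * h3

/-- completeness: `⟨a,b⟩` in the frame -/
theorem frame_dot {y h k : V3} (F : Frame y h k) (a b : V3) :
    dot a b = dot a y * dot b y + dot a h * dot b h + dot a k * dot b k := by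
  conv_lhs => rw [frame_expand F b]
  simp only [dot_add_right, dot_smul_right]
  ring

theorem perp_expand {y h k : V3} (F : Frame y h k) {n : V3} (hn : dot n y = 0) :
    n = dot n h • h + dot n k • k := by
  conv_lhs => rw [frame_expand F n]
  rw [hn, zero_smul, zero_add]

theorem frame_trace {y h k : V3} (F : Frame y h k) (δ : ℝ) : ty δ y + ty δ h + ty δ k = 3 := by
  obtain ⟨h1, h2, h3, h4, h5, h6⟩ := frame_rel F
  simp only [ty, TT, dot, mk3_0, mk3_1, mk3_2]
  linear_combination h1 + h2 + h3 + 4 * δ * h4 + 2 * δ * h6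

theorem frame_trace2 {y h k : V3} (F : Frame y h k) (δ : ℝ) :
    dot (TT δ y) (TT δ y) + dot (TT δ h) (TT δ h) + dot (TT δ k) (TT δ k) = 3 + 10 * δ ^ 2 := by
  obtain ⟨h1, h2, h3, h4, h5, h6⟩ := frame_rel F
  simp only [TT, dot, mk3_0, mk3_1, mk3_2]
  linear_combination (1 + 4 * δ ^ 2) * h1 + (1 + 5 * δ ^ 2) * h2 + (1 + δ ^ 2) * h3 +
    8 * δ * h4 + 4 * δ * h6 + 4 * δ ^ 2 * h5

end

end MP_1b4d75_gt
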