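import Pool.Agent.Lib.MP_1b4d75_gt.A01

/-!
# MP_1b4d75_gt, module A02

`LL` and its inverse `NN` on `y^⊥`.

Work in a frame (y,h,k) (exists_frame), n = a h + b k (perp_expand), T y = Tyy y + Tyh h + Tyk k etc.
(frame_expand), all products of frame vectors are known (Frame fields, cr_anti), trace relation frame_trace,
frame_trace2.  Then each claim is a polynomial identity in a, b and the six numbers Tij (ring /
linear_combination).
LL_eq: L_y(n) = T(n x y) - <T(n x y),y> y and omega x y with omega = (3 - Tyy) n - T n, uses 3 = Tyy+Thh+Tkk.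
Del_pos: |δ| ≤ 1/10: |T y|^2 ≥ ..: in a frame Del = Thh Tkk - Thk^2 (by frame_trace, frame_trace2), and
T ≥ 1 - 3|δ| on the unit sphere; or directly: |<a, A b>| ≤ 3|a||b| for A = (A12=2, A23=1) (A^2 has trace 10).
NN_LL, LL_NN: both sides multiplied by Del: polynomial identities in the frame, Del = Thh Tkk - Thk^2.
-/

open scoped Quaternion Topology
open Filter

namespace MP_1b4d75_gt

noncomputable section

lemma a02_TT_cr (δ : ℝ) (a b : V3) :
    TT δ (cr a b) = (3 : ℝ) • cr a b - cr (TT δ a) b - cr a (TT δ b) := by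
  apply ext3 <;> simp [cr, TT] <;> ring

lemma a02_dec {y : V3} (hy : dot y y = 1) (x : V3) :
    x = dot x y • y + cr (cr y x) y := by
  rw [cr_cr_left, hy, one_smul]
  abel

theorem LL_eq {δ : ℝ} {y n : V3} (hy : dot y y = 1) (hn : dot n y = 0) :
    LL δ y n = cr (om δ y n) y := by
  have h2 : cr n (TT δ y) = -(dot (cr n y) (TT δ y) • y) + ty δ y • cr n y := by
    have e1 := a02_dec hy (cr n (TT δ y))
    have e2 : cr y (cr n (TT δ y)) = ty δ y • n := by
      rw [cr_cr_right, dot_comm y n, hn, zero_smul, sub_zero]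
      rfl
    have e3 : dot (cr n (TT δ y)) y = -dot (cr n y) (TT δ y) := by
      rw [dot_cr_swap, dot_cr_swap, cr_anti (TT δ y) y, dot_neg_right]
    rw [e2, e3, cr_smul_left, neg_smul] at e1
    exact e1
  have h3 : dot (TT δ (cr n y)) y = dot (cr n y) (TT δ y) := TT_symm δ _ _
  unfold LL pr om
  rw [h3, a02_TT_cr, h2, cr_sub_left, cr_smul_left, sub_smul]
  abel

theorem LL_perp (δ : ℝ) {y : V3} (hy : dot y y = 1) (n : V3) : dot (LL δ y n) y = 0 :=
  dot_pr hy _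

theorem NN_perp (δ : ℝ) {y : V3} (hy : dot y y = 1) (v : V3) : dot (NN δ y v) y = 0 := by
  rw [NN, dot_smul_left, dot_pr hy, mul_zero]

theorem Del_frame {δ : ℝ} {y h k : V3} (F : Frame y h k) :
    Del δ y = ty δ h * ty δ k - dot h (TT δ k) ^ 2 := by
  have t1 := frame_trace F δ
  have t2 := frame_trace2 F δ
  rw [frame_dot F (TT δ y) (TT δ y), frame_dot F (TT δ h) (TT δ h),
    frame_dot F (TT δ k) (TT δ k)] at t2
  unfold Del
  rw [frame_dot F (TT δ y) (TT δ y)]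
  have s1 : dot (TT δ h) y = dot (TT δ y) h := by rw [TT_symm, dot_comm]
  have s2 : dot (TT δ k) y = dot (TT δ y) k := by rw [TT_symm, dot_comm]
  have s3 : dot (TT δ k) h = dot (TT δ h) k := by rw [TT_symm, dot_comm]
  have s4 : dot (TT δ y) y = ty δ y := dot_comm _ _
  have s5 : dot (TT δ h) h = ty δ h := dot_comm _ _
  have s6 : dot (TT δ k) k = ty δ k := dot_comm _ _
  have s7 : dot h (TT δ k) = dot (TT δ h) k := (TT_symm δ h k).symm
  rw [s1, s2, s3, s4, s5, s6] at t2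
  rw [s4, s7]
  have hy : ty δ y = 3 - ty δ h - ty δ k := by linarith
  rw [hy] at t2 ⊢
  linear_combination (1 / 2) * t2

theorem Del_pos {δ : ℝ} (hδ : |δ| ≤ 1 / 10) {y : V3} (hy : dot y y = 1) : 0 < Del δ y := by
  obtain ⟨h1, h2⟩ := abs_le.1 hδ
  have e : Del δ y = 1 - δ * (4 * y 0 * y 1 + 2 * y 1 * y 2)
      + δ ^ 2 * ((2 * y 1) ^ 2 + (2 * y 0 + y 2) ^ 2 + y 1 ^ 2 - 5)
      + (dot y y - 1) - 3 * (dot y y - 1) := by
    simp [Del, ty, TT, dot]
    ring
  rw [e, hy]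
  have hy' : y 0 * y 0 + y 1 * y 1 + y 2 * y 2 = 1 := hy
  have q1 : 4 * y 0 * y 1 + 2 * y 1 * y 2 ≤ 3 := by
    nlinarith [sq_nonneg (y 0 - y 1), sq_nonneg (y 1 - y 2), sq_nonneg (y 0), sq_nonneg (y 2)]
  have q2 : -3 ≤ 4 * y 0 * y 1 + 2 * y 1 * y 2 := by
    nlinarith [sq_nonneg (y 0 + y 1), sq_nonneg (y 1 + y 2), sq_nonneg (y 0), sq_nonneg (y 2)]
  have q3 : δ * (4 * y 0 * y 1 + 2 * y 1 * y 2) ≤ 3 / 10 := by
    have := abs_mul δ (4 * y 0 * y 1 + 2 * y 1 * y 2)
    have q4 : |4 * y 0 * y 1 + 2 * y 1 * y 2| ≤ 3 := abs_le.2 ⟨q2, q1⟩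
    have q5 : |δ| * |4 * y 0 * y 1 + 2 * y 1 * y 2| ≤ 1 / 10 * 3 :=
      mul_le_mul hδ q4 (abs_nonneg _) (by norm_num)
    have q6 := le_abs_self (δ * (4 * y 0 * y 1 + 2 * y 1 * y 2))
    linarith
  have q7 : δ ^ 2 ≤ 1 / 100 := by nlinarith
  have q8 : 0 ≤ δ ^ 2 * ((2 * y 1) ^ 2 + (2 * y 0 + y 2) ^ 2 + y 1 ^ 2) := by positivity
  nlinarith

/-- Cayley-Hamilton for `T` on `y^⊥`, first form. -/
lemma a02_CH1 (δ : ℝ) {y n : V3} (hy : dot y y = 1) (hn : dot n y = 0) :
    pr y (TT δ (pr y (om δ y n))) = Del δ y • n := by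
  obtain ⟨h, k, F⟩ := exists_frame hy
  have hhy : dot h y = 0 := by rw [dot_comm]; exact F.yh
  have hky : dot k y = 0 := by rw [dot_comm]; exact F.yk
  have hkh : dot k h = 0 := by rw [dot_comm]; exact F.hk
  obtain ⟨a, ha⟩ : ∃ a, a = dot n h := ⟨_, rfl⟩
  obtain ⟨b, hb⟩ : ∃ b, b = dot n k := ⟨_, rfl⟩
  have hn' : n = a • h + b • k := by rw [ha, hb]; exact perp_expand F hn
  have tr : ty δ y = 3 - ty δ h - ty δ k := by linarith [frame_trace F δ]
  have s5 : dot (TT δ h) h = ty δ h := dot_comm _ _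
  have s6 : dot (TT δ k) k = ty δ k := dot_comm _ _
  have s3 : dot (TT δ k) h = dot (TT δ h) k := by rw [TT_symm, dot_comm]
  have s7 : dot h (TT δ k) = dot (TT δ h) k := (TT_symm δ h k).symm
  -- the vector `pr y (om n)`
  have hw : pr y (om δ y n) = (a * ty δ k - b * dot (TT δ h) k) • h
      + (b * ty δ h - a * dot (TT δ h) k) • k := by
    rw [perp_expand F (dot_pr hy (om δ y n)), hn']
    simp only [pr, om, tr, dot_sub_left, dot_add_left, dot_smul_left, TT_add, TT_smul, F.yh, F.yk,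
      F.hh, F.kk, F.hk, hkh, s5, s6, s3]
    congr 2 <;> ring
  rw [hw]
  rw [perp_expand F (dot_pr hy _), pr, dot_sub_left, dot_sub_left, dot_smul_left,
      dot_smul_left, F.yh, F.yk, TT_add, TT_smul, TT_smul, Del_frame F, hn', s7]
  simp only [dot_add_left, dot_smul_left, s5, s6, s3, smul_add, smul_smul]
  congr 2 <;> ring

/-- Cayley-Hamilton for `T` on `y^⊥`, second form. -/
lemma a02_CH2 (δ : ℝ) {y n : V3} (hy : dot y y = 1) (hn : dot n y = 0) :
    pr y (om δ y (pr y (TT δ n))) = Del δ y • n := by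
  obtain ⟨h, k, F⟩ := exists_frame hy
  have hhy : dot h y = 0 := by rw [dot_comm]; exact F.yh
  have hky : dot k y = 0 := by rw [dot_comm]; exact F.yk
  have hkh : dot k h = 0 := by rw [dot_comm]; exact F.hk
  obtain ⟨a, ha⟩ : ∃ a, a = dot n h := ⟨_, rfl⟩
  obtain ⟨b, hb⟩ : ∃ b, b = dot n k := ⟨_, rfl⟩
  have hn' : n = a • h + b • k := by rw [ha, hb]; exact perp_expand F hn
  have tr : ty δ y = 3 - ty δ h - ty δ k := by linarith [frame_trace F δ]
  have s5 : dot (TT δ h) h = ty δ h := dot_comm _ _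
  have s6 : dot (TT δ k) k = ty δ k := dot_comm _ _
  have s3 : dot (TT δ k) h = dot (TT δ h) k := by rw [TT_symm, dot_comm]
  have s7 : dot h (TT δ k) = dot (TT δ h) k := (TT_symm δ h k).symm
  have hw : pr y (TT δ n) = (a * ty δ h + b * dot (TT δ h) k) • h
      + (a * dot (TT δ h) k + b * ty δ k) • k := by
    rw [perp_expand F (dot_pr hy (TT δ n)), pr, dot_sub_left, dot_sub_left, dot_smul_left,
      dot_smul_left, F.yh, F.yk, hn', TT_add, TT_smul, TT_smul]
    simp only [dot_add_left, dot_smul_left, s5, s6, s3]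
    congr 2 <;> ring
  rw [hw]
  rw [perp_expand F (dot_pr hy _), Del_frame F, hn', s7]
  simp only [pr, om, tr, dot_sub_left, dot_add_left, dot_smul_left, TT_add, TT_smul, F.yh, F.yk,
      F.hh, F.kk, F.hk, hkh, s5, s6, s3, smul_add, smul_smul]
  congr 2 <;> ring

theorem NN_LL {δ : ℝ} (hδ : |δ| ≤ 1 / 10) {y n : V3} (hy : dot y y = 1) (hn : dot n y = 0) :
    NN δ y (LL δ y n) = n := by
  have hD := Del_pos hδ hy
  have h1 : cr y (LL δ y n) = pr y (om δ y n) := by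
    rw [LL_eq hy hn, cr_cr_right, hy, one_smul, dot_comm y]
    rfl
  rw [NN, h1, a02_CH1 δ hy hn, smul_smul, inv_mul_cancel₀ hD.ne', one_smul]

theorem LL_NN {δ : ℝ} (hδ : |δ| ≤ 1 / 10) {y v : V3} (hy : dot y y = 1) (hv : dot v y = 0) :
    LL δ y (NN δ y v) = v := by
  have hD := Del_pos hδ hy
  have h1 : LL δ y (pr y (TT δ (cr y v))) = Del δ y • v := by
    rw [LL_eq hy (dot_pr hy _)]
    have h3 : ∀ x : V3, cr x y = cr (pr y x) y := by
      intro x
      rw [pr, cr_sub_left, cr_smul_left, cr_self, smul_zero, sub_zero]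
    rw [h3, a02_CH2 δ hy (dot_cr_left' y v), cr_smul_left, cr_cr_left, hy, hv, one_smul,
      zero_smul, sub_zero]
  rw [NN, LL_smul, h1, smul_smul, inv_mul_cancel₀ hD.ne', one_smul]

end

end MP_1b4d75_gt
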