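import Pool.Agent.Lib.MP_1b4d75_gt.A01

/-!
# MP_1b4d75_gt, module A03

Torsion identities of the base.

Frame computation as in A02 (frame (y,h,k), n1 = a h + b k, n2 = c h + d k, T in the frame, trace relation).
tors_y also follows from LL_eq-type identity: dot (cr (om n1) n2) y = - dot (LL n1) n2.
-/

open scoped Quaternion Topology
open Filter

namespace MP_1b4d75_gt

noncomputable section

lemma a03_LL_sub (δ : ℝ) (y a b : V3) : LL δ y (a - b) = LL δ y a - LL δ y b := by
  simp only [LL, cr_sub_left, TT_sub, pr_sub]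

lemma a03_TT_y {y h k : V3} (F : Frame y h k) (δ : ℝ) :
    TT δ y = ty δ y • y + dot y (TT δ h) • h + dot y (TT δ k) • k := by
  conv_lhs => rw [frame_expand F (TT δ y)]
  rw [dot_comm (TT δ y) y, TT_symm, TT_symm]
  rfl

lemma a03_TT_h {y h k : V3} (F : Frame y h k) (δ : ℝ) :
    TT δ h = dot y (TT δ h) • y + ty δ h • h + dot h (TT δ k) • k := by
  conv_lhs => rw [frame_expand F (TT δ h)]
  rw [dot_comm (TT δ h) y, dot_comm (TT δ h) h, TT_symm]
  rfl

lemma a03_TT_k {y h k : V3} (F : Frame y h k) (δ : ℝ) :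
    TT δ k = dot y (TT δ k) • y + dot h (TT δ k) • h + ty δ k • k := by
  conv_lhs => rw [frame_expand F (TT δ k)]
  rw [dot_comm (TT δ k) y, dot_comm (TT δ k) h, dot_comm (TT δ k) k]
  rfl

/-- the cross products that are not fields of `Frame` -/
lemma a03_cr {y h k : V3} (F : Frame y h k) : cr h y = -k ∧ cr k h = -y ∧ cr y k = -h := by
  refine ⟨?_, ?_, ?_⟩
  · rw [cr_anti, F.cyh]
  · rw [cr_anti, F.chk]
  · rw [cr_anti, F.cky]

/-- the scalar products of the frame in the other order -/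
lemma a03_dot {y h k : V3} (F : Frame y h k) : dot h y = 0 ∧ dot k y = 0 ∧ dot k h = 0 := by
  refine ⟨?_, ?_, ?_⟩
  · rw [dot_comm, F.yh]
  · rw [dot_comm, F.yk]
  · rw [dot_comm, F.hk]

/-- `T` in a frame -/
lemma a03_frameT {y h k : V3} (F : Frame y h k) (δ : ℝ) : ∃ p q r s t u : ℝ,
    TT δ y = p • y + q • h + r • k ∧ TT δ h = q • y + s • h + t • k ∧
    TT δ k = r • y + t • h + u • k ∧ p + s + u = 3 ∧ ty δ y = p :=
  ⟨_, _, _, _, _, _, a03_TT_y F δ, a03_TT_h F δ, a03_TT_k F δ, frame_trace F δ, rfl⟩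

lemma a03_pr {y h k : V3} (F : Frame y h k) (a b c : ℝ) :
    pr y (a • y + b • h + c • k) = b • h + c • k := by
  obtain ⟨d1, d2, d3⟩ := a03_dot F
  rw [pr]
  simp only [dot_add_left, dot_smul_left, d1, d2, F.yy]
  module

theorem tors {δ : ℝ} {y n1 n2 : V3} (hy : dot y y = 1) (h1 : dot n1 y = 0) (h2 : dot n2 y = 0) :
    LL δ y (cr (om δ y n1) n2 - cr (om δ y n2) n1) + dLL δ y (LL δ y n1) n2
      - dLL δ y (LL δ y n2) n1 = 0 := by
  obtain ⟨h, k, F⟩ := exists_frame hy
  obtain ⟨a, b, rfl⟩ : ∃ a b : ℝ, n1 = a • h + b • k := ⟨_, _, perp_expand F h1⟩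
  obtain ⟨c, d, rfl⟩ : ∃ c d : ℝ, n2 = c • h + d • k := ⟨_, _, perp_expand F h2⟩
  obtain ⟨p, q, r, s, t, u, eTy, eTh, eTk, etr, ep⟩ := a03_frameT F δ
  obtain ⟨c1, c2, c3⟩ := a03_cr F
  obtain ⟨d1, d2, d3⟩ := a03_dot F
  have eu : u = 3 - p - s := by linarith
  have eLy : LL δ y y = 0 := by
    rw [LL, cr_self, TT_zero, pr, dot_zero_left]
    module
  have eLh : LL δ y h = (-t) • h + (-u) • k := by
    rw [LL, c1, TT_neg, eTk]
    have e : -(r • y + t • h + u • k) = (-r) • y + (-t) • h + (-u) • k := by module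
    rw [e, a03_pr F]
  have eLk : LL δ y k = s • h + t • k := by
    rw [LL, F.cky, eTh, a03_pr F]
  have eoh : om δ y h = (-q) • y + u • h + (-t) • k := by
    rw [om, eTh, ep, eu]
    module
  have eok : om δ y k = (-r) • y + (-t) • h + s • k := by
    rw [om, eTk, ep, eu]
    module
  have eL : ∀ α β : ℝ, LL δ y (α • h + β • k) = (-(α * t) + β * s) • h + (-(α * u) + β * t) • k := by
    intro α β
    rw [LL_add, LL_smul, LL_smul, eLh, eLk]
    module
  have eo : ∀ α β : ℝ, om δ y (α • h + β • k) =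
      (-(α * q) - β * r) • y + (α * u - β * t) • h + (-(α * t) + β * s) • k := by
    intro α β
    rw [om_add, om_smul, om_smul, eoh, eok]
    module
  have edL : ∀ α β γ ε : ℝ, dLL δ y (α • h + β • k) (γ • h + ε • k) =
      (-((-(γ * t) + ε * s) * α) - (-(γ * u) + ε * t) * β) • y +
      (-((-(γ * r) + ε * q) * α) + (γ * β - ε * α) * q) • h +
      (-((-(γ * r) + ε * q) * β) + (γ * β - ε * α) * r) • k := by
    intro α β γ ε
    have e1 : cr (γ • h + ε • k) y = ε • h + (-γ) • k := by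
      simp only [cr_add_left, cr_smul_left, c1, F.cky]
      module
    have e2 : cr (γ • h + ε • k) (α • h + β • k) = (γ * β - ε * α) • y := by
      simp only [cr_add_left, cr_smul_left, cr_add_right, cr_smul_right, c2, F.chk, cr_self]
      module
    have e3 : TT δ (ε • h + (-γ) • k) =
        (-(γ * r) + ε * q) • y + (-(γ * t) + ε * s) • h + (-(γ * u) + ε * t) • k := by
      rw [TT_add, TT_smul, TT_smul, eTh, eTk]
      module
    have e4 : TT δ ((γ * β - ε * α) • y) = ((γ * β - ε * α) * p) • y +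
        ((γ * β - ε * α) * q) • h + ((γ * β - ε * α) * r) • k := by
      rw [TT_smul, eTy]
      module
    rw [dLL, e1, e2, e3, e4, a03_pr F, dpr]
    simp only [dot_add_left, dot_smul_left, dot_add_right, dot_smul_right, d1, d2, d3, F.yy, F.hh,
      F.kk, F.yh, F.yk, F.hk]
    module
  rw [eL, eL, edL, edL, eo, eo, a03_LL_sub]
  have e5 : cr ((-(a * q) - b * r) • y + (a * u - b * t) • h + (-(a * t) + b * s) • k)
      (c • h + d • k) = ((a * u - b * t) * d - (-(a * t) + b * s) * c) • y +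
        ((-(a * q) - b * r) * (-d)) • h + ((-(a * q) - b * r) * c) • k := by
    simp only [cr_add_left, cr_smul_left, cr_add_right, cr_smul_right, c2, c3, F.chk, F.cyh, cr_self]
    module
  have e6 : cr ((-(c * q) - d * r) • y + (c * u - d * t) • h + (-(c * t) + d * s) • k)
      (a • h + b • k) = ((c * u - d * t) * b - (-(c * t) + d * s) * a) • y +
        ((-(c * q) - d * r) * (-b)) • h + ((-(c * q) - d * r) * a) • k := by
    simp only [cr_add_left, cr_smul_left, cr_add_right, cr_smul_right, c2, c3, F.chk, F.cyh, cr_self]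
    module
  rw [e5, e6]
  simp only [LL_add, LL_smul, eLy, eLh, eLk]
  module

theorem tors_y {δ : ℝ} {y n1 n2 : V3} (hy : dot y y = 1) (h1 : dot n1 y = 0)
    (h2 : dot n2 y = 0) :
    dot (cr (om δ y n1) n2 - cr (om δ y n2) n1) y
      = dot n1 (LL δ y n2) - dot n2 (LL δ y n1) := by
  obtain ⟨h, k, F⟩ := exists_frame hy
  obtain ⟨a, b, rfl⟩ : ∃ a b : ℝ, n1 = a • h + b • k := ⟨_, _, perp_expand F h1⟩
  obtain ⟨c, d, rfl⟩ : ∃ c d : ℝ, n2 = c • h + d • k := ⟨_, _, perp_expand F h2⟩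
  obtain ⟨p, q, r, s, t, u, eTy, eTh, eTk, etr, ep⟩ := a03_frameT F δ
  obtain ⟨c1, c2, c3⟩ := a03_cr F
  obtain ⟨d1, d2, d3⟩ := a03_dot F
  have eu : u = 3 - p - s := by linarith
  have eLh : LL δ y h = (-t) • h + (-u) • k := by
    rw [LL, c1, TT_neg, eTk]
    have e : -(r • y + t • h + u • k) = (-r) • y + (-t) • h + (-u) • k := by module
    rw [e, a03_pr F]
  have eLk : LL δ y k = s • h + t • k := by
    rw [LL, F.cky, eTh, a03_pr F]
  have eoh : om δ y h = (-q) • y + u • h + (-t) • k := by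
    rw [om, eTh, ep, eu]
    module
  have eok : om δ y k = (-r) • y + (-t) • h + s • k := by
    rw [om, eTk, ep, eu]
    module
  simp only [om_add, om_smul, LL_add, LL_smul, eoh, eok, eLh, eLk, cr_add_left, cr_smul_left,
    cr_add_right, cr_smul_right, c1, c2, c3, F.chk, F.cyh, F.cky, cr_self, dot_add_left,
    dot_smul_left, dot_add_right, dot_smul_right, dot_sub_left, dot_neg_left, dot_zero_left,
    d1, d2, d3, F.yy, F.hh, F.kk, F.yh, F.yk, F.hk, smul_zero, smul_neg]
  ring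

end

end MP_1b4d75_gt
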