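import Pool.Agent.Lib.MP_1b4d75_gt.A01

/-!
# MP_1b4d75_gt, module A04

Curvature of the base connection (F3).
-/

open scoped Quaternion Topology
open Filter

namespace MP_1b4d75_gt

noncomputable section

/-- the expression for the frame vectors -/
theorem a04_frame {δ : ℝ} {y h k : V3} (F : Frame y h k) :
    dom δ y (LL δ y h) k - dom δ y (LL δ y k) h
      + om δ y (cr (om δ y h) k - cr (om δ y k) h) - cr (om δ y h) (om δ y k)
      = KK δ y • y := by
  have tr := frame_trace F δ
  have tr2 := frame_trace2 F δ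
  obtain ⟨p1, p2, p3, p4, p5, p6, q1, q2, q3⟩ := F
  have F : Frame y h k := ⟨p1, p2, p3, p4, p5, p6, q1, q2, q3⟩
  have eTy := frame_expand F (TT δ y)
  have eTh := frame_expand F (TT δ h)
  have eTk := frame_expand F (TT δ k)
  have s1 : dot (TT δ h) y = dot (TT δ y) h := by rw [TT_symm, dot_comm]
  have s2 : dot (TT δ k) y = dot (TT δ y) k := by rw [TT_symm, dot_comm]
  have s3 : dot (TT δ k) h = dot (TT δ h) k := by rw [TT_symm, dot_comm]
  have t1 : ty δ y = dot (TT δ y) y := by rw [ty, dot_comm]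
  have t2 : ty δ h = dot (TT δ h) h := by rw [ty, dot_comm]
  have t3 : ty δ k = dot (TT δ k) k := by rw [ty, dot_comm]
  rw [s1] at eTh
  rw [s2, s3] at eTk
  have hK : KK δ y = 6 + 5 * δ ^ 2 - 6 * dot (TT δ y) y + 3 * dot (TT δ y) y ^ 2
      - 2 * dot (TT δ y) (TT δ y) := by rw [KK, t1]
  rw [t1, t2, t3] at tr
  rw [frame_dot F (TT δ y) (TT δ y), frame_dot F (TT δ h) (TT δ h),
    frame_dot F (TT δ k) (TT δ k), s1, s2, s3] at tr2
  rw [frame_dot F (TT δ y) (TT δ y)] at hK
  have g1 : cr y h = k := q1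
  have g2 : cr h k = y := q2
  have g3 : cr k y = h := q3
  have g4 : cr h y = -k := by rw [cr_anti, q1]
  have g5 : cr k h = -y := by rw [cr_anti, q2]
  have g6 : cr y k = -h := by rw [cr_anti, q3]
  have r1 : dot h y = 0 := by rw [dot_comm]; exact p4
  have r2 : dot k y = 0 := by rw [dot_comm]; exact p5
  have r3 : dot k h = 0 := by rw [dot_comm]; exact p6
  generalize dot (TT δ y) y = Tyy at *
  generalize dot (TT δ y) h = Tyh at *
  generalize dot (TT δ y) k = Tyk at *
  generalize dot (TT δ h) h = Thh at *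
  generalize dot (TT δ h) k = Thk at *
  generalize dot (TT δ k) k = Tkk at *
  have hh : om δ y h = (-Tyh) • y + Tkk • h + (-Thk) • k := by
    rw [om, t1, eTh]
    have : (3 : ℝ) - Tyy = Thh + Tkk := by linarith
    rw [this]
    module
  have hk : om δ y k = (-Tyk) • y + (-Thk) • h + Thh • k := by
    rw [om, t1, eTk]
    have : (3 : ℝ) - Tyy = Thh + Tkk := by linarith
    rw [this]
    module
  have Lh : LL δ y h = (-Thk) • h + (-Tkk) • k := by
    rw [LL, g4, TT_neg, eTk, pr]
    simp only [dot_neg_left, dot_add_left, dot_smul_left, p1, r1, r2]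
    module
  have Lk : LL δ y k = Thh • h + Thk • k := by
    rw [LL, g3, eTh, pr]
    simp only [dot_add_left, dot_smul_left, p1, r1, r2]
    module
  have X : cr (om δ y h) k - cr (om δ y k) h = (Thh + Tkk) • y + Tyh • h + Tyk • k := by
    rw [hh, hk]
    simp only [cr_add_left, cr_smul_left, cr_self, g1, g2, g5, g6]
    module
  have d1 : dty δ y (LL δ y h) = -2 * (Tkk * Tyk + Thk * Tyh) := by
    rw [dty, Lh, eTy]
    simp only [dot_add_left, dot_add_right, dot_smul_left, dot_smul_right, p2, p3, p6, r1, r2, r3]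
    ring
  have d2 : dty δ y (LL δ y k) = 2 * (Thh * Tyh + Thk * Tyk) := by
    rw [dty, Lk, eTy]
    simp only [dot_add_left, dot_add_right, dot_smul_left, dot_smul_right, p2, p3, p6, r1, r2, r3]
    ring
  have oX : om δ y ((Thh + Tkk) • y + Tyh • h + Tyk • k) =
      (Thh + Tkk) • ((Thh + Tkk) • y + Tyh • h + Tyk • k) -
      ((Thh + Tkk) • (Tyy • y + Tyh • h + Tyk • k) + Tyh • (Tyh • y + Thh • h + Thk • k)
        + Tyk • (Tyk • y + Thk • h + Tkk • k)) := by
    rw [om, t1, TT_add, TT_add, TT_smul, TT_smul, TT_smul, ← eTy, ← eTh, ← eTk]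
    have : (3 : ℝ) - Tyy = Thh + Tkk := by linarith
    rw [this]
  have hKK : KK δ y = (Thh + Tkk) ^ 2 - Tyy * (Thh + Tkk) - Tyh ^ 2 - Tyk ^ 2 - Thh * Tkk
      + Thk ^ 2 := by
    rw [hK]
    have e3 : (3 : ℝ) = Tyy + Thh + Tkk := tr.symm
    linear_combination (-1 / 2 : ℝ) * tr2 + (-2 * Tyy + (3 + Tyy + Thh + Tkk) / 2) * (e3)
  rw [X, dom, dom, d1, d2, oX, hh, hk, hKK]
  simp only [cr_add_left, cr_smul_left, cr_add_right, cr_smul_right, cr_self, g1, g2, g3, g4, g5,
    g6]
  module

theorem curv_om {δ : ℝ} {y n1 n2 : V3} (hy : dot y y = 1) (h1 : dot n1 y = 0)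
    (h2 : dot n2 y = 0) :
    dom δ y (LL δ y n1) n2 - dom δ y (LL δ y n2) n1
      + om δ y (cr (om δ y n1) n2 - cr (om δ y n2) n1) - cr (om δ y n1) (om δ y n2)
      = (KK δ y * det3 y n1 n2) • y := by
  obtain ⟨h, k, F⟩ := exists_frame hy
  have E := a04_frame (δ := δ) F
  have e1 := perp_expand F h1
  have e2 := perp_expand F h2
  generalize dot n1 h = a at e1
  generalize dot n1 k = b at e1
  generalize dot n2 h = c at e2
  generalize dot n2 k = d at e2
  subst e1 e2
  have hdet : det3 y (a • h + b • k) (c • h + d • k) = a * d - b * c := by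
    rw [det3]
    simp only [cr_add_left, cr_smul_left, cr_add_right, cr_smul_right, cr_self, F.chk,
      cr_anti k h, dot_add_right, dot_smul_right, dot_neg_right, dot_zero_right, F.yy]
    ring
  have oms : ∀ u v, om δ y (u - v) = om δ y u - om δ y v := by
    intro u v
    have := om_add δ y (u - v) v
    rw [sub_add_cancel] at this
    rw [this, add_sub_cancel_right]
  have hX : cr (om δ y (a • h + b • k)) (c • h + d • k)
      - cr (om δ y (c • h + d • k)) (a • h + b • k)
      = (a * d - b * c) • (cr (om δ y h) k - cr (om δ y k) h) := by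
    simp only [om_add, om_smul, cr_add_left, cr_smul_left, cr_add_right, cr_smul_right]
    module
  have hO : cr (om δ y (a • h + b • k)) (om δ y (c • h + d • k))
      = (a * d - b * c) • cr (om δ y h) (om δ y k) := by
    simp only [om_add, om_smul, cr_add_left, cr_smul_left, cr_add_right, cr_smul_right, cr_self,
      cr_anti (om δ y k) (om δ y h)]
    module
  have hD : dom δ y (LL δ y (a • h + b • k)) (c • h + d • k)
      - dom δ y (LL δ y (c • h + d • k)) (a • h + b • k)
      = (a * d - b * c) • (dom δ y (LL δ y h) k - dom δ y (LL δ y k) h) := by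
    simp only [dom, dty, LL_add, LL_smul, dot_add_left, dot_smul_left]
    module
  rw [hX, hO, hD, hdet, om_smul, mul_comm (KK δ y), mul_smul, ← E]
  module

end

end MP_1b4d75_gt
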