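import Pool.Agent.Lib.MP_1b4d75_gt.A04
import Pool.Agent.Lib.MP_1b4d75_gt.A02

/-!
# MP_1b4d75_gt, module A05

Curvature of the connection `aa` (F4): `da + a ∧ a = w W`.

aa = σ n - om.  Use curv_om: (d aa)(1,2) = dσ(v1) n2 - dσ(v2) n1 + σ (X) - [dom..., om X], X = om1 x n2 - om2 x n1,
and aa1 x aa2 = σ^2 n1 x n2 - σ (n1 x om2 + om1 x n2) + om1 x om2, n1 x n2 = w y; so the sum is
-(K - σ^2) w y + dσ(v1) n2 - dσ(v2) n1, and dσ(v1) n2 - dσ(v2) n1 = - w grad σ (gs): in a frame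
n1 = h, n2 = k: v1 = LL h etc.: dσ(LL n) = δ^3 (LL n)_3 = δ^3 <e3, pr T (n x y)> = <gs, n x y>.
Here cr y-identities: dot v e3 = v 2.
-/

open scoped Quaternion Topology
open Filter

namespace MP_1b4d75_gt

noncomputable section

lemma A05_cr {y n1 n2 : V3} (hy : dot y y = 1) (h1 : dot n1 y = 0) (h2 : dot n2 y = 0) :
    cr n1 n2 = det3 y n1 n2 • y := by
  have e1 := cr_cr_left y (cr n1 n2) y
  rw [cr_cr_right y n1 n2, dot_comm y n2, dot_comm y n1, h1, h2, hy] at e1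
  rw [dot_comm (cr n1 n2) y] at e1
  simp only [zero_smul, sub_zero, cr_zero_left, one_smul] at e1
  exact (sub_eq_zero.1 e1.symm)

lemma A05_LL2 (δ : ℝ) (y n : V3) :
    (LL δ y n) 2 = dot n (cr y (TT δ (pr y e3))) := by
  have e1 : (LL δ y n) 2 = dot (LL δ y n) e3 := by simp [dot, e3]
  rw [e1, LL, pr_symm, TT_symm, dot_cr_swap]

theorem curv_aa {δ : ℝ} {y n1 n2 : V3} (hy : dot y y = 1) (h1 : dot n1 y = 0)
    (h2 : dot n2 y = 0) :
    daa δ y (LL δ y n1) n2 - daa δ y (LL δ y n2) n1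
      + aa δ y (cr (om δ y n1) n2 - cr (om δ y n2) n1) + cr (aa δ y n1) (aa δ y n2)
      = det3 y n1 n2 • WW δ y := by
  have hc := curv_om (δ := δ) hy h1 h2
  have hcr := A05_cr hy h1 h2
  -- the gradient part
  have hg : (LL δ y n1) 2 • n2 - (LL δ y n2) 2 • n1
      = -(det3 y n1 n2 • pr y (TT δ (pr y e3))) := by
    rw [A05_LL2, A05_LL2]
    set u := TT δ (pr y e3) with hu
    have e1 := cr_cr_right (cr y u) n2 n1
    have e2 : cr n2 n1 = -(det3 y n1 n2 • y) := by rw [cr_anti, hcr]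
    rw [e2, cr_neg_right, cr_smul_right, cr_cr_left y u y, hy, one_smul] at e1
    rw [dot_comm n1, dot_comm n2, ← e1, pr]
  have e1 : daa δ y (LL δ y n1) n2 - daa δ y (LL δ y n2) n1
      + aa δ y (cr (om δ y n1) n2 - cr (om δ y n2) n1) + cr (aa δ y n1) (aa δ y n2)
      = δ ^ 3 • ((LL δ y n1) 2 • n2 - (LL δ y n2) 2 • n1)
        - (dom δ y (LL δ y n1) n2 - dom δ y (LL δ y n2) n1
      + om δ y (cr (om δ y n1) n2 - cr (om δ y n2) n1) - cr (om δ y n1) (om δ y n2))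
        + (sg δ y ^ 2) • cr n1 n2 := by
    simp only [aa, daa, dom, cr_sub_left, cr_sub_right, cr_smul_left, cr_smul_right]
    rw [cr_anti n1 (om δ y n2)]
    module
  rw [e1, hc, hg, hcr, WW, gs]
  module

end

end MP_1b4d75_gt
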