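import Pool.Agent.Lib.MP_1b4d75_gt.Bund

/-!
# MP_1b4d75_gt, module A06

The gradient vector `gr`.

gr = pr y g0 with g0 the vector below.  gr0_dot is an exact identity for ALL y, n, p, p' (no constraint):
<p,dPP(LL n)p'> = (1/4)<LL n, u1>, u1 = <z,p'>p + <z,p>p', <pr T(n x y), u1> = <n, y x T pr u1> (pr_symm,
TT_symm, dot_cr_cyc); <p, a x Pp'> - <p,P(a x p')> = <a, Pp' x p + Pp x p'>, a = (σ-3+ty) n + T n.
-/

open scoped Quaternion Topology
open Filter

namespace MP_1b4d75_gt

noncomputable section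

/-- the vector before projection -/
def gr0 (δ : ℝ) (y p p' : V3) : V3 :=
  (1 / 4 : ℝ) • cr y (TT δ (pr y (dot (zz δ y) p' • p + dot (zz δ y) p • p')))
    + (sg δ y - 3 + ty δ y) • (cr (PP δ y p') p + cr (PP δ y p) p')
    + TT δ (cr (PP δ y p') p + cr (PP δ y p) p')

theorem gr_eq (δ : ℝ) (y p p' : V3) : gr δ y p p' = pr y (gr0 δ y p p') := rfl

theorem gr0_dot (δ : ℝ) (y n p p' : V3) : dot n (gr0 δ y p p') = dot p (DP δ y n p') := by
  set U : V3 := dot (zz δ y) p' • p + dot (zz δ y) p • p' with hU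
  set V : V3 := cr (PP δ y p') p + cr (PP δ y p) p' with hV
  have e1 : dot n (gr0 δ y p p') = (1 / 4) * dot n (cr y (TT δ (pr y U))) +
      (sg δ y - 3 + ty δ y) * dot n V + dot n (TT δ V) := by
    unfold gr0
    rw [← hU, ← hV, dot_add_right, dot_add_right, dot_smul_right, dot_smul_right]
  have e2 : dot p (dPP δ y (LL δ y n) p') = (1 / 4) * dot (LL δ y n) U := by
    unfold dPP
    rw [hU, dot_smul_right, dot_add_right, dot_add_right, dot_smul_right, dot_smul_right,
      dot_smul_right, dot_smul_right, dot_comm p (zz δ y), dot_comm p (LL δ y n)]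
    ring
  have e3 : dot (LL δ y n) U = dot n (cr y (TT δ (pr y U))) := by
    unfold LL
    rw [pr_symm, TT_symm, dot_cr_swap]
  have e4 : dot p (cr (aa δ y n) (PP δ y p')) = dot (aa δ y n) (cr (PP δ y p') p) := by
    rw [dot_cr_cyc]
  have e5 : dot p (PP δ y (cr (aa δ y n) p')) = -dot (aa δ y n) (cr (PP δ y p) p') := by
    rw [← PP_symm, dot_cr_cyc, cr_anti p', dot_neg_right]
  have e6 : dot (aa δ y n) V = (sg δ y - 3 + ty δ y) * dot n V + dot n (TT δ V) := by
    unfold aa om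
    rw [dot_sub_left, dot_sub_left, dot_smul_left, dot_smul_left, TT_symm]
    ring
  have e8 : dot p (DP δ y n p') = dot p (dPP δ y (LL δ y n) p') +
      dot p (cr (aa δ y n) (PP δ y p')) - dot p (PP δ y (cr (aa δ y n) p')) := by
    unfold DP
    rw [dot_sub_right, dot_add_right]
  rw [e1, ← e3, e8, e2, e4, e5]
  have e7 : dot (aa δ y n) V = dot (aa δ y n) (cr (PP δ y p') p) +
      dot (aa δ y n) (cr (PP δ y p) p') := by
    rw [hV, dot_add_right]
  rw [e6] at e7
  linarith

theorem gr_dot' (δ : ℝ) (y n p p' : V3) :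
    dot n (gr δ y p p') = dot p (DP δ y n p') - dot n y * dot (gr0 δ y p p') y := by
  rw [gr_eq, pr, dot_sub_right, gr0_dot, dot_smul_right]
  ring

theorem gr_dot {δ : ℝ} {y n : V3} (hn : dot n y = 0) (p p' : V3) :
    dot n (gr δ y p p') = dot p (DP δ y n p') := by
  rw [gr_dot', hn, zero_mul, sub_zero]

theorem gr_perp (δ : ℝ) {y : V3} (hy : dot y y = 1) (p p' : V3) : dot (gr δ y p p') y = 0 := by
  rw [gr_eq, dot_pr hy]

end

end MP_1b4d75_gt
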