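import Pool.Agent.Lib.MP_1b4d75_gt.Bund

/-!
# MP_1b4d75_gt, module A07

The inverse `QQ` of the fibre cometric.

CC_pos: dot p (PP p) = dot(z,p)^2/4 + (δ^4/320) dot p (qq p) and |dot p (qq p)| ≤ dot p p.  So CCL is injective
for t > 1, hence invertible (finite dimension): ContinuousLinearMap.inverse of an equivalence.
QQ_smooth: QQ = inverse ∘ CCL, contDiffAt_map_inverse, CCL polynomial in y (contDiff_clm_apply_iff);
QQ_smooth_t the same jointly in (t,y) is not needed, only continuity in y and the derivative in t (module P01).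
-/

open scoped Quaternion Topology
open Filter

namespace MP_1b4d75_gt

noncomputable section

theorem CC_pos {δ t : ℝ} (hδ : |δ| ≤ 1) (y p : V3) :
    (t - 1) * dot p p ≤ dot p (CC δ t y p) := by
  have h4 : δ ^ 4 ≤ 1 := by
    have h2 : δ ^ 2 ≤ 1 := (sq_le_one_iff_abs_le_one δ).2 hδ
    nlinarith [sq_nonneg δ]
  have h40 : 0 ≤ δ ^ 4 := by positivity
  have e : dot p (CC δ t y p) = t * dot p p + (dot (zz δ y) p) ^ 2 / 4 +
      δ ^ 4 / 320 * (2 * p 0 * p 2 - p 1 ^ 2) := by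
    unfold CC PP
    rw [dot_add_right, dot_add_right, dot_smul_right, dot_smul_right, dot_smul_right,
      dot_comm p (zz δ y)]
    have : dot p (qq p) = 2 * p 0 * p 2 - p 1 ^ 2 := by
      simp [dot, qq]; ring
    rw [this]; ring
  have hpp : dot p p = p 0 ^ 2 + p 1 ^ 2 + p 2 ^ 2 := by simp [dot]; ring
  have hq : -(p 0 ^ 2 + p 1 ^ 2 + p 2 ^ 2) ≤ 2 * p 0 * p 2 - p 1 ^ 2 := by
    nlinarith [sq_nonneg (p 0 + p 2)]
  have hS : 0 ≤ p 0 ^ 2 + p 1 ^ 2 + p 2 ^ 2 := by positivity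
  have h5 : -(p 0 ^ 2 + p 1 ^ 2 + p 2 ^ 2) ≤ δ ^ 4 / 320 * (2 * p 0 * p 2 - p 1 ^ 2) := by
    have h6 := mul_le_mul_of_nonneg_left hq (by positivity : 0 ≤ δ ^ 4 / 320)
    have h7 : δ ^ 4 / 320 * (p 0 ^ 2 + p 1 ^ 2 + p 2 ^ 2) ≤
        1 * (p 0 ^ 2 + p 1 ^ 2 + p 2 ^ 2) :=
      mul_le_mul_of_nonneg_right (by linarith) hS
    linarith
  rw [e, hpp]
  have h8 : 0 ≤ (dot (zz δ y) p) ^ 2 / 4 := by positivity
  linarith

theorem A07_dot_pos {p : V3} (h : dot p p ≤ 0) : p = 0 := by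
  have hpp : dot p p = p 0 ^ 2 + p 1 ^ 2 + p 2 ^ 2 := by simp [dot]; ring
  rw [hpp] at h
  have h0 : p 0 = 0 := by nlinarith [sq_nonneg (p 0), sq_nonneg (p 1), sq_nonneg (p 2)]
  have h1 : p 1 = 0 := by nlinarith [sq_nonneg (p 0), sq_nonneg (p 1), sq_nonneg (p 2)]
  have h2 : p 2 = 0 := by nlinarith [sq_nonneg (p 0), sq_nonneg (p 1), sq_nonneg (p 2)]
  apply ext3
  · rw [h0]; rfl
  · rw [h1]; rfl
  · rw [h2]; rfl

theorem A07_inj {δ t : ℝ} (hδ : |δ| ≤ 1) (ht : 1 < t) (y : V3) :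
    Function.Injective (CCL δ t y) := by
  rw [injective_iff_map_eq_zero]
  intro p hp
  have h1 := CC_pos (t := t) hδ y p
  have h2 : CC δ t y p = 0 := hp
  rw [h2, dot_zero_right] at h1
  apply A07_dot_pos
  by_contra hc
  push Not at hc
  nlinarith

theorem A07_equiv {δ t : ℝ} (hδ : |δ| ≤ 1) (ht : 1 < t) (y : V3) :
    ∃ e : V3 ≃L[ℝ] V3, (e : V3 →L[ℝ] V3) = CCL δ t y := by
  refine ⟨(LinearEquiv.ofInjectiveEndo (CCL δ t y : V3 →ₗ[ℝ] V3)
    (A07_inj hδ ht y)).toContinuousLinearEquiv, ?_⟩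
  ext1 v
  rfl

theorem CC_QQ {δ t : ℝ} (hδ : |δ| ≤ 1) (ht : 1 < t) (y v : V3) :
    CC δ t y (QQ δ t y v) = v := by
  obtain ⟨e, he⟩ := A07_equiv hδ ht y
  have h1 : QQ δ t y = (e.symm : V3 →L[ℝ] V3) := by
    unfold QQ
    rw [← he, ContinuousLinearMap.inverse_equiv]
  have h2 : ∀ w, CC δ t y w = e w := by
    intro w
    have := congrArg (fun f : V3 →L[ℝ] V3 => f w) he
    exact this.symm
  rw [h1, h2]
  exact e.apply_symm_apply v

theorem QQ_CC {δ t : ℝ} (hδ : |δ| ≤ 1) (ht : 1 < t) (y v : V3) :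
    QQ δ t y (CC δ t y v) = v := by
  apply A07_inj hδ ht y
  exact CC_QQ hδ ht y (CC δ t y v)

theorem QQ_symm {δ t : ℝ} (hδ : |δ| ≤ 1) (ht : 1 < t) (y a b : V3) :
    dot (QQ δ t y a) b = dot a (QQ δ t y b) := by
  have h1 := CC_symm δ t y (QQ δ t y a) (QQ δ t y b)
  rw [CC_QQ hδ ht, CC_QQ hδ ht] at h1
  exact h1.symm

theorem QQ_nonneg {δ t : ℝ} (hδ : |δ| ≤ 1) (ht : 1 < t) (y v : V3) :
    0 ≤ dot v (QQ δ t y v) := by
  have h1 := CC_pos (t := t) hδ y (QQ δ t y v)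
  rw [CC_QQ hδ ht, dot_comm (QQ δ t y v) v] at h1
  refine le_trans ?_ h1
  apply mul_nonneg (by linarith)
  simp only [dot]
  nlinarith [sq_nonneg (QQ δ t y v 0), sq_nonneg (QQ δ t y v 1), sq_nonneg (QQ δ t y v 2)]

/-- `⟨v,Qv⟩ ≤ |v|²/(t-1)` -/
theorem QQ_le {δ t : ℝ} (hδ : |δ| ≤ 1) (ht : 1 < t) (y v : V3) :
    dot v (QQ δ t y v) ≤ dot v v / (t - 1) := by
  have h1 := CC_pos (t := t) hδ y (QQ δ t y v)
  rw [CC_QQ hδ ht, dot_comm (QQ δ t y v) v] at h1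
  set w := QQ δ t y v with hw
  have ht' : 0 < t - 1 := by linarith
  have hcs : (dot v w) ^ 2 ≤ dot v v * dot w w := by
    simp only [dot]
    nlinarith [sq_nonneg (v 0 * w 1 - v 1 * w 0), sq_nonneg (v 0 * w 2 - v 2 * w 0),
      sq_nonneg (v 1 * w 2 - v 2 * w 1)]
  have h0 : 0 ≤ dot v w := QQ_nonneg hδ ht y v
  have hvv : 0 ≤ dot v v := by
    simp only [dot]
    nlinarith [sq_nonneg (v 0), sq_nonneg (v 1), sq_nonneg (v 2)]
  rw [le_div_iff₀ ht']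
  rcases h0.eq_or_lt with h | h
  · rw [← h, zero_mul]; exact hvv
  · have h2 : (t - 1) * (dot v w) ^ 2 ≤ dot v v * dot v w := by
      calc (t - 1) * (dot v w) ^ 2 ≤ (t - 1) * (dot v v * dot w w) :=
            mul_le_mul_of_nonneg_left hcs ht'.le
        _ = dot v v * ((t - 1) * dot w w) := by ring
        _ ≤ dot v v * dot v w := mul_le_mul_of_nonneg_left h1 hvv
    have h3 : dot v w * (dot v w * (t - 1)) ≤ dot v w * dot v v := by
      linarith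
    exact le_of_mul_le_mul_left h3 h

theorem A07_CCL_smooth (δ t : ℝ) : ContDiff ℝ 3 (CCL δ t) := by
  rw [contDiff_clm_apply_iff]
  intro p
  have : (fun y => CCL δ t y p) = fun y => CC δ t y p := rfl
  rw [this, contDiff_euclidean]
  intro i
  fin_cases i <;>
  · simp only [CC, PP, dot, qq, zz, e3]
    simp
    fun_prop

theorem QQ_smooth {δ t : ℝ} (hδ : |δ| ≤ 1) (ht : 1 < t) : ContDiff ℝ 3 (QQ δ t) := by
  rw [contDiff_iff_contDiffAt]
  intro y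
  obtain ⟨e, he⟩ := A07_equiv hδ ht y
  have h1 : ContDiffAt ℝ 3 ContinuousLinearMap.inverse (e : V3 →L[ℝ] V3) :=
    contDiffAt_map_inverse e
  rw [he] at h1
  exact ContDiffAt.comp y h1 (A07_CCL_smooth δ t).contDiffAt

end

end MP_1b4d75_gt
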