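import Pool.Agent.Lib.MP_1b4d75_gt.A06
import Pool.Agent.Lib.MP_1b4d75_gt.A07

/-!
# MP_1b4d75_gt, module A08

Metric compatibility of the connection forms.

O0_met: exact algebra for all vectors: horizontal part dot_rot; vertical part: CC = t + PP, dPP = DP - [a,P],
dot_rot (aa δ y X1.1).
BB_met: horizontal pairing: <H(X1,X2),n3> + <n2,H(X1,X3)>: the two terms with y x n2, y x n3 cancel
(dot (cr y n2) n3 antisymmetric), remain (1/2)<W,p2> det3 y n1 n3.. and gr_dot; vertical pairing: CC (QQ Z) = Z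
with CC_symm; the Z-terms: -det3*W terms cancel against the horizontal ones, DP-terms combine by DP_symm, the
cross products cancel (dot_cr_cyc).
-/

open scoped Quaternion Topology
open Filter

namespace MP_1b4d75_gt

noncomputable section

theorem O0_met (δ t : ℝ) (y : V3) (X a b : FF) :
    dot a.2 (dPP δ y (LL δ y X.1) b.2)
      = SS δ t y (O0 δ y X a) b + SS δ t y a (O0 δ y X b) + dot a.2 (DP δ y X.1 b.2) := by
  simp only [SS, O0, DP, CC, dot_neg_left, dot_neg_right, dot_add_right, dot_sub_right,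
    dot_smul_right]
  have h1 := dot_rot (om δ y X.1) a.1 b.1
  have h2 := dot_rot (aa δ y X.1) a.2 b.2
  have h3 := dot_rot (aa δ y X.1) a.2 (PP δ y b.2)
  linear_combination h1 - t * h2 - h3

theorem BB_met {δ t : ℝ} (hδ : |δ| ≤ 1) (ht : 1 < t) {y : V3} (X a b : FF)
    (ha : dot a.1 y = 0) (hb : dot b.1 y = 0) :
    SS δ t y (BB δ t y X a) b + SS δ t y a (BB δ t y X b) = dot a.2 (DP δ y X.1 b.2) := by
  have q1 : dot (QQ δ t y (Zt δ t y X a)) (CC δ t y b.2) = dot (Zt δ t y X a) b.2 := by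
    rw [← CC_symm, CC_QQ hδ ht]
  have q2 : dot a.2 (CC δ t y (QQ δ t y (Zt δ t y X b))) = dot a.2 (Zt δ t y X b) := by
    rw [CC_QQ hδ ht]
  have g1 : dot (gr δ y X.2 a.2) b.1 = dot X.2 (DP δ y b.1 a.2) := by
    rw [dot_comm, gr_dot hb]
  have g2 : dot a.1 (gr δ y X.2 b.2) = dot X.2 (DP δ y a.1 b.2) := gr_dot ha _ _
  simp only [SS, BB, Hh, Sg, dot_add_left, dot_add_right, dot_smul_left, dot_smul_right, CC_add,
    CC_smul, q1, q2, g1, g2]
  simp only [Zt, dot_sub_left, dot_sub_right, dot_smul_left, dot_smul_right]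
  have e1 := dot_rot y a.1 b.1
  have e2 : det3 y X.1 a.1 = dot a.1 (cr y X.1) := by simp [cr, dot, det3]; ring
  have e3 : det3 y X.1 b.1 = dot (cr y X.1) b.1 := by simp [cr, dot, det3]; ring
  have e4 := DP_symm δ y X.1 a.2 b.2
  have e5 := DP_symm δ y b.1 X.2 a.2
  have e6 := DP_symm δ y a.1 X.2 b.2
  have e7 := dot_comm a.2 (DP δ y b.1 X.2)
  have e8 := dot_comm (WW δ y) a.2
  have e9 := dot_comm (WW δ y) b.2
  have c1 := CC_symm δ t y a.2 (cr b.2 (CC δ t y X.2))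
  have c2 := CC_symm δ t y a.2 (cr X.2 (CC δ t y b.2))
  generalize CC δ t y X.2 = Yx at *
  generalize CC δ t y a.2 = Ya at *
  generalize CC δ t y b.2 = Yb at *
  rw [← c1, ← c2, e2, e3]
  have f1 : dot (cr a.2 Yx) Yb = dot a.2 (cr Yx Yb) := dot_cr_swap _ _ _
  have f2 : dot (cr X.2 Ya) Yb + dot Ya (cr X.2 Yb) = 0 := dot_rot _ _ _
  have f3 : dot Ya (cr b.2 Yx) = dot (cr Yx Ya) b.2 := by simp [cr, dot, det3]; ring
  linear_combination e4 / 2 - e5 / 2 - e6 / 2 - e7 / 2 + dot (cr y X.1) b.1 / 2 * e8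
    + dot (WW δ y) X.2 / 2 * e1 + f1 / 2 + f2 / 2 + f3 / 2

theorem OO_met {δ t : ℝ} (hδ : |δ| ≤ 1) (ht : 1 < t) {y : V3} (X a b : FF)
    (ha : dot a.1 y = 0) (hb : dot b.1 y = 0) :
    dot a.2 (dPP δ y (LL δ y X.1) b.2)
      = SS δ t y (OO δ t y X a) b + SS δ t y a (OO δ t y X b) := by
  simp only [OO, (SS_bil δ t y).add_left, (SS_bil δ t y).add_right]
  have h1 := O0_met δ t y X a b
  have h2 := BB_met hδ ht X a b ha hb
  linarith

theorem SS_symm (δ t : ℝ) (y : V3) (a b : FF) : SS δ t y a b = SS δ t y b a := by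
  simp only [SS]
  rw [dot_comm a.1, ← CC_symm, dot_comm (CC δ t y a.2)]

end

end MP_1b4d75_gt
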