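import Pool.Agent.Lib.MP_1b4d75_gt.A06
import Pool.Agent.Lib.MP_1b4d75_gt.A07
import Pool.Agent.Lib.MP_1b4d75_gt.A02

/-!
# MP_1b4d75_gt, module A09

Torsion algebra of the connection forms.

BB_tors: Hh symmetric (gr_symm), Sg symmetric, Zt antisymmetric.  OO_tors1: only O0 contributes.
CC_OO_tors: CC linear, CC (QQ Z) = Z, CC (cr a p) = t cr a p + PP (cr a p), definition of DP and Zt.
-/

open scoped Quaternion Topology
open Filter

namespace MP_1b4d75_gt

noncomputable section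

theorem Zt_anti (δ t : ℝ) (y : V3) (X A : FF) : Zt δ t y A X = -Zt δ t y X A := by
  simp only [Zt]
  rw [det3_swap y A.1 X.1, cr_anti (CC δ t y A.2)]
  module

theorem a09_Hh_symm (δ : ℝ) (y : V3) (X A : FF) : Hh δ y A X = Hh δ y X A := by
  simp only [Hh]
  rw [gr_symm δ y A.2 X.2]
  abel

theorem BB_tors (δ t : ℝ) (y : V3) (X A : FF) :
    BB δ t y X A - BB δ t y A X = (0, QQ δ t y (Zt δ t y X A)) := by
  refine Prod.ext ?_ ?_
  · simp only [BB, Prod.fst_sub]
    rw [a09_Hh_symm δ y X A, sub_self]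
  · simp only [BB, Prod.snd_sub]
    rw [Zt_anti δ t y X A, Sg_symm δ t y A.2 X.2, map_neg]
    module

theorem OO_tors1 (δ t : ℝ) (y : V3) (X A : FF) :
    (OO δ t y X A - OO δ t y A X).1 = cr (om δ y A.1) X.1 - cr (om δ y X.1) A.1 := by
  simp only [OO, Prod.fst_sub, Prod.fst_add, O0, BB]
  rw [a09_Hh_symm δ y X A]
  abel

theorem CC_OO_tors {δ t : ℝ} (hδ : |δ| ≤ 1) (ht : 1 < t) (y : V3) (X A : FF) :
    CC δ t y (OO δ t y X A - OO δ t y A X).2
      = dPP δ y (LL δ y X.1) A.2 - dPP δ y (LL δ y A.1) X.2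
        + cr (aa δ y X.1) (CC δ t y A.2) - cr (aa δ y A.1) (CC δ t y X.2)
        - det3 y X.1 A.1 • WW δ y - cr (CC δ t y X.2) (CC δ t y A.2) := by
  have h1 : (OO δ t y X A - OO δ t y A X).2 =
      cr (aa δ y X.1) A.2 - cr (aa δ y A.1) X.2 + QQ δ t y (Zt δ t y X A) := by
    have h2 := congrArg Prod.snd (BB_tors δ t y X A)
    simp only [Prod.snd_sub] at h2
    rw [← h2]
    simp only [OO, Prod.snd_sub, Prod.snd_add, O0]
    abel
  rw [h1, CC_add, CC_sub, CC_QQ hδ ht, Zt]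
  simp only [DP]
  have e1 : CC δ t y (cr (aa δ y X.1) A.2) = t • cr (aa δ y X.1) A.2 +
      PP δ y (cr (aa δ y X.1) A.2) := rfl
  have e2 : CC δ t y (cr (aa δ y A.1) X.2) = t • cr (aa δ y A.1) X.2 +
      PP δ y (cr (aa δ y A.1) X.2) := rfl
  have e3 : cr (aa δ y X.1) (CC δ t y A.2) = t • cr (aa δ y X.1) A.2 +
      cr (aa δ y X.1) (PP δ y A.2) := by
    rw [CC, cr_add_right, cr_smul_right]
  have e4 : cr (aa δ y A.1) (CC δ t y X.2) = t • cr (aa δ y A.1) X.2 +
      cr (aa δ y A.1) (PP δ y X.2) := by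
    rw [CC, cr_add_right, cr_smul_right]
  rw [e1, e2, e3, e4]
  abel

/-- the horizontal part of the connection applied to horizontal arguments: `y`-component -/
theorem OO_fst_y {δ t : ℝ} {y : V3} (hy : dot y y = 1) (X A : FF) (hX : dot X.1 y = 0)
    (hA : dot A.1 y = 0) :
    dot (OO δ t y X A).1 y = dot (LL δ y X.1) A.1 := by
  rw [LL_eq hy hX]
  simp only [OO, Prod.fst_add, O0, BB, Hh, dot_add_left, dot_smul_left, dot_neg_left,
    gr_perp δ hy, dot_cr_left']
  have h1 := dot_rot (om δ y X.1) y A.1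
  have h2 := dot_comm y (cr (om δ y X.1) A.1)
  linear_combination h2 - h1

end

end MP_1b4d75_gt
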