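import Pool.Agent.Lib.MP_1b4d75_gt.Bund

/-!
# MP_1b4d75_gt, module A10

Maurer-Cartan identity for the left invariant form of `S³`.

For |z| = 1 and re(star z * ζ) = 0 put a = star z * ζ (imaginary quaternion, th z ζ = -2 im3 a), ζ = z * a.
star ζ1 * ζ2 = star a1 * star z * z * a2 = star a1 * a2 = - a1 a2; a1 a2 - a2 a1 = 2 a1 x a2.
th_surj: given w take ζ = z * (-(1/2) w).  th_left: star (q z) * (q ζ) = star z * ζ for |q| = 1.
-/

open scoped Quaternion Topology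
open Filter

namespace MP_1b4d75_gt

noncomputable section

lemma A10_comm {z : ℍ[ℝ]} (hz : star z * z = 1) : z * star z = 1 := by
  rw [Quaternion.self_mul_star, ← Quaternion.star_mul_self, hz]

theorem th_mc {z ζ1 ζ2 : ℍ[ℝ]} (hz : star z * z = 1) (h1 : (star z * ζ1).re = 0)
    (h2 : (star z * ζ2).re = 0) :
    th ζ1 ζ2 - th ζ2 ζ1 = cr (th z ζ1) (th z ζ2) := by
  have hz' := A10_comm hz
  have key : ∀ x y : ℍ[ℝ], star x * y = star (star z * x) * (star z * y) := by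
    intro x y
    rw [star_mul, star_star, mul_assoc, ← mul_assoc z (star z) y, hz', one_mul]
  unfold th
  rw [key ζ1 ζ2, key ζ2 ζ1]
  generalize star z * ζ1 = a at h1 ⊢
  generalize star z * ζ2 = b at h2 ⊢
  apply ext3 <;> simp [im3, cr, h1, h2] <;> ring

theorem th_surj {z : ℍ[ℝ]} (hz : star z * z = 1) (w : V3) :
    ∃ ζ : ℍ[ℝ], (star z * ζ).re = 0 ∧ th z ζ = w := by
  obtain ⟨q, q0, q1, q2, q3⟩ : ∃ q : ℍ[ℝ], q.re = 0 ∧ q.imI = -(1 / 2) * w 0 ∧
      q.imJ = -(1 / 2) * w 1 ∧ q.imK = -(1 / 2) * w 2 :=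
    ⟨(⟨0, -(1 / 2) * w 0, -(1 / 2) * w 1, -(1 / 2) * w 2⟩ : ℍ[ℝ]), rfl, rfl, rfl, rfl⟩
  have h : star z * (z * q) = q := by rw [← mul_assoc, hz, one_mul]
  refine ⟨z * q, ?_, ?_⟩
  · rw [h, q0]
  · unfold th
    rw [h]
    apply ext3 <;> simp [im3, q1, q2, q3]

theorem th_left {q : ℍ[ℝ]} (hq : star q * q = 1) (z ζ : ℍ[ℝ]) : th (q * z) (q * ζ) = th z ζ := by
  unfold th
  rw [star_mul, mul_assoc, ← mul_assoc (star q) q ζ, hq, one_mul]

theorem th_inj {z ζ : ℍ[ℝ]} (hz : star z * z = 1) (h : (star z * ζ).re = 0) (h0 : th z ζ = 0) :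
    ζ = 0 := by
  have h1 : ζ = z * (star z * ζ) := by
    rw [← mul_assoc, A10_comm hz, one_mul]
  have h2 : im3 (star z * ζ) = 0 := by
    unfold th at h0
    exact (smul_eq_zero.1 h0).resolve_left (by norm_num)
  have h3 : star z * ζ = 0 := by
    have e0 := congrArg (fun v : V3 => v 0) h2
    have e1 := congrArg (fun v : V3 => v 1) h2
    have e2 := congrArg (fun v : V3 => v 2) h2
    simp only [im3, mk3_0, mk3_1, mk3_2] at e0 e1 e2
    ext
    · simpa using h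
    · simpa using e0
    · simpa using e1
    · simpa using e2
  rw [h1, h3, mul_zero]

theorem GG_left {q : ℍ[ℝ]} (hq : star q * q = 1) (δ t : ℝ) (y : V3) (z : ℍ[ℝ]) (a b : V3)
    (ζ ξ : ℍ[ℝ]) :
    GG δ t (y, q * z) (a, q * ζ) (b, q * ξ) = GG δ t (y, z) (a, ζ) (b, ξ) := by
  simp only [GG, TH, th_left hq]

end

end MP_1b4d75_gt
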