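import Pool.Agent.Lib.MP_1b4d75_gt.A01
import Pool.Agent.Lib.MP_1b4d75_gt.A06

/-!
# MP_1b4d75_gt, module A11

Ricci identity: commutator of the second covariant derivatives of `P`.

D2P y n1 n2 p - D2P y n2 n1 p = F x (P p) - P (F x p), F = det3 y n1 n2 • WW, for n1, n2 in y^⊥.
Expand D2P: the symmetric part of the second derivative of P (d²P(v1,v2)) cancels; what remains are
dPP δ y (dLL v1 n2 - dLL v2 n1 + LL X) = 0 by tors (A03), X = om1 x n2 - om2 x n1, and
[daa v1 n2 - daa v2 n1 + aa X + aa1 x aa2, P] = [det3 • WW, P] by curv_aa (A05) and the Jacobi identity.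
-/

open scoped Quaternion Topology
open Filter

namespace MP_1b4d75_gt

noncomputable section

lemma A11_daa_add_n (δ : ℝ) (y v n n' : V3) :
    daa δ y v (n + n') = daa δ y v n + daa δ y v n' := by
  simp only [daa]; module
lemma A11_daa_smul_n (δ : ℝ) (y v : V3) (r : ℝ) (n : V3) :
    daa δ y v (r • n) = r • daa δ y v n := by
  simp only [daa]; module
lemma A11_dot_2 (a b : V3) : (a + b) 2 = a 2 + b 2 := rfl
lemma A11_smul_2 (r : ℝ) (a : V3) : (r • a) 2 = r * a 2 := rfl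
lemma A11_dty_add (δ : ℝ) (y v v' : V3) : dty δ y (v + v') = dty δ y v + dty δ y v' := by
  simp only [dty, dot_add_left]; ring
lemma A11_dty_smul (δ : ℝ) (y : V3) (r : ℝ) (v : V3) : dty δ y (r • v) = r * dty δ y v := by
  simp only [dty, dot_smul_left]; ring
lemma A11_daa_add_v (δ : ℝ) (y v v' n : V3) :
    daa δ y (v + v') n = daa δ y v n + daa δ y v' n := by
  simp only [daa, A11_dot_2, A11_dty_add]; module
lemma A11_daa_smul_v (δ : ℝ) (y : V3) (r : ℝ) (v n : V3) :
    daa δ y (r • v) n = r • daa δ y v n := by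
  simp only [daa, A11_smul_2, A11_dty_smul]; module
lemma A11_dpr_add_v (y v v' w : V3) : dpr y (v + v') w = dpr y v w + dpr y v' w := by
  simp only [dpr, dot_add_right]; module
lemma A11_dpr_smul_v (y : V3) (r : ℝ) (v w : V3) : dpr y (r • v) w = r • dpr y v w := by
  simp only [dpr, dot_smul_right]; module
lemma A11_dpr_add (y v w w' : V3) : dpr y v (w + w') = dpr y v w + dpr y v w' := by
  simp only [dpr, dot_add_left]; module
lemma A11_dpr_smul (y v : V3) (r : ℝ) (w : V3) : dpr y v (r • w) = r • dpr y v w := by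
  simp only [dpr, dot_smul_left]; module
lemma A11_dLL_add_v (δ : ℝ) (y v v' n : V3) :
    dLL δ y (v + v') n = dLL δ y v n + dLL δ y v' n := by
  simp only [dLL, A11_dpr_add_v, cr_add_right, TT_add, pr_add]; abel
lemma A11_dLL_smul_v (δ : ℝ) (y : V3) (r : ℝ) (v n : V3) :
    dLL δ y (r • v) n = r • dLL δ y v n := by
  simp only [dLL, A11_dpr_smul_v, cr_smul_right, TT_smul, pr_smul, smul_add]
lemma A11_dLL_add_n (δ : ℝ) (y v n n' : V3) :
    dLL δ y v (n + n') = dLL δ y v n + dLL δ y v n' := by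
  simp only [dLL, cr_add_left, TT_add, pr_add, A11_dpr_add]; abel
lemma A11_dLL_smul_n (δ : ℝ) (y v : V3) (r : ℝ) (n : V3) :
    dLL δ y v (r • n) = r • dLL δ y v n := by
  simp only [dLL, cr_smul_left, TT_smul, pr_smul, A11_dpr_smul, smul_add]

lemma A11_dDP_add_v (δ : ℝ) (y v v' n p : V3) :
    dDP δ y (v + v') n p = dDP δ y v n p + dDP δ y v' n p := by
  simp only [dDP, dPP_add_v, A11_dLL_add_v, A11_daa_add_v, cr_add_left, cr_add_right, PP_add,
    dot_add_left]
  module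
lemma A11_dDP_smul_v (δ : ℝ) (y : V3) (r : ℝ) (v n p : V3) :
    dDP δ y (r • v) n p = r • dDP δ y v n p := by
  simp only [dDP, dPP_smul_v, A11_dLL_smul_v, A11_daa_smul_v, cr_smul_left, cr_smul_right,
    PP_smul, dot_smul_left]
  module
lemma A11_dDP_add_n (δ : ℝ) (y v n n' p : V3) :
    dDP δ y v (n + n') p = dDP δ y v n p + dDP δ y v n' p := by
  simp only [dDP, LL_add, dPP_add_v, A11_dLL_add_n, A11_daa_add_n, aa_add, cr_add_left, PP_add,
    dPP_add, dot_add_left]
  module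
lemma A11_dDP_smul_n (δ : ℝ) (y v : V3) (r : ℝ) (n p : V3) :
    dDP δ y v (r • n) p = r • dDP δ y v n p := by
  simp only [dDP, LL_smul, dPP_smul_v, A11_dLL_smul_n, A11_daa_smul_n, aa_smul, cr_smul_left,
    PP_smul, dPP_smul, dot_smul_left]
  module
lemma A11_dDP_add (δ : ℝ) (y v n p p' : V3) :
    dDP δ y v n (p + p') = dDP δ y v n p + dDP δ y v n p' := by
  simp only [dDP, dPP_add, cr_add_right, PP_add, dot_add_right]
  module
lemma A11_dDP_smul (δ : ℝ) (y v n : V3) (r : ℝ) (p : V3) :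
    dDP δ y v n (r • p) = r • dDP δ y v n p := by
  simp only [dDP, dPP_smul, cr_smul_right, PP_smul, dot_smul_right]
  module

lemma A11_dDP_symm (δ : ℝ) (y v n p p' : V3) :
    dot (dDP δ y v n p) p' = dot p (dDP δ y v n p') := by
  simp only [dDP, dot_add_left, dot_sub_left, dot_add_right, dot_sub_right, dot_smul_left,
    dot_smul_right]
  have a1 := dPP_symm δ y (dLL δ y v n) p p'
  have a2 := dot_rot (daa δ y v n) (PP δ y p) p'
  have a3 := dot_rot (daa δ y v n) p (PP δ y p')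
  have a4 := PP_symm δ y p (cr (daa δ y v n) p')
  have a5 := PP_symm δ y (cr (daa δ y v n) p) p'
  have a6 := dot_rot (aa δ y n) (dPP δ y v p) p'
  have a7 := dot_rot (aa δ y n) p (dPP δ y v p')
  have a8 := dPP_symm δ y v p (cr (aa δ y n) p')
  have a9 := dPP_symm δ y v (cr (aa δ y n) p) p'
  have b1 := dot_comm p (LL δ y n)
  have b2 := dot_comm p v
  linear_combination a1 + a2 - a3 - a4 - a5 + a6 - a7 - a8 - a9 + (1 / 4 : ℝ) * (dot v p') * b1 * (-1) + (1 / 4 : ℝ) * (dot (LL δ y n) p') * b2 * (-1)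

theorem ricci {δ : ℝ} {y n1 n2 : V3} (hy : dot y y = 1) (h1 : dot n1 y = 0) (h2 : dot n2 y = 0)
    (htors : LL δ y (cr (om δ y n1) n2 - cr (om δ y n2) n1) + dLL δ y (LL δ y n1) n2
      - dLL δ y (LL δ y n2) n1 = 0)
    (hcurv : daa δ y (LL δ y n1) n2 - daa δ y (LL δ y n2) n1
      + aa δ y (cr (om δ y n1) n2 - cr (om δ y n2) n1) + cr (aa δ y n1) (aa δ y n2)
      = det3 y n1 n2 • WW δ y) (p : V3) :
    D2P δ y n1 n2 p - D2P δ y n2 n1 p
      = cr (det3 y n1 n2 • WW δ y) (PP δ y p) - PP δ y (cr (det3 y n1 n2 • WW δ y) p) := by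
  rw [← hcurv]
  have hX : ∀ q, DP δ y (cr (om δ y n1) n2) q - DP δ y (cr (om δ y n2) n1) q =
      DP δ y (cr (om δ y n1) n2 - cr (om δ y n2) n1) q := by
    intro q
    have e1 : cr (om δ y n1) n2 - cr (om δ y n2) n1 =
        cr (om δ y n1) n2 + (-1 : ℝ) • cr (om δ y n2) n1 := by module
    rw [e1, DP_add_n, DP_smul_n]
    module
  have hX' := hX p
  generalize cr (om δ y n1) n2 - cr (om δ y n2) n1 = X at htors hX' ⊢
  have hd : dPP δ y (dLL δ y (LL δ y n2) n1) p =
      dPP δ y (LL δ y X) p + dPP δ y (dLL δ y (LL δ y n1) n2) p := by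
    rw [← sub_eq_zero.1 htors, dPP_add_v]
  have hJ := jacobi (aa δ y n1) (aa δ y n2) (PP δ y p)
  have hJ2 := congrArg (PP δ y) (jacobi (aa δ y n1) (aa δ y n2) p)
  rw [PP_add] at hJ2
  have e2 : D2P δ y n1 n2 p - D2P δ y n2 n1 p =
      dDP δ y (LL δ y n1) n2 p - dDP δ y (LL δ y n2) n1 p
      + (DP δ y (cr (om δ y n1) n2) p - DP δ y (cr (om δ y n2) n1) p)
      + (cr (aa δ y n1) (DP δ y n2 p) - DP δ y n2 (cr (aa δ y n1) p)
        - (cr (aa δ y n2) (DP δ y n1 p) - DP δ y n1 (cr (aa δ y n2) p))) := by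
    simp only [D2P]
    abel
  rw [e2, hX']
  simp only [dDP, DP, cr_add_left, cr_sub_left, cr_add_right, cr_sub_right, PP_add, PP_sub]
  rw [hd, hJ, hJ2]
  module

theorem D2P_symm (δ : ℝ) (y m n p p' : V3) :
    dot p (D2P δ y m n p') = dot (D2P δ y m n p) p' := by
  simp only [D2P, dot_add_left, dot_sub_left, dot_add_right, dot_sub_right]
  have a1 := A11_dDP_symm δ y (LL δ y m) n p p'
  have a2 := DP_symm δ y (cr (om δ y m) n) p p'
  have a3 := dot_rot (aa δ y m) (DP δ y n p) p'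
  have a4 := dot_rot (aa δ y m) p (DP δ y n p')
  have a5 := DP_symm δ y n p (cr (aa δ y m) p')
  have a6 := DP_symm δ y n (cr (aa δ y m) p) p'
  linear_combination -a1 - a2 - a3 + a4 + a5 + a6

theorem D2P_add_m (δ : ℝ) (y m m' n p : V3) :
    D2P δ y (m + m') n p = D2P δ y m n p + D2P δ y m' n p := by
  simp only [D2P, LL_add, A11_dDP_add_v, om_add, aa_add, cr_add_left, DP_add_n, DP_add]
  abel
theorem D2P_smul_m (δ : ℝ) (y : V3) (r : ℝ) (m n p : V3) :
    D2P δ y (r • m) n p = r • D2P δ y m n p := by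
  simp only [D2P, LL_smul, A11_dDP_smul_v, om_smul, aa_smul, cr_smul_left, DP_smul_n, DP_smul]
  module
theorem D2P_add_n (δ : ℝ) (y m n n' p : V3) :
    D2P δ y m (n + n') p = D2P δ y m n p + D2P δ y m n' p := by
  simp only [D2P, A11_dDP_add_n, cr_add_right, DP_add_n]
  abel
theorem D2P_smul_n (δ : ℝ) (y : V3) (r : ℝ) (m n p : V3) :
    D2P δ y m (r • n) p = r • D2P δ y m n p := by
  simp only [D2P, A11_dDP_smul_n, cr_smul_right, DP_smul_n]
  module
theorem D2P_add (δ : ℝ) (y m n p p' : V3) :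
    D2P δ y m n (p + p') = D2P δ y m n p + D2P δ y m n p' := by
  simp only [D2P, A11_dDP_add, cr_add_right, DP_add]
  abel
theorem D2P_smul (δ : ℝ) (y : V3) (r : ℝ) (m n p : V3) :
    D2P δ y m n (r • p) = r • D2P δ y m n p := by
  simp only [D2P, A11_dDP_smul, cr_smul_right, DP_smul]
  module
theorem DW_add (δ : ℝ) (y m n : V3) : DW δ y (m + n) = DW δ y m + DW δ y n := by
  simp only [DW, dWW, LL_add, aa_add, cr_add_left, dKK, A11_dty_add, dot_add_left, TT_add,
    A11_dot_2, dgs, A11_dpr_add_v, pr_add]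
  module
theorem DW_smul (δ : ℝ) (y : V3) (r : ℝ) (n : V3) : DW δ y (r • n) = r • DW δ y n := by
  simp only [DW, dWW, LL_smul, aa_smul, cr_smul_left, dKK, A11_dty_smul, dot_smul_left, TT_smul,
    A11_smul_2, dgs, A11_dpr_smul_v, pr_smul]
  module

end

end MP_1b4d75_gt
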