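import Mathlib

/-!
# MP_1b4d75_gt : the action of the unit quaternions on `S² × S³`

`S2` is the unit sphere of Euclidean 3-space, `S3` the group of unit quaternions (Mathlib's group
structure on the unit sphere of a normed division ring), both with Mathlib's smooth structure of
the unit sphere of a Euclidean space.  The group `S3` acts on `S2 × S3` by left multiplication on
the second factor.  The action is smooth and free, and it is isometric for every Riemannian metric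
that is given by an ambient formula invariant under `(a, b) ↦ (a, q b)`.
-/

set_option autoImplicit false

open Metric Module Bundle
open scoped Manifold ContDiff Quaternion

namespace MP_1b4d75_gt

noncomputable section

/-- Euclidean 3-space -/
abbrev R3 : Type := EuclideanSpace ℝ (Fin 3)

/-- the unit sphere of Euclidean 3-space -/
abbrev S2 : Type := sphere (0 : R3) 1

/-- the group of unit quaternions -/
abbrev S3 : Type := sphere (0 : ℍ[ℝ]) 1

instance factR3 : Fact (finrank ℝ R3 = 2 + 1) := ⟨by simp⟩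

instance factH : Fact (finrank ℝ ℍ[ℝ] = 3 + 1) := ⟨by rw [Quaternion.finrank_eq_four]⟩

/-- the model with corners of `S2 × S3` -/
abbrev IM : ModelWithCorners ℝ (EuclideanSpace ℝ (Fin 2) × EuclideanSpace ℝ (Fin 3))
    (ModelProd (EuclideanSpace ℝ (Fin 2)) (EuclideanSpace ℝ (Fin 3))) := (𝓡 2).prod (𝓡 3)

/-- the 5-manifold `S² × S³` -/
abbrev M5 : Type := S2 × S3

instance : IsManifold IM ∞ M5 := inferInstance

instance : CompactSpace M5 := inferInstance

instance instConnS2 : ConnectedSpace S2 := by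
  apply isConnected_iff_connectedSpace.1
  apply isConnected_sphere
  · rw [← Module.finrank_eq_rank ℝ R3]
    simp
  · exact zero_le_one

instance instConnS3 : ConnectedSpace S3 := by
  apply isConnected_iff_connectedSpace.1
  apply isConnected_sphere
  · rw [← Module.finrank_eq_rank ℝ ℍ[ℝ], Quaternion.finrank_eq_four]
    simp
  · exact zero_le_one

instance : ConnectedSpace M5 := inferInstance

/-- the unit quaternions are a Lie group -/
instance instLieGroupS3 : LieGroup (𝓡 3) ∞ S3 where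
  contMDiff_mul := by
    apply ContMDiff.codRestrict_sphere
    let c : S3 → ℍ[ℝ] := (↑)
    have h₂ : ContMDiff (𝓘(ℝ, ℍ[ℝ]).prod 𝓘(ℝ, ℍ[ℝ])) 𝓘(ℝ, ℍ[ℝ]) ∞
        fun z : ℍ[ℝ] × ℍ[ℝ] => z.fst * z.snd := by
      rw [contMDiff_iff]
      exact ⟨continuous_mul, fun x y => contDiff_mul.contDiffOn⟩
    suffices h₁ : ContMDiff ((𝓡 3).prod (𝓡 3)) (𝓘(ℝ, ℍ[ℝ]).prod 𝓘(ℝ, ℍ[ℝ])) ∞ (Prod.map c c)
      from h₂.comp h₁
    apply ContMDiff.prodMap <;> exact contMDiff_coe_sphere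
  contMDiff_inv := by
    have h : ∀ x : S3, ((x⁻¹ : S3) : ℍ[ℝ]) = star (x : ℍ[ℝ]) := by
      intro x
      rw [Metric.unitSphere.coe_inv, Quaternion.inv_def]
      have : Quaternion.normSq (x : ℍ[ℝ]) = 1 := by
        rw [Quaternion.normSq_eq_norm_mul_self, norm_eq_of_mem_sphere x, one_mul]
      rw [this, inv_one, one_smul]
    have h2 : ContDiff ℝ ∞ (fun x : ℍ[ℝ] => star x) := (LinearMap.toContinuousLinearMap
      ({ toFun := fun x : ℍ[ℝ] => star x
         map_add' := star_add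
         map_smul' := fun r x => Quaternion.star_smul r x } : ℍ[ℝ] →ₗ[ℝ] ℍ[ℝ])).contDiff
    have h3 : ContMDiff (𝓡 3) 𝓘(ℝ, ℍ[ℝ]) ∞ (fun x : S3 => ((x⁻¹ : S3) : ℍ[ℝ])) := by
      have h4 : (fun x : S3 => ((x⁻¹ : S3) : ℍ[ℝ])) = fun x : S3 => star (x : ℍ[ℝ]) :=
        funext h
      rw [h4]
      exact h2.contMDiff.comp contMDiff_coe_sphere
    exact ContMDiff.codRestrict_sphere h3 (fun x => (x⁻¹ : S3).2)

/-- The action of the unit quaternions on `S² × S³`. -/
def act (q : S3) (p : M5) : M5 := (p.1, q * p.2)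

theorem act_one (p : M5) : act 1 p = p := by
  unfold act
  rw [one_mul]

theorem act_mul (q r : S3) (p : M5) : act (q * r) p = act q (act r p) := by
  unfold act
  rw [mul_assoc]

/-- The action is free. -/
theorem act_free (q : S3) (p : M5) (h : act q p = p) : q = 1 := by
  have h2 : q * p.2 = p.2 := congrArg Prod.snd h
  exact mul_eq_right.1 h2

/-- The action is smooth. -/
theorem act_smooth : ContMDiff ((𝓡 3).prod IM) IM ∞ (fun x : S3 × M5 => act x.1 x.2) := by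
  have h1 : ContMDiff ((𝓡 3).prod IM) (𝓡 2) ∞ (fun x : S3 × M5 => x.2.1) :=
    contMDiff_fst.comp contMDiff_snd
  have h2 : ContMDiff ((𝓡 3).prod IM) (𝓡 3) ∞ (fun x : S3 × M5 => x.1 * x.2.2) :=
    contMDiff_fst.mul (contMDiff_snd.comp contMDiff_snd)
  exact h1.prodMk h2

theorem act_smooth_right (q : S3) : ContMDiff IM IM ∞ (act q) := by
  have h1 : ContMDiff IM (𝓡 2) ∞ (fun x : M5 => x.1) := contMDiff_fst
  have h2 : ContMDiff IM (𝓡 3) ∞ (fun x : M5 => q * x.2) :=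
    contMDiff_const.mul contMDiff_snd
  exact h1.prodMk h2

/-- The inclusion of `S² × S³` in the ambient vector space. -/
def incl (p : M5) : R3 × ℍ[ℝ] := ((p.1 : R3), (p.2 : ℍ[ℝ]))

theorem incl_smooth : ContMDiff IM 𝓘(ℝ, R3 × ℍ[ℝ]) ∞ incl := by
  have h1 : ContMDiff IM 𝓘(ℝ, R3) ∞ (fun x : M5 => (x.1 : R3)) :=
    contMDiff_coe_sphere.comp contMDiff_fst
  have h2 : ContMDiff IM 𝓘(ℝ, ℍ[ℝ]) ∞ (fun x : M5 => (x.2 : ℍ[ℝ])) :=
    contMDiff_coe_sphere.comp contMDiff_snd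
  exact h1.prodMk_space h2

/-- Left multiplication in the ambient space. -/
def lin (q : ℍ[ℝ]) : (R3 × ℍ[ℝ]) →L[ℝ] (R3 × ℍ[ℝ]) :=
  (ContinuousLinearMap.fst ℝ R3 ℍ[ℝ]).prod
    ((ContinuousLinearMap.mul ℝ ℍ[ℝ] q).comp (ContinuousLinearMap.snd ℝ R3 ℍ[ℝ]))

theorem lin_apply (q : ℍ[ℝ]) (a : R3 × ℍ[ℝ]) : lin q a = (a.1, q * a.2) := rfl

theorem incl_act (q : S3) (p : M5) : incl (act q p) = lin (q : ℍ[ℝ]) (incl p) := rfl

/-- The differential of the inclusion. -/
def dincl (p : M5) : TangentSpace IM p →L[ℝ] (R3 × ℍ[ℝ]) := mfderiv IM 𝓘(ℝ, R3 × ℍ[ℝ]) incl p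

theorem dincl_act (q : S3) (p : M5) (v : TangentSpace IM p) :
    dincl (act q p) (mfderiv IM IM (act q) p v) = lin (q : ℍ[ℝ]) (dincl p v) := by
  have h1 : MDifferentiableAt IM 𝓘(ℝ, R3 × ℍ[ℝ]) incl (act q p) :=
    (incl_smooth (act q p)).mdifferentiableAt (by simp)
  have h2 : MDifferentiableAt IM IM (act q) p :=
    (act_smooth_right q p).mdifferentiableAt (by simp)
  have h3 := mfderiv_comp p h1 h2
  have h4 : MDifferentiableAt IM 𝓘(ℝ, R3 × ℍ[ℝ]) incl p :=
    (incl_smooth p).mdifferentiableAt (by simp)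
  have h5 : MDifferentiableAt 𝓘(ℝ, R3 × ℍ[ℝ]) 𝓘(ℝ, R3 × ℍ[ℝ]) (lin (q : ℍ[ℝ])) (incl p) :=
    (lin (q : ℍ[ℝ])).differentiableAt.mdifferentiableAt
  have h6 := mfderiv_comp p h5 h4
  have h7 : incl ∘ act q = (lin (q : ℍ[ℝ])) ∘ incl := funext fun p => incl_act q p
  have h8 : mfderiv 𝓘(ℝ, R3 × ℍ[ℝ]) 𝓘(ℝ, R3 × ℍ[ℝ]) (lin (q : ℍ[ℝ])) (incl p) =
      lin (q : ℍ[ℝ]) := by
    rw [mfderiv_eq_fderiv]
    exact (lin (q : ℍ[ℝ])).fderiv
  rw [h7, h6, h8] at h3
  have h9 := congrArg (fun L : TangentSpace IM p →L[ℝ] (R3 × ℍ[ℝ]) => L v) h3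
  exact h9.symm

/-- A diffeomorphism `φ` preserves the metric `g`. -/
def PreservesMetric (g : ContMDiffRiemannianMetric IM ∞
    (EuclideanSpace ℝ (Fin 2) × EuclideanSpace ℝ (Fin 3)) (fun p : M5 => TangentSpace IM p))
    (φ : M5 → M5) : Prop :=
  ∀ (p : M5) (v w : TangentSpace IM p),
    g.inner (φ p) (mfderiv IM IM φ p v) (mfderiv IM IM φ p w) = g.inner p v w

/-- A metric given by an invariant ambient formula is invariant. -/
theorem act_isometric (g : ContMDiffRiemannianMetric IM ∞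
    (EuclideanSpace ℝ (Fin 2) × EuclideanSpace ℝ (Fin 3)) (fun p : M5 => TangentSpace IM p))
    (G : R3 × ℍ[ℝ] → R3 × ℍ[ℝ] → R3 × ℍ[ℝ] → ℝ)
    (hg : ∀ (p : M5) (v w : TangentSpace IM p), g.inner p v w = G (incl p) (dincl p v) (dincl p w))
    (hinv : ∀ (q : S3) (p : M5) (a b : R3 × ℍ[ℝ]),
      G ((p.1 : R3), (q : ℍ[ℝ]) * (p.2 : ℍ[ℝ])) (a.1, (q : ℍ[ℝ]) * a.2) (b.1, (q : ℍ[ℝ]) * b.2) =
        G ((p.1 : R3), (p.2 : ℍ[ℝ])) a b) (q : S3) : PreservesMetric g (act q) := by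
  intro p v w
  rw [hg, hg, dincl_act, dincl_act, incl_act]
  exact hinv q p _ _

end

end MP_1b4d75_gt
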