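import Mathlib

/-!
# Sectional curvature of a smooth Riemannian metric

Let `G` be a metric on an open subset of a finite dimensional real vector space `E`, that is a
function `G : E → (E → E → ℝ)` with values in the positive definite symmetric bilinear forms.

* `christoffel G x u v`: the vector `Γ_x(u,v)` with
  `G_x(Γ_x(u,v), w) = (∂_u G(v,w) + ∂_v G(u,w) - ∂_w G(u,v)) / 2` for all `w`
  (Koszul's formula for constant vector fields).
* `riem G x u v w`: the curvature tensor
  `R(u,v)w = ∂_u Γ(v,w) - ∂_v Γ(u,w) + Γ(u,Γ(v,w)) - Γ(v,Γ(u,w))`.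
* `secCoord G x u v`: the sectional curvature
  `G(R(u,v)v,u) / (G(u,u) G(v,v) - G(u,v)^2)` of the plane spanned by `u` and `v`.

For a smooth Riemannian metric `g` on a manifold `M` (Mathlib's `ContMDiffRiemannianMetric` on the
tangent bundle) and a chart `e` of the smooth structure, `coordMetric g e` is the metric in the
coordinates given by `e`, and `PositivelyCurved g` says that for every chart of the smooth structure,
at all points of its domain, the sectional curvatures of all planes are positive.
-/

set_option autoImplicit false

open scoped Manifold ContDiff Topology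
open Bundle

noncomputable section

namespace PosCurv

section Coordinates

variable {E : Type*} [NormedAddCommGroup E] [NormedSpace ℝ E]

/-- `(∂_u G(v,w) + ∂_v G(u,w) - ∂_w G(u,v)) / 2` at `x`, the Christoffel symbol of the first
kind. -/
def koszul (G : E → E →L[ℝ] E →L[ℝ] ℝ) (x u v w : E) : ℝ :=
  (fderiv ℝ (fun y => G y v w) x u + fderiv ℝ (fun y => G y u w) x v
    - fderiv ℝ (fun y => G y u v) x w) / 2

open Classical in
/-- The vector `Γ_x(u,v)` with `G_x(Γ_x(u,v), w) = (∂_u G(v,w) + ∂_v G(u,w) - ∂_w G(u,v)) / 2` for
all `w` (it exists and is unique if `G_x` is positive definite and `E` is finite dimensional). -/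
def christoffel (G : E → E →L[ℝ] E →L[ℝ] ℝ) (x u v : E) : E :=
  if h : ∃ z : E, ∀ w : E, G x z w = koszul G x u v w then h.choose else 0

/-- The Riemann curvature tensor
`R(u,v)w = ∂_u Γ(v,w) - ∂_v Γ(u,w) + Γ(u,Γ(v,w)) - Γ(v,Γ(u,w))` at `x`. -/
def riem (G : E → E →L[ℝ] E →L[ℝ] ℝ) (x u v w : E) : E :=
  fderiv ℝ (fun y => christoffel G y v w) x u - fderiv ℝ (fun y => christoffel G y u w) x v
    + christoffel G x u (christoffel G x v w) - christoffel G x v (christoffel G x u w)

/-- The sectional curvature at `x` of the plane spanned by `u` and `v`,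
`G(R(u,v)v,u) / (G(u,u) G(v,v) - G(u,v)^2)`. -/
def secCoord (G : E → E →L[ℝ] E →L[ℝ] ℝ) (x u v : E) : ℝ :=
  G x (riem G x u v v) u / (G x u u * G x v v - G x u v ^ 2)

end Coordinates

section Manifold

variable {E : Type*} [NormedAddCommGroup E] [NormedSpace ℝ E]
  {H : Type*} [TopologicalSpace H] (I : ModelWithCorners ℝ E H)
  (M : Type*) [TopologicalSpace M] [ChartedSpace H M] [IsManifold I ∞ M]

/-- Smooth Riemannian metrics on the manifold `M` (Mathlib's notion, for the tangent bundle). -/
abbrev RMetric : Type _ :=
  Bundle.ContMDiffRiemannianMetric I ∞ E (fun x : M => TangentSpace I x)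

variable {I M}

/-- The inner product `g_p` on the tangent space at `p` (which is `E` by definition). -/
def bil (g : RMetric I M) (p : M) : E →L[ℝ] E →L[ℝ] ℝ := g.inner p

variable (I) in
/-- The derivative of the inverse of the chart `e` at the point `x` of the coordinate space. -/
def dinv (e : OpenPartialHomeomorph M H) (x : E) : E →L[ℝ] E :=
  mfderiv 𝓘(ℝ, E) I (e.extend I).symm x

/-- The metric `g` in the coordinates given by the chart `e`: at the point `x` of the coordinate
space it is `(u, v) ↦ g(dφ u, dφ v)` with `φ` the inverse of the chart. -/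
def coordMetric (g : RMetric I M) (e : OpenPartialHomeomorph M H) (x : E) :
    E →L[ℝ] E →L[ℝ] ℝ :=
  (bil g ((e.extend I).symm x)).bilinearComp (dinv I e x) (dinv I e x)

/-- All sectional curvatures are positive: in every chart of the smooth structure, at every point
of its domain. -/
def PositivelyCurved (g : RMetric I M) : Prop :=
  ∀ e ∈ IsManifold.maximalAtlas I ∞ M, ∀ p ∈ e.source, ∀ u v : E,
    LinearIndependent ℝ ![u, v] → 0 < secCoord (coordMetric g e) (e.extend I p) u v

/-- The map `f` preserves the metric `g` (together with being a diffeomorphism this says that `f` is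
an isometry). -/
def PreservesMetric (g : RMetric I M) (f : M → M) : Prop :=
  ∀ (p : M) (u v : TangentSpace I p),
    g.inner (f p) (mfderiv I I f p u) (mfderiv I I f p v) = g.inner p u v

end Manifold

end PosCurv
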