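import Pool.Agent.Lib.MP_1b4d75_gt.Act
import Pool.Agent.Lib.MP_1b4d75_gt.MDefs

/-!
# MP_1b4d75_gt : the action, in terms of `PosCurv.RMetric` and `PosCurv.PreservesMetric`
-/

set_option autoImplicit false

open Metric Module Bundle
open scoped Manifold ContDiff Quaternion

namespace MP_1b4d75_gt

noncomputable section

/-- The action as a `MulAction`. -/
def actMulAction : MulAction S3 M5 where
  smul q p := act q p
  one_smul p := act_one p
  mul_smul q r p := act_mul q r p

/-- A metric given by an invariant ambient formula is invariant. -/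
theorem act_preserves (g : PosCurv.RMetric IM M5)
    (G : R3 × ℍ[ℝ] → R3 × ℍ[ℝ] → R3 × ℍ[ℝ] → ℝ)
    (hg : ∀ (p : M5) (v w : TangentSpace IM p), g.inner p v w = G (incl p) (dincl p v) (dincl p w))
    (hinv : ∀ (q : S3) (p : M5) (a b : R3 × ℍ[ℝ]),
      G ((p.1 : R3), (q : ℍ[ℝ]) * (p.2 : ℍ[ℝ])) (a.1, (q : ℍ[ℝ]) * a.2) (b.1, (q : ℍ[ℝ]) * b.2) =
        G ((p.1 : R3), (p.2 : ℍ[ℝ])) a b) (q : S3) : PosCurv.PreservesMetric g (act q) :=
  act_isometric g G hg hinv q

/-- The inverse of the action of `q` is the action of `q⁻¹`, so the elements of `S3` act by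
diffeomorphisms. -/
theorem act_inv_act (q : S3) (p : M5) : act q⁻¹ (act q p) = p ∧ act q (act q⁻¹ p) = p := by
  rw [← act_mul, ← act_mul, inv_mul_cancel, mul_inv_cancel, act_one]
  exact ⟨rfl, rfl⟩

/-- `star (q z) (q ζ) = star z ζ` for unit quaternions `q`. -/
theorem star_mul_left (q : S3) (z b : ℍ[ℝ]) :
    star ((q : ℍ[ℝ]) * z) * ((q : ℍ[ℝ]) * b) = star z * b := by
  have h : star (q : ℍ[ℝ]) * (q : ℍ[ℝ]) = 1 := by
    rw [Quaternion.star_mul_self, Quaternion.normSq_eq_norm_mul_self, norm_eq_of_mem_sphere q,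
      one_mul]
    rfl
  rw [star_mul, mul_assoc, ← mul_assoc (star (q : ℍ[ℝ])), h, one_mul]

end

end MP_1b4d75_gt
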