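import Pool.Agent.Lib.MP_1b4d75_gt.Defs

/-!
# MP_1b4d75_gt: elementary vector algebra in `V3`
-/

namespace MP_1b4d75_gt

noncomputable section

lemma dot_add_left (a b c : V3) : dot (a + b) c = dot a c + dot b c := by
  simp [cr, dot, det3, TT, qq, pr, e3] <;> ring
lemma dot_add_right (a b c : V3) : dot a (b + c) = dot a b + dot a c := by
  simp [cr, dot, det3, TT, qq, pr, e3] <;> ring
lemma dot_sub_left (a b c : V3) : dot (a - b) c = dot a c - dot b c := by
  simp [cr, dot, det3, TT, qq, pr, e3] <;> ring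
lemma dot_sub_right (a b c : V3) : dot a (b - c) = dot a b - dot a c := by
  simp [cr, dot, det3, TT, qq, pr, e3] <;> ring
lemma dot_smul_left (r : ℝ) (a b : V3) : dot (r • a) b = r * dot a b := by
  simp [cr, dot, det3, TT, qq, pr, e3] <;> ring
lemma dot_smul_right (r : ℝ) (a b : V3) : dot a (r • b) = r * dot a b := by
  simp [cr, dot, det3, TT, qq, pr, e3] <;> ring
lemma dot_neg_left (a b : V3) : dot (-a) b = -dot a b := by
  simp [cr, dot, det3, TT, qq, pr, e3] <;> ring
lemma dot_neg_right (a b : V3) : dot a (-b) = -dot a b := by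
  simp [cr, dot, det3, TT, qq, pr, e3] <;> ring
lemma dot_zero_left (a : V3) : dot 0 a = 0 := by simp [dot]
lemma dot_zero_right (a : V3) : dot a 0 = 0 := by simp [dot]
lemma dot_comm (a b : V3) : dot a b = dot b a := by
  simp [cr, dot, det3, TT, qq, pr, e3] <;> ring

lemma cr_add_left (a b c : V3) : cr (a + b) c = cr a c + cr b c := by
  apply ext3 <;> simp [cr, dot, det3, TT, qq, pr, e3] <;> ring
lemma cr_add_right (a b c : V3) : cr a (b + c) = cr a b + cr a c := by
  apply ext3 <;> simp [cr, dot, det3, TT, qq, pr, e3] <;> ring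
lemma cr_sub_left (a b c : V3) : cr (a - b) c = cr a c - cr b c := by
  apply ext3 <;> simp [cr, dot, det3, TT, qq, pr, e3] <;> ring
lemma cr_sub_right (a b c : V3) : cr a (b - c) = cr a b - cr a c := by
  apply ext3 <;> simp [cr, dot, det3, TT, qq, pr, e3] <;> ring
lemma cr_smul_left (r : ℝ) (a b : V3) : cr (r • a) b = r • cr a b := by
  apply ext3 <;> simp [cr, dot, det3, TT, qq, pr, e3] <;> ring
lemma cr_smul_right (r : ℝ) (a b : V3) : cr a (r • b) = r • cr a b := by
  apply ext3 <;> simp [cr, dot, det3, TT, qq, pr, e3] <;> ring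
lemma cr_neg_left (a b : V3) : cr (-a) b = -cr a b := by
  apply ext3 <;> simp [cr, dot, det3, TT, qq, pr, e3] <;> ring
lemma cr_neg_right (a b : V3) : cr a (-b) = -cr a b := by
  apply ext3 <;> simp [cr, dot, det3, TT, qq, pr, e3] <;> ring
lemma cr_zero_left (a : V3) : cr 0 a = 0 := by apply ext3 <;> simp [cr]
lemma cr_zero_right (a : V3) : cr a 0 = 0 := by apply ext3 <;> simp [cr]
lemma cr_self (a : V3) : cr a a = 0 := by apply ext3 <;> simp [cr] <;> ring
lemma cr_anti (a b : V3) : cr a b = -cr b a := by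
  apply ext3 <;> simp [cr, dot, det3, TT, qq, pr, e3] <;> ring

lemma dot_cr_left (a b : V3) : dot a (cr a b) = 0 := by
  simp [cr, dot, det3, TT, qq, pr, e3] <;> ring
lemma dot_cr_right (a b : V3) : dot b (cr a b) = 0 := by
  simp [cr, dot, det3, TT, qq, pr, e3] <;> ring
lemma dot_cr_left' (a b : V3) : dot (cr a b) a = 0 := by
  simp [cr, dot, det3, TT, qq, pr, e3] <;> ring
lemma dot_cr_right' (a b : V3) : dot (cr a b) b = 0 := by
  simp [cr, dot, det3, TT, qq, pr, e3] <;> ring
lemma dot_cr_cyc (a b c : V3) : dot a (cr b c) = dot b (cr c a) := by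
  simp [cr, dot, det3, TT, qq, pr, e3] <;> ring
lemma dot_cr_swap (a b c : V3) : dot (cr a b) c = dot a (cr b c) := by
  simp [cr, dot, det3, TT, qq, pr, e3] <;> ring
lemma cr_cr_left (a b c : V3) : cr (cr a b) c = dot a c • b - dot b c • a := by
  apply ext3 <;> simp [cr, dot, det3, TT, qq, pr, e3] <;> ring
lemma cr_cr_right (a b c : V3) : cr a (cr b c) = dot a c • b - dot a b • c := by
  apply ext3 <;> simp [cr, dot, det3, TT, qq, pr, e3] <;> ring
lemma jacobi (a b c : V3) : cr a (cr b c) = cr (cr a b) c + cr b (cr a c) := by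
  apply ext3 <;> simp [cr, dot, det3, TT, qq, pr, e3] <;> ring
lemma dot_cr_cr (a b c d : V3) : dot (cr a b) (cr c d) = dot a c * dot b d - dot a d * dot b c := by
  simp [cr, dot, det3, TT, qq, pr, e3] <;> ring

lemma det3_self_left (a c : V3) : det3 a a c = 0 := by
  simp [cr, dot, det3, TT, qq, pr, e3] <;> ring
lemma det3_self_right (a c : V3) : det3 a c c = 0 := by
  simp [cr, dot, det3, TT, qq, pr, e3] <;> ring
lemma det3_self_out (a c : V3) : det3 a c a = 0 := by
  simp [cr, dot, det3, TT, qq, pr, e3] <;> ring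
lemma det3_swap (a b c : V3) : det3 a b c = -det3 a c b := by
  simp [cr, dot, det3, TT, qq, pr, e3] <;> ring
lemma det3_swap' (a b c : V3) : det3 a b c = -det3 b a c := by
  simp [cr, dot, det3, TT, qq, pr, e3] <;> ring
lemma det3_add_1 (a b c d : V3) : det3 (a + b) c d = det3 a c d + det3 b c d := by
  simp [cr, dot, det3, TT, qq, pr, e3] <;> ring
lemma det3_add_2 (a b c d : V3) : det3 a (b + c) d = det3 a b d + det3 a c d := by
  simp [cr, dot, det3, TT, qq, pr, e3] <;> ring
lemma det3_add_3 (a b c d : V3) : det3 a b (c + d) = det3 a b c + det3 a b d := by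
  simp [cr, dot, det3, TT, qq, pr, e3] <;> ring
lemma det3_smul_1 (r : ℝ) (a b c : V3) : det3 (r • a) b c = r * det3 a b c := by
  simp [cr, dot, det3, TT, qq, pr, e3] <;> ring
lemma det3_smul_2 (r : ℝ) (a b c : V3) : det3 a (r • b) c = r * det3 a b c := by
  simp [cr, dot, det3, TT, qq, pr, e3] <;> ring
lemma det3_smul_3 (r : ℝ) (a b c : V3) : det3 a b (r • c) = r * det3 a b c := by
  simp [cr, dot, det3, TT, qq, pr, e3] <;> ring
/-- invariance of the determinant under an infinitesimal rotation -/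
lemma det3_rot (w a b c : V3) : det3 (cr w a) b c + det3 a (cr w b) c + det3 a b (cr w c) = 0 := by
  simp [cr, dot, det3, TT, qq, pr, e3] <;> ring
/-- invariance of the scalar product under an infinitesimal rotation -/
lemma dot_rot (w a b : V3) : dot (cr w a) b + dot a (cr w b) = 0 := by
  simp [cr, dot, det3, TT, qq, pr, e3] <;> ring

lemma TT_add (δ : ℝ) (a b : V3) : TT δ (a + b) = TT δ a + TT δ b := by
  apply ext3 <;> simp [cr, dot, det3, TT, qq, pr, e3] <;> ring
lemma TT_sub (δ : ℝ) (a b : V3) : TT δ (a - b) = TT δ a - TT δ b := by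
  apply ext3 <;> simp [cr, dot, det3, TT, qq, pr, e3] <;> ring
lemma TT_smul (δ r : ℝ) (a : V3) : TT δ (r • a) = r • TT δ a := by
  apply ext3 <;> simp [cr, dot, det3, TT, qq, pr, e3] <;> ring
lemma TT_neg (δ : ℝ) (a : V3) : TT δ (-a) = -TT δ a := by
  apply ext3 <;> simp [cr, dot, det3, TT, qq, pr, e3] <;> ring
lemma TT_zero (δ : ℝ) : TT δ 0 = 0 := by apply ext3 <;> simp [TT]
lemma TT_symm (δ : ℝ) (a b : V3) : dot (TT δ a) b = dot a (TT δ b) := by
  simp [cr, dot, det3, TT, qq, pr, e3] <;> ring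

lemma qq_add (a b : V3) : qq (a + b) = qq a + qq b := by
  apply ext3 <;> simp [cr, dot, det3, TT, qq, pr, e3] <;> ring
lemma qq_sub (a b : V3) : qq (a - b) = qq a - qq b := by
  apply ext3 <;> simp [cr, dot, det3, TT, qq, pr, e3] <;> ring
lemma qq_smul (r : ℝ) (a : V3) : qq (r • a) = r • qq a := by
  apply ext3 <;> simp [cr, dot, det3, TT, qq, pr, e3] <;> ring
lemma qq_symm (a b : V3) : dot (qq a) b = dot a (qq b) := by
  simp [cr, dot, det3, TT, qq, pr, e3] <;> ring

lemma pr_add (y a b : V3) : pr y (a + b) = pr y a + pr y b := by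
  apply ext3 <;> simp [cr, dot, det3, TT, qq, pr, e3] <;> ring
lemma pr_sub (y a b : V3) : pr y (a - b) = pr y a - pr y b := by
  apply ext3 <;> simp [cr, dot, det3, TT, qq, pr, e3] <;> ring
lemma pr_smul (y : V3) (r : ℝ) (a : V3) : pr y (r • a) = r • pr y a := by
  apply ext3 <;> simp [cr, dot, det3, TT, qq, pr, e3] <;> ring
lemma pr_symm (y a b : V3) : dot (pr y a) b = dot a (pr y b) := by
  simp [cr, dot, det3, TT, qq, pr, e3] <;> ring
lemma dot_pr {y : V3} (hy : dot y y = 1) (a : V3) : dot (pr y a) y = 0 := by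
  rw [pr, dot_sub_left, dot_smul_left, hy]; ring
lemma pr_of_perp {y n : V3} (hn : dot n y = 0) : pr y n = n := by
  rw [pr, hn, zero_smul, sub_zero]

lemma PP_add (δ : ℝ) (y a b : V3) : PP δ y (a + b) = PP δ y a + PP δ y b := by
  apply ext3 <;> simp [PP, dot, qq, zz, e3] <;> ring
lemma PP_sub (δ : ℝ) (y a b : V3) : PP δ y (a - b) = PP δ y a - PP δ y b := by
  apply ext3 <;> simp [PP, dot, qq, zz, e3] <;> ring
lemma PP_smul (δ : ℝ) (y : V3) (r : ℝ) (a : V3) : PP δ y (r • a) = r • PP δ y a := by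
  apply ext3 <;> simp [PP, dot, qq, zz, e3] <;> ring
lemma PP_symm (δ : ℝ) (y a b : V3) : dot (PP δ y a) b = dot a (PP δ y b) := by
  simp [PP, dot, qq, zz, e3]; ring
lemma CC_add (δ t : ℝ) (y a b : V3) : CC δ t y (a + b) = CC δ t y a + CC δ t y b := by
  simp only [CC, PP_add, smul_add]; abel
lemma CC_sub (δ t : ℝ) (y a b : V3) : CC δ t y (a - b) = CC δ t y a - CC δ t y b := by
  simp only [CC, PP_sub, smul_sub]; abel
lemma CC_smul (δ t : ℝ) (y : V3) (r : ℝ) (a : V3) : CC δ t y (r • a) = r • CC δ t y a := by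
  simp only [CC, PP_smul, smul_add, smul_comm t r a]
lemma CC_symm (δ t : ℝ) (y a b : V3) : dot (CC δ t y a) b = dot a (CC δ t y b) := by
  simp only [CC, dot_add_left, dot_add_right, dot_smul_left, dot_smul_right, PP_symm]

lemma dPP_add_v (δ : ℝ) (y v w p : V3) : dPP δ y (v + w) p = dPP δ y v p + dPP δ y w p := by
  apply ext3 <;> simp [dPP, dot] <;> ring
lemma dPP_smul_v (δ : ℝ) (y : V3) (r : ℝ) (v p : V3) : dPP δ y (r • v) p = r • dPP δ y v p := by
  apply ext3 <;> simp [dPP, dot] <;> ring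
lemma dPP_add (δ : ℝ) (y v p p' : V3) : dPP δ y v (p + p') = dPP δ y v p + dPP δ y v p' := by
  apply ext3 <;> simp [dPP, dot] <;> ring
lemma dPP_smul (δ : ℝ) (y v : V3) (r : ℝ) (p : V3) : dPP δ y v (r • p) = r • dPP δ y v p := by
  apply ext3 <;> simp [dPP, dot] <;> ring
lemma dPP_symm (δ : ℝ) (y v p p' : V3) : dot (dPP δ y v p) p' = dot p (dPP δ y v p') := by
  simp [dPP, dot]; ring

lemma om_add (δ : ℝ) (y a b : V3) : om δ y (a + b) = om δ y a + om δ y b := by
  simp only [om, TT_add, smul_add]; abel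
lemma om_smul (δ : ℝ) (y : V3) (r : ℝ) (a : V3) : om δ y (r • a) = r • om δ y a := by
  simp only [om, TT_smul, smul_sub, smul_comm (3 - ty δ y) r a]
lemma aa_add (δ : ℝ) (y a b : V3) : aa δ y (a + b) = aa δ y a + aa δ y b := by
  simp only [aa, om_add, smul_add]; abel
lemma aa_smul (δ : ℝ) (y : V3) (r : ℝ) (a : V3) : aa δ y (r • a) = r • aa δ y a := by
  simp only [aa, om_smul, smul_sub, smul_comm (sg δ y) r a]
lemma LL_add (δ : ℝ) (y a b : V3) : LL δ y (a + b) = LL δ y a + LL δ y b := by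
  simp only [LL, cr_add_left, TT_add, pr_add]
lemma LL_smul (δ : ℝ) (y : V3) (r : ℝ) (a : V3) : LL δ y (r • a) = r • LL δ y a := by
  simp only [LL, cr_smul_left, TT_smul, pr_smul]
lemma DP_add_n (δ : ℝ) (y a b p : V3) : DP δ y (a + b) p = DP δ y a p + DP δ y b p := by
  simp only [DP, LL_add, dPP_add_v, aa_add, cr_add_left, PP_add]; abel
lemma DP_smul_n (δ : ℝ) (y : V3) (r : ℝ) (a p : V3) : DP δ y (r • a) p = r • DP δ y a p := by
  simp only [DP, LL_smul, dPP_smul_v, aa_smul, cr_smul_left, PP_smul, smul_sub, smul_add]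
lemma DP_add (δ : ℝ) (y a p p' : V3) : DP δ y a (p + p') = DP δ y a p + DP δ y a p' := by
  simp only [DP, dPP_add, cr_add_right, PP_add]; abel
lemma DP_smul (δ : ℝ) (y : V3) (r : ℝ) (a p : V3) : DP δ y a (r • p) = r • DP δ y a p := by
  simp only [DP, dPP_smul, cr_smul_right, PP_smul, smul_sub, smul_add]
lemma DP_symm (δ : ℝ) (y n p p' : V3) : dot (DP δ y n p) p' = dot p (DP δ y n p') := by
  simp only [DP, dot_add_left, dot_sub_left, dot_add_right, dot_sub_right, dPP_symm, PP_symm]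
  rw [dot_comm (cr (aa δ y n) (PP δ y p)) p', dot_comm p (PP δ y (cr (aa δ y n) p')),
    PP_symm, dot_comm (cr (aa δ y n) p') (PP δ y p)]
  have h1 := dot_rot (aa δ y n) (PP δ y p) p'
  have h2 := dot_rot (aa δ y n) p (PP δ y p')
  have h3 := dot_comm p' (cr (aa δ y n) (PP δ y p))
  linarith

end

end MP_1b4d75_gt
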