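import Pool.Agent.Lib.MP_1b4d75_gt.Basic

/-!
# MP_1b4d75_gt: bundled versions of the bilinear objects
-/

open scoped Quaternion Topology

namespace MP_1b4d75_gt

noncomputable section

lemma gr_add_left (δ : ℝ) (y a b p : V3) : gr δ y (a + b) p = gr δ y a p + gr δ y b p := by
  simp only [gr, dot_add_right, PP_add, cr_add_left, cr_add_right, smul_add, add_smul, TT_add,
    pr_add]
  abel
lemma gr_smul_left (δ : ℝ) (y : V3) (r : ℝ) (a p : V3) : gr δ y (r • a) p = r • gr δ y a p := by
  have e1 : dot (zz δ y) p • (r • a) + dot (zz δ y) (r • a) • p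
      = r • (dot (zz δ y) p • a + dot (zz δ y) a • p) := by
    rw [dot_smul_right]; module
  have e2 : cr (PP δ y p) (r • a) + cr (PP δ y (r • a)) p
      = r • (cr (PP δ y p) a + cr (PP δ y a) p) := by
    rw [PP_smul, cr_smul_left, cr_smul_right]; module
  unfold gr
  rw [e1, e2, ← pr_smul]
  congr 1
  rw [pr_smul, TT_smul, TT_smul, cr_smul_right]
  module
lemma gr_symm (δ : ℝ) (y p p' : V3) : gr δ y p p' = gr δ y p' p := by
  simp only [gr, add_comm]
lemma gr_add_right (δ : ℝ) (y a b p : V3) : gr δ y p (a + b) = gr δ y p a + gr δ y p b := by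
  rw [gr_symm, gr_add_left, gr_symm, gr_symm δ y b]
lemma gr_smul_right (δ : ℝ) (y : V3) (r : ℝ) (a p : V3) : gr δ y p (r • a) = r • gr δ y p a := by
  rw [gr_symm, gr_smul_left, gr_symm]

lemma Zt_bil (δ t : ℝ) (y : V3) : IsBilinearMap ℝ (Zt δ t y) where
  add_left := by
    intro a b c
    simp only [Zt, Prod.fst_add, Prod.snd_add, DP_add_n, DP_add, det3_add_2, CC_add, cr_add_left,
      add_smul]
    abel
  smul_left := by
    intro r a c
    simp only [Zt, Prod.smul_fst, Prod.smul_snd, DP_smul_n, DP_smul, det3_smul_2, CC_smul,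
      cr_smul_left, smul_sub, mul_smul]
  add_right := by
    intro a b c
    simp only [Zt, Prod.fst_add, Prod.snd_add, DP_add_n, DP_add, det3_add_3, CC_add, cr_add_right,
      add_smul]
    abel
  smul_right := by
    intro r a c
    simp only [Zt, Prod.smul_fst, Prod.smul_snd, DP_smul_n, DP_smul, det3_smul_3, CC_smul,
      cr_smul_right, smul_sub, mul_smul]

lemma Hh_bil (δ : ℝ) (y : V3) : IsBilinearMap ℝ (Hh δ y) where
  add_left := by
    intro a b c
    simp only [Hh, Prod.fst_add, Prod.snd_add, dot_add_right, cr_add_right, gr_add_left, add_div,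
      add_smul, smul_add]
    abel
  smul_left := by
    intro r a c
    simp only [Hh, Prod.smul_fst, Prod.smul_snd, dot_smul_right, cr_smul_right, gr_smul_left,
      smul_add, smul_smul]
    congr 1
    · congr 1
      · congr 1; ring
      · congr 1; ring
    · congr 1; ring
  add_right := by
    intro a b c
    simp only [Hh, Prod.fst_add, Prod.snd_add, dot_add_right, cr_add_right, gr_add_right, add_div,
      add_smul, smul_add]
    abel
  smul_right := by
    intro r a c
    simp only [Hh, Prod.smul_fst, Prod.smul_snd, dot_smul_right, cr_smul_right, gr_smul_right,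
      smul_add, smul_smul]
    congr 1
    · congr 1
      · congr 1; ring
      · congr 1; ring
    · congr 1; ring

lemma Sg_add_left (δ t : ℝ) (y a b c : V3) :
    Sg δ t y (a + b) c = Sg δ t y a c + Sg δ t y b c := by
  simp only [Sg, CC_add, cr_add_left, cr_add_right, smul_add]; abel
lemma Sg_smul_left (δ t : ℝ) (y : V3) (r : ℝ) (a c : V3) :
    Sg δ t y (r • a) c = r • Sg δ t y a c := by
  simp only [Sg, CC_smul, cr_smul_left, cr_smul_right, smul_add, smul_comm r (1 / 2 : ℝ)]
lemma Sg_symm (δ t : ℝ) (y a c : V3) : Sg δ t y a c = Sg δ t y c a := by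
  simp only [Sg, add_comm]
lemma Sg_add_right (δ t : ℝ) (y a b c : V3) :
    Sg δ t y c (a + b) = Sg δ t y c a + Sg δ t y c b := by
  rw [Sg_symm, Sg_add_left, Sg_symm, Sg_symm δ t y b]
lemma Sg_smul_right (δ t : ℝ) (y : V3) (r : ℝ) (a c : V3) :
    Sg δ t y c (r • a) = r • Sg δ t y c a := by
  rw [Sg_symm, Sg_smul_left, Sg_symm]

lemma BB_bil (δ t : ℝ) (y : V3) : IsBilinearMap ℝ (BB δ t y) where
  add_left := by
    intro a b c
    refine Prod.ext ?_ ?_
    · simp only [BB, (Hh_bil δ y).add_left, Prod.fst_add]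
    · simp only [BB, (Zt_bil δ t y).add_left, Prod.snd_add, map_add, Sg_add_left, smul_add]
      abel
  smul_left := by
    intro r a c
    refine Prod.ext ?_ ?_
    · simp only [BB, (Hh_bil δ y).smul_left, Prod.smul_fst]
    · simp only [BB, (Zt_bil δ t y).smul_left, Prod.smul_snd, map_smul, Sg_smul_left, smul_add,
        smul_comm r (1 / 2 : ℝ)]
  add_right := by
    intro a b c
    refine Prod.ext ?_ ?_
    · simp only [BB, (Hh_bil δ y).add_right, Prod.fst_add]
    · simp only [BB, (Zt_bil δ t y).add_right, Prod.snd_add, map_add, Sg_add_right, smul_add]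
      abel
  smul_right := by
    intro r a c
    refine Prod.ext ?_ ?_
    · simp only [BB, (Hh_bil δ y).smul_right, Prod.smul_fst]
    · simp only [BB, (Zt_bil δ t y).smul_right, Prod.smul_snd, map_smul, Sg_smul_right, smul_add,
        smul_comm r (1 / 2 : ℝ)]

lemma O0_bil (δ : ℝ) (y : V3) : IsBilinearMap ℝ (O0 δ y) where
  add_left := by
    intro a b c
    refine Prod.ext ?_ ?_
    · simp only [O0, Prod.fst_add, om_add, cr_add_left, neg_add]
    · simp only [O0, Prod.fst_add, Prod.snd_add, aa_add, cr_add_left]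
  smul_left := by
    intro r a c
    refine Prod.ext ?_ ?_
    · simp only [O0, Prod.smul_fst, om_smul, cr_smul_left, smul_neg]
    · simp only [O0, Prod.smul_fst, Prod.smul_snd, aa_smul, cr_smul_left]
  add_right := by
    intro a b c
    refine Prod.ext ?_ ?_
    · simp only [O0, Prod.fst_add, cr_add_right, neg_add]
    · simp only [O0, Prod.snd_add, cr_add_right]
  smul_right := by
    intro r a c
    refine Prod.ext ?_ ?_
    · simp only [O0, Prod.smul_fst, cr_smul_right, smul_neg]
    · simp only [O0, Prod.smul_snd, cr_smul_right]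

lemma OO_bil (δ t : ℝ) (y : V3) : IsBilinearMap ℝ (OO δ t y) where
  add_left := by
    intro a b c
    simp only [OO, (O0_bil δ y).add_left, (BB_bil δ t y).add_left]; abel
  smul_left := by
    intro r a c
    simp only [OO, (O0_bil δ y).smul_left, (BB_bil δ t y).smul_left, smul_add]
  add_right := by
    intro a b c
    simp only [OO, (O0_bil δ y).add_right, (BB_bil δ t y).add_right]; abel
  smul_right := by
    intro r a c
    simp only [OO, (O0_bil δ y).smul_right, (BB_bil δ t y).smul_right, smul_add]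

lemma SS_bil (δ t : ℝ) (y : V3) : IsBilinearMap ℝ (SS δ t y) where
  add_left := by
    intro a b c
    simp only [SS, Prod.fst_add, Prod.snd_add, dot_add_left]; ring
  smul_left := by
    intro r a c
    simp only [SS, Prod.smul_fst, Prod.smul_snd, dot_smul_left, smul_eq_mul]; ring
  add_right := by
    intro a b c
    simp only [SS, Prod.fst_add, Prod.snd_add, dot_add_right, CC_add]; ring
  smul_right := by
    intro r a c
    simp only [SS, Prod.smul_fst, Prod.smul_snd, dot_smul_right, CC_smul, smul_eq_mul]; ring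

/-- Levi-Civita form, bundled -/
def OOb (δ t : ℝ) (y : V3) : FF →L[ℝ] FF →L[ℝ] FF := (OO_bil δ t y).toContinuousBilinearMap
/-- tensor `B`, bundled -/
def BBb (δ t : ℝ) (y : V3) : FF →L[ℝ] FF →L[ℝ] FF := (BB_bil δ t y).toContinuousBilinearMap
/-- background connection, bundled -/
def O0b (δ : ℝ) (y : V3) : FF →L[ℝ] FF →L[ℝ] FF := (O0_bil δ y).toContinuousBilinearMap
/-- metric, bundled -/
def SSb (δ t : ℝ) (y : V3) : FF →L[ℝ] FF →L[ℝ] ℝ := (SS_bil δ t y).toContinuousBilinearMap

@[simp] lemma OOb_apply (δ t : ℝ) (y : V3) (X A : FF) : OOb δ t y X A = OO δ t y X A := rfl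
@[simp] lemma BBb_apply (δ t : ℝ) (y : V3) (X A : FF) : BBb δ t y X A = BB δ t y X A := rfl
@[simp] lemma O0b_apply (δ : ℝ) (y : V3) (X A : FF) : O0b δ y X A = O0 δ y X A := rfl
@[simp] lemma SSb_apply (δ t : ℝ) (y : V3) (X A : FF) : SSb δ t y X A = SS δ t y X A := rfl

lemma im3_add (a b : ℍ[ℝ]) : im3 (a + b) = im3 a + im3 b := by
  apply ext3 <;> simp [im3]
lemma im3_smul (r : ℝ) (a : ℍ[ℝ]) : im3 (r • a) = r • im3 a := by
  apply ext3 <;> simp [im3]
lemma im3_sub (a b : ℍ[ℝ]) : im3 (a - b) = im3 a - im3 b := by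
  apply ext3 <;> simp [im3]

lemma NN_add (δ : ℝ) (y a b : V3) : NN δ y (a + b) = NN δ y a + NN δ y b := by
  simp only [NN, cr_add_right, TT_add, pr_add, smul_add]
lemma NN_smul (δ : ℝ) (y : V3) (r : ℝ) (a : V3) : NN δ y (r • a) = r • NN δ y a := by
  simp only [NN, cr_smul_right, TT_smul, pr_smul, smul_comm r (Del δ y)⁻¹]

lemma TH_lin (δ t : ℝ) (m : AA) : IsLinearMap ℝ (TH δ t m) where
  map_add := by
    intro a b
    refine Prod.ext ?_ ?_
    · simp only [TH, Prod.fst_add, NN_add]
    · simp only [TH, Prod.fst_add, Prod.snd_add, NN_add, th, mul_add, im3_add, aa_add, smul_add,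
        map_add]
      abel
  map_smul := by
    intro r a
    refine Prod.ext ?_ ?_
    · simp only [TH, Prod.smul_fst, NN_smul]
    · simp only [TH, Prod.smul_fst, Prod.smul_snd, NN_smul, th, mul_smul_comm, im3_smul, aa_smul,
        smul_add, map_add, map_smul, smul_comm r (-2 : ℝ)]

/-- soldering form, bundled -/
def THb (δ t : ℝ) (m : AA) : AA →L[ℝ] FF :=
  LinearMap.toContinuousLinearMap ((TH_lin δ t m).mk' (TH δ t m))

@[simp] lemma THb_apply (δ t : ℝ) (m a : AA) : THb δ t m a = TH δ t m a := rfl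

/-- curvature of the Levi-Civita form in the variables `(n,p)` -/
def Rh (δ t : ℝ) (y : V3) (X A a : FF) : FF :=
  fderiv ℝ (OOb δ t) y (LL δ y X.1) A a - fderiv ℝ (OOb δ t) y (LL δ y A.1) X a
    + OO δ t y (OO δ t y A X - OO δ t y X A) a
    + OO δ t y X (OO δ t y A a) - OO δ t y A (OO δ t y X a)

/-- `ψ` is the composition of the inverse of a chart of `S² × S³` with the inclusion in the ambient
space, near the point `x₀` of the model space. -/
structure GoodChart {E : Type*} [NormedAddCommGroup E] [NormedSpace ℝ E]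
    (ψ : E → AA) (x₀ : E) : Prop where
  smooth : ContDiffAt ℝ 3 ψ x₀
  sph2 : ∀ᶠ x in 𝓝 x₀, dot (ψ x).1 (ψ x).1 = 1
  sph3 : ∀ᶠ x in 𝓝 x₀, star (ψ x).2 * (ψ x).2 = 1
  range : ∀ᶠ x in 𝓝 x₀, ∀ (v : V3) (ζ : ℍ[ℝ]), dot v (ψ x).1 = 0 →
    (star (ψ x).2 * ζ).re = 0 → ∃ u, fderiv ℝ ψ x u = (v, ζ)

variable {E : Type*} [NormedAddCommGroup E] [NormedSpace ℝ E]

/-- soldering form in the chart -/
def ThE (δ t : ℝ) (ψ : E → AA) (x : E) : E →L[ℝ] FF := (THb δ t (ψ x)).comp (fderiv ℝ ψ x)
/-- metric on the bundle in the chart -/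
def SE (δ t : ℝ) (ψ : E → AA) (x : E) : FF →L[ℝ] FF →L[ℝ] ℝ := SSb δ t (ψ x).1
/-- connection form in the chart -/
def OmE (δ t : ℝ) (ψ : E → AA) (x : E) : E →L[ℝ] FF →L[ℝ] FF :=
  (OOb δ t (ψ x).1).comp (ThE δ t ψ x)

end

end MP_1b4d75_gt
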