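import Pool.Agent.Lib.MP_1b4d75_gt.Bund

/-!
# MP_1b4d75_gt: continuity of all the polynomial objects (in all variables, `δ` included)
-/

open scoped Quaternion Topology
open Filter

namespace MP_1b4d75_gt

noncomputable section

variable {X : Type*} [TopologicalSpace X] {d : X → ℝ} {f g h k : X → V3}

@[fun_prop]
theorem Cont_mk3 {a b c : X → ℝ} (ha : Continuous a) (hb : Continuous b) (hc : Continuous c) :
    Continuous fun x => mk3 (a x) (b x) (c x) := by
  unfold mk3
  apply (PiLp.continuous_toLp 2 _).comp
  apply continuous_pi
  intro i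
  fin_cases i
  · exact ha
  · exact hb
  · exact hc

@[fun_prop]
theorem Cont_coord (i : Fin 3) (hf : Continuous f) : Continuous fun x => (f x) i :=
  (EuclideanSpace.proj (𝕜 := ℝ) i).continuous.comp hf

@[fun_prop]
theorem Cont_dot (hf : Continuous f) (hg : Continuous g) :
    Continuous fun x => dot (f x) (g x) := by
  unfold dot
  fun_prop

@[fun_prop]
theorem Cont_cr (hf : Continuous f) (hg : Continuous g) :
    Continuous fun x => cr (f x) (g x) := by
  unfold cr
  fun_prop

@[fun_prop]
theorem Cont_det3 (hf : Continuous f) (hg : Continuous g) (hh : Continuous h) :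
    Continuous fun x => det3 (f x) (g x) (h x) := by
  unfold det3
  fun_prop

@[fun_prop]
theorem Cont_TT (hd : Continuous d) (hf : Continuous f) :
    Continuous fun x => TT (d x) (f x) := by
  unfold TT
  fun_prop

@[fun_prop]
theorem Cont_qq (hf : Continuous f) : Continuous fun x => qq (f x) := by
  unfold qq
  fun_prop

@[fun_prop]
theorem Cont_sg (hd : Continuous d) (hf : Continuous f) :
    Continuous fun x => sg (d x) (f x) := by
  unfold sg
  fun_prop

@[fun_prop]
theorem Cont_ty (hd : Continuous d) (hf : Continuous f) :
    Continuous fun x => ty (d x) (f x) := by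
  unfold ty
  fun_prop

@[fun_prop]
theorem Cont_om (hd : Continuous d) (hf : Continuous f) (hg : Continuous g) :
    Continuous fun x => om (d x) (f x) (g x) := by
  unfold om
  fun_prop

@[fun_prop]
theorem Cont_aa (hd : Continuous d) (hf : Continuous f) (hg : Continuous g) :
    Continuous fun x => aa (d x) (f x) (g x) := by
  unfold aa
  fun_prop

@[fun_prop]
theorem Cont_pr (hf : Continuous f) (hg : Continuous g) :
    Continuous fun x => pr (f x) (g x) := by
  unfold pr
  fun_prop

@[fun_prop]
theorem Cont_LL (hd : Continuous d) (hf : Continuous f) (hg : Continuous g) :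
    Continuous fun x => LL (d x) (f x) (g x) := by
  unfold LL
  fun_prop

@[fun_prop]
theorem Cont_KK (hd : Continuous d) (hf : Continuous f) :
    Continuous fun x => KK (d x) (f x) := by
  unfold KK
  fun_prop

@[fun_prop]
theorem Cont_gs (hd : Continuous d) (hf : Continuous f) :
    Continuous fun x => gs (d x) (f x) := by
  unfold gs
  fun_prop

@[fun_prop]
theorem Cont_WW (hd : Continuous d) (hf : Continuous f) :
    Continuous fun x => WW (d x) (f x) := by
  unfold WW
  fun_prop

@[fun_prop]
theorem Cont_zz (hd : Continuous d) (hf : Continuous f) :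
    Continuous fun x => zz (d x) (f x) := by
  unfold zz
  fun_prop

@[fun_prop]
theorem Cont_PP (hd : Continuous d) (hf : Continuous f) (hg : Continuous g) :
    Continuous fun x => PP (d x) (f x) (g x) := by
  unfold PP
  fun_prop

@[fun_prop]
theorem Cont_CC {t : X → ℝ} (hd : Continuous d) (ht : Continuous t) (hf : Continuous f)
    (hg : Continuous g) : Continuous fun x => CC (d x) (t x) (f x) (g x) := by
  unfold CC
  fun_prop

@[fun_prop]
theorem Cont_dPP (hd : Continuous d) (hf : Continuous f) (hg : Continuous g)
    (hh : Continuous h) : Continuous fun x => dPP (d x) (f x) (g x) (h x) := by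
  unfold dPP
  fun_prop

@[fun_prop]
theorem Cont_DP (hd : Continuous d) (hf : Continuous f) (hg : Continuous g)
    (hh : Continuous h) : Continuous fun x => DP (d x) (f x) (g x) (h x) := by
  unfold DP
  fun_prop

@[fun_prop]
theorem Cont_gr (hd : Continuous d) (hf : Continuous f) (hg : Continuous g)
    (hh : Continuous h) : Continuous fun x => gr (d x) (f x) (g x) (h x) := by
  unfold gr
  fun_prop

@[fun_prop]
theorem Cont_dpr (hf : Continuous f) (hg : Continuous g) (hh : Continuous h) :
    Continuous fun x => dpr (f x) (g x) (h x) := by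
  unfold dpr
  fun_prop

@[fun_prop]
theorem Cont_dty (hd : Continuous d) (hf : Continuous f) (hg : Continuous g) :
    Continuous fun x => dty (d x) (f x) (g x) := by
  unfold dty
  fun_prop

@[fun_prop]
theorem Cont_dLL (hd : Continuous d) (hf : Continuous f) (hg : Continuous g)
    (hh : Continuous h) : Continuous fun x => dLL (d x) (f x) (g x) (h x) := by
  unfold dLL
  fun_prop

@[fun_prop]
theorem Cont_daa (hd : Continuous d) (hf : Continuous f) (hg : Continuous g)
    (hh : Continuous h) : Continuous fun x => daa (d x) (f x) (g x) (h x) := by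
  unfold daa
  fun_prop

@[fun_prop]
theorem Cont_dDP (hd : Continuous d) (hf : Continuous f) (hg : Continuous g)
    (hh : Continuous h) (hk : Continuous k) :
    Continuous fun x => dDP (d x) (f x) (g x) (h x) (k x) := by
  unfold dDP
  fun_prop

@[fun_prop]
theorem Cont_D2P (hd : Continuous d) (hf : Continuous f) (hg : Continuous g)
    (hh : Continuous h) (hk : Continuous k) :
    Continuous fun x => D2P (d x) (f x) (g x) (h x) (k x) := by
  unfold D2P
  fun_prop

@[fun_prop]
theorem Cont_dKK (hd : Continuous d) (hf : Continuous f) (hg : Continuous g) :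
    Continuous fun x => dKK (d x) (f x) (g x) := by
  unfold dKK
  fun_prop

@[fun_prop]
theorem Cont_dgs (hd : Continuous d) (hf : Continuous f) (hg : Continuous g) :
    Continuous fun x => dgs (d x) (f x) (g x) := by
  unfold dgs
  fun_prop

@[fun_prop]
theorem Cont_dWW (hd : Continuous d) (hf : Continuous f) (hg : Continuous g) :
    Continuous fun x => dWW (d x) (f x) (g x) := by
  unfold dWW
  fun_prop

@[fun_prop]
theorem Cont_DW (hd : Continuous d) (hf : Continuous f) (hg : Continuous g) :
    Continuous fun x => DW (d x) (f x) (g x) := by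
  unfold DW
  fun_prop

@[fun_prop]
theorem Cont_stf {x' : X → ℝ} (hd : Continuous d) (hf : Continuous f) (hg : Continuous g)
    (hx : Continuous x') (hh : Continuous h) :
    Continuous fun x => stf (d x) (f x) (g x) (x' x) (h x) := by
  unfold stf
  fun_prop

theorem norm_sq_dot (v : V3) : ‖v‖ ^ 2 = dot v v := by
  rw [EuclideanSpace.norm_sq_eq, Fin.sum_univ_three]
  simp only [dot, Real.norm_eq_abs, sq_abs]
  ring

theorem norm_le_one_of_dot {v : V3} (h : dot v v ≤ 1) : ‖v‖ ≤ 1 := by
  rw [← norm_sq_dot] at h
  nlinarith [norm_nonneg v]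

theorem dot_self_nonneg (v : V3) : 0 ≤ dot v v := by
  rw [← norm_sq_dot]
  positivity

theorem dot_self_eq_zero {v : V3} (h : dot v v = 0) : v = 0 := by
  rw [← norm_sq_dot] at h
  have : ‖v‖ = 0 := by
    rcases pow_eq_zero_iff (two_ne_zero) |>.1 h with h'
    exact h'
  exact norm_eq_zero.1 this

end

end MP_1b4d75_gt
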