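import Pool.Agent.Lib.MP_1b4d75_gt.A07

/-!
# MP_1b4d75_gt, module D01

Smoothness in `y` of the bundled forms; derivatives of `O0b` and `SSb`.

All objects are polynomial in y except QQ (QQ_smooth, A07) and NN (Del_pos).  A ContDiff statement for a map
into `FF ->L FF ->L FF` follows from the pointwise one by contDiff_clm_apply_iff (finite dimension), twice;
pointwise: components (contDiff_euclidean, EuclideanSpace.proj), `fun_prop`/`ContDiff.mul` etc. after unfolding.
fderiv_O0b: fderiv commutes with evaluation (fderiv_eval, fderiv_eval2 in LemmaU, or fderiv_clm_apply), then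
`om`, `aa` are quadratic in y.  THb_smooth: Del is nonzero near m because Del_pos (A02, statement as hypothesis).
-/

open scoped Quaternion Topology
open Filter

namespace MP_1b4d75_gt

noncomputable section

section Blocks

variable {E : Type*} [NormedAddCommGroup E] [NormedSpace ℝ E] {k : WithTop ℕ∞} {x : E}

theorem D01_coord {f : E → V3} (hf : ContDiffAt ℝ k f x) (i : Fin 3) :
    ContDiffAt ℝ k (fun z => f z i) x := contDiffAt_euclidean.1 hf i

theorem D01_mk3 {a b c : E → ℝ} (ha : ContDiffAt ℝ k a x) (hb : ContDiffAt ℝ k b x)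
    (hc : ContDiffAt ℝ k c x) : ContDiffAt ℝ k (fun z => mk3 (a z) (b z) (c z)) x := by
  rw [contDiffAt_euclidean]
  intro i
  fin_cases i
  · exact ha
  · exact hb
  · exact hc

theorem D01_smul {a : E → ℝ} {f : E → V3} (ha : ContDiffAt ℝ k a x) (hf : ContDiffAt ℝ k f x) :
    ContDiffAt ℝ k (fun z => a z • f z) x := ha.smul hf

theorem D01_csmul (c : ℝ) {f : E → V3} (hf : ContDiffAt ℝ k f x) :
    ContDiffAt ℝ k (fun z => c • f z) x := D01_smul (a := fun _ => c) contDiffAt_const hf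

theorem D01_add {f g : E → V3} (hf : ContDiffAt ℝ k f x) (hg : ContDiffAt ℝ k g x) :
    ContDiffAt ℝ k (fun z => f z + g z) x := hf.add hg

theorem D01_sub {f g : E → V3} (hf : ContDiffAt ℝ k f x) (hg : ContDiffAt ℝ k g x) :
    ContDiffAt ℝ k (fun z => f z - g z) x := hf.sub hg

theorem D01_dot {f g : E → V3} (hf : ContDiffAt ℝ k f x) (hg : ContDiffAt ℝ k g x) :
    ContDiffAt ℝ k (fun z => dot (f z) (g z)) x := by
  unfold dot
  exact (((D01_coord hf 0).mul (D01_coord hg 0)).add ((D01_coord hf 1).mul (D01_coord hg 1))).add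
    ((D01_coord hf 2).mul (D01_coord hg 2))

theorem D01_cr {f g : E → V3} (hf : ContDiffAt ℝ k f x) (hg : ContDiffAt ℝ k g x) :
    ContDiffAt ℝ k (fun z => cr (f z) (g z)) x := by
  unfold cr
  exact D01_mk3
    (((D01_coord hf 1).mul (D01_coord hg 2)).sub ((D01_coord hf 2).mul (D01_coord hg 1)))
    (((D01_coord hf 2).mul (D01_coord hg 0)).sub ((D01_coord hf 0).mul (D01_coord hg 2)))
    (((D01_coord hf 0).mul (D01_coord hg 1)).sub ((D01_coord hf 1).mul (D01_coord hg 0)))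

theorem D01_TT {δ : ℝ} {f : E → V3} (hf : ContDiffAt ℝ k f x) :
    ContDiffAt ℝ k (fun z => TT δ (f z)) x := by
  unfold TT
  have h0 := D01_coord hf 0
  have h1 := D01_coord hf 1
  have h2 := D01_coord hf 2
  exact D01_mk3 (h0.add (contDiffAt_const.mul h1))
    (((contDiffAt_const.mul h0).add h1).add (contDiffAt_const.mul h2))
    ((contDiffAt_const.mul h1).add h2)

theorem D01_pr {y f : E → V3} (hy : ContDiffAt ℝ k y x) (hf : ContDiffAt ℝ k f x) :
    ContDiffAt ℝ k (fun z => pr (y z) (f z)) x := by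
  unfold pr
  exact D01_sub hf (D01_smul (D01_dot hf hy) hy)

theorem D01_ty {δ : ℝ} {y : E → V3} (hy : ContDiffAt ℝ k y x) :
    ContDiffAt ℝ k (fun z => ty δ (y z)) x := by
  unfold ty
  exact D01_dot hy (D01_TT hy)

theorem D01_sg {δ : ℝ} {y : E → V3} (hy : ContDiffAt ℝ k y x) :
    ContDiffAt ℝ k (fun z => sg δ (y z)) x := by
  unfold sg
  exact contDiffAt_const.add (contDiffAt_const.mul (D01_coord hy 2))

theorem D01_om {δ : ℝ} {y n : E → V3} (hy : ContDiffAt ℝ k y x) (hn : ContDiffAt ℝ k n x) :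
    ContDiffAt ℝ k (fun z => om δ (y z) (n z)) x := by
  unfold om
  exact D01_sub (D01_smul (contDiffAt_const.sub (D01_ty hy)) hn) (D01_TT hn)

theorem D01_aa {δ : ℝ} {y n : E → V3} (hy : ContDiffAt ℝ k y x) (hn : ContDiffAt ℝ k n x) :
    ContDiffAt ℝ k (fun z => aa δ (y z) (n z)) x := by
  unfold aa
  exact D01_sub (D01_smul (D01_sg hy) hn) (D01_om hy hn)

theorem D01_LL {δ : ℝ} {y n : E → V3} (hy : ContDiffAt ℝ k y x) (hn : ContDiffAt ℝ k n x) :
    ContDiffAt ℝ k (fun z => LL δ (y z) (n z)) x := by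
  unfold LL
  exact D01_pr hy (D01_TT (D01_cr hn hy))

theorem D01_Del {δ : ℝ} {y : E → V3} (hy : ContDiffAt ℝ k y x) :
    ContDiffAt ℝ k (fun z => Del δ (y z)) x := by
  unfold Del
  exact ((D01_dot (D01_TT hy) (D01_TT hy)).sub (contDiffAt_const.mul (D01_ty hy))).add
    contDiffAt_const

theorem D01_NN {δ : ℝ} {y n : E → V3} (hy : ContDiffAt ℝ k y x) (hn : ContDiffAt ℝ k n x)
    (h : Del δ (y x) ≠ 0) : ContDiffAt ℝ k (fun z => NN δ (y z) (n z)) x := by
  unfold NN
  exact D01_smul ((D01_Del hy).inv h) (D01_pr hy (D01_TT (D01_cr hy hn)))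

theorem D01_KK {δ : ℝ} {y : E → V3} (hy : ContDiffAt ℝ k y x) :
    ContDiffAt ℝ k (fun z => KK δ (y z)) x := by
  unfold KK
  exact (((contDiffAt_const.sub (contDiffAt_const.mul (D01_ty hy))).add
    (contDiffAt_const.mul ((D01_ty hy).pow 2)))).sub
      (contDiffAt_const.mul (D01_dot (D01_TT hy) (D01_TT hy)))

theorem D01_gs {δ : ℝ} {y : E → V3} (hy : ContDiffAt ℝ k y x) :
    ContDiffAt ℝ k (fun z => gs δ (y z)) x := by
  unfold gs
  exact D01_csmul _ (D01_pr hy (D01_TT (D01_pr hy contDiffAt_const)))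

theorem D01_WW {δ : ℝ} {y : E → V3} (hy : ContDiffAt ℝ k y x) :
    ContDiffAt ℝ k (fun z => WW δ (y z)) x := by
  unfold WW
  exact D01_sub (D01_smul ((D01_KK hy).sub ((D01_sg hy).pow 2)).neg hy) (D01_gs hy)

theorem D01_zz {δ : ℝ} {y : E → V3} (hy : ContDiffAt ℝ k y x) :
    ContDiffAt ℝ k (fun z => zz δ (y z)) x := by
  unfold zz
  exact hy.add contDiffAt_const

theorem D01_qq {f : E → V3} (hf : ContDiffAt ℝ k f x) :
    ContDiffAt ℝ k (fun z => qq (f z)) x := by
  unfold qq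
  exact D01_mk3 (D01_coord hf 2) (D01_coord hf 1).neg (D01_coord hf 0)

theorem D01_PP {δ : ℝ} {y p : E → V3} (hy : ContDiffAt ℝ k y x) (hp : ContDiffAt ℝ k p x) :
    ContDiffAt ℝ k (fun z => PP δ (y z) (p z)) x := by
  unfold PP
  exact D01_add (D01_smul ((D01_dot (D01_zz hy) hp).div_const 4) (D01_zz hy))
    (D01_csmul _ (D01_qq hp))

theorem D01_CC {δ t : ℝ} {y p : E → V3} (hy : ContDiffAt ℝ k y x) (hp : ContDiffAt ℝ k p x) :
    ContDiffAt ℝ k (fun z => CC δ t (y z) (p z)) x := by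
  unfold CC
  exact D01_add (D01_csmul _ hp) (D01_PP hy hp)

theorem D01_dPP {δ : ℝ} {y v p : E → V3} (hy : ContDiffAt ℝ k y x) (hv : ContDiffAt ℝ k v x)
    (hp : ContDiffAt ℝ k p x) : ContDiffAt ℝ k (fun z => dPP δ (y z) (v z) (p z)) x := by
  unfold dPP
  exact D01_csmul _ (D01_add (D01_smul (D01_dot hv hp) (D01_zz hy))
    (D01_smul (D01_dot (D01_zz hy) hp) hv))

theorem D01_DP {δ : ℝ} {y n p : E → V3} (hy : ContDiffAt ℝ k y x) (hn : ContDiffAt ℝ k n x)
    (hp : ContDiffAt ℝ k p x) : ContDiffAt ℝ k (fun z => DP δ (y z) (n z) (p z)) x := by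
  unfold DP
  exact D01_sub (D01_add (D01_dPP hy (D01_LL hy hn) hp) (D01_cr (D01_aa hy hn) (D01_PP hy hp)))
    (D01_PP hy (D01_cr (D01_aa hy hn) hp))

theorem D01_gr {δ : ℝ} {y p q : E → V3} (hy : ContDiffAt ℝ k y x) (hp : ContDiffAt ℝ k p x)
    (hq : ContDiffAt ℝ k q x) : ContDiffAt ℝ k (fun z => gr δ (y z) (p z) (q z)) x := by
  unfold gr
  have h1 := D01_add (D01_cr (D01_PP (δ := δ) hy hq) hp) (D01_cr (D01_PP (δ := δ) hy hp) hq)
  have h2 := D01_add (D01_smul (D01_dot (D01_zz (δ := δ) hy) hq) hp)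
    (D01_smul (D01_dot (D01_zz (δ := δ) hy) hp) hq)
  exact D01_pr hy (D01_add (D01_add (D01_csmul _ (D01_cr hy (D01_TT (D01_pr hy h2))))
    (D01_smul (((D01_sg hy).sub contDiffAt_const).add (D01_ty hy)) h1)) (D01_TT h1))

theorem D01_det3 {f g h : E → V3} (hf : ContDiffAt ℝ k f x) (hg : ContDiffAt ℝ k g x)
    (hh : ContDiffAt ℝ k h x) : ContDiffAt ℝ k (fun z => det3 (f z) (g z) (h z)) x := by
  unfold det3
  exact D01_dot hf (D01_cr hg hh)

theorem D01_Zt {δ t : ℝ} {y : E → V3} (hy : ContDiffAt ℝ k y x) (X A : FF) :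
    ContDiffAt ℝ k (fun z => Zt δ t (y z) X A) x := by
  unfold Zt
  have c : ∀ a : V3, ContDiffAt ℝ k (fun _ : E => a) x := fun a => contDiffAt_const
  exact D01_sub (D01_sub (D01_sub (D01_DP hy (c _) (c _)) (D01_DP hy (c _) (c _)))
    (D01_smul (D01_det3 hy (c _) (c _)) (D01_WW hy))) (D01_cr (D01_CC hy (c _)) (D01_CC hy (c _)))

theorem D01_Hh {δ : ℝ} {y : E → V3} (hy : ContDiffAt ℝ k y x) (X A : FF) :
    ContDiffAt ℝ k (fun z => Hh δ (y z) X A) x := by
  unfold Hh
  have c : ∀ a : V3, ContDiffAt ℝ k (fun _ : E => a) x := fun a => contDiffAt_const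
  exact D01_add (D01_add
    (D01_smul ((D01_dot (D01_WW hy) (c _)).div_const 2) (D01_cr hy (c _)))
    (D01_smul ((D01_dot (D01_WW hy) (c _)).div_const 2) (D01_cr hy (c _))))
    (D01_csmul _ (D01_gr hy (c _) (c _)))

theorem D01_Sg {δ t : ℝ} {y : E → V3} (hy : ContDiffAt ℝ k y x) (p q : V3) :
    ContDiffAt ℝ k (fun z => Sg δ t (y z) p q) x := by
  unfold Sg
  have c : ∀ a : V3, ContDiffAt ℝ k (fun _ : E => a) x := fun a => contDiffAt_const
  exact D01_csmul _ (D01_add (D01_cr (c _) (D01_CC hy (c _))) (D01_cr (c _) (D01_CC hy (c _))))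

theorem D01_QQ {δ t : ℝ} (hδ : |δ| ≤ 1) (ht : 1 < t) {y v : E → V3} (hy : ContDiffAt ℝ 3 y x)
    (hv : ContDiffAt ℝ 3 v x) : ContDiffAt ℝ 3 (fun z => QQ δ t (y z) (v z)) x :=
  ((QQ_smooth hδ ht).contDiffAt.comp x hy).clm_apply hv

end Blocks

/-- smoothness of a map into bilinear maps -/
theorem D01_bil {D F G H : Type*} [NormedAddCommGroup D] [NormedSpace ℝ D]
    [NormedAddCommGroup F] [NormedSpace ℝ F] [FiniteDimensional ℝ F]
    [NormedAddCommGroup G] [NormedSpace ℝ G] [FiniteDimensional ℝ G]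
    [NormedAddCommGroup H] [NormedSpace ℝ H] {f : D → F →L[ℝ] G →L[ℝ] H}
    (h : ∀ a b, ContDiff ℝ 3 (fun y => f y a b)) : ContDiff ℝ 3 f := by
  rw [contDiff_clm_apply_iff]
  intro a
  rw [contDiff_clm_apply_iff]
  intro b
  exact h a b

theorem O0b_smooth (δ : ℝ) : ContDiff ℝ 3 (O0b δ) := by
  refine D01_bil (fun X A => ?_)
  have h : (fun y => O0b δ y X A) = fun y => (-cr (om δ y X.1) A.1, cr (aa δ y X.1) A.2) := rfl
  rw [h, contDiff_iff_contDiffAt]
  intro y
  exact (D01_cr (D01_om contDiffAt_id contDiffAt_const) contDiffAt_const).neg.prodMk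
    (D01_cr (D01_aa contDiffAt_id contDiffAt_const) contDiffAt_const)

theorem SSb_smooth (δ t : ℝ) : ContDiff ℝ 3 (SSb δ t) := by
  refine D01_bil (fun X A => ?_)
  have h : (fun y => SSb δ t y X A) = fun y => dot X.1 A.1 + dot X.2 (CC δ t y A.2) := rfl
  rw [h, contDiff_iff_contDiffAt]
  intro y
  exact contDiffAt_const.add (D01_dot contDiffAt_const (D01_CC contDiffAt_id contDiffAt_const))

theorem BBb_smooth {δ t : ℝ} (hδ : |δ| ≤ 1) (ht : 1 < t) : ContDiff ℝ 3 (BBb δ t) := by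
  refine D01_bil (fun X A => ?_)
  have h : (fun y => BBb δ t y X A) = fun y => (Hh δ y X A,
    (1 / 2 : ℝ) • QQ δ t y (Zt δ t y X A) + Sg δ t y X.2 A.2) := rfl
  rw [h, contDiff_iff_contDiffAt]
  intro y
  exact (D01_Hh contDiffAt_id X A).prodMk (D01_add (D01_csmul _
    (D01_QQ hδ ht contDiffAt_id (D01_Zt contDiffAt_id X A))) (D01_Sg contDiffAt_id _ _))

theorem OOb_eq (δ t : ℝ) : OOb δ t = fun y => O0b δ y + BBb δ t y := by
  funext y
  refine ContinuousLinearMap.ext (fun X => ContinuousLinearMap.ext (fun A => ?_))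
  rfl

theorem OOb_smooth {δ t : ℝ} (hδ : |δ| ≤ 1) (ht : 1 < t) : ContDiff ℝ 3 (OOb δ t) := by
  rw [OOb_eq]
  exact (O0b_smooth δ).add (BBb_smooth hδ ht)

/-- derivative of a quadratic curve at the origin -/
theorem D01_quad {G : Type*} [NormedAddCommGroup G] [NormedSpace ℝ G] (a b c : G) :
    HasDerivAt (fun s : ℝ => a + s • b + s ^ 2 • c) b 0 := by
  have h1 : HasDerivAt (fun s : ℝ => s • b) b 0 := by
    have := (hasDerivAt_id (0 : ℝ)).smul_const b
    simpa using this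
  have h2 : HasDerivAt (fun s : ℝ => s ^ 2 • c) (0 : G) 0 := by
    have h3 : HasDerivAt (fun s : ℝ => s ^ 2) (0 : ℝ) 0 := by
      have := hasDerivAt_pow 2 (0 : ℝ)
      simpa using this
    have := h3.smul_const c
    simpa using this
  have h3 : HasDerivAt (fun s : ℝ => a + s • b + s ^ 2 • c) (b + 0) 0 := (h1.const_add a).add h2
  rwa [add_zero] at h3

/-- evaluation of the derivative of a map into bilinear maps, by a quadratic expansion -/
theorem D01_fderiv {D F G H : Type*} [NormedAddCommGroup D] [NormedSpace ℝ D]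
    [NormedAddCommGroup F] [NormedSpace ℝ F]
    [NormedAddCommGroup G] [NormedSpace ℝ G]
    [NormedAddCommGroup H] [NormedSpace ℝ H] {f : D → F →L[ℝ] G →L[ℝ] H} {y v : D} {a : F} {b : G}
    (hf : DifferentiableAt ℝ f y) (p q : H)
    (h : ∀ s : ℝ, f (y + s • v) a b = f y a b + s • p + s ^ 2 • q) :
    fderiv ℝ f y v a b = p := by
  have h1 : HasDerivAt (fun s : ℝ => y + s • v) v 0 := by
    have := ((hasDerivAt_id (0 : ℝ)).smul_const v).const_add y
    simpa using this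
  have h2 : HasFDerivAt f (fderiv ℝ f y) (y + (0 : ℝ) • v) := by
    rw [zero_smul, add_zero]
    exact hf.hasFDerivAt
  have h3 : HasDerivAt (fun s : ℝ => f (y + s • v)) (fderiv ℝ f y v) 0 :=
    HasFDerivAt.comp_hasDerivAt (f := fun s : ℝ => y + s • v) (l := f) (0 : ℝ) h2 h1
  have h4 : HasDerivAt (fun s : ℝ => f (y + s • v) a) (fderiv ℝ f y v a) 0 := by
    have := h3.clm_apply (hasDerivAt_const (0 : ℝ) a)
    simpa using this
  have h5 : HasDerivAt (fun s : ℝ => f (y + s • v) a b) (fderiv ℝ f y v a b) 0 := by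
    have := h4.clm_apply (hasDerivAt_const (0 : ℝ) b)
    simpa using this
  have h6 : (fun s : ℝ => f (y + s • v) a b) = fun s => f y a b + s • p + s ^ 2 • q := by
    funext s
    exact h s
  rw [h6] at h5
  exact h5.unique (D01_quad _ _ _)

theorem D01_om_exp (δ s : ℝ) (y v n : V3) :
    om δ (y + s • v) n = om δ y n + s • dom δ y v n + s ^ 2 • (-(ty δ v • n)) := by
  apply ext3 <;> simp [om, dom, dty, ty, TT, dot] <;> ring

theorem D01_aa_exp (δ s : ℝ) (y v n : V3) :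
    aa δ (y + s • v) n = aa δ y n + s • daa δ y v n + s ^ 2 • (ty δ v • n) := by
  apply ext3 <;> simp [aa, daa, om, dty, ty, sg, TT, dot] <;> ring

theorem D01_PP_exp (δ s : ℝ) (y v p : V3) :
    PP δ (y + s • v) p = PP δ y p + s • dPP δ y v p + s ^ 2 • ((dot v p / 4) • v) := by
  apply ext3 <;> simp [PP, dPP, zz, qq, dot] <;> ring

theorem fderiv_O0b (δ : ℝ) (y v : V3) (X A : FF) :
    fderiv ℝ (O0b δ) y v X A = (-cr (dom δ y v X.1) A.1, cr (daa δ y v X.1) A.2) := by
  refine D01_fderiv ((O0b_smooth δ).contDiffAt.differentiableAt (by norm_num)) _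
    (-cr (-(ty δ v • X.1)) A.1, cr (ty δ v • X.1) A.2) (fun s => ?_)
  simp only [O0b_apply, O0]
  rw [D01_om_exp, D01_aa_exp]
  refine Prod.ext ?_ ?_
  · simp only [Prod.fst_add, Prod.smul_fst, cr_add_left, cr_smul_left]
    module
  · simp only [Prod.snd_add, Prod.smul_snd, cr_add_left, cr_smul_left]

theorem fderiv_SSb (δ t : ℝ) (y v : V3) (a b : FF) :
    fderiv ℝ (SSb δ t) y v a b = dot a.2 (dPP δ y v b.2) := by
  refine D01_fderiv ((SSb_smooth δ t).contDiffAt.differentiableAt (by norm_num)) _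
    (dot a.2 ((dot v b.2 / 4) • v)) (fun s => ?_)
  simp only [SSb_apply, SS, CC]
  rw [D01_PP_exp]
  simp only [dot_add_right, dot_smul_right, smul_eq_mul]
  ring

theorem D01_im3 {E : Type*} [NormedAddCommGroup E] [NormedSpace ℝ E] {x : E} {f : E → ℍ[ℝ]}
    (hf : ContDiffAt ℝ 3 f x) : ContDiffAt ℝ 3 (fun z => im3 (f z)) x := by
  have hlin : IsLinearMap ℝ im3 := ⟨im3_add, im3_smul⟩
  let L : ℍ[ℝ] →L[ℝ] V3 := LinearMap.toContinuousLinearMap (hlin.mk' im3)
  exact L.contDiff.contDiffAt.comp x hf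

theorem THb_smooth {δ t : ℝ} (hδ : |δ| ≤ 1) (ht : 1 < t) {m : AA} (hm : 0 < Del δ m.1) :
    ContDiffAt ℝ 3 (THb δ t) m := by
  have hdel : Continuous (fun m : AA => Del δ m.1) := by
    rw [← contDiff_zero (𝕜 := ℝ), contDiff_iff_contDiffAt]
    intro m
    exact D01_Del contDiffAt_fst
  have hopen : IsOpen {m : AA | 0 < Del δ m.1} := isOpen_lt continuous_const hdel
  refine ContDiffOn.contDiffAt (s := {m : AA | 0 < Del δ m.1}) ?_ (hopen.mem_nhds hm)
  rw [contDiffOn_clm_apply]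
  intro a m hm
  refine ContDiffAt.contDiffWithinAt ?_
  have hm' : Del δ m.1 ≠ 0 := ne_of_gt hm
  have h : (fun m => THb δ t m a) = fun m : AA => (NN δ m.1 a.1,
    QQ δ t m.1 ((-2 : ℝ) • im3 (star m.2 * a.2) + aa δ m.1 (NN δ m.1 a.1))) := rfl
  rw [h]
  have hN : ContDiffAt ℝ 3 (fun m : AA => NN δ m.1 a.1) m :=
    D01_NN contDiffAt_fst contDiffAt_const hm'
  have hs : ContDiffAt ℝ 3 (fun m : AA => star m.2 * a.2) m := by
    have h1 : ContDiffAt ℝ 3 (fun m : AA => star m.2) m := by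
      have h2 : ContDiffAt ℝ 3 (fun q : ℍ[ℝ] => star q) m.2 := by
        have hlin : IsLinearMap ℝ (fun q : ℍ[ℝ] => star q) :=
          ⟨fun a b => star_add a b, fun r a => by ext <;> simp⟩
        let L : ℍ[ℝ] →L[ℝ] ℍ[ℝ] := LinearMap.toContinuousLinearMap (hlin.mk' _)
        exact L.contDiff.contDiffAt
      exact h2.comp m contDiffAt_snd
    exact h1.mul contDiffAt_const
  exact hN.prodMk (D01_QQ hδ ht contDiffAt_fst
    (D01_add (D01_csmul _ (D01_im3 hs)) (D01_aa contDiffAt_fst hN)))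

end

end MP_1b4d75_gt
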