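import Pool.Agent.Lib.MP_1b4d75_gt.Bund
import Pool.Agent.Lib.MP_1b4d75_gt.A06

/-!
# MP_1b4d75_gt, module D02

Directional derivatives: the predicate `HD f x u f'` (f is differentiable at x and has derivative f' in the
direction u) and its rules for all the polynomial objects.

HD.dot, HD.cr, HD.smul etc.: components (EuclideanSpace.proj i is a continuous linear map; for a map into V3 use
`hasFDerivAt_euclidean` / `differentiableAt_euclidean`), products by HasFDerivAt.mul; or: dot, cr, smul are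
continuous bilinear.  The others by unfolding the definition and these rules, ending with a vector identity
(`simp only [...]; module` or ext3; simp; ring).
-/

open scoped Quaternion Topology
open Filter

namespace MP_1b4d75_gt

noncomputable section

/-- `f` is differentiable at `x` with derivative `f'` in the direction `u` -/
def HD {E F : Type*} [NormedAddCommGroup E] [NormedSpace ℝ E] [NormedAddCommGroup F]
    [NormedSpace ℝ F] (f : E → F) (x u : E) (f' : F) : Prop :=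
  DifferentiableAt ℝ f x ∧ fderiv ℝ f x u = f'

section
variable {E F G : Type*} [NormedAddCommGroup E] [NormedSpace ℝ E] [NormedAddCommGroup F]
    [NormedSpace ℝ F] [NormedAddCommGroup G] [NormedSpace ℝ G] {x u : E}

theorem HD.unique {f : E → F} {a b : F} (h : HD f x u a) (h' : HD f x u b) : a = b := by
  rw [← h.2, h'.2]

theorem HD.congr {f g : E → F} {a : F} (h : HD f x u a) (hg : g = f) : HD g x u a := by
  rw [hg]; exact h

theorem HD.of_eq {f : E → F} {a b : F} (h : HD f x u a) (hg : a = b) : HD f x u b := by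
  rw [← hg]; exact h

theorem HD.of_diff {f : E → F} (h : DifferentiableAt ℝ f x) : HD f x u (fderiv ℝ f x u) :=
  ⟨h, rfl⟩

theorem HD.intro {f : E → F} {L : E →L[ℝ] F} {a : F} (h : HasFDerivAt f L x) (ha : L u = a) :
    HD f x u a := ⟨h.differentiableAt, by rw [h.fderiv]; exact ha⟩

theorem HD.const (c : F) : HD (fun _ : E => c) x u 0 :=
  HD.intro (hasFDerivAt_const c x) rfl

/-- a straight line -/
theorem HD.line (y v : F) : HD (fun s : ℝ => y + s • v) 0 1 v :=
  HD.intro (((hasFDerivAt_id (0 : ℝ)).smul_const v).const_add y) (by simp)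

/-- a straight line -/
theorem HD.line_sub (y v : F) : HD (fun s : ℝ => y - s • v) 0 1 (-v) :=
  HD.intro (((hasFDerivAt_id (0 : ℝ)).smul_const v).const_sub y) (by simp)

theorem HD.add {f g : E → F} {f' g' : F} (hf : HD f x u f') (hg : HD g x u g') :
    HD (fun x => f x + g x) x u (f' + g') :=
  HD.intro (hf.1.hasFDerivAt.add hg.1.hasFDerivAt) (by
    rw [_root_.add_apply, hf.2, hg.2])

theorem HD.sub {f g : E → F} {f' g' : F} (hf : HD f x u f') (hg : HD g x u g') :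
    HD (fun x => f x - g x) x u (f' - g') :=
  HD.intro (hf.1.hasFDerivAt.sub hg.1.hasFDerivAt) (by
    rw [_root_.sub_apply, hf.2, hg.2])

theorem HD.neg {f : E → F} {f' : F} (hf : HD f x u f') : HD (fun x => -f x) x u (-f') :=
  HD.intro hf.1.hasFDerivAt.neg (by
    rw [_root_.neg_apply, hf.2])

theorem HD.smul {r : E → ℝ} {f : E → F} {r' : ℝ} {f' : F} (hr : HD r x u r')
    (hf : HD f x u f') : HD (fun x => r x • f x) x u (r' • f x + r x • f') :=
  HD.intro (hr.1.hasFDerivAt.smul hf.1.hasFDerivAt) (by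
    simp [hr.2, hf.2, add_comm])

theorem HD.mul {r f : E → ℝ} {r' f' : ℝ} (hr : HD r x u r')
    (hf : HD f x u f') : HD (fun x => r x * f x) x u (r' * f x + r x * f') :=
  HD.intro (hr.1.hasFDerivAt.mul hf.1.hasFDerivAt) (by
    simp [hr.2, hf.2]; ring)

theorem HD.clm {L : E → F →L[ℝ] G} {f : E → F} {L' : F →L[ℝ] G} {f' : F} (hL : HD L x u L')
    (hf : HD f x u f') : HD (fun x => L x (f x)) x u (L' (f x) + L x f') :=
  HD.intro (hL.1.hasFDerivAt.clm_apply hf.1.hasFDerivAt) (by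
    simp [hL.2, hf.2, add_comm])

theorem HD.fst {f : E → F × G} {f' : F × G} (hf : HD f x u f') :
    HD (fun x => (f x).1) x u f'.1 :=
  HD.intro hf.1.hasFDerivAt.fst (by simp [hf.2])

theorem HD.snd {f : E → F × G} {f' : F × G} (hf : HD f x u f') :
    HD (fun x => (f x).2) x u f'.2 :=
  HD.intro hf.1.hasFDerivAt.snd (by simp [hf.2])

/-- chain rule -/
theorem HD.comp {g : F → G} {f : E → F} {f' : F} (hf : HD f x u f')
    (hg : DifferentiableAt ℝ g (f x)) : HD (fun x => g (f x)) x u (fderiv ℝ g (f x) f') :=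
  HD.intro (hg.hasFDerivAt.comp x hf.1.hasFDerivAt) (by simp [hf.2])

theorem HD.lin {T : V3 → V3} (hT : IsLinearMap ℝ T) {f : E → V3} {f' : V3} (hf : HD f x u f') :
    HD (fun x => T (f x)) x u (T f') :=
  HD.intro ((lin3 T hT).hasFDerivAt.comp x hf.1.hasFDerivAt) (by simp [hf.2])

theorem HD.co {f : E → V3} {f' : V3} (hf : HD f x u f') (i : Fin 3) :
    HD (fun x => f x i) x u (f' i) :=
  HD.intro ((EuclideanSpace.proj (𝕜 := ℝ) i).hasFDerivAt.comp x hf.1.hasFDerivAt)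
    (by simp [hf.2])

theorem mk3_eq (a b c : ℝ) : mk3 a b c = a • mk3 1 0 0 + b • mk3 0 1 0 + c • mk3 0 0 1 := by
  apply ext3 <;> simp

theorem HD.mk3 {a b c : E → ℝ} {a' b' c' : ℝ} (ha : HD a x u a') (hb : HD b x u b')
    (hc : HD c x u c') : HD (fun x => mk3 (a x) (b x) (c x)) x u (MP_1b4d75_gt.mk3 a' b' c') := by
  refine (((ha.smul (HD.const (MP_1b4d75_gt.mk3 1 0 0))).add
    (hb.smul (HD.const (MP_1b4d75_gt.mk3 0 1 0)))).add
    (hc.smul (HD.const (MP_1b4d75_gt.mk3 0 0 1)))).congr ?_ |>.of_eq ?_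
  · funext z
    rw [mk3_eq]
  · rw [mk3_eq a' b' c']
    simp

theorem HD.dot {f g : E → V3} {f' g' : V3} (hf : HD f x u f') (hg : HD g x u g') :
    HD (fun x => dot (f x) (g x)) x u (MP_1b4d75_gt.dot f' (g x) + MP_1b4d75_gt.dot (f x) g') :=
  ((((hf.co 0).mul (hg.co 0)).add ((hf.co 1).mul (hg.co 1))).add
    ((hf.co 2).mul (hg.co 2))).of_eq (by simp only [MP_1b4d75_gt.dot]; ring)

theorem HD.cr {f g : E → V3} {f' g' : V3} (hf : HD f x u f') (hg : HD g x u g') :
    HD (fun x => cr (f x) (g x)) x u (MP_1b4d75_gt.cr f' (g x) + MP_1b4d75_gt.cr (f x) g') :=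
  (HD.mk3 (((hf.co 1).mul (hg.co 2)).sub ((hf.co 2).mul (hg.co 1)))
    (((hf.co 2).mul (hg.co 0)).sub ((hf.co 0).mul (hg.co 2)))
    (((hf.co 0).mul (hg.co 1)).sub ((hf.co 1).mul (hg.co 0)))).of_eq (by
      apply ext3 <;> simp [MP_1b4d75_gt.cr] <;> ring)

theorem HD.det3 {f g h : E → V3} {f' g' h' : V3} (hf : HD f x u f') (hg : HD g x u g')
    (hh : HD h x u h') :
    HD (fun x => det3 (f x) (g x) (h x)) x u (MP_1b4d75_gt.det3 f' (g x) (h x)
      + MP_1b4d75_gt.det3 (f x) g' (h x) + MP_1b4d75_gt.det3 (f x) (g x) h') :=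
  (hf.dot (hg.cr hh)).of_eq (by
    simp only [MP_1b4d75_gt.det3, dot_add_right]; ring)

theorem HD.TT {f : E → V3} {f' : V3} (hf : HD f x u f') (δ : ℝ) :
    HD (fun x => TT δ (f x)) x u (TT δ f') :=
  HD.lin ⟨TT_add δ, TT_smul δ⟩ hf

theorem HD.pr {f g : E → V3} {f' g' : V3} (hf : HD f x u f') (hg : HD g x u g') :
    HD (fun x => pr (f x) (g x)) x u (dpr (f x) f' (g x) + MP_1b4d75_gt.pr (f x) g') :=
  (hg.sub ((hg.dot hf).smul hf)).of_eq (by
    simp only [dpr, MP_1b4d75_gt.pr]; module)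

theorem HD.LL {f g : E → V3} {f' g' : V3} (hf : HD f x u f') (hg : HD g x u g') (δ : ℝ) :
    HD (fun x => LL δ (f x) (g x)) x u (dLL δ (f x) f' (g x) + MP_1b4d75_gt.LL δ (f x) g') :=
  (hf.pr ((hg.cr hf).TT δ)).of_eq (by
    simp only [dLL, MP_1b4d75_gt.LL, TT_add, pr_add]; abel)

theorem HD.ty {f : E → V3} {f' : V3} (hf : HD f x u f') (δ : ℝ) :
    HD (fun x => ty δ (f x)) x u (dty δ (f x) f') :=
  (hf.dot (hf.TT δ)).of_eq (by
    rw [dty, dot_comm (f x) (MP_1b4d75_gt.TT δ f'), TT_symm]; ring)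

theorem HD.sg {f : E → V3} {f' : V3} (hf : HD f x u f') (δ : ℝ) :
    HD (fun x => sg δ (f x)) x u (δ ^ 3 * f' 2) :=
  ((HD.const (1 / 2 : ℝ)).add ((HD.const (δ ^ 3)).mul (hf.co 2))).of_eq (by ring)

theorem HD.aa {f g : E → V3} {f' g' : V3} (hf : HD f x u f') (hg : HD g x u g') (δ : ℝ) :
    HD (fun x => aa δ (f x) (g x)) x u (daa δ (f x) f' (g x) + MP_1b4d75_gt.aa δ (f x) g') :=
  (((hf.sg δ).smul hg).sub ((((HD.const (3 : ℝ)).sub (hf.ty δ)).smul hg).sub
    (hg.TT δ))).of_eq (by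
      simp only [daa, MP_1b4d75_gt.aa, om]; module)

theorem HD.zz {f : E → V3} {f' : V3} (hf : HD f x u f') (δ : ℝ) :
    HD (fun x => zz δ (f x)) x u f' :=
  (hf.add (HD.const _)).of_eq (by simp)

theorem HD.PP {f g : E → V3} {f' g' : V3} (hf : HD f x u f') (hg : HD g x u g') (δ : ℝ) :
    HD (fun x => PP δ (f x) (g x)) x u (dPP δ (f x) f' (g x) + MP_1b4d75_gt.PP δ (f x) g') := by
  refine ((((((hf.zz δ).dot hg).mul (HD.const (1 / 4 : ℝ))).smul (hf.zz δ)).add
    ((HD.const (δ ^ 4 / 320)).smul (HD.lin ⟨qq_add, qq_smul⟩ hg))).congr ?_).of_eq ?_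
  · funext z
    simp only [MP_1b4d75_gt.PP]
    module
  · simp only [dPP, MP_1b4d75_gt.PP]
    module

theorem HD.CC {f g : E → V3} {f' g' : V3} (hf : HD f x u f') (hg : HD g x u g') (δ t : ℝ) :
    HD (fun x => CC δ t (f x) (g x)) x u
      (dPP δ (f x) f' (g x) + MP_1b4d75_gt.CC δ t (f x) g') :=
  (((HD.const t).smul hg).add (hf.PP hg δ)).of_eq (by
    simp only [MP_1b4d75_gt.CC]; module)

theorem HD.dPP {f g h : E → V3} {f' g' h' : V3} (hf : HD f x u f') (hg : HD g x u g')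
    (hh : HD h x u h') (δ : ℝ) :
    HD (fun x => dPP δ (f x) (g x) (h x)) x u ((1 / 4 : ℝ) • (MP_1b4d75_gt.dot (g x) (h x) • f'
      + MP_1b4d75_gt.dot f' (h x) • g x) + MP_1b4d75_gt.dPP δ (f x) g' (h x)
      + MP_1b4d75_gt.dPP δ (f x) (g x) h') :=
  ((HD.const (1 / 4 : ℝ)).smul (((hg.dot hh).smul (hf.zz δ)).add
    (((hf.zz δ).dot hh).smul hg))).of_eq (by
      simp only [MP_1b4d75_gt.dPP]; module)

theorem HD.DP {f g h : E → V3} {f' g' h' : V3} (hf : HD f x u f') (hg : HD g x u g')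
    (hh : HD h x u h') (δ : ℝ) :
    HD (fun x => DP δ (f x) (g x) (h x)) x u (dDP δ (f x) f' (g x) (h x)
      + MP_1b4d75_gt.DP δ (f x) g' (h x) + MP_1b4d75_gt.DP δ (f x) (g x) h') := by
  have h1 := hf.dPP (hf.LL hg δ) hh δ
  have h2 := (hf.aa hg δ).cr (hf.PP hh δ)
  have h3 := hf.PP ((hf.aa hg δ).cr hh) δ
  refine ((h1.add h2).sub h3).of_eq ?_
  simp only [dDP, MP_1b4d75_gt.DP, dPP_add_v, cr_add_left, cr_add_right, PP_add]
  module

theorem HD.WW {f : E → V3} {f' : V3} (hf : HD f x u f') (δ : ℝ) :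
    HD (fun x => WW δ (f x)) x u (dWW δ (f x) f') := by
  have hK : HD (fun x => KK δ (f x)) x u (dKK δ (f x) f') := by
    refine (((((HD.const (6 + 5 * δ ^ 2)).sub ((HD.const 6).mul (hf.ty δ))).add
      ((HD.const 3).mul ((hf.ty δ).mul (hf.ty δ)))).sub
      ((HD.const 2).mul ((hf.TT δ).dot (hf.TT δ)))).congr ?_).of_eq ?_
    · funext z
      simp only [KK]
      ring
    · simp only [dKK]
      rw [dot_comm (MP_1b4d75_gt.TT δ (f x)) (MP_1b4d75_gt.TT δ f')]
      ring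
  have hgs : HD (fun x => gs δ (f x)) x u (dgs δ (f x) f') := by
    refine ((HD.const (δ ^ 3)).smul (hf.pr ((hf.pr (HD.const e3)).TT δ))).of_eq ?_
    simp only [dgs, TT_add, pr_add]
    have e : MP_1b4d75_gt.pr (f x) 0 = 0 := by simp [MP_1b4d75_gt.pr, dot_zero_left]
    rw [e, TT_zero, e]
    module
  refine ((((hK.sub ((hf.sg δ).mul (hf.sg δ))).neg.smul hf).sub hgs).congr ?_).of_eq ?_
  · funext z
    simp only [MP_1b4d75_gt.WW]
    congr 3
    ring
  · simp only [dWW]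
    module

theorem diff_gr0 {f g h : E → V3} (hf : DifferentiableAt ℝ f x) (hg : DifferentiableAt ℝ g x)
    (hh : DifferentiableAt ℝ h x) (δ : ℝ) :
    DifferentiableAt ℝ (fun x => gr0 δ (f x) (g x) (h x)) x := by
  have a1 : HD f x 0 (fderiv ℝ f x 0) := HD.of_diff hf
  have a2 : HD g x 0 (fderiv ℝ g x 0) := HD.of_diff hg
  have a3 : HD h x 0 (fderiv ℝ h x 0) := HD.of_diff hh
  have b := (((a1.zz δ).dot a3).smul a2).add (((a1.zz δ).dot a2).smul a3)
  have c := ((a1.PP a3 δ).cr a2).add ((a1.PP a2 δ).cr a3)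
  exact (((HD.const (1 / 4 : ℝ)).smul (a1.cr ((a1.pr b).TT δ))).add
    ((((a1.sg δ).sub (HD.const 3)).add (a1.ty δ)).smul c)).add (c.TT δ) |>.1

end

end

end MP_1b4d75_gt
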