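import Pool.Agent.Lib.MP_1b4d75_gt.D02
import Pool.Agent.Lib.MP_1b4d75_gt.A02

/-!
# MP_1b4d75_gt, module D03

Derivatives along the transport curve `y + s L m`, `n + s om(m) x n`, `p - s aa(m) x p` at s = 0.

hd_det: HD.det3, LL_eq (L m = om x y), det3_rot.  hd_perp: HD.dot, LL_eq, dot_rot.
hd_W: HD.dot, HD.WW, definition of DW, dot_rot.  hd_DP: HD.dot, HD.DP, definition of D2P, dot_rot.
hd_gr: gr_dot' (A06): dot n gr = dot p (DP n p') - dot n y * dot gr0 y; the factor dot n y vanishes at s = 0 and has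
derivative 0 (hd_perp); gr0 differentiable (diff_gr0).
hd_CC: definition of DP.  hd_det_C: HD.det3 and hd_CC and det3_rot for w = -aa(m).
-/

open scoped Quaternion Topology
open Filter

namespace MP_1b4d75_gt

noncomputable section

/-- base point of the transport curve -/
def cy (δ : ℝ) (y m : V3) (s : ℝ) : V3 := y + s • LL δ y m
/-- transport of `n` -/
def cn (δ : ℝ) (y m n : V3) (s : ℝ) : V3 := n + s • cr (om δ y m) n
/-- transport of `p` -/
def cp (δ : ℝ) (y m p : V3) (s : ℝ) : V3 := p - s • cr (aa δ y m) p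

theorem HD_cy (δ : ℝ) (y m : V3) : HD (cy δ y m) 0 1 (LL δ y m) := HD.line _ _
theorem HD_cn (δ : ℝ) (y m n : V3) : HD (cn δ y m n) 0 1 (cr (om δ y m) n) := HD.line _ _
theorem HD_cp (δ : ℝ) (y m p : V3) : HD (cp δ y m p) 0 1 (-cr (aa δ y m) p) := HD.line_sub _ _

theorem cy0 (δ : ℝ) (y m : V3) : cy δ y m 0 = y := by simp [cy]
theorem cn0 (δ : ℝ) (y m n : V3) : cn δ y m n 0 = n := by simp [cn]
theorem cp0 (δ : ℝ) (y m p : V3) : cp δ y m p 0 = p := by simp [cp]

theorem hd_det {δ : ℝ} {y m : V3} (hy : dot y y = 1) (hm : dot m y = 0) (n1 n2 : V3) :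
    HD (fun s => det3 (cy δ y m s) (cn δ y m n1 s) (cn δ y m n2 s)) 0 1 0 := by
  refine ((HD_cy δ y m).det3 (HD_cn δ y m n1) (HD_cn δ y m n2)).of_eq ?_
  rw [cy0, cn0, cn0, LL_eq hy hm]
  exact det3_rot _ _ _ _

theorem hd_perp {δ : ℝ} {y m : V3} (hy : dot y y = 1) (hm : dot m y = 0) (n : V3) :
    HD (fun s => dot (cn δ y m n s) (cy δ y m s)) 0 1 0 := by
  refine ((HD_cn δ y m n).dot (HD_cy δ y m)).of_eq ?_
  rw [cy0, cn0, LL_eq hy hm]
  exact dot_rot _ _ _

theorem hd_W (δ : ℝ) (y m p : V3) :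
    HD (fun s => dot (WW δ (cy δ y m s)) (cp δ y m p s)) 0 1 (dot (DW δ y m) p) := by
  refine (((HD_cy δ y m).WW δ).dot (HD_cp δ y m p)).of_eq ?_
  rw [cy0, cp0, DW, dot_add_left, dot_neg_right]
  have := dot_rot (aa δ y m) (WW δ y) p
  linarith

theorem hd_DP (δ : ℝ) (y m n p p' : V3) :
    HD (fun s => dot (cp δ y m p s) (DP δ (cy δ y m s) (cn δ y m n s) (cp δ y m p' s))) 0 1
      (dot p (D2P δ y m n p')) := by
  refine ((HD_cp δ y m p).dot ((HD_cy δ y m).DP (HD_cn δ y m n) (HD_cp δ y m p') δ)).of_eq ?_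
  rw [cy0, cn0, cp0, cp0, D2P]
  have h1 : DP δ y n (-cr (aa δ y m) p') = -DP δ y n (cr (aa δ y m) p') := by
    have := DP_smul δ y (-1) n (cr (aa δ y m) p')
    simpa using this
  rw [h1, dot_neg_left]
  simp only [dot_add_right, dot_sub_right, dot_neg_right]
  have := dot_rot (aa δ y m) p (DP δ y n p')
  linarith

theorem hd_gr {δ : ℝ} {y m n : V3} (hy : dot y y = 1) (hm : dot m y = 0) (hn : dot n y = 0)
    (p p' : V3) :
    HD (fun s => dot (cn δ y m n s) (gr δ (cy δ y m s) (cp δ y m p s) (cp δ y m p' s))) 0 1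
      (dot p (D2P δ y m n p')) := by
  have e : (fun s => dot (cn δ y m n s) (gr δ (cy δ y m s) (cp δ y m p s) (cp δ y m p' s))) =
      fun s => dot (cp δ y m p s) (DP δ (cy δ y m s) (cn δ y m n s) (cp δ y m p' s)) -
        dot (cn δ y m n s) (cy δ y m s) *
          dot (gr0 δ (cy δ y m s) (cp δ y m p s) (cp δ y m p' s)) (cy δ y m s) := by
    funext s
    rw [gr_dot']
  have hg : HD (fun s => gr0 δ (cy δ y m s) (cp δ y m p s) (cp δ y m p' s)) 0 1 _ :=
    HD.of_diff (diff_gr0 (HD_cy δ y m).1 (HD_cp δ y m p).1 (HD_cp δ y m p').1 δ)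
  refine (((hd_DP δ y m n p p').sub ((hd_perp hy hm n).mul
    (hg.dot (HD_cy δ y m)))).congr e).of_eq ?_
  rw [cy0, cn0, hn]
  ring

theorem hd_CC (δ t : ℝ) (y m p : V3) :
    HD (fun s => CC δ t (cy δ y m s) (cp δ y m p s)) 0 1
      (DP δ y m p - cr (aa δ y m) (CC δ t y p)) := by
  refine ((HD_cy δ y m).CC (HD_cp δ y m p) δ t).of_eq ?_
  rw [cy0, cp0, DP]
  have h1 : CC δ t y (-cr (aa δ y m) p) = -CC δ t y (cr (aa δ y m) p) := by
    have := CC_smul δ t y (-1) (cr (aa δ y m) p)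
    simpa using this
  rw [h1]
  simp only [CC, cr_add_right, cr_smul_right]
  module

theorem hd_det_C (δ t : ℝ) (y m p p' p'' : V3) :
    HD (fun s => det3 (cp δ y m p s) (CC δ t (cy δ y m s) (cp δ y m p' s))
        (CC δ t (cy δ y m s) (cp δ y m p'' s))) 0 1
      (det3 p (DP δ y m p') (CC δ t y p'') + det3 p (CC δ t y p') (DP δ y m p'')) := by
  refine ((HD_cp δ y m p).det3 (hd_CC δ t y m p') (hd_CC δ t y m p'')).of_eq ?_
  rw [cy0, cp0, cp0, cp0]
  have := det3_rot (aa δ y m) p (CC δ t y p') (CC δ t y p'')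
  simp only [det3, cr_sub_left, cr_sub_right, dot_sub_right, dot_neg_left] at this ⊢
  linarith

end

end MP_1b4d75_gt
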