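import Pool.Agent.Lib.MP_1b4d75_gt.A07
import Pool.Agent.Lib.MP_1b4d75_gt.A09

/-!
# MP_1b4d75_gt, module D04

The functions `E22 = S(X1, B(X2,X2))` and `E12 = S(X1, B(X1,X2))`, exactly, without any constraint on y.

SS y X1 (BB y X A) = dot n1 (Hh X A) + (1/2) dot p1 (Zt X A) + dot (CC p1) (Sg X.2 A.2)  (CC_QQ, CC_symm).
E22: Zt X2 X2 = 0 (Zt_anti), dot n1 (cr y n2) = - det3 y n1 n2.
E12: dot n1 (cr y n1) = 0, definition of Zt; dot p1 (cr a b) with dot_cr_cyc; det3 a b c = dot a (cr b c).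
-/

open scoped Quaternion Topology
open Filter

namespace MP_1b4d75_gt

noncomputable section

theorem SS_BB {δ t : ℝ} (hδ : |δ| ≤ 1) (ht : 1 < t) (y : V3) (X1 X A : FF) :
    SS δ t y X1 (BB δ t y X A) = dot X1.1 (Hh δ y X A) + 1 / 2 * dot X1.2 (Zt δ t y X A)
      + dot (CC δ t y X1.2) (Sg δ t y X.2 A.2) := by
  have h1 : CC δ t y ((1 / 2 : ℝ) • QQ δ t y (Zt δ t y X A) + Sg δ t y X.2 A.2)
      = (1 / 2 : ℝ) • Zt δ t y X A + CC δ t y (Sg δ t y X.2 A.2) := by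
    rw [CC_add, CC_smul, CC_QQ hδ ht]
  show dot X1.1 (Hh δ y X A)
    + dot X1.2 (CC δ t y ((1 / 2 : ℝ) • QQ δ t y (Zt δ t y X A) + Sg δ t y X.2 A.2)) = _
  rw [h1, dot_add_right, dot_smul_right, CC_symm]
  ring

theorem D04_dot_cr (y a b : V3) : dot a (cr y b) = -det3 y a b := by
  simp [cr, dot, det3]
  ring

theorem D04_det_b (a b c : V3) : dot a (cr b c) = -det3 b a c := by
  simp [cr, dot, det3]
  ring

theorem E22_eq {δ t : ℝ} (hδ : |δ| ≤ 1) (ht : 1 < t) (y : V3) (X1 X2 : FF) :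
    SS δ t y X1 (BB δ t y X2 X2) = -(det3 y X1.1 X2.1 * dot (WW δ y) X2.2)
      + 1 / 2 * dot X1.1 (gr δ y X2.2 X2.2)
      + det3 X2.2 (CC δ t y X2.2) (CC δ t y X1.2) := by
  rw [SS_BB hδ ht]
  have hZ : Zt δ t y X2 X2 = 0 := by
    unfold Zt
    rw [det3_self_right, cr_self]
    simp
  rw [hZ, dot_zero_right]
  unfold Hh Sg
  simp only [dot_add_right, dot_smul_right, D04_dot_cr]
  rw [det3_swap X2.2 (CC δ t y X1.2) (CC δ t y X2.2)]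
  ring

theorem E12_eq {δ t : ℝ} (hδ : |δ| ≤ 1) (ht : 1 < t) (y : V3) (X1 X2 : FF) :
    SS δ t y X1 (BB δ t y X1 X2) = -(det3 y X1.1 X2.1 * dot (WW δ y) X1.2)
      + 1 / 2 * dot X1.1 (gr δ y X1.2 X2.2)
      + 1 / 2 * dot X1.2 (DP δ y X1.1 X2.2) - 1 / 2 * dot X1.2 (DP δ y X2.1 X1.2)
      - det3 X1.2 (CC δ t y X1.2) (CC δ t y X2.2) := by
  rw [SS_BB hδ ht]
  unfold Hh Sg Zt
  simp only [dot_add_right, dot_sub_right, dot_smul_right]
  rw [D04_dot_cr y X1.1 X1.1, det3_self_right, D04_dot_cr y X1.1 X2.1,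
    D04_det_b (CC δ t y X1.2) X2.2 (CC δ t y X1.2), det3_self_right,
    D04_det_b (CC δ t y X1.2) X1.2 (CC δ t y X2.2), dot_comm X1.2 (WW δ y)]
  have h1 : dot X1.2 (cr (CC δ t y X1.2) (CC δ t y X2.2))
      = det3 X1.2 (CC δ t y X1.2) (CC δ t y X2.2) := rfl
  rw [h1]
  ring

end

end MP_1b4d75_gt
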