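import Pool.Agent.Lib.MP_1b4d75_gt.D03
import Pool.Agent.Lib.MP_1b4d75_gt.D04

/-!
# MP_1b4d75_gt, module D05

Derivatives of `E22` along X1 and of `E12` along X2.

Use E22_eq / E12_eq at the points cy s, and hd_det, hd_W, hd_DP, hd_gr, hd_det_C of D03 (product rule HD.mul for
det3 * <W,p>: the derivative of det3 vanishes).  cF X A s has components cn, cp (by rfl / Prod.ext).
-/

open scoped Quaternion Topology
open Filter

namespace MP_1b4d75_gt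

noncomputable section

/-- transport of a pair -/
def cF (δ : ℝ) (y : V3) (X A : FF) (s : ℝ) : FF := A - s • O0 δ y X A

theorem cF_fst (δ : ℝ) (y : V3) (X A : FF) (s : ℝ) : (cF δ y X A s).1 = cn δ y X.1 A.1 s := by
  simp [cF, cn, O0]

theorem cF_snd (δ : ℝ) (y : V3) (X A : FF) (s : ℝ) : (cF δ y X A s).2 = cp δ y X.1 A.2 s := by
  simp [cF, cp, O0]

/-- derivative of `E22` in the direction `X1` -/
def dE22 (δ t : ℝ) (y : V3) (X1 X2 : FF) : ℝ :=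
  -(det3 y X1.1 X2.1 * dot (DW δ y X1.1) X2.2) + 1 / 2 * dot X2.2 (D2P δ y X1.1 X1.1 X2.2)
    + dot (cr X2.2 (DP δ y X1.1 X2.2)) (CC δ t y X1.2)
    + dot (cr X2.2 (CC δ t y X2.2)) (DP δ y X1.1 X1.2)

/-- derivative of `E12` in the direction `X2` -/
def dE12 (δ t : ℝ) (y : V3) (X1 X2 : FF) : ℝ :=
  -(det3 y X1.1 X2.1 * dot (DW δ y X2.1) X1.2) + dot X1.2 (D2P δ y X2.1 X1.1 X2.2)
    - 1 / 2 * dot X1.2 (D2P δ y X2.1 X2.1 X1.2)
    - dot (cr (DP δ y X2.1 X1.2) (CC δ t y X2.2)) X1.2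
    - dot (cr (CC δ t y X1.2) (DP δ y X2.1 X2.2)) X1.2

theorem d05_zero (δ : ℝ) (y m : V3) : cy δ y m 0 = y := by
  simp [cy]

theorem d05_zero_n (δ : ℝ) (y m n : V3) : cn δ y m n 0 = n := by
  simp [cn]

theorem d05_zero_p (δ : ℝ) (y m p : V3) : cp δ y m p 0 = p := by
  simp [cp]

/-- multiplication by a constant -/
theorem d05_const {f : ℝ → ℝ} {x u f' : ℝ} (c : ℝ) (hf : HD f x u f') :
    HD (fun s => c * f s) x u (c * f') := by
  refine (HD.mul (HD.const c) hf).of_eq ?_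
  ring

theorem hd_E22 {δ t : ℝ} (hδ : |δ| ≤ 1) (ht : 1 < t) {y : V3} (hy : dot y y = 1) (X1 X2 : FF)
    (h1 : dot X1.1 y = 0) (h2 : dot X2.1 y = 0) :
    HD (fun s => SS δ t (cy δ y X1.1 s) (cF δ y X1 X1 s)
      (BB δ t (cy δ y X1.1 s) (cF δ y X1 X2 s) (cF δ y X1 X2 s))) 0 1 (dE22 δ t y X1 X2) := by
  have hA := (HD.mul (hd_det (δ := δ) hy h1 X1.1 X2.1) (hd_W δ y X1.1 X2.2)).neg
  have hB := d05_const (1 / 2) (hd_gr (δ := δ) hy h1 h1 X2.2 X2.2)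
  have hC := hd_det_C δ t y X1.1 X2.2 X2.2 X1.2
  refine (((hA.add hB).add hC).congr ?_).of_eq ?_
  · funext s
    rw [E22_eq hδ ht, cF_fst, cF_fst, cF_snd, cF_snd]
  · simp only [d05_zero, d05_zero_n, d05_zero_p, dE22, det3, dot_cr_swap]
    ring

theorem hd_E12 {δ t : ℝ} (hδ : |δ| ≤ 1) (ht : 1 < t) {y : V3} (hy : dot y y = 1) (X1 X2 : FF)
    (h1 : dot X1.1 y = 0) (h2 : dot X2.1 y = 0) :
    HD (fun s => SS δ t (cy δ y X2.1 s) (cF δ y X2 X1 s)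
      (BB δ t (cy δ y X2.1 s) (cF δ y X2 X1 s) (cF δ y X2 X2 s))) 0 1 (dE12 δ t y X1 X2) := by
  have hA := (HD.mul (hd_det (δ := δ) hy h2 X1.1 X2.1) (hd_W δ y X2.1 X1.2)).neg
  have hB := d05_const (1 / 2) (hd_gr (δ := δ) hy h2 h1 X1.2 X2.2)
  have hD := d05_const (1 / 2) (hd_DP δ y X2.1 X1.1 X1.2 X2.2)
  have hE := d05_const (1 / 2) (hd_DP δ y X2.1 X2.1 X1.2 X1.2)
  have hC := hd_det_C δ t y X2.1 X1.2 X1.2 X2.2
  refine (((((hA.add hB).add hD).sub hE).sub hC).congr ?_).of_eq ?_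
  · funext s
    rw [E12_eq hδ ht, cF_fst, cF_fst, cF_snd, cF_snd]
  · simp only [d05_zero, d05_zero_n, d05_zero_p, dE12, det3]
    rw [dot_comm (cr (DP δ y X2.1 X1.2) (CC δ t y X2.2)) X1.2,
      dot_comm (cr (CC δ t y X1.2) (DP δ y X2.1 X2.2)) X1.2]
    ring

end

end MP_1b4d75_gt
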