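import Pool.Agent.Lib.MP_1b4d75_gt.D01
import Pool.Agent.Lib.MP_1b4d75_gt.D05
import Pool.Agent.Lib.MP_1b4d75_gt.A08

/-!
# MP_1b4d75_gt, module D06

Product rule along the transport curve.

SS (cy s) a (BB (cy s) b c) = SSb (cy s) (a) (BBb (cy s) b c); HD.comp for SSb, BBb at cy (D01), HD.clm three
times, fderiv_SSb.  The SS-part: derivative = dot a.2 (dPP (LL X.1) (BB A B).2) + SS (-O0 X a) (BB A B) + SS a (...),
and O0_met (A08) with b = BB A B replaces dot a.2 (dPP ..) .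
cF X A is the line A - s O0 X A: HD.line_sub.
-/

open scoped Quaternion Topology
open Filter

namespace MP_1b4d75_gt

noncomputable section

/-- covariant derivative of `B` -/
def covB (δ t : ℝ) (y : V3) (X A B : FF) : FF :=
  fderiv ℝ (BBb δ t) y (LL δ y X.1) A B - BB δ t y (O0 δ y X A) B
    + O0 δ y X (BB δ t y A B) - BB δ t y A (O0 δ y X B)

theorem D06_cy0 (δ : ℝ) (y m : V3) : cy δ y m 0 = y := by
  simp [cy]

theorem D06_cF0 (δ : ℝ) (y : V3) (X A : FF) : cF δ y X A 0 = A := by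
  simp [cF]

theorem D06_cF (δ : ℝ) (y : V3) (X A : FF) : HD (cF δ y X A) 0 1 (-O0 δ y X A) :=
  HD.line_sub _ _

theorem hd_SSBB {δ t : ℝ} (hδ : |δ| ≤ 1) (ht : 1 < t) (y : V3) (X a A B : FF) :
    HD (fun s => SS δ t (cy δ y X.1 s) (cF δ y X a s)
      (BB δ t (cy δ y X.1 s) (cF δ y X A s) (cF δ y X B s))) 0 1
      (SS δ t y a (covB δ t y X A B) + dot a.2 (DP δ y X.1 (BB δ t y A B).2)) := by
  have h0 := HD_cy δ y X.1
  have hS : HD (fun s => SSb δ t (cy δ y X.1 s)) 0 1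
      (fderiv ℝ (SSb δ t) (cy δ y X.1 0) (LL δ y X.1)) :=
    HD.comp h0 ((SSb_smooth δ t).contDiffAt.differentiableAt (by norm_num))
  have hB : HD (fun s => BBb δ t (cy δ y X.1 s)) 0 1
      (fderiv ℝ (BBb δ t) (cy δ y X.1 0) (LL δ y X.1)) :=
    HD.comp h0 ((BBb_smooth hδ ht).contDiffAt.differentiableAt (by norm_num))
  have hB1 := hB.clm (D06_cF δ y X A)
  have hB2 := hB1.clm (D06_cF δ y X B)
  have hS1 := hS.clm (D06_cF δ y X a)
  have hS2 := hS1.clm hB2
  refine HD.of_eq hS2 ?_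
  simp only [D06_cy0, D06_cF0, add_apply, BBb_apply, SSb_apply, fderiv_SSb]
  have key := O0_met δ t y X a (BB δ t y A B)
  have e1 : SS δ t y (-O0 δ y X a) (BB δ t y A B) = -SS δ t y (O0 δ y X a) (BB δ t y A B) := by
    have := (SS_bil δ t y).smul_left (-1) (O0 δ y X a) (BB δ t y A B)
    simpa using this
  have e2 : BB δ t y (-O0 δ y X A) B = -BB δ t y (O0 δ y X A) B := by
    have := (BB_bil δ t y).smul_left (-1) (O0 δ y X A) B
    simpa using this
  have e3 : BB δ t y A (-O0 δ y X B) = -BB δ t y A (O0 δ y X B) := by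
    have := (BB_bil δ t y).smul_right (-1) A (O0 δ y X B)
    simpa using this
  rw [e1, e2, e3, key]
  have e4 : covB δ t y X A B = (fderiv ℝ (BBb δ t) y (LL δ y X.1) A B + -BB δ t y (O0 δ y X A) B
      + -BB δ t y A (O0 δ y X B)) + O0 δ y X (BB δ t y A B) := by
    unfold covB
    abel
  rw [e4, (SS_bil δ t y).add_right _ _ (O0 δ y X (BB δ t y A B))]
  ring

end

end MP_1b4d75_gt
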