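import Pool.Agent.Lib.MP_1b4d75_gt.D06
import Pool.Agent.Lib.MP_1b4d75_gt.A04
import Pool.Agent.Lib.MP_1b4d75_gt.A05
import Pool.Agent.Lib.MP_1b4d75_gt.A09

/-!
# MP_1b4d75_gt, module D07

Splitting of the curvature in the background curvature and the `B`-terms.

OO = O0 + BB, fderiv OOb = fderiv O0b + fderiv BBb (OOb_eq, D01), bilinearity (O0_bil, BB_bil).
O0-part: fderiv_O0b; first component by curv_om (A04): -(K w) y x n2, second by curv_aa (A05): w W x p2 (jacobi).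
dot n1 (cr y n2) = - det3 y n1 n2.  O0 (BB X2 X1 - BB X1 X2) X2 = 0 because the first component of
BB X2 X1 - BB X1 X2 vanishes (BB_tors, A09) and om 0 = aa 0 = 0.  The rest is a reordering.
-/

open scoped Quaternion Topology
open Filter

namespace MP_1b4d75_gt

noncomputable section

/-- the background curvature -/
theorem D07_bg {δ : ℝ} {y : V3} (hy : dot y y = 1)
    (X1 X2 : FF) (h1 : dot X1.1 y = 0) (h2 : dot X2.1 y = 0) :
    fderiv ℝ (O0b δ) y (LL δ y X1.1) X2 X2 - fderiv ℝ (O0b δ) y (LL δ y X2.1) X1 X2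
      + O0 δ y (O0 δ y X2 X1 - O0 δ y X1 X2) X2
      + O0 δ y X1 (O0 δ y X2 X2) - O0 δ y X2 (O0 δ y X1 X2)
      = (-(KK δ y * det3 y X1.1 X2.1) • cr y X2.1, det3 y X1.1 X2.1 • cr (WW δ y) X2.2) := by
  have c1 := curv_om (δ := δ) hy h1 h2
  have c2 := curv_aa (δ := δ) hy h1 h2
  have t0 : (O0 δ y X2 X1 - O0 δ y X1 X2).1
      = cr (om δ y X1.1) X2.1 - cr (om δ y X2.1) X1.1 := by
    simp only [O0, Prod.fst_sub]
    abel
  rw [fderiv_O0b, fderiv_O0b]
  refine Prod.ext ?_ ?_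
  · have j1 := jacobi (om δ y X1.1) (om δ y X2.1) X2.1
    have e1 : (O0 δ y (O0 δ y X2 X1 - O0 δ y X1 X2) X2).1
        = -cr (om δ y (cr (om δ y X1.1) X2.1 - cr (om δ y X2.1) X1.1)) X2.1 := by
      rw [← t0]
      rfl
    have e2 : (O0 δ y X1 (O0 δ y X2 X2)).1 = cr (om δ y X1.1) (cr (om δ y X2.1) X2.1) := by
      simp only [O0, cr_neg_right, neg_neg]
    have e3 : (O0 δ y X2 (O0 δ y X1 X2)).1 = cr (om δ y X2.1) (cr (om δ y X1.1) X2.1) := by
      simp only [O0, cr_neg_right, neg_neg]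
    simp only [Prod.fst_add, Prod.fst_sub, e1, e2, e3]
    have k1 : cr (dom δ y (LL δ y X1.1) X2.1 - dom δ y (LL δ y X2.1) X1.1
      + om δ y (cr (om δ y X1.1) X2.1 - cr (om δ y X2.1) X1.1)
      - cr (om δ y X1.1) (om δ y X2.1)) X2.1 = (KK δ y * det3 y X1.1 X2.1) • cr y X2.1 := by
      rw [c1, cr_smul_left]
    rw [cr_sub_left, cr_add_left, cr_sub_left] at k1
    rw [j1, neg_smul, ← k1]
    abel
  · have j1 := jacobi (aa δ y X1.1) (aa δ y X2.1) X2.2
    have e1 : (O0 δ y (O0 δ y X2 X1 - O0 δ y X1 X2) X2).2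
        = cr (aa δ y (cr (om δ y X1.1) X2.1 - cr (om δ y X2.1) X1.1)) X2.2 := by
      rw [← t0]
      rfl
    have e2 : (O0 δ y X1 (O0 δ y X2 X2)).2 = cr (aa δ y X1.1) (cr (aa δ y X2.1) X2.2) := rfl
    have e3 : (O0 δ y X2 (O0 δ y X1 X2)).2 = cr (aa δ y X2.1) (cr (aa δ y X1.1) X2.2) := rfl
    simp only [Prod.snd_add, Prod.snd_sub, e1, e2, e3]
    have k1 : cr (daa δ y (LL δ y X1.1) X2.1 - daa δ y (LL δ y X2.1) X1.1
      + aa δ y (cr (om δ y X1.1) X2.1 - cr (om δ y X2.1) X1.1)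
      + cr (aa δ y X1.1) (aa δ y X2.1)) X2.2 = det3 y X1.1 X2.1 • cr (WW δ y) X2.2 := by
      rw [c2, cr_smul_left]
    rw [cr_add_left, cr_add_left, cr_sub_left] at k1
    rw [j1, ← k1]
    abel

theorem Rh_split {δ t : ℝ} (hδ : |δ| ≤ 1 / 10) (ht : 1 < t) {y : V3} (hy : dot y y = 1)
    (X1 X2 : FF) (h1 : dot X1.1 y = 0) (h2 : dot X2.1 y = 0) :
    SS δ t y X1 (Rh δ t y X1 X2 X2)
      = KK δ y * det3 y X1.1 X2.1 ^ 2
        + det3 y X1.1 X2.1 * dot (cr (WW δ y) X2.2) (CC δ t y X1.2)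
        + SS δ t y X1 (covB δ t y X1 X2 X2) - SS δ t y X1 (covB δ t y X2 X1 X2)
        + SS δ t y X1 (BB δ t y (BB δ t y X2 X1 - BB δ t y X1 X2) X2)
        + SS δ t y X1 (BB δ t y X1 (BB δ t y X2 X2))
        - SS δ t y X1 (BB δ t y X2 (BB δ t y X1 X2)) := by
  have hδ1 : |δ| ≤ 1 := by linarith
  have hfd : fderiv ℝ (OOb δ t) y = fderiv ℝ (O0b δ) y + fderiv ℝ (BBb δ t) y := by
    rw [OOb_eq]
    exact fderiv_fun_add ((O0b_smooth δ).contDiffAt.differentiableAt (by norm_num))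
      ((BBb_smooth hδ1 ht).contDiffAt.differentiableAt (by norm_num))
  have hz : O0 δ y (BB δ t y X2 X1 - BB δ t y X1 X2) X2 = 0 := by
    rw [BB_tors]
    have o0 : om δ y 0 = 0 := by
      have := om_smul δ y 0 0
      simpa using this
    have a0 : aa δ y 0 = 0 := by
      have := aa_smul δ y 0 0
      simpa using this
    simp only [O0, o0, a0, cr_zero_left, neg_zero]
    rfl
  have hR : Rh δ t y X1 X2 X2
      = (fderiv ℝ (O0b δ) y (LL δ y X1.1) X2 X2 - fderiv ℝ (O0b δ) y (LL δ y X2.1) X1 X2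
      + O0 δ y (O0 δ y X2 X1 - O0 δ y X1 X2) X2
      + O0 δ y X1 (O0 δ y X2 X2) - O0 δ y X2 (O0 δ y X1 X2))
      + covB δ t y X1 X2 X2 - covB δ t y X2 X1 X2
      + BB δ t y (BB δ t y X2 X1 - BB δ t y X1 X2) X2
      + BB δ t y X1 (BB δ t y X2 X2) - BB δ t y X2 (BB δ t y X1 X2) := by
    have k1 : OO δ t y X2 X1 - OO δ t y X1 X2 = (O0 δ y X2 X1 - O0 δ y X1 X2)
        + (BB δ t y X2 X1 - BB δ t y X1 X2) := by
      simp only [OO]
      abel
    have k2 : OO δ t y (OO δ t y X2 X1 - OO δ t y X1 X2) X2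
        = O0 δ y (O0 δ y X2 X1 - O0 δ y X1 X2) X2
          + (BB δ t y (O0 δ y X2 X1) X2 - BB δ t y (O0 δ y X1 X2) X2)
          + BB δ t y (BB δ t y X2 X1 - BB δ t y X1 X2) X2 := by
      rw [k1]
      have b1 := (BB_bil δ t y).add_left (O0 δ y X2 X1 - O0 δ y X1 X2)
        (BB δ t y X2 X1 - BB δ t y X1 X2) X2
      have b2 := (O0_bil δ y).add_left (O0 δ y X2 X1 - O0 δ y X1 X2)
        (BB δ t y X2 X1 - BB δ t y X1 X2) X2
      have b3 := (BB_bil δ t y).add_left (O0 δ y X2 X1 - O0 δ y X1 X2) (O0 δ y X1 X2) X2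
      rw [sub_add_cancel] at b3
      unfold OO
      rw [b1, b2, hz, b3]
      abel
    have k3 : ∀ A B C : FF, OO δ t y A (OO δ t y B C) = O0 δ y A (O0 δ y B C)
        + O0 δ y A (BB δ t y B C) + BB δ t y A (O0 δ y B C) + BB δ t y A (BB δ t y B C) := by
      intro A B C
      have b1 := (BB_bil δ t y).add_right A (O0 δ y B C) (BB δ t y B C)
      have b2 := (O0_bil δ y).add_right A (O0 δ y B C) (BB δ t y B C)
      show O0 δ y A (O0 δ y B C + BB δ t y B C) + BB δ t y A (O0 δ y B C + BB δ t y B C) = _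
      rw [b1, b2]
      abel
    unfold Rh covB
    rw [hfd, k2, k3, k3]
    simp only [add_apply]
    abel
  have sadd := fun a b => (SS_bil δ t y).add_right X1 a b
  have ssub : ∀ a b, SS δ t y X1 (a - b) = SS δ t y X1 a - SS δ t y X1 b := by
    intro a b
    have := (SS_bil δ t y).add_right X1 (a - b) b
    rw [sub_add_cancel] at this
    linarith
  have hS : SS δ t y X1 (-(KK δ y * det3 y X1.1 X2.1) • cr y X2.1,
      det3 y X1.1 X2.1 • cr (WW δ y) X2.2)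
      = KK δ y * det3 y X1.1 X2.1 ^ 2
        + det3 y X1.1 X2.1 * dot (cr (WW δ y) X2.2) (CC δ t y X1.2) := by
    simp only [SS, dot_smul_right, CC_smul]
    have e1 : dot X1.1 (cr y X2.1) = -det3 y X1.1 X2.1 := by
      simp only [dot, cr, det3, mk3_0, mk3_1, mk3_2]
      ring
    have e2 : dot X1.2 (CC δ t y (cr (WW δ y) X2.2)) = dot (cr (WW δ y) X2.2) (CC δ t y X1.2) := by
      rw [← CC_symm, dot_comm]
    rw [e1, e2]
    ring
  rw [hR, D07_bg hy X1 X2 h1 h2]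
  rw [ssub, sadd, sadd, ssub, sadd, hS]

end

end MP_1b4d75_gt
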