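import Pool.Agent.Lib.MP_1b4d75_gt.D07

/-!
# MP_1b4d75_gt, module D08

MAIN: the curvature number is `R4`.

1. SS X1 (covB X1 X2 X2) = dE22 - dot p1 (DP n1 (BB X2 X2).2)   (HD.unique, hd_E22, hd_SSBB with X = a = X1).
2. SS X1 (covB X2 X1 X2) = dE12 - dot p1 (DP n2 (BB X1 X2).2)   (hd_E12, hd_SSBB with X = X2, a = A = X1, B = X2).
3. BB_met (A08) with X = a = X1, b = BB X2 X2 (first component Hh is perpendicular to y: gr_perp):
   SS X1 (BB X1 (BB X2 X2)) = dot p1 (DP n1 (BB X2X2).2) - SS (BB X1 X1) (BB X2 X2);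
   with X = X2, a = X1, b = BB X1 X2: SS X1 (BB X2 (BB X1 X2)) = dot p1 (DP n2 (BB X1 X2).2) - SS (BB X2 X1) (BB X1 X2).
4. BB X2 X1 - BB X1 X2 = (0, Q Zt X2 X1) = (0, - Q Z), Z = Zt X1 X2 (BB_tors, Zt_anti); with q = Q Z, C q = Z (CC_QQ):
   SS X1 (BB (0,q) X2) = 1/2 <q,Z> + <Z, Sp p1 p2>   (SS_BB of D04: Hh (0,q) X2 = <W,q>/2 y x n2 + 1/2 gr q p2,
   Zt (0,q) X2 = - DP n2 q - Z x C p2, Sg q p2 = 1/2 (p2 x Z + q x C p2); gr_dot).
5. SS (BB X1 X1)(BB X2 X2) = <H11,H22> + <p1 x Cp1, C (p2 x Cp2)>;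
   SS (BB X2 X1)(BB X1 X2) = |H12|^2 - 1/4 <Z,QZ> + <S12, C S12>  (Hh_symm, Sg_symm, Zt_anti, QQ_symm, CC_QQ).
Sum = R4 (definition).
-/

open scoped Quaternion Topology
open Filter

namespace MP_1b4d75_gt

noncomputable section

theorem Hh_symm (δ : ℝ) (y : V3) (X A : FF) : Hh δ y X A = Hh δ y A X := by
  simp only [Hh, gr_symm δ y X.2 A.2]
  abel

theorem Hh_perp (δ : ℝ) {y : V3} (hy : dot y y = 1) (X A : FF) : dot (Hh δ y X A) y = 0 := by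
  simp only [Hh, dot_add_left, dot_smul_left, gr_perp δ hy, dot_cr_left']
  ring

theorem BB_perp (δ t : ℝ) {y : V3} (hy : dot y y = 1) (X A : FF) :
    dot (BB δ t y X A).1 y = 0 := Hh_perp δ hy X A

theorem Zt_self (δ t : ℝ) (y : V3) (X : FF) : Zt δ t y X X = 0 := by
  have h := Zt_anti δ t y X X
  have h2 : (2 : ℝ) • Zt δ t y X X = 0 := by
    rw [two_smul]
    nth_rewrite 1 [h]
    exact neg_add_cancel _
  exact (smul_eq_zero.1 h2).resolve_left (by norm_num)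

theorem Sg_self (δ t : ℝ) (y p : V3) : Sg δ t y p p = cr p (CC δ t y p) := by
  unfold Sg
  rw [← two_smul ℝ (cr p (CC δ t y p)), smul_smul]
  norm_num

/-- the `Q Z` term -/
theorem SS_BB_q {δ t : ℝ} (hδ : |δ| ≤ 1) (ht : 1 < t) {y : V3}
    (X1 X2 : FF) (h1 : dot X1.1 y = 0) :
    SS δ t y X1 (BB δ t y (0, QQ δ t y (Zt δ t y X1 X2)) X2)
      = 1 / 2 * dot (QQ δ t y (Zt δ t y X1 X2)) (Zt δ t y X1 X2)
        + dot (Zt δ t y X1 X2) (Sp δ t y X1.2 X2.2) := by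
  have hq : CC δ t y (QQ δ t y (Zt δ t y X1 X2)) = Zt δ t y X1 X2 := CC_QQ hδ ht y _
  obtain ⟨q, hqd⟩ : ∃ q, q = QQ δ t y (Zt δ t y X1 X2) := ⟨_, rfl⟩
  rw [← hqd] at hq ⊢
  have hD0 : DP δ y 0 X2.2 = 0 := by
    have := DP_smul_n δ y 0 0 X2.2
    rwa [zero_smul, zero_smul] at this
  have hg : dot X1.1 (gr δ y q X2.2) = dot q (DP δ y X1.1 X2.2) := gr_dot h1 q X2.2
  have hs : dot X1.2 (DP δ y X2.1 q) = dot q (DP δ y X2.1 X1.2) := by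
    rw [← DP_symm, dot_comm]
  have e1 : dot q (Zt δ t y X1 X2) = dot q (DP δ y X1.1 X2.2) - dot q (DP δ y X2.1 X1.2)
      - det3 y X1.1 X2.1 * dot (WW δ y) q - dot q (cr (CC δ t y X1.2) (CC δ t y X2.2)) := by
    simp only [Zt, dot_sub_right, dot_smul_right]
    rw [dot_comm q (WW δ y)]
  have e2 : dot X1.1 (cr y X2.1) = - det3 y X1.1 X2.1 := by
    simp only [dot, det3, cr, mk3_0, mk3_1, mk3_2]
    ring
  have e3 : Zt δ t y (0, q) X2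
      = -DP δ y X2.1 q - cr (Zt δ t y X1 X2) (CC δ t y X2.2) := by
    have h3 : det3 y 0 X2.1 = 0 := by simp [det3, cr_zero_left, dot_zero_right]
    simp only [Zt] at hq ⊢
    rw [hD0, h3, hq]
    simp
  have e4 : dot X1.1 (Hh δ y (0, q) X2)
      = -(det3 y X1.1 X2.1 * dot (WW δ y) q) / 2 + 1 / 2 * dot q (DP δ y X1.1 X2.2) := by
    simp only [Hh, cr_zero_right, smul_zero, dot_add_right, dot_smul_right, hg, dot_zero_right, e2]
    ring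
  have e5 : Sg δ t y q X2.2 = (1 / 2 : ℝ) • (cr X2.2 (Zt δ t y X1 X2) + cr q (CC δ t y X2.2)) := by
    simp only [Sg, hq]
  rw [SS_BB hδ ht, e1, e3, e4, e5]
  simp only [Sp, dot_add_right, dot_sub_right, dot_smul_right, dot_neg_right, hs]
  generalize Zt δ t y X1 X2 = Z
  generalize CC δ t y X1.2 = P1
  generalize CC δ t y X2.2 = P2
  generalize X1.2 = p1
  generalize X2.2 = p2
  have k1 : dot p1 (cr Z P2) = -dot Z (cr p1 P2) := by
    simp only [dot, cr, mk3_0, mk3_1, mk3_2]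
    ring
  have k2 : dot P1 (cr p2 Z) = dot Z (cr P1 p2) := by
    simp only [dot, cr, mk3_0, mk3_1, mk3_2]
    ring
  have k3 : dot P1 (cr q P2) = -dot q (cr P1 P2) := by
    simp only [dot, cr, mk3_0, mk3_1, mk3_2]
    ring
  rw [k1, k2, k3]
  ring

theorem curvature_eq {δ t : ℝ} (hδ : |δ| ≤ 1 / 10) (ht : 1 < t) {y : V3} (hy : dot y y = 1)
    (X1 X2 : FF) (h1 : dot X1.1 y = 0) (h2 : dot X2.1 y = 0) :
    SS δ t y X1 (Rh δ t y X1 X2 X2) = R4 δ t y X1 X2 := by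
  have hδ1 : |δ| ≤ 1 := hδ.trans (by norm_num)
  have c1 : SS δ t y X1 (covB δ t y X1 X2 X2) + dot X1.2 (DP δ y X1.1 (BB δ t y X2 X2).2)
      = dE22 δ t y X1 X2 :=
    (hd_SSBB hδ1 ht y X1 X1 X2 X2).unique (hd_E22 hδ1 ht hy X1 X2 h1 h2)
  have c2 : SS δ t y X1 (covB δ t y X2 X1 X2) + dot X1.2 (DP δ y X2.1 (BB δ t y X1 X2).2)
      = dE12 δ t y X1 X2 :=
    (hd_SSBB hδ1 ht y X2 X1 X1 X2).unique (hd_E12 hδ1 ht hy X1 X2 h1 h2)
  have m1 := BB_met hδ1 ht X1 X1 (BB δ t y X2 X2) h1 (BB_perp δ t hy X2 X2)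
  have m2 := BB_met hδ1 ht X2 X1 (BB δ t y X1 X2) h1 (BB_perp δ t hy X1 X2)
  have z21 : Zt δ t y X2 X1 = -Zt δ t y X1 X2 := Zt_anti δ t y X1 X2
  have t1 : BB δ t y X2 X1 - BB δ t y X1 X2 = (-1 : ℝ) • (0, QQ δ t y (Zt δ t y X1 X2)) := by
    rw [BB_tors, z21, map_neg]
    ext <;> simp
  have t2 : SS δ t y X1 (BB δ t y (BB δ t y X2 X1 - BB δ t y X1 X2) X2)
      = -(1 / 2 * dot (QQ δ t y (Zt δ t y X1 X2)) (Zt δ t y X1 X2)
        + dot (Zt δ t y X1 X2) (Sp δ t y X1.2 X2.2)) := by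
    rw [t1, (BB_bil δ t y).smul_left, (SS_bil δ t y).smul_right, SS_BB_q hδ1 ht X1 X2 h1]
    simp
  have q0 : CC δ t y (QQ δ t y (Zt δ t y X1 X2)) = Zt δ t y X1 X2 := CC_QQ hδ1 ht y _
  have s1 : SS δ t y (BB δ t y X1 X1) (BB δ t y X2 X2)
      = dot (Hh δ y X1 X1) (Hh δ y X2 X2)
        + dot (cr X1.2 (CC δ t y X1.2)) (CC δ t y (cr X2.2 (CC δ t y X2.2))) := by
    simp only [SS, BB, Zt_self, Sg_self, map_zero, smul_zero, zero_add]
  have s2 : SS δ t y (BB δ t y X2 X1) (BB δ t y X1 X2)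
      = dot (Hh δ y X1 X2) (Hh δ y X1 X2)
        - 1 / 4 * dot (QQ δ t y (Zt δ t y X1 X2)) (Zt δ t y X1 X2)
        + dot (Sg δ t y X1.2 X2.2) (CC δ t y (Sg δ t y X1.2 X2.2)) := by
    have e : dot (QQ δ t y (Zt δ t y X1 X2)) (CC δ t y (Sg δ t y X1.2 X2.2))
        = dot (Sg δ t y X1.2 X2.2) (Zt δ t y X1 X2) := by
      rw [← CC_symm, q0, dot_comm]
    simp only [SS, BB]
    rw [z21, map_neg, Hh_symm δ y X2 X1, Sg_symm δ t y X2.2 X1.2, CC_add, CC_smul, q0]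
    simp only [dot_add_left, dot_add_right, dot_smul_left, dot_smul_right, dot_neg_left, smul_neg, e]
    ring
  have d1 : dot (Zt δ t y X1 X2) (QQ δ t y (Zt δ t y X1 X2))
      = dot (QQ δ t y (Zt δ t y X1 X2)) (Zt δ t y X1 X2) := dot_comm _ _
  rw [Rh_split hδ ht hy X1 X2 h1 h2, t2]
  unfold R4
  unfold dE22 at c1
  unfold dE12 at c2
  rw [d1]
  linarith [c1, c2, m1, m2, s1, s2]

end

end MP_1b4d75_gt
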