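import Pool.Agent.Lib.MP_1b4d75_gt.LemmaU

/-!
# MP_1b4d75_gt: the data of the metric on `S² × S³`

Everything is a polynomial in `y ∈ S²` (except `NN`, `QQ`).  All formulas were checked numerically
(`/team-store/HF_defs.py`, `/team-store/HF_test.py`).
-/

open scoped Quaternion Topology

namespace MP_1b4d75_gt

noncomputable section

/-- Euclidean 3-space -/
abbrev V3 := EuclideanSpace ℝ (Fin 3)
/-- the model fibre of the tangent bundle: `(n, p)` -/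
abbrev FF := V3 × V3
/-- the ambient space of `S² × S³` -/
abbrev AA := V3 × ℍ[ℝ]

/-- vector with given coordinates -/
def mk3 (a b c : ℝ) : V3 := !₂[a, b, c]

@[simp] lemma mk3_0 (a b c : ℝ) : mk3 a b c 0 = a := rfl
@[simp] lemma mk3_1 (a b c : ℝ) : mk3 a b c 1 = b := rfl
@[simp] lemma mk3_2 (a b c : ℝ) : mk3 a b c 2 = c := rfl

lemma ext3 {a b : V3} (h0 : a 0 = b 0) (h1 : a 1 = b 1) (h2 : a 2 = b 2) : a = b := by
  ext i
  fin_cases i
  · exact h0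
  · exact h1
  · exact h2

/-- scalar product -/
def dot (a b : V3) : ℝ := a 0 * b 0 + a 1 * b 1 + a 2 * b 2
/-- cross product -/
def cr (a b : V3) : V3 :=
  mk3 (a 1 * b 2 - a 2 * b 1) (a 2 * b 0 - a 0 * b 2) (a 0 * b 1 - a 1 * b 0)
/-- determinant -/
def det3 (a b c : V3) : ℝ := dot a (cr b c)
/-- third basis vector -/
def e3 : V3 := mk3 0 0 1

/-- `T = 1 + δ A` -/
def TT (δ : ℝ) (a : V3) : V3 := mk3 (a 0 + 2 * δ * a 1) (2 * δ * a 0 + a 1 + δ * a 2) (δ * a 1 + a 2)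
/-- `σ` -/
def sg (δ : ℝ) (y : V3) : ℝ := 1 / 2 + δ ^ 3 * y 2
/-- `⟨y, T y⟩` -/
def ty (δ : ℝ) (y : V3) : ℝ := dot y (TT δ y)
/-- angular velocity of the geodesic frame -/
def om (δ : ℝ) (y n : V3) : V3 := (3 - ty δ y) • n - TT δ n
/-- the `SO(3)` connection form -/
def aa (δ : ℝ) (y n : V3) : V3 := sg δ y • n - om δ y n
/-- projection to `y^⊥` (for `|y| = 1`) -/
def pr (y v : V3) : V3 := v - dot v y • y
/-- unit tangent vector belonging to `n` -/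
def LL (δ : ℝ) (y n : V3) : V3 := pr y (TT δ (cr n y))
/-- determinant of `T` on `y^⊥` -/
def Del (δ : ℝ) (y : V3) : ℝ := dot (TT δ y) (TT δ y) - 3 * ty δ y + (3 - 5 * δ ^ 2)
/-- inverse of `LL` -/
def NN (δ : ℝ) (y v : V3) : V3 := (Del δ y)⁻¹ • pr y (TT δ (cr y v))
/-- Gauss curvature -/
def KK (δ : ℝ) (y : V3) : ℝ :=
  6 + 5 * δ ^ 2 - 6 * ty δ y + 3 * ty δ y ^ 2 - 2 * dot (TT δ y) (TT δ y)
/-- gradient of `σ` -/
def gs (δ : ℝ) (y : V3) : V3 := δ ^ 3 • pr y (TT δ (pr y e3))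
/-- curvature vector of the connection -/
def WW (δ : ℝ) (y : V3) : V3 := (-(KK δ y - sg δ y ^ 2)) • y - gs δ y
/-- `y + ε' c` -/
def zz (δ : ℝ) (y : V3) : V3 := y + (6 * δ ^ 3) • e3
/-- constant quadratic form -/
def qq (a : V3) : V3 := mk3 (a 2) (-a 1) (a 0)
/-- nonconstant part of the fibre cometric -/
def PP (δ : ℝ) (y p : V3) : V3 := (dot (zz δ y) p / 4) • zz δ y + (δ ^ 4 / 320) • qq p
/-- the fibre cometric -/
def CC (δ t : ℝ) (y p : V3) : V3 := t • p + PP δ y p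
/-- derivative of `PP` in the direction `v` -/
def dPP (δ : ℝ) (y v p : V3) : V3 := (1 / 4 : ℝ) • (dot v p • zz δ y + dot (zz δ y) p • v)
/-- covariant derivative of `P` in the direction `n` -/
def DP (δ : ℝ) (y n p : V3) : V3 :=
  dPP δ y (LL δ y n) p + cr (aa δ y n) (PP δ y p) - PP δ y (cr (aa δ y n) p)
/-- gradient of `⟨p, P p'⟩` -/
def gr (δ : ℝ) (y p p' : V3) : V3 :=
  pr y ((1 / 4 : ℝ) • cr y (TT δ (pr y (dot (zz δ y) p' • p + dot (zz δ y) p • p')))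
    + (sg δ y - 3 + ty δ y) • (cr (PP δ y p') p + cr (PP δ y p) p')
    + TT δ (cr (PP δ y p') p + cr (PP δ y p) p'))

/-! ### derivatives in `y` -/

/-- derivative of `pr y w` in the direction `v` -/
def dpr (y v w : V3) : V3 := -(dot w v • y) - dot w y • v
/-- derivative of `ty` -/
def dty (δ : ℝ) (y v : V3) : ℝ := 2 * dot v (TT δ y)
/-- derivative of `LL` -/
def dLL (δ : ℝ) (y v n : V3) : V3 := dpr y v (TT δ (cr n y)) + pr y (TT δ (cr n v))
/-- derivative of `om` -/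
def dom (δ : ℝ) (y v n : V3) : V3 := -(dty δ y v • n)
/-- derivative of `aa` -/
def daa (δ : ℝ) (y v n : V3) : V3 := (δ ^ 3 * v 2) • n + dty δ y v • n
/-- derivative of `DP` -/
def dDP (δ : ℝ) (y v n p : V3) : V3 :=
  (1 / 4 : ℝ) • (dot (LL δ y n) p • v + dot v p • LL δ y n) + dPP δ y (dLL δ y v n) p
    + cr (daa δ y v n) (PP δ y p) + cr (aa δ y n) (dPP δ y v p)
    - dPP δ y v (cr (aa δ y n) p) - PP δ y (cr (daa δ y v n) p)
/-- second covariant derivative of `P` -/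
def D2P (δ : ℝ) (y m n p : V3) : V3 :=
  dDP δ y (LL δ y m) n p + DP δ y (cr (om δ y m) n) p + cr (aa δ y m) (DP δ y n p)
    - DP δ y n (cr (aa δ y m) p)
/-- derivative of `KK` -/
def dKK (δ : ℝ) (y v : V3) : ℝ :=
  -6 * dty δ y v + 6 * ty δ y * dty δ y v - 4 * dot (TT δ v) (TT δ y)
/-- derivative of `gs` -/
def dgs (δ : ℝ) (y v : V3) : V3 :=
  δ ^ 3 • (dpr y v (TT δ (pr y e3)) + pr y (TT δ (dpr y v e3)))
/-- derivative of `WW` -/
def dWW (δ : ℝ) (y v : V3) : V3 :=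
  (-(dKK δ y v - 2 * sg δ y * (δ ^ 3 * v 2))) • y - (KK δ y - sg δ y ^ 2) • v - dgs δ y v
/-- covariant derivative of `W` in the direction `n` -/
def DW (δ : ℝ) (y n : V3) : V3 := dWW δ y (LL δ y n) + cr (aa δ y n) (WW δ y)

/-! ### the fibre cometric and its inverse -/

/-- bundling of a linear map -/
def lin3 (f : V3 → V3) (hf : IsLinearMap ℝ f) : V3 →L[ℝ] V3 :=
  LinearMap.toContinuousLinearMap (hf.mk' f)

@[simp] lemma lin3_apply (f : V3 → V3) (hf : IsLinearMap ℝ f) (p : V3) : lin3 f hf p = f p := rfl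

lemma CC_lin (δ t : ℝ) (y : V3) : IsLinearMap ℝ (CC δ t y) := by
  constructor
  · intro a b
    apply ext3 <;> simp [CC, PP, dot, qq, zz, e3] <;> ring
  · intro r a
    apply ext3 <;> simp [CC, PP, dot, qq, zz, e3] <;> ring

/-- `C` as a continuous linear map -/
def CCL (δ t : ℝ) (y : V3) : V3 →L[ℝ] V3 := lin3 (CC δ t y) (CC_lin δ t y)

/-- `Q = C⁻¹` -/
def QQ (δ t : ℝ) (y : V3) : V3 →L[ℝ] V3 := ContinuousLinearMap.inverse (CCL δ t y)

/-- `Z` -/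
def Zt (δ t : ℝ) (y : V3) (X A : FF) : V3 :=
  DP δ y X.1 A.2 - DP δ y A.1 X.2 - det3 y X.1 A.1 • WW δ y - cr (CC δ t y X.2) (CC δ t y A.2)
/-- horizontal part `H` of the tensor `B` -/
def Hh (δ : ℝ) (y : V3) (X A : FF) : V3 :=
  (dot (WW δ y) A.2 / 2) • cr y X.1 + (dot (WW δ y) X.2 / 2) • cr y A.1
    + (1 / 2 : ℝ) • gr δ y X.2 A.2
/-- symmetric part `S` -/
def Sg (δ t : ℝ) (y p p' : V3) : V3 :=
  (1 / 2 : ℝ) • (cr p' (CC δ t y p) + cr p (CC δ t y p'))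
/-- `S'` -/
def Sp (δ t : ℝ) (y p p' : V3) : V3 :=
  (1 / 2 : ℝ) • (cr (CC δ t y p) p' + cr p (CC δ t y p'))
/-- background connection -/
def O0 (δ : ℝ) (y : V3) (X A : FF) : FF := (-cr (om δ y X.1) A.1, cr (aa δ y X.1) A.2)
/-- the tensor `B` -/
def BB (δ t : ℝ) (y : V3) (X A : FF) : FF :=
  (Hh δ y X A, (1 / 2 : ℝ) • QQ δ t y (Zt δ t y X A) + Sg δ t y X.2 A.2)
/-- Levi-Civita connection form -/
def OO (δ t : ℝ) (y : V3) (X A : FF) : FF := O0 δ y X A + BB δ t y X A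
/-- the metric in the variables `(n, p)` -/
def SS (δ t : ℝ) (y : V3) (X A : FF) : ℝ := dot X.1 A.1 + dot X.2 (CC δ t y A.2)

/-- the exact curvature `R(X₁,X₂,X₂,X₁)` -/
def R4 (δ t : ℝ) (y : V3) (X A : FF) : ℝ :=
  KK δ y * det3 y X.1 A.1 ^ 2
    + det3 y X.1 A.1 * dot (cr (WW δ y) A.2) (CC δ t y X.2)
    + (-(det3 y X.1 A.1 * dot (DW δ y X.1) A.2) + 1 / 2 * dot A.2 (D2P δ y X.1 X.1 A.2)
        + dot (cr A.2 (DP δ y X.1 A.2)) (CC δ t y X.2)
        + dot (cr A.2 (CC δ t y A.2)) (DP δ y X.1 X.2))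
    - (-(det3 y X.1 A.1 * dot (DW δ y A.1) X.2) + dot X.2 (D2P δ y A.1 X.1 A.2)
        - 1 / 2 * dot X.2 (D2P δ y A.1 A.1 X.2)
        - dot (cr (DP δ y A.1 X.2) (CC δ t y A.2)) X.2
        - dot (cr (CC δ t y X.2) (DP δ y A.1 A.2)) X.2)
    - dot (Hh δ y X X) (Hh δ y A A) + dot (Hh δ y X A) (Hh δ y X A)
    - dot (cr X.2 (CC δ t y X.2)) (CC δ t y (cr A.2 (CC δ t y A.2)))
    + dot (Sg δ t y X.2 A.2) (CC δ t y (Sg δ t y X.2 A.2))
    - 3 / 4 * dot (Zt δ t y X A) (QQ δ t y (Zt δ t y X A))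
    - dot (Zt δ t y X A) (Sp δ t y X.2 A.2)

/-- the criterion form -/
def stf (δ : ℝ) (y n : V3) (x : ℝ) (V : V3) : ℝ :=
  KK δ y * x ^ 2 + x * dot (DW δ y n) V + 1 / 2 * dot V (D2P δ y n n V)
    + 1 / 4 * dot (WW δ y) V ^ 2

/-! ### frames -/

/-- right handed orthonormal frame -/
structure Frame (y h k : V3) : Prop where
  yy : dot y y = 1
  hh : dot h h = 1
  kk : dot k k = 1
  yh : dot y h = 0
  yk : dot y k = 0
  hk : dot h k = 0
  cyh : cr y h = k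
  chk : cr h k = y
  cky : cr k y = h

/-! ### the soldering form -/

/-- imaginary part of a quaternion as a vector -/
def im3 (q : ℍ[ℝ]) : V3 := mk3 q.imI q.imJ q.imK
/-- the (left invariant, sign changed) Maurer-Cartan form of `S³` -/
def th (z ζ : ℍ[ℝ]) : V3 := (-2 : ℝ) • im3 (star z * ζ)
/-- the soldering form `T(S² × S³) → FF` -/
def TH (δ t : ℝ) (m a : AA) : FF :=
  (NN δ m.1 a.1, QQ δ t m.1 (th m.2 a.2 + aa δ m.1 (NN δ m.1 a.1)))
/-- the metric on `S² × S³` as an ambient tensor -/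
def GG (δ t : ℝ) (m a b : AA) : ℝ := SS δ t m.1 (TH δ t m a) (TH δ t m b)

end

end MP_1b4d75_gt
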