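import Pool.Agent.Lib.MP_1b4d75_gt.D01
import Pool.Agent.Lib.MP_1b4d75_gt.D02
import Pool.Agent.Lib.MP_1b4d75_gt.A02
import Pool.Agent.Lib.MP_1b4d75_gt.A07
import Pool.Agent.Lib.MP_1b4d75_gt.A10

/-!
# MP_1b4d75_gt, module E01

Charts: basic facts.  `GoodChart ψ x₀`, all statements at the point x₀ (GoodChart.near gives them near x₀).

near: ContDiffAt.eventually (3 ≠ ∞), Filter.Eventually.eventually_nhds for the other fields.
tangent: differentiate `dot (ψ x).1 (ψ x).1 = 1` (HD.fst, HD.dot, dot_comm) and `star z * z = 1`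
(derivative star ζ * z + star z * ζ = 0, real part 2 re (star z * ζ) = 0; or use normSq).
smoothness: composition with THb_smooth (Del_pos), SSb_smooth, OOb_smooth (D01), ContDiffAt.clm_comp, fderiv_right.
Th_perp: NN_perp.  LL_Th: LL_NN with tangent.  CC_Th: CC_QQ.
Th_surj: v = LL n, ζ with th z ζ = CC p - aa n (th_surj), h.range; NN_LL, QQ_CC.  Th_zero: NN v = 0 => v = LL NN v = 0;
then th z ζ = 0, th_inj.
-/

open scoped Quaternion Topology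
open Filter

namespace MP_1b4d75_gt

noncomputable section

variable {E : Type*} [NormedAddCommGroup E] [NormedSpace ℝ E] {ψ : E → AA} {x₀ : E} {δ t : ℝ}

theorem GoodChart.near (h : GoodChart ψ x₀) : ∀ᶠ x in 𝓝 x₀, GoodChart ψ x := by
  have h1 : ∀ᶠ x in 𝓝 x₀, ContDiffAt ℝ 3 ψ x := h.smooth.eventually (by decide)
  filter_upwards [h1, h.sph2.eventually_nhds, h.sph3.eventually_nhds,
    h.range.eventually_nhds] with x a b c d
  exact ⟨a, b, c, d⟩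

theorem GoodChart.diff (h : GoodChart ψ x₀) : DifferentiableAt ℝ ψ x₀ :=
  h.smooth.differentiableAt (by norm_num)

theorem GoodChart.y1 (h : GoodChart ψ x₀) : dot (ψ x₀).1 (ψ x₀).1 = 1 := h.sph2.self_of_nhds

theorem GoodChart.tangent1 (h : GoodChart ψ x₀) (u : E) :
    dot (fderiv ℝ ψ x₀ u).1 (ψ x₀).1 = 0 := by
  have h1 : HD (fun x => (ψ x).1) x₀ u (fderiv ℝ ψ x₀ u).1 := (HD.of_diff h.diff).fst
  have h2 := (h1.dot h1).2
  have h3 : (fun x => dot (ψ x).1 (ψ x).1) =ᶠ[𝓝 x₀] fun _ => (1 : ℝ) := h.sph2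
  rw [h3.fderiv_eq] at h2
  rw [dot_comm (ψ x₀).1] at h2
  simp only [fderiv_fun_const, Pi.zero_apply, _root_.zero_apply] at h2
  linarith

theorem GoodChart.tangent2 (h : GoodChart ψ x₀) (u : E) :
    (star (ψ x₀).2 * (fderiv ℝ ψ x₀ u).2).re = 0 := by
  have key : ∀ a b : ℍ[ℝ], (star a * b).re = inner ℝ a b := by
    intro a b
    rw [Quaternion.inner_def]
    simp
  have h1 : HasFDerivAt (fun x => (ψ x).2) _ x₀ := h.diff.hasFDerivAt.snd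
  have h2 := (h1.inner ℝ h1).fderiv
  have h3 : (fun x => inner ℝ (ψ x).2 (ψ x).2) =ᶠ[𝓝 x₀] fun _ => (1 : ℝ) := by
    filter_upwards [h.sph3] with x hx
    rw [← key, hx]
    rfl
  rw [h3.fderiv_eq] at h2
  have h5 := congrArg (fun L : E →L[ℝ] ℝ => L u) h2
  simp only [fderiv_fun_const, Pi.zero_apply, _root_.zero_apply,
    ContinuousLinearMap.comp_apply, ContinuousLinearMap.prod_apply, fderivInnerCLM_apply] at h5
  rw [key]
  rw [real_inner_comm (ψ x₀).2] at h5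
  have h6 : inner ℝ (ψ x₀).2 (fderiv ℝ ψ x₀ u).2 + inner ℝ (ψ x₀).2 (fderiv ℝ ψ x₀ u).2
    = 0 := h5.symm
  linarith

theorem GoodChart.ThE_smooth (h : GoodChart ψ x₀) (hδ : |δ| ≤ 1 / 10) (ht : 1 < t) :
    ContDiffAt ℝ 2 (ThE δ t ψ) x₀ := by
  have hδ1 : |δ| ≤ 1 := hδ.trans (by norm_num)
  have h1 : ContDiffAt ℝ 2 (fun x => THb δ t (ψ x)) x₀ :=
    ContDiffAt.comp (g := THb δ t) x₀
      ((THb_smooth hδ1 ht (Del_pos hδ h.y1)).of_le (by norm_num)) (h.smooth.of_le (by norm_num))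
  have h2 : ContDiffAt ℝ 2 (fderiv ℝ ψ) x₀ := h.smooth.fderiv_right (by norm_num)
  exact h1.clm_comp h2

theorem GoodChart.SE_smooth (h : GoodChart ψ x₀) : ContDiffAt ℝ 2 (SE δ t ψ) x₀ := by
  have h1 : ContDiffAt ℝ 2 (fun x => (ψ x).1) x₀ := (h.smooth.of_le (by norm_num)).fst
  exact ContDiffAt.comp (g := SSb δ t) x₀ ((SSb_smooth δ t).contDiffAt.of_le (by norm_num)) h1

theorem GoodChart.OmE_smooth (h : GoodChart ψ x₀) (hδ : |δ| ≤ 1 / 10) (ht : 1 < t) :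
    ContDiffAt ℝ 1 (OmE δ t ψ) x₀ := by
  have hδ1 : |δ| ≤ 1 := hδ.trans (by norm_num)
  have h1 : ContDiffAt ℝ 1 (fun x => (ψ x).1) x₀ := (h.smooth.of_le (by norm_num)).fst
  have h2 : ContDiffAt ℝ 1 (fun x => OOb δ t (ψ x).1) x₀ :=
    ContDiffAt.comp (g := OOb δ t) x₀ ((OOb_smooth hδ1 ht).contDiffAt.of_le (by norm_num)) h1
  exact h2.clm_comp ((h.ThE_smooth hδ ht).of_le (by norm_num))

theorem GoodChart.Th_perp (h : GoodChart ψ x₀) (u : E) :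
    dot (ThE δ t ψ x₀ u).1 (ψ x₀).1 = 0 :=
  NN_perp δ h.y1 _

theorem GoodChart.LL_Th (h : GoodChart ψ x₀) (hδ : |δ| ≤ 1 / 10) (u : E) :
    LL δ (ψ x₀).1 (ThE δ t ψ x₀ u).1 = (fderiv ℝ ψ x₀ u).1 :=
  LL_NN hδ h.y1 (h.tangent1 u)

theorem GoodChart.CC_Th (hδ : |δ| ≤ 1) (ht : 1 < t) (u : E) :
    CC δ t (ψ x₀).1 (ThE δ t ψ x₀ u).2
      = th (ψ x₀).2 (fderiv ℝ ψ x₀ u).2 + aa δ (ψ x₀).1 (ThE δ t ψ x₀ u).1 :=
  CC_QQ hδ ht _ _

theorem GoodChart.Th_surj (h : GoodChart ψ x₀) (hδ : |δ| ≤ 1 / 10) (ht : 1 < t) {a : FF}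
    (ha : dot a.1 (ψ x₀).1 = 0) : ∃ u, ThE δ t ψ x₀ u = a := by
  have hδ1 : |δ| ≤ 1 := hδ.trans (by norm_num)
  have hz : star (ψ x₀).2 * (ψ x₀).2 = 1 := h.sph3.self_of_nhds
  obtain ⟨ζ, h1, h2⟩ := th_surj hz (CC δ t (ψ x₀).1 a.2 - aa δ (ψ x₀).1 a.1)
  obtain ⟨u, hu⟩ := h.range.self_of_nhds (LL δ (ψ x₀).1 a.1) ζ (LL_perp δ h.y1 _) h1
  refine ⟨u, ?_⟩
  have e : ThE δ t ψ x₀ u = TH δ t (ψ x₀) (fderiv ℝ ψ x₀ u) := rfl
  rw [e, hu]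
  refine Prod.ext ?_ ?_
  · show NN δ (ψ x₀).1 (LL δ (ψ x₀).1 a.1) = a.1
    exact NN_LL hδ h.y1 ha
  · show QQ δ t (ψ x₀).1 (th (ψ x₀).2 ζ + aa δ (ψ x₀).1 (NN δ (ψ x₀).1
      (LL δ (ψ x₀).1 a.1))) = a.2
    rw [NN_LL hδ h.y1 ha, h2, sub_add_cancel]
    exact QQ_CC hδ1 ht _ _

theorem GoodChart.Th_zero (h : GoodChart ψ x₀) (hδ : |δ| ≤ 1 / 10) (ht : 1 < t) {u : E}
    (hu : ThE δ t ψ x₀ u = 0) : fderiv ℝ ψ x₀ u = 0 := by
  have hδ1 : |δ| ≤ 1 := hδ.trans (by norm_num)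
  have hz : star (ψ x₀).2 * (ψ x₀).2 = 1 := h.sph3.self_of_nhds
  have z1 : LL δ (ψ x₀).1 0 = 0 := by
    have := LL_smul δ (ψ x₀).1 0 0
    simpa using this
  have z2 : aa δ (ψ x₀).1 0 = 0 := by
    have := aa_smul δ (ψ x₀).1 0 0
    simpa using this
  have z3 : CC δ t (ψ x₀).1 0 = 0 := by
    have := CC_smul δ t (ψ x₀).1 0 0
    simpa using this
  have h1 := h.LL_Th hδ (t := t) u
  have h2 := GoodChart.CC_Th (ψ := ψ) (x₀ := x₀) hδ1 ht u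
  rw [hu] at h1 h2
  have h1' : (fderiv ℝ ψ x₀ u).1 = 0 := by
    rw [← h1]; exact z1
  have h2' : th (ψ x₀).2 (fderiv ℝ ψ x₀ u).2 = 0 := by
    have : th (ψ x₀).2 (fderiv ℝ ψ x₀ u).2 + aa δ (ψ x₀).1 (0 : FF).1
        = CC δ t (ψ x₀).1 (0 : FF).2 := h2.symm
    simpa [z2, z3] using this
  exact Prod.ext h1' (th_inj hz (h.tangent2 u) h2')

end

end MP_1b4d75_gt
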