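import Pool.Agent.Lib.MP_1b4d75_gt.E01
import Pool.Agent.Lib.MP_1b4d75_gt.A03
import Pool.Agent.Lib.MP_1b4d75_gt.A09

/-!
# MP_1b4d75_gt, module E02

The horizontal part of the structure equation.

With Θ = ThE δ t ψ, y = (ψ x₀).1, dΘ u v = fderiv ℝ Θ x₀ u v.  Θ is differentiable at x₀ (ThE_smooth).
dTh_y: differentiate dot (Θ x v).1 (ψ x).1 = 0 (Th_perp, near x₀) in the direction u (HD.dot), LL_Th.
dTh_LL: differentiate LL (ψ x).1 (Θ x v).1 = (fderiv ψ x v).1 (LL_Th near x₀): dLL y (LL n_u) n_v + LL (dΘ u v).1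
 = (second derivative of ψ).1, symmetric in u, v (ContDiffAt.isSymmSndFDerivAt).
dTh_fst: D = (dΘ u v - dΘ v u).1 - (cr (om n_u) n_v - cr (om n_v) n_u) has LL D = 0 (tors, A03) and dot D y = 0
 (tors_y), so D = NN (LL D) = 0 (NN_LL).
-/

open scoped Quaternion Topology
open Filter

namespace MP_1b4d75_gt

noncomputable section

variable {E : Type*} [NormedAddCommGroup E] [NormedSpace ℝ E] {ψ : E → AA} {x₀ : E} {δ t : ℝ}

theorem GoodChart.hd_Th (h : GoodChart ψ x₀) (hδ : |δ| ≤ 1 / 10) (ht : 1 < t) (u v : E) :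
    HD (fun x => ThE δ t ψ x v) x₀ u (fderiv ℝ (ThE δ t ψ) x₀ u v) := by
  have h0 : DifferentiableAt ℝ (ThE δ t ψ) x₀ :=
    (h.ThE_smooth hδ ht).differentiableAt (by norm_num)
  exact ((HD.of_diff h0).clm (HD.const v)).of_eq (by simp)

theorem HD.eventually_eq {F G : Type*} [NormedAddCommGroup F] [NormedSpace ℝ F]
    [NormedAddCommGroup G] [NormedSpace ℝ G] {f g : F → G} {x u : F} {a b : G}
    (hf : HD f x u a) (hg : HD g x u b) (h : f =ᶠ[𝓝 x] g) : a = b := by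
  rw [← hf.2, ← hg.2, h.fderiv_eq]

theorem GoodChart.dTh_y (h : GoodChart ψ x₀) (hδ : |δ| ≤ 1 / 10) (ht : 1 < t) (u v : E) :
    dot (fderiv ℝ (ThE δ t ψ) x₀ u v).1 (ψ x₀).1
      = -dot (ThE δ t ψ x₀ v).1 (LL δ (ψ x₀).1 (ThE δ t ψ x₀ u).1) := by
  have h1 := (h.hd_Th hδ ht u v).fst.dot (HD.of_diff (u := u) h.diff).fst
  have h2 : (fun x => dot (ThE δ t ψ x v).1 (ψ x).1) =ᶠ[𝓝 x₀] fun _ => (0 : ℝ) := by
    filter_upwards [h.near] with x hx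
    exact hx.Th_perp v
  have h3 := h1.eventually_eq (HD.const 0) h2
  rw [h.LL_Th hδ]
  linarith

theorem GoodChart.dTh_LL (h : GoodChart ψ x₀) (hδ : |δ| ≤ 1 / 10) (ht : 1 < t) (u v : E) :
    LL δ (ψ x₀).1 (fderiv ℝ (ThE δ t ψ) x₀ u v).1
        + dLL δ (ψ x₀).1 (LL δ (ψ x₀).1 (ThE δ t ψ x₀ u).1) (ThE δ t ψ x₀ v).1
      = LL δ (ψ x₀).1 (fderiv ℝ (ThE δ t ψ) x₀ v u).1
        + dLL δ (ψ x₀).1 (LL δ (ψ x₀).1 (ThE δ t ψ x₀ v).1) (ThE δ t ψ x₀ u).1 := by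
  have key : ∀ u v : E, LL δ (ψ x₀).1 (fderiv ℝ (ThE δ t ψ) x₀ u v).1
        + dLL δ (ψ x₀).1 (LL δ (ψ x₀).1 (ThE δ t ψ x₀ u).1) (ThE δ t ψ x₀ v).1
      = (fderiv ℝ (fderiv ℝ ψ) x₀ u v).1 := by
    intro u v
    have h1 := (HD.of_diff (u := u) h.diff).fst.LL (h.hd_Th hδ ht u v).fst δ
    have h0 : DifferentiableAt ℝ (fderiv ℝ ψ) x₀ :=
      (h.smooth.fderiv_right (m := 2) (by norm_num)).differentiableAt (by norm_num)
    have h2 : HD (fun x => (fderiv ℝ ψ x v).1) x₀ u (fderiv ℝ (fderiv ℝ ψ) x₀ u v).1 :=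
      (((HD.of_diff h0).clm (HD.const v)).of_eq
        (b := fderiv ℝ (fderiv ℝ ψ) x₀ u v) (by simp)).fst
    have h3 : (fun x => LL δ (ψ x).1 (ThE δ t ψ x v).1) =ᶠ[𝓝 x₀]
        fun x => (fderiv ℝ ψ x v).1 := by
      filter_upwards [h.near] with x hx
      exact hx.LL_Th hδ v
    have h4 := h1.eventually_eq h2 h3
    rw [← h4, h.LL_Th hδ]
    exact add_comm _ _
  have hs : fderiv ℝ (fderiv ℝ ψ) x₀ u v = fderiv ℝ (fderiv ℝ ψ) x₀ v u :=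
    (h.smooth.isSymmSndFDerivAt (by simp; norm_num)).eq u v
  rw [key u v, key v u, hs]

theorem GoodChart.dTh_fst (h : GoodChart ψ x₀) (hδ : |δ| ≤ 1 / 10) (ht : 1 < t) (u v : E) :
    (fderiv ℝ (ThE δ t ψ) x₀ u v - fderiv ℝ (ThE δ t ψ) x₀ v u).1
      = cr (om δ (ψ x₀).1 (ThE δ t ψ x₀ u).1) (ThE δ t ψ x₀ v).1
        - cr (om δ (ψ x₀).1 (ThE δ t ψ x₀ v).1) (ThE δ t ψ x₀ u).1 := by
  have a1 := h.dTh_LL hδ ht u v
  have a2 := h.dTh_y hδ ht u v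
  have a3 := h.dTh_y hδ ht v u
  have a4 := tors (δ := δ) h.y1 (h.Th_perp (δ := δ) (t := t) u) (h.Th_perp (δ := δ) (t := t) v)
  have a5 := tors_y (δ := δ) h.y1 (h.Th_perp (δ := δ) (t := t) u) (h.Th_perp (δ := δ) (t := t) v)
  rw [Prod.fst_sub]
  set p := (fderiv ℝ (ThE δ t ψ) x₀ u v).1
  set q := (fderiv ℝ (ThE δ t ψ) x₀ v u).1
  set nu := (ThE δ t ψ x₀ u).1
  set nv := (ThE δ t ψ x₀ v).1
  set y := (ψ x₀).1
  set D : V3 := p - q - (cr (om δ y nu) nv - cr (om δ y nv) nu) with hD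
  have b1 : LL δ y D = 0 := by
    rw [hD, a03_LL_sub, a03_LL_sub]
    have e1 : LL δ y p - LL δ y q = dLL δ y (LL δ y nv) nu - dLL δ y (LL δ y nu) nv := by
      rw [sub_eq_sub_iff_add_eq_add, a1]
      abel
    have e2 : LL δ y (cr (om δ y nu) nv - cr (om δ y nv) nu)
        = dLL δ y (LL δ y nv) nu - dLL δ y (LL δ y nu) nv := by
      rw [eq_sub_iff_add_eq, ← sub_eq_zero]
      exact a4
    rw [e1, e2, sub_self]
  have b2 : dot D y = 0 := by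
    rw [hD, dot_sub_left, dot_sub_left, a2, a3, a5]
    ring
  have b3 : NN δ y (LL δ y D) = D := NN_LL hδ h.y1 b2
  have b4 : D = 0 := by
    rw [← b3, b1]
    have := NN_smul δ y 0 0
    simpa using this
  exact sub_eq_zero.1 b4

end

end MP_1b4d75_gt
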