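import Pool.Agent.Lib.MP_1b4d75_gt.E02
import Pool.Agent.Lib.MP_1b4d75_gt.A05
import Pool.Agent.Lib.MP_1b4d75_gt.A09
import Pool.Agent.Lib.MP_1b4d75_gt.A10

/-!
# MP_1b4d75_gt, module E03

The vertical part of the structure equation.

Differentiate CC (ψ x).1 (Θ x v).2 = th (ψ x).2 (fderiv ψ x v).2 + aa (ψ x).1 (Θ x v).1 (CC_Th, near x₀) in the
direction u: dPP y (LL n_u) p_v + CC (dΘ u v).2 = th ζ_u ζ_v + th z (d²ψ u v).2 + daa y (LL n_u) n_v + aa (dΘ u v).1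
(th is bilinear; second derivative symmetric).  Antisymmetrise; th ζ_u ζ_v - th ζ_v ζ_u = cr (th z ζ_u) (th z ζ_v)
(th_mc, A10, tangent2) with th z ζ = CC p - aa n (CC_Th); dTh_fst (E02); curv_aa (A05); compare with CC_OO_tors
(A09).
-/

open scoped Quaternion Topology
open Filter

namespace MP_1b4d75_gt

noncomputable section

variable {E : Type*} [NormedAddCommGroup E] [NormedSpace ℝ E] {ψ : E → AA} {x₀ : E} {δ t : ℝ}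

/-- shortcut instance -/
local instance e03_inst1 : NormedAddCommGroup (ℍ[ℝ] →L[ℝ] V3) := inferInstance
/-- shortcut instance -/
local instance e03_inst2 : NormedSpace ℝ (ℍ[ℝ] →L[ℝ] V3) := inferInstance
/-- shortcut instance -/
local instance e03_inst3 : NormedAddCommGroup (ℍ[ℝ] →L[ℝ] ℍ[ℝ] →L[ℝ] V3) := inferInstance
/-- shortcut instance -/
local instance e03_inst4 : NormedSpace ℝ (ℍ[ℝ] →L[ℝ] ℍ[ℝ] →L[ℝ] V3) := inferInstance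

theorem e03_th_bil : IsBilinearMap ℝ th where
  add_left := by
    intro a b c
    simp only [th, star_add, add_mul, im3_add, smul_add]
  smul_left := by
    intro r a c
    have hs : star (r • a) = r • star a := by
      ext <;> simp
    simp only [th, hs, smul_mul_assoc, im3_smul, smul_comm r (-2 : ℝ)]
  add_right := by
    intro a b c
    simp only [th, mul_add, im3_add, smul_add]
  smul_right := by
    intro r a c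
    simp only [th, mul_smul_comm, im3_smul, smul_comm r (-2 : ℝ)]

/-- `th`, bundled -/
def e03_thB : ℍ[ℝ] →L[ℝ] ℍ[ℝ] →L[ℝ] V3 := e03_th_bil.toContinuousBilinearMap

theorem e03_thB_apply (a b : ℍ[ℝ]) : e03_thB a b = th a b := rfl

theorem HD.e03_th {f g : E → ℍ[ℝ]} {x u : E} {f' g' : ℍ[ℝ]} (hf : HD f x u f')
    (hg : HD g x u g') :
    HD (fun x => th (f x) (g x)) x u (th f' (g x) + th (f x) g') := by
  have h1 : HD (fun x => e03_thB (f x)) x u (e03_thB f') :=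
    ((HD.const e03_thB).clm hf).of_eq (by simp)
  exact h1.clm hg

theorem GoodChart.e03_key (h : GoodChart ψ x₀) (hδ : |δ| ≤ 1 / 10) (ht : 1 < t) (u v : E) :
    dPP δ (ψ x₀).1 (LL δ (ψ x₀).1 (ThE δ t ψ x₀ u).1) (ThE δ t ψ x₀ v).2
        + CC δ t (ψ x₀).1 (fderiv ℝ (ThE δ t ψ) x₀ u v).2
      = th (fderiv ℝ ψ x₀ u).2 (fderiv ℝ ψ x₀ v).2
          + th (ψ x₀).2 (fderiv ℝ (fderiv ℝ ψ) x₀ u v).2
        + (daa δ (ψ x₀).1 (LL δ (ψ x₀).1 (ThE δ t ψ x₀ u).1) (ThE δ t ψ x₀ v).1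
          + aa δ (ψ x₀).1 (fderiv ℝ (ThE δ t ψ) x₀ u v).1) := by
  have hδ1 : |δ| ≤ 1 := hδ.trans (by norm_num)
  have h1 := (HD.of_diff (u := u) h.diff).fst.CC (h.hd_Th hδ ht u v).snd δ t
  have h0 : DifferentiableAt ℝ (fderiv ℝ ψ) x₀ :=
    (h.smooth.fderiv_right (m := 2) (by norm_num)).differentiableAt (by norm_num)
  have h2 : HD (fun x => (fderiv ℝ ψ x v).2) x₀ u (fderiv ℝ (fderiv ℝ ψ) x₀ u v).2 :=
    (((HD.of_diff h0).clm (HD.const v)).of_eq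
      (b := fderiv ℝ (fderiv ℝ ψ) x₀ u v) (by simp)).snd
  have h3 := (HD.of_diff (u := u) h.diff).snd.e03_th h2
  have h4 := (HD.of_diff (u := u) h.diff).fst.aa (h.hd_Th hδ ht u v).fst δ
  have h5 : (fun x => CC δ t (ψ x).1 (ThE δ t ψ x v).2) =ᶠ[𝓝 x₀]
      fun x => th (ψ x).2 (fderiv ℝ ψ x v).2 + aa δ (ψ x).1 (ThE δ t ψ x v).1 := by
    filter_upwards with x
    exact GoodChart.CC_Th hδ1 ht v
  have h6 := h1.eventually_eq (h3.add h4) h5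
  rw [h.LL_Th hδ]
  exact h6

theorem GoodChart.dTh_snd (h : GoodChart ψ x₀) (hδ : |δ| ≤ 1 / 10) (ht : 1 < t) (u v : E) :
    CC δ t (ψ x₀).1 (fderiv ℝ (ThE δ t ψ) x₀ u v - fderiv ℝ (ThE δ t ψ) x₀ v u).2
      = -CC δ t (ψ x₀).1 (OO δ t (ψ x₀).1 (ThE δ t ψ x₀ u) (ThE δ t ψ x₀ v)
          - OO δ t (ψ x₀).1 (ThE δ t ψ x₀ v) (ThE δ t ψ x₀ u)).2 := by
  have hδ1 : |δ| ≤ 1 := hδ.trans (by norm_num)
  have hz : star (ψ x₀).2 * (ψ x₀).2 = 1 := h.sph3.self_of_nhds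
  have k1 := h.e03_key hδ ht u v
  have k2 := h.e03_key hδ ht v u
  have hs : fderiv ℝ (fderiv ℝ ψ) x₀ u v = fderiv ℝ (fderiv ℝ ψ) x₀ v u :=
    (h.smooth.isSymmSndFDerivAt (by simp; norm_num)).eq u v
  have hmc := th_mc hz (h.tangent2 u) (h.tangent2 v)
  have hf := h.dTh_fst hδ ht u v
  have hc := curv_aa (δ := δ) h.y1 (h.Th_perp (δ := δ) (t := t) u)
    (h.Th_perp (δ := δ) (t := t) v)
  have c1 := GoodChart.CC_Th (ψ := ψ) (x₀ := x₀) hδ1 ht u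
  have c2 := GoodChart.CC_Th (ψ := ψ) (x₀ := x₀) hδ1 ht v
  have ho := CC_OO_tors hδ1 ht (ψ x₀).1 (ThE δ t ψ x₀ u) (ThE δ t ψ x₀ v)
  rw [ho]
  rw [← hf] at hc
  rw [hs] at k1
  rw [Prod.snd_sub, CC_sub]
  rw [Prod.fst_sub] at hc
  have haa : aa δ (ψ x₀).1 ((fderiv ℝ (ThE δ t ψ) x₀ u v).1 - (fderiv ℝ (ThE δ t ψ) x₀ v u).1)
      = aa δ (ψ x₀).1 (fderiv ℝ (ThE δ t ψ) x₀ u v).1
        - aa δ (ψ x₀).1 (fderiv ℝ (ThE δ t ψ) x₀ v u).1 := by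
    have := aa_add δ (ψ x₀).1 ((fderiv ℝ (ThE δ t ψ) x₀ u v).1
      - (fderiv ℝ (ThE δ t ψ) x₀ v u).1) (fderiv ℝ (ThE δ t ψ) x₀ v u).1
    rw [sub_add_cancel] at this
    rw [this, add_sub_cancel_right]
  rw [haa] at hc
  have e1 : CC δ t (ψ x₀).1 (fderiv ℝ (ThE δ t ψ) x₀ u v).2
      = th (fderiv ℝ ψ x₀ u).2 (fderiv ℝ ψ x₀ v).2
          + th (ψ x₀).2 (fderiv ℝ (fderiv ℝ ψ) x₀ v u).2
        + (daa δ (ψ x₀).1 (LL δ (ψ x₀).1 (ThE δ t ψ x₀ u).1) (ThE δ t ψ x₀ v).1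
          + aa δ (ψ x₀).1 (fderiv ℝ (ThE δ t ψ) x₀ u v).1)
        - dPP δ (ψ x₀).1 (LL δ (ψ x₀).1 (ThE δ t ψ x₀ u).1) (ThE δ t ψ x₀ v).2 := by
    rw [← k1]; abel
  have e2 : CC δ t (ψ x₀).1 (fderiv ℝ (ThE δ t ψ) x₀ v u).2
      = th (fderiv ℝ ψ x₀ v).2 (fderiv ℝ ψ x₀ u).2
          + th (ψ x₀).2 (fderiv ℝ (fderiv ℝ ψ) x₀ v u).2
        + (daa δ (ψ x₀).1 (LL δ (ψ x₀).1 (ThE δ t ψ x₀ v).1) (ThE δ t ψ x₀ u).1
          + aa δ (ψ x₀).1 (fderiv ℝ (ThE δ t ψ) x₀ v u).1)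
        - dPP δ (ψ x₀).1 (LL δ (ψ x₀).1 (ThE δ t ψ x₀ v).1) (ThE δ t ψ x₀ u).2 := by
    rw [← k2]; abel
  have e3 : daa δ (ψ x₀).1 (LL δ (ψ x₀).1 (ThE δ t ψ x₀ u).1) (ThE δ t ψ x₀ v).1
      = det3 (ψ x₀).1 (ThE δ t ψ x₀ u).1 (ThE δ t ψ x₀ v).1 • WW δ (ψ x₀).1
        - cr (aa δ (ψ x₀).1 (ThE δ t ψ x₀ u).1) (aa δ (ψ x₀).1 (ThE δ t ψ x₀ v).1)
        - (aa δ (ψ x₀).1 (fderiv ℝ (ThE δ t ψ) x₀ u v).1
          - aa δ (ψ x₀).1 (fderiv ℝ (ThE δ t ψ) x₀ v u).1)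
        + daa δ (ψ x₀).1 (LL δ (ψ x₀).1 (ThE δ t ψ x₀ v).1) (ThE δ t ψ x₀ u).1 := by
    rw [← hc]; abel
  have e4 : th (fderiv ℝ ψ x₀ u).2 (fderiv ℝ ψ x₀ v).2
      = th (fderiv ℝ ψ x₀ v).2 (fderiv ℝ ψ x₀ u).2
        + cr (CC δ t (ψ x₀).1 (ThE δ t ψ x₀ u).2 - aa δ (ψ x₀).1 (ThE δ t ψ x₀ u).1)
          (CC δ t (ψ x₀).1 (ThE δ t ψ x₀ v).2 - aa δ (ψ x₀).1 (ThE δ t ψ x₀ v).1) := by
    rw [c1, c2, add_sub_cancel_right, add_sub_cancel_right, ← hmc]; abel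
  rw [e1, e2, e3, e4]
  rw [cr_sub_left, cr_sub_right, cr_sub_right,
    cr_anti (CC δ t (ψ x₀).1 (ThE δ t ψ x₀ u).2) (aa δ (ψ x₀).1 (ThE δ t ψ x₀ v).1)]
  abel

end

end MP_1b4d75_gt
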