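import Pool.Agent.Lib.MP_1b4d75_gt.E03
import Pool.Agent.Lib.MP_1b4d75_gt.A08

/-!
# MP_1b4d75_gt, module E04

The hypotheses of Lemma U at x₀: torsion free, metric, range.

tf: first components: dTh_fst and OO_tors1 (A09); second: dTh_snd, apply QQ (QQ_CC).
met: SE = SSb ∘ (ψ ·).1, fderiv_comp, fderiv_SSb (D01), (fderiv ψ u).1 = LL (Θ u).1, OO_met (A08), Th_perp.
rg: Th_surj; dot (sU u v).1 y = 0 by dTh_y and OO_fst_y (A09).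
-/

open scoped Quaternion Topology
open Filter

namespace MP_1b4d75_gt

noncomputable section

variable {E : Type*} [NormedAddCommGroup E] [NormedSpace ℝ E] {ψ : E → AA} {x₀ : E} {δ t : ℝ}

theorem e04_sU (x : E) (u v : E) :
    sU (ThE δ t ψ) (OmE δ t ψ) x u v
      = fderiv ℝ (ThE δ t ψ) x u v + OO δ t (ψ x).1 (ThE δ t ψ x u) (ThE δ t ψ x v) := rfl

theorem GoodChart.tf (h : GoodChart ψ x₀) (hδ : |δ| ≤ 1 / 10) (ht : 1 < t) (u v : E) :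
    sU (ThE δ t ψ) (OmE δ t ψ) x₀ u v = sU (ThE δ t ψ) (OmE δ t ψ) x₀ v u := by
  have hδ1 : |δ| ≤ 1 := hδ.trans (by norm_num)
  rw [e04_sU, e04_sU]
  have h1 := h.dTh_fst hδ ht u v
  have h2 := h.dTh_snd hδ ht u v
  have h3 := OO_tors1 δ t (ψ x₀).1 (ThE δ t ψ x₀ u) (ThE δ t ψ x₀ v)
  rw [← sub_eq_zero]
  have e : fderiv ℝ (ThE δ t ψ) x₀ u v + OO δ t (ψ x₀).1 (ThE δ t ψ x₀ u) (ThE δ t ψ x₀ v)
      - (fderiv ℝ (ThE δ t ψ) x₀ v u + OO δ t (ψ x₀).1 (ThE δ t ψ x₀ v) (ThE δ t ψ x₀ u))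
      = (fderiv ℝ (ThE δ t ψ) x₀ u v - fderiv ℝ (ThE δ t ψ) x₀ v u)
        + (OO δ t (ψ x₀).1 (ThE δ t ψ x₀ u) (ThE δ t ψ x₀ v)
          - OO δ t (ψ x₀).1 (ThE δ t ψ x₀ v) (ThE δ t ψ x₀ u)) := by abel
  rw [e]
  refine Prod.ext ?_ ?_
  · rw [Prod.fst_add, h1, h3, Prod.fst_zero]
    abel
  · rw [Prod.snd_add, Prod.snd_zero]
    have h4 : CC δ t (ψ x₀).1 ((fderiv ℝ (ThE δ t ψ) x₀ u v - fderiv ℝ (ThE δ t ψ) x₀ v u).2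
        + (OO δ t (ψ x₀).1 (ThE δ t ψ x₀ u) (ThE δ t ψ x₀ v)
          - OO δ t (ψ x₀).1 (ThE δ t ψ x₀ v) (ThE δ t ψ x₀ u)).2) = 0 := by
      rw [CC_add, h2]
      exact neg_add_cancel _
    rw [← QQ_CC hδ1 ht (ψ x₀).1 ((fderiv ℝ (ThE δ t ψ) x₀ u v - fderiv ℝ (ThE δ t ψ) x₀ v u).2
        + (OO δ t (ψ x₀).1 (ThE δ t ψ x₀ u) (ThE δ t ψ x₀ v)
          - OO δ t (ψ x₀).1 (ThE δ t ψ x₀ v) (ThE δ t ψ x₀ u)).2), h4, map_zero]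

theorem GoodChart.met (h : GoodChart ψ x₀) (hδ : |δ| ≤ 1 / 10) (ht : 1 < t) (u v w : E) :
    fderiv ℝ (SE δ t ψ) x₀ u (ThE δ t ψ x₀ v) (ThE δ t ψ x₀ w)
      = SE δ t ψ x₀ (OmE δ t ψ x₀ u (ThE δ t ψ x₀ v)) (ThE δ t ψ x₀ w)
        + SE δ t ψ x₀ (ThE δ t ψ x₀ v) (OmE δ t ψ x₀ u (ThE δ t ψ x₀ w)) := by
  have hδ1 : |δ| ≤ 1 := hδ.trans (by norm_num)
  have h1 : HD (fun x => (ψ x).1) x₀ u (fderiv ℝ ψ x₀ u).1 := (HD.of_diff h.diff).fst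
  have h2 : HD (fun x => SSb δ t (ψ x).1) x₀ u
      (fderiv ℝ (SSb δ t) (ψ x₀).1 (fderiv ℝ ψ x₀ u).1) :=
    HD.comp (g := SSb δ t) h1 ((SSb_smooth δ t).contDiffAt.differentiableAt (by norm_num))
  have h3 : fderiv ℝ (SE δ t ψ) x₀ u
      = fderiv ℝ (SSb δ t) (ψ x₀).1 (fderiv ℝ ψ x₀ u).1 := h2.2
  rw [h3, fderiv_SSb, ← h.LL_Th hδ (t := t) u]
  exact OO_met hδ1 ht (ThE δ t ψ x₀ u) (ThE δ t ψ x₀ v) (ThE δ t ψ x₀ w)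
    (h.Th_perp v) (h.Th_perp w)

theorem GoodChart.rg (h : GoodChart ψ x₀) (hδ : |δ| ≤ 1 / 10) (ht : 1 < t) (u v : E) :
    ∃ c, sU (ThE δ t ψ) (OmE δ t ψ) x₀ u v = ThE δ t ψ x₀ c := by
  have h1 : dot (sU (ThE δ t ψ) (OmE δ t ψ) x₀ u v).1 (ψ x₀).1 = 0 := by
    rw [e04_sU, Prod.fst_add, dot_add_left, h.dTh_y hδ ht u v,
      OO_fst_y h.y1 _ _ (h.Th_perp u) (h.Th_perp v), dot_comm (ThE δ t ψ x₀ v).1]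
    ring
  obtain ⟨c, hc⟩ := h.Th_surj hδ ht h1
  exact ⟨c, hc.symm⟩

end

end MP_1b4d75_gt
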