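import Pool.Agent.Lib.MP_1b4d75_gt.E04
import Pool.Agent.Lib.MP_1b4d75_gt.D08

/-!
# MP_1b4d75_gt, module E05

The curvature of `OmE` is `Rh`, and the chart theorem.

RU_eq: OmE x v = OOb (ψ x).1 (Θ x v); HD.comp, HD.clm: fderiv (OmE) x₀ u v = fderiv OOb y (LL n_u) (Θ v) + OO (dΘ u v);
tf (E04) gives dΘ u v - dΘ v u = OO (Θ v)(Θ u) - OO (Θ u)(Θ v); compare with the definition of Rh.
curv_chart: lemmaU with Θ = ThE, S = SE, Ω = OmE; the eventual hypotheses from GoodChart.near and E04; g is C² because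
g = fun x => (SE x).bilinearComp (ThE x) (ThE x) near x₀ (same values; smooth by E01); SS_symm (A08); RU_eq;
curvature_eq (D08).
-/

open scoped Quaternion Topology
open Filter

namespace MP_1b4d75_gt

noncomputable section

variable {E : Type*} [NormedAddCommGroup E] [NormedSpace ℝ E] {ψ : E → AA} {x₀ : E} {δ t : ℝ}

theorem GoodChart.dOm (h : GoodChart ψ x₀) (hδ : |δ| ≤ 1 / 10) (ht : 1 < t) (u v : E) :
    fderiv ℝ (OmE δ t ψ) x₀ u v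
      = fderiv ℝ (OOb δ t) (ψ x₀).1 (LL δ (ψ x₀).1 (ThE δ t ψ x₀ u).1) (ThE δ t ψ x₀ v)
        + OOb δ t (ψ x₀).1 (fderiv ℝ (ThE δ t ψ) x₀ u v) := by
  have hδ1 : |δ| ≤ 1 := hδ.trans (by norm_num)
  have h1 : HD (fun x => (ψ x).1) x₀ u (fderiv ℝ ψ x₀ u).1 := (HD.of_diff h.diff).fst
  have h2 : HD (fun x => OOb δ t (ψ x).1) x₀ u
      (fderiv ℝ (OOb δ t) (ψ x₀).1 (fderiv ℝ ψ x₀ u).1) :=
    HD.comp (g := OOb δ t) h1 ((OOb_smooth hδ1 ht).contDiffAt.differentiableAt (by norm_num))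
  have hT : DifferentiableAt ℝ (ThE δ t ψ) x₀ :=
    (h.ThE_smooth hδ ht).differentiableAt (by norm_num)
  have hO : DifferentiableAt ℝ (OmE δ t ψ) x₀ :=
    (h.OmE_smooth hδ ht).differentiableAt (by norm_num)
  have h3 : HD (fun x => ThE δ t ψ x v) x₀ u (fderiv ℝ (ThE δ t ψ) x₀ u v) :=
    ⟨hT.clm_apply (differentiableAt_const v), fderiv_eval hT v u⟩
  have h4 := (h2.clm h3).2
  rw [← fderiv_eval hO v u]
  have h5 : (fun x => OmE δ t ψ x v) = fun x => OOb δ t (ψ x).1 (ThE δ t ψ x v) := rfl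
  rw [h5, h4, h.LL_Th hδ (t := t) u]

theorem e05_Om (x : E) (u : E) (a : FF) :
    OmE δ t ψ x u a = OO δ t (ψ x).1 (ThE δ t ψ x u) a := rfl

theorem GoodChart.RU_eq (h : GoodChart ψ x₀) (hδ : |δ| ≤ 1 / 10) (ht : 1 < t) (u v : E) (a : FF) :
    RU (OmE δ t ψ) x₀ u v a
      = Rh δ t (ψ x₀).1 (ThE δ t ψ x₀ u) (ThE δ t ψ x₀ v) a := by
  have h1 := h.tf hδ ht u v
  rw [e04_sU, e04_sU] at h1
  have h2 : OO δ t (ψ x₀).1 (ThE δ t ψ x₀ v) (ThE δ t ψ x₀ u)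
      - OO δ t (ψ x₀).1 (ThE δ t ψ x₀ u) (ThE δ t ψ x₀ v)
      = fderiv ℝ (ThE δ t ψ) x₀ u v - fderiv ℝ (ThE δ t ψ) x₀ v u := by
    rw [sub_eq_sub_iff_add_eq_add, add_comm, ← h1, add_comm]
  have h3 : OO δ t (ψ x₀).1 (fderiv ℝ (ThE δ t ψ) x₀ u v - fderiv ℝ (ThE δ t ψ) x₀ v u) a
      = OO δ t (ψ x₀).1 (fderiv ℝ (ThE δ t ψ) x₀ u v) a
        - OO δ t (ψ x₀).1 (fderiv ℝ (ThE δ t ψ) x₀ v u) a := by
    rw [← OOb_apply, map_sub, _root_.sub_apply, OOb_apply, OOb_apply]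
  have h4 := h.dOm hδ ht u v
  have h5 := h.dOm hδ ht v u
  rw [RU, e05_Om, e05_Om, e05_Om, e05_Om, Rh, h2, h3, h4, h5]
  rw [_root_.add_apply, _root_.add_apply, OOb_apply, OOb_apply]
  abel

theorem e05_flip {F G : Type*} [NormedAddCommGroup F] [NormedSpace ℝ F] [NormedAddCommGroup G]
    [NormedSpace ℝ G] : ContDiff ℝ 2 (fun A : F →L[ℝ] G →L[ℝ] ℝ => A.flip) := by
  have h : IsBoundedLinearMap ℝ (fun A : F →L[ℝ] G →L[ℝ] ℝ => A.flip) := by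
    refine IsLinearMap.with_bound ⟨fun a b => rfl, fun r a => rfl⟩ 1 (fun A => ?_)
    rw [ContinuousLinearMap.opNorm_flip, one_mul]
  exact h.contDiff

theorem GoodChart.g_smooth (h : GoodChart ψ x₀) (hδ : |δ| ≤ 1 / 10) (ht : 1 < t)
    {g : E → E →L[ℝ] E →L[ℝ] ℝ}
    (hg : ∀ᶠ x in 𝓝 x₀, ∀ u v, g x u v = SS δ t (ψ x).1 (ThE δ t ψ x u) (ThE δ t ψ x v)) :
    ContDiffAt ℝ 2 g x₀ := by
  have hT := h.ThE_smooth hδ ht
  have hS : ContDiffAt ℝ 2 (SE δ t ψ) x₀ := h.SE_smooth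
  have h1 : ContDiffAt ℝ 2 (fun x => (SE δ t ψ x).comp (ThE δ t ψ x)) x₀ := hS.clm_comp hT
  have h2 : ContDiffAt ℝ 2 (fun x => ((SE δ t ψ x).comp (ThE δ t ψ x)).flip) x₀ :=
    (e05_flip (F := E) (G := FF)).contDiffAt.comp x₀ h1
  have h3 : ContDiffAt ℝ 2
      (fun x => (((SE δ t ψ x).comp (ThE δ t ψ x)).flip).comp (ThE δ t ψ x)) x₀ :=
    h2.clm_comp hT
  have h4 : ContDiffAt ℝ 2
      (fun x => ((((SE δ t ψ x).comp (ThE δ t ψ x)).flip).comp (ThE δ t ψ x)).flip) x₀ :=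
    (e05_flip (F := E) (G := E)).contDiffAt.comp x₀ h3
  refine h4.congr_of_eventuallyEq ?_
  filter_upwards [hg] with x hx
  refine ContinuousLinearMap.ext fun u => ContinuousLinearMap.ext fun v => ?_
  rw [hx u v]
  rfl

theorem GoodChart.curv_chart (h : GoodChart ψ x₀) (hδ : |δ| ≤ 1 / 10) (ht : 1 < t)
    {g : E → E →L[ℝ] E →L[ℝ] ℝ}
    (hg : ∀ᶠ x in 𝓝 x₀, ∀ u v, g x u v = SS δ t (ψ x).1 (ThE δ t ψ x u) (ThE δ t ψ x v))
    {Γ : E → E → E} (hΓ : IsChristoffel g x₀ Γ) (u v : E) :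
    curvNumWith g x₀ Γ u v = R4 δ t (ψ x₀).1 (ThE δ t ψ x₀ u) (ThE δ t ψ x₀ v) := by
  have hn := h.near
  have h1 := lemmaU (g := g) (Θ := ThE δ t ψ) (S := SE δ t ψ) (Ω := OmE δ t ψ) (x₀ := x₀)
    (h.g_smooth hδ ht hg) (h.ThE_smooth hδ ht) h.SE_smooth (h.OmE_smooth hδ ht)
    (hg.mono fun x hx u v => hx u v)
    (Eventually.of_forall fun x a b => SS_symm δ t (ψ x).1 a b)
    (hn.mono fun x hx u v => hx.tf hδ ht u v)
    (hn.mono fun x hx u v w => hx.met hδ ht u v w)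
    (hn.mono fun x hx u v => hx.rg hδ ht u v) hΓ u v
  rw [h1, h.RU_eq hδ ht]
  exact curvature_eq hδ ht h.y1 _ _ (h.Th_perp u) (h.Th_perp v)

end

end MP_1b4d75_gt
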