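import Pool.Agent.Lib.MP_1b4d75_gt.LemmaU

/-!
# MP_1b4d75_gt, module E06

Change of the basis of a plane (coordinate level).

curvNum_smul: d2 and chr are bilinear; g (Γ (a•u) v) w = a g (Γ u v) w by IsChristoffel.
curvNum_shear: expand; uses d2 symmetric in the first two (isSymmSndFDerivAt) and in the last two slots (symmetry
of g near x), chr symmetric in u, v.  Then curvNum_tri by combining.
gram_schmidt2: for a positive definite symmetric form q on the span: a = q(u,u)^(-1/2), etc.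
-/

open scoped Quaternion Topology
open Filter

namespace MP_1b4d75_gt

noncomputable section

variable {E : Type*} [NormedAddCommGroup E] [NormedSpace ℝ E]

/-- shortcut instance -/
local instance e06_inst1 : NormedAddCommGroup (E →L[ℝ] E →L[ℝ] ℝ) := inferInstance
/-- shortcut instance -/
local instance e06_inst2 : NormedSpace ℝ (E →L[ℝ] E →L[ℝ] ℝ) := inferInstance

theorem e06_d2_add1 (g : E → E →L[ℝ] E →L[ℝ] ℝ) (x a a' b u v : E) :
    d2 g x (a + a') b u v = d2 g x a b u v + d2 g x a' b u v := by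
  unfold d2; rw [map_add]; rfl
theorem e06_d2_add2 (g : E → E →L[ℝ] E →L[ℝ] ℝ) (x a b b' u v : E) :
    d2 g x a (b + b') u v = d2 g x a b u v + d2 g x a b' u v := by
  unfold d2; rw [map_add]; rfl
theorem e06_d2_add3 (g : E → E →L[ℝ] E →L[ℝ] ℝ) (x a b u u' v : E) :
    d2 g x a b (u + u') v = d2 g x a b u v + d2 g x a b u' v := by
  unfold d2; rw [map_add]; rfl
theorem e06_d2_add4 (g : E → E →L[ℝ] E →L[ℝ] ℝ) (x a b u v v' : E) :
    d2 g x a b u (v + v') = d2 g x a b u v + d2 g x a b u v' := by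
  unfold d2; rw [map_add]
theorem e06_d2_smul1 (g : E → E →L[ℝ] E →L[ℝ] ℝ) (x a b u v : E) (r : ℝ) :
    d2 g x (r • a) b u v = r * d2 g x a b u v := by
  unfold d2; rw [map_smul]; rfl
theorem e06_d2_smul2 (g : E → E →L[ℝ] E →L[ℝ] ℝ) (x a b u v : E) (r : ℝ) :
    d2 g x a (r • b) u v = r * d2 g x a b u v := by
  unfold d2; rw [map_smul]; rfl
theorem e06_d2_smul3 (g : E → E →L[ℝ] E →L[ℝ] ℝ) (x a b u v : E) (r : ℝ) :
    d2 g x a b (r • u) v = r * d2 g x a b u v := by
  unfold d2; rw [map_smul]; rfl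
theorem e06_d2_smul4 (g : E → E →L[ℝ] E →L[ℝ] ℝ) (x a b u v : E) (r : ℝ) :
    d2 g x a b u (r • v) = r * d2 g x a b u v := by
  unfold d2; rw [map_smul]; rfl

theorem e06_chr_add1 (g : E → E →L[ℝ] E →L[ℝ] ℝ) (x u u' v w : E) :
    chr g x (u + u') v w = chr g x u v w + chr g x u' v w := by
  unfold chr
  simp only [map_add, _root_.add_apply]
  ring
theorem e06_chr_smul1 (g : E → E →L[ℝ] E →L[ℝ] ℝ) (x u v w : E) (r : ℝ) :
    chr g x (r • u) v w = r * chr g x u v w := by
  unfold chr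
  simp only [map_smul, _root_.smul_apply, smul_eq_mul]
  ring
theorem e06_chr_add2 (g : E → E →L[ℝ] E →L[ℝ] ℝ) (x u v v' w : E) :
    chr g x u (v + v') w = chr g x u v w + chr g x u v' w := by
  unfold chr
  simp only [map_add, _root_.add_apply]
  ring
theorem e06_chr_smul2 (g : E → E →L[ℝ] E →L[ℝ] ℝ) (x u v w : E) (r : ℝ) :
    chr g x u (r • v) w = r * chr g x u v w := by
  unfold chr
  simp only [map_smul, _root_.smul_apply, smul_eq_mul]
  ring

theorem curvNum_tri {g : E → E →L[ℝ] E →L[ℝ] ℝ} {x : E} (hg : ContDiffAt ℝ 2 g x)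
    (hs : ∀ᶠ y in 𝓝 x, ∀ u v, g y u v = g y v u) {Γ : E → E → E} (hΓ : IsChristoffel g x Γ)
    (a b c : ℝ) (u v : E) :
    curvNumWith g x Γ (a • u) (b • v + c • u) = (a * b) ^ 2 * curvNumWith g x Γ u v := by
  have hg1 : ∀ᶠ y in 𝓝 x, DifferentiableAt ℝ g y :=
    (hg.eventually (by simp)).mono fun y hy => hy.differentiableAt (by norm_num)
  have hsy : ∀ a b, g x a b = g x b a := hs.self_of_nhds
  have hD : ∀ᶠ y in 𝓝 x, ∀ w a b, fderiv ℝ g y w a b = fderiv ℝ g y w b a := by
    filter_upwards [hg1, hs.eventually_nhds] with y h1 h2 w a b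
    rw [← fderiv_eval2 h1 a b w, ← fderiv_eval2 h1 b a w]
    have : (fun z => g z a b) =ᶠ[𝓝 y] fun z => g z b a := by
      filter_upwards [h2] with z hz using hz a b
    rw [this.fderiv_eq]
  have hD0 := hD.self_of_nhds
  have h12 : ∀ a b c d, d2 g x a b c d = d2 g x b a c d := by
    intro a b c d
    have := (hg.isSymmSndFDerivAt (by simp)).eq a b
    unfold d2
    rw [this]
  have h34 : ∀ a b c d, d2 g x a b c d = d2 g x a b d c := by
    intro a b c d
    have dg0 : DifferentiableAt ℝ (fderiv ℝ g) x :=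
      (hg.fderiv_right (m := 1) (by norm_num)).differentiableAt (by norm_num)
    have h1 : DifferentiableAt ℝ (fun x => fderiv ℝ g x b) x :=
      dg0.clm_apply (differentiableAt_const b)
    have e0 : ∀ c d, fderiv ℝ (fun x => fderiv ℝ g x b c d) x a = d2 g x a b c d := by
      intro c d
      rw [fderiv_eval2 h1, fderiv_eval dg0]
      rfl
    rw [← e0 c d, ← e0 d c]
    have : (fun x => fderiv ℝ g x b c d) =ᶠ[𝓝 x] fun x => fderiv ℝ g x b d c := by
      filter_upwards [hD] with z hz using hz b c d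
    rw [this.fderiv_eq]
  have hchr : ∀ u v w, chr g x u v w = chr g x v u w := by
    intro u v w
    unfold chr
    rw [hD0 w u v]
    ring
  have hG : ∀ u v u' v', g x (Γ u v) (Γ u' v') = chr g x u v (Γ u' v') := fun u v u' v' => hΓ _ _ _
  have hG' : ∀ u v u' v', chr g x u v (Γ u' v') = chr g x u' v' (Γ u v) := by
    intro u v u' v'
    rw [← hΓ, ← hΓ, hsy]
  unfold curvNumWith
  rw [hG, hG, hG, hG]
  have k1 : chr g x (a • u) (b • v + c • u) (Γ (a • u) (b • v + c • u))
      = (a * b) ^ 2 * chr g x u v (Γ u v) + 2 * (a ^ 2 * b * c) * chr g x u u (Γ u v)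
        + (a * c) ^ 2 * chr g x u u (Γ u u) := by
    have e1 : ∀ w, chr g x (a • u) (b • v + c • u) w
        = a * b * chr g x u v w + a * c * chr g x u u w := by
      intro w
      rw [e06_chr_smul1, e06_chr_add2, e06_chr_smul2, e06_chr_smul2]
      ring
    rw [e1, hG' u v, hG' u u, e1, e1, hG' u v u u]
    ring
  have k2 : chr g x (a • u) (a • u) (Γ (b • v + c • u) (b • v + c • u))
      = (a * b) ^ 2 * chr g x u u (Γ v v) + 2 * (a ^ 2 * b * c) * chr g x u u (Γ u v)
        + (a * c) ^ 2 * chr g x u u (Γ u u) := by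
    have e1 : ∀ w, chr g x (b • v + c • u) (b • v + c • u) w
        = b ^ 2 * chr g x v v w + 2 * (b * c) * chr g x u v w + c ^ 2 * chr g x u u w := by
      intro w
      rw [e06_chr_add1, e06_chr_add2, e06_chr_add2, e06_chr_smul1, e06_chr_smul2,
        e06_chr_smul1, e06_chr_smul2, e06_chr_smul1, e06_chr_smul2, e06_chr_smul1,
        e06_chr_smul2, hchr v u]
      ring
    rw [e06_chr_smul1, e06_chr_smul2, hG' u u, e1, hG' v v u u, hG' u v u u]
    ring
  have k3 : d2 g x (a • u) (a • u) (b • v + c • u) (b • v + c • u)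
      = a ^ 2 * (b ^ 2 * d2 g x u u v v + 2 * (b * c) * d2 g x u u u v
        + c ^ 2 * d2 g x u u u u) := by
    rw [e06_d2_smul1, e06_d2_smul2, e06_d2_add3, e06_d2_add4, e06_d2_add4]
    simp only [e06_d2_smul3, e06_d2_smul4]
    rw [h34 u u v u]
    ring
  have k4 : d2 g x (b • v + c • u) (b • v + c • u) (a • u) (a • u)
      = a ^ 2 * (b ^ 2 * d2 g x v v u u + 2 * (b * c) * d2 g x u v u u
        + c ^ 2 * d2 g x u u u u) := by
    rw [e06_d2_smul3, e06_d2_smul4, e06_d2_add1, e06_d2_add2, e06_d2_add2]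
    simp only [e06_d2_smul1, e06_d2_smul2]
    rw [h12 v u u u]
    ring
  have k5 : d2 g x (a • u) (b • v + c • u) (a • u) (b • v + c • u)
      = a ^ 2 * (b ^ 2 * d2 g x u v u v + b * c * d2 g x u v u u + b * c * d2 g x u u u v
        + c ^ 2 * d2 g x u u u u) := by
    rw [e06_d2_smul1, e06_d2_smul3, e06_d2_add2, e06_d2_add4, e06_d2_add4]
    simp only [e06_d2_smul2, e06_d2_smul4]
    ring
  rw [k1, k2, k3, k4, k5]
  ring

/-- orthonormalisation of a pair of vectors with respect to a positive definite symmetric form -/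
theorem gram_schmidt2 {V : Type*} [AddCommGroup V] [Module ℝ V] (q : V →ₗ[ℝ] V →ₗ[ℝ] ℝ)
    (hs : ∀ a b, q a b = q b a) (hp : ∀ a, a ≠ 0 → 0 < q a a) {u v : V}
    (huv : LinearIndependent ℝ ![u, v]) :
    ∃ a b c : ℝ, a ≠ 0 ∧ b ≠ 0 ∧ q (a • u) (a • u) = 1 ∧ q (b • v + c • u) (b • v + c • u) = 1 ∧
      q (a • u) (b • v + c • u) = 0 := by
  have hpair := LinearIndependent.pair_iff.1 huv
  have hu : u ≠ 0 := by
    intro h0
    have := hpair 1 0 (by rw [h0]; simp)
    exact one_ne_zero this.1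
  have hA := hp u hu
  set A := q u u with hAdef
  set s := q u v / A with hsdef
  have hw : v - s • u ≠ 0 := by
    intro h0
    have := hpair (-s) 1 (by rw [neg_smul, one_smul, neg_add_eq_sub]; exact h0)
    exact one_ne_zero this.2
  have hW := hp _ hw
  set w := v - s • u with hwdef
  have huw : q u w = 0 := by
    rw [hwdef, map_sub, map_smul, smul_eq_mul, ← hAdef, hsdef]
    field_simp
    ring
  have hsA : 0 < Real.sqrt A := Real.sqrt_pos.2 hA
  have hsW : 0 < Real.sqrt (q w w) := Real.sqrt_pos.2 hW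
  refine ⟨(Real.sqrt A)⁻¹, (Real.sqrt (q w w))⁻¹, -(Real.sqrt (q w w))⁻¹ * s,
    inv_ne_zero hsA.ne', inv_ne_zero hsW.ne', ?_, ?_, ?_⟩
  · rw [map_smul, LinearMap.map_smul₂, smul_eq_mul, smul_eq_mul, ← hAdef]
    rw [← mul_assoc, ← mul_inv, Real.mul_self_sqrt hA.le]
    exact inv_mul_cancel₀ hA.ne'
  · have e : (Real.sqrt (q w w))⁻¹ • v + (-(Real.sqrt (q w w))⁻¹ * s) • u
        = (Real.sqrt (q w w))⁻¹ • w := by
      rw [hwdef]; module
    rw [e, map_smul, LinearMap.map_smul₂, smul_eq_mul, smul_eq_mul]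
    rw [← mul_assoc, ← mul_inv, Real.mul_self_sqrt hW.le]
    exact inv_mul_cancel₀ hW.ne'
  · have e : (Real.sqrt (q w w))⁻¹ • v + (-(Real.sqrt (q w w))⁻¹ * s) • u
        = (Real.sqrt (q w w))⁻¹ • w := by
      rw [hwdef]; module
    rw [e, map_smul, LinearMap.map_smul₂, huw]
    simp

end

end MP_1b4d75_gt
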