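import Pool.Agent.Lib.MP_1b4d75_gt.P03

/-!
# MP_1b4d75_gt, module P04

Compactness: one `t` for all orthonormal pairs.

R4_cont: all ingredients are continuous (polynomials in y; QQ δ t continuous by QQ_smooth, clm apply).
The set of (y,X1,X2) with OrthoPair is compact (closed and bounded in a finite dimensional space; exists_t: if not,
take for every natural number m a triple with R4 (m+2) ≤ 0, a convergent subsequence with limit (y,X1,X2), t₀ from
R4_pointwise; by R4_mono (P01) R4 t₀ ≤ R4 (m+2) ≤ 0 along the subsequence for large m, so R4 t₀ (limit) ≤ 0,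
contradiction.  Or with the open cover by the sets {0 < R4 t} directed in t.)
-/

open scoped Quaternion Topology
open Filter

namespace MP_1b4d75_gt

noncomputable section

section cont

variable {T : Type*} [TopologicalSpace T]

theorem P04_comp {f : T → V3} (hf : Continuous f) (i : Fin 3) : Continuous fun x => f x i :=
  (EuclideanSpace.proj (𝕜 := ℝ) i).continuous.comp hf

theorem P04_csm (r : ℝ) {f : T → V3} (hf : Continuous f) : Continuous fun x => r • f x :=
  (continuous_const_smul r).comp hf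

theorem P04_mk3 {f g h : T → ℝ} (hf : Continuous f) (hg : Continuous g) (hh : Continuous h) :
    Continuous fun x => mk3 (f x) (g x) (h x) := by
  have : (fun x => mk3 (f x) (g x) (h x))
      = fun x => f x • mk3 1 0 0 + g x • mk3 0 1 0 + h x • mk3 0 0 1 := by
    funext x
    apply ext3 <;> simp
  rw [this]
  exact ((hf.smul continuous_const).add (hg.smul continuous_const)).add
    (hh.smul continuous_const)

theorem P04_dot {f g : T → V3} (hf : Continuous f) (hg : Continuous g) :
    Continuous fun x => dot (f x) (g x) := by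
  unfold dot
  exact (((P04_comp hf 0).mul (P04_comp hg 0)).add ((P04_comp hf 1).mul (P04_comp hg 1))).add
    ((P04_comp hf 2).mul (P04_comp hg 2))

theorem P04_cr {f g : T → V3} (hf : Continuous f) (hg : Continuous g) :
    Continuous fun x => cr (f x) (g x) := by
  unfold cr
  exact P04_mk3
    (((P04_comp hf 1).mul (P04_comp hg 2)).sub ((P04_comp hf 2).mul (P04_comp hg 1)))
    (((P04_comp hf 2).mul (P04_comp hg 0)).sub ((P04_comp hf 0).mul (P04_comp hg 2)))
    (((P04_comp hf 0).mul (P04_comp hg 1)).sub ((P04_comp hf 1).mul (P04_comp hg 0)))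

theorem P04_det3 {f g h : T → V3} (hf : Continuous f) (hg : Continuous g) (hh : Continuous h) :
    Continuous fun x => det3 (f x) (g x) (h x) := P04_dot hf (P04_cr hg hh)

theorem P04_TT (δ : ℝ) {f : T → V3} (hf : Continuous f) : Continuous fun x => TT δ (f x) := by
  unfold TT
  exact P04_mk3
    ((P04_comp hf 0).add (continuous_const.mul (P04_comp hf 1)))
    (((continuous_const.mul (P04_comp hf 0)).add (P04_comp hf 1)).add
      (continuous_const.mul (P04_comp hf 2)))
    ((continuous_const.mul (P04_comp hf 1)).add (P04_comp hf 2))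

theorem P04_qq {f : T → V3} (hf : Continuous f) : Continuous fun x => qq (f x) := by
  unfold qq
  exact P04_mk3 (P04_comp hf 2) (P04_comp hf 1).neg (P04_comp hf 0)

theorem P04_sg (δ : ℝ) {f : T → V3} (hf : Continuous f) : Continuous fun x => sg δ (f x) := by
  unfold sg
  exact continuous_const.add (continuous_const.mul (P04_comp hf 2))

theorem P04_ty (δ : ℝ) {f : T → V3} (hf : Continuous f) : Continuous fun x => ty δ (f x) :=
  P04_dot hf (P04_TT δ hf)

theorem P04_om (δ : ℝ) {f g : T → V3} (hf : Continuous f) (hg : Continuous g) :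
    Continuous fun x => om δ (f x) (g x) := by
  unfold om
  exact ((continuous_const.sub (P04_ty δ hf)).smul hg).sub (P04_TT δ hg)

theorem P04_aa (δ : ℝ) {f g : T → V3} (hf : Continuous f) (hg : Continuous g) :
    Continuous fun x => aa δ (f x) (g x) := by
  unfold aa
  exact ((P04_sg δ hf).smul hg).sub (P04_om δ hf hg)

theorem P04_pr {f g : T → V3} (hf : Continuous f) (hg : Continuous g) :
    Continuous fun x => pr (f x) (g x) := by
  unfold pr
  exact hg.sub ((P04_dot hg hf).smul hf)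

theorem P04_LL (δ : ℝ) {f g : T → V3} (hf : Continuous f) (hg : Continuous g) :
    Continuous fun x => LL δ (f x) (g x) := by
  unfold LL
  exact P04_pr hf (P04_TT δ (P04_cr hg hf))

theorem P04_KK (δ : ℝ) {f : T → V3} (hf : Continuous f) : Continuous fun x => KK δ (f x) := by
  unfold KK
  exact ((continuous_const.sub (continuous_const.mul (P04_ty δ hf))).add
    (continuous_const.mul ((P04_ty δ hf).pow 2))).sub
    (continuous_const.mul (P04_dot (P04_TT δ hf) (P04_TT δ hf)))

theorem P04_gs (δ : ℝ) {f : T → V3} (hf : Continuous f) : Continuous fun x => gs δ (f x) := by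
  unfold gs
  exact P04_csm _ (P04_pr hf (P04_TT δ (P04_pr hf continuous_const)))

theorem P04_WW (δ : ℝ) {f : T → V3} (hf : Continuous f) : Continuous fun x => WW δ (f x) := by
  unfold WW
  exact ((((P04_KK δ hf).sub ((P04_sg δ hf).pow 2)).neg).smul hf).sub (P04_gs δ hf)

theorem P04_zz (δ : ℝ) {f : T → V3} (hf : Continuous f) : Continuous fun x => zz δ (f x) := by
  unfold zz
  exact hf.add continuous_const

theorem P04_PP (δ : ℝ) {f g : T → V3} (hf : Continuous f) (hg : Continuous g) :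
    Continuous fun x => PP δ (f x) (g x) := by
  unfold PP
  exact (((P04_dot (P04_zz δ hf) hg).div_const 4).smul (P04_zz δ hf)).add
    (P04_csm _ (P04_qq hg))

theorem P04_CC (δ t : ℝ) {f g : T → V3} (hf : Continuous f) (hg : Continuous g) :
    Continuous fun x => CC δ t (f x) (g x) := by
  unfold CC
  exact (P04_csm t hg).add (P04_PP δ hf hg)

theorem P04_dPP (δ : ℝ) {f g h : T → V3} (hf : Continuous f) (hg : Continuous g)
    (hh : Continuous h) : Continuous fun x => dPP δ (f x) (g x) (h x) := by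
  unfold dPP
  exact P04_csm _ (((P04_dot hg hh).smul (P04_zz δ hf)).add
    ((P04_dot (P04_zz δ hf) hh).smul hg))

theorem P04_DP (δ : ℝ) {f g h : T → V3} (hf : Continuous f) (hg : Continuous g)
    (hh : Continuous h) : Continuous fun x => DP δ (f x) (g x) (h x) := by
  unfold DP
  exact ((P04_dPP δ hf (P04_LL δ hf hg) hh).add
    (P04_cr (P04_aa δ hf hg) (P04_PP δ hf hh))).sub
    (P04_PP δ hf (P04_cr (P04_aa δ hf hg) hh))

theorem P04_gr (δ : ℝ) {f g h : T → V3} (hf : Continuous f) (hg : Continuous g)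
    (hh : Continuous h) : Continuous fun x => gr δ (f x) (g x) (h x) := by
  unfold gr
  have hz := P04_zz δ hf
  have hc : Continuous fun x => cr (PP δ (f x) (h x)) (g x) + cr (PP δ (f x) (g x)) (h x) :=
    (P04_cr (P04_PP δ hf hh) hg).add (P04_cr (P04_PP δ hf hg) hh)
  refine P04_pr hf (((?_ : Continuous _).add ?_).add (P04_TT δ hc))
  · exact P04_csm _ (P04_cr hf (P04_TT δ (P04_pr hf (((P04_dot hz hh).smul hg).add
      ((P04_dot hz hg).smul hh)))))
  · exact (((P04_sg δ hf).sub continuous_const).add (P04_ty δ hf)).smul hc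

theorem P04_dpr {f g h : T → V3} (hf : Continuous f) (hg : Continuous g)
    (hh : Continuous h) : Continuous fun x => dpr (f x) (g x) (h x) := by
  unfold dpr
  exact (((P04_dot hh hg).smul hf).neg).sub ((P04_dot hh hf).smul hg)

theorem P04_dty (δ : ℝ) {f g : T → V3} (hf : Continuous f) (hg : Continuous g) :
    Continuous fun x => dty δ (f x) (g x) := by
  unfold dty
  exact continuous_const.mul (P04_dot hg (P04_TT δ hf))

theorem P04_dLL (δ : ℝ) {f g h : T → V3} (hf : Continuous f) (hg : Continuous g)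
    (hh : Continuous h) : Continuous fun x => dLL δ (f x) (g x) (h x) := by
  unfold dLL
  exact (P04_dpr hf hg (P04_TT δ (P04_cr hh hf))).add (P04_pr hf (P04_TT δ (P04_cr hh hg)))

theorem P04_daa (δ : ℝ) {f g h : T → V3} (hf : Continuous f) (hg : Continuous g)
    (hh : Continuous h) : Continuous fun x => daa δ (f x) (g x) (h x) := by
  unfold daa
  exact ((continuous_const.mul (P04_comp hg 2)).smul hh).add ((P04_dty δ hf hg).smul hh)

theorem P04_dDP (δ : ℝ) {f g h k : T → V3} (hf : Continuous f) (hg : Continuous g)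
    (hh : Continuous h) (hk : Continuous k) :
    Continuous fun x => dDP δ (f x) (g x) (h x) (k x) := by
  unfold dDP
  have hL := P04_LL δ hf hh
  refine ((((?_ : Continuous _).add ?_).add ?_).add ?_).sub ?_ |>.sub ?_
  · exact P04_csm _ (((P04_dot hL hk).smul hg).add ((P04_dot hg hk).smul hL))
  · exact P04_dPP δ hf (P04_dLL δ hf hg hh) hk
  · exact P04_cr (P04_daa δ hf hg hh) (P04_PP δ hf hk)
  · exact P04_cr (P04_aa δ hf hh) (P04_dPP δ hf hg hk)
  · exact P04_dPP δ hf hg (P04_cr (P04_aa δ hf hh) hk)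
  · exact P04_PP δ hf (P04_cr (P04_daa δ hf hg hh) hk)

theorem P04_D2P (δ : ℝ) {f g h k : T → V3} (hf : Continuous f) (hg : Continuous g)
    (hh : Continuous h) (hk : Continuous k) :
    Continuous fun x => D2P δ (f x) (g x) (h x) (k x) := by
  unfold D2P
  exact (((P04_dDP δ hf (P04_LL δ hf hg) hh hk).add
    (P04_DP δ hf (P04_cr (P04_om δ hf hg) hh) hk)).add
    (P04_cr (P04_aa δ hf hg) (P04_DP δ hf hh hk))).sub
    (P04_DP δ hf hh (P04_cr (P04_aa δ hf hg) hk))

theorem P04_dKK (δ : ℝ) {f g : T → V3} (hf : Continuous f) (hg : Continuous g) :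
    Continuous fun x => dKK δ (f x) (g x) := by
  unfold dKK
  exact ((continuous_const.mul (P04_dty δ hf hg)).add
    ((continuous_const.mul (P04_ty δ hf)).mul (P04_dty δ hf hg))).sub
    (continuous_const.mul (P04_dot (P04_TT δ hg) (P04_TT δ hf)))

theorem P04_dgs (δ : ℝ) {f g : T → V3} (hf : Continuous f) (hg : Continuous g) :
    Continuous fun x => dgs δ (f x) (g x) := by
  unfold dgs
  exact P04_csm _ ((P04_dpr hf hg (P04_TT δ (P04_pr hf continuous_const))).add
    (P04_pr hf (P04_TT δ (P04_dpr hf hg continuous_const))))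

theorem P04_dWW (δ : ℝ) {f g : T → V3} (hf : Continuous f) (hg : Continuous g) :
    Continuous fun x => dWW δ (f x) (g x) := by
  unfold dWW
  exact (((((P04_dKK δ hf hg).sub ((continuous_const.mul (P04_sg δ hf)).mul
    (continuous_const.mul (P04_comp hg 2)))).neg).smul hf).sub
    (((P04_KK δ hf).sub ((P04_sg δ hf).pow 2)).smul hg)).sub (P04_dgs δ hf hg)

theorem P04_DW (δ : ℝ) {f g : T → V3} (hf : Continuous f) (hg : Continuous g) :
    Continuous fun x => DW δ (f x) (g x) := by
  unfold DW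
  exact (P04_dWW δ hf (P04_LL δ hf hg)).add (P04_cr (P04_aa δ hf hg) (P04_WW δ hf))

theorem P04_Zt (δ t : ℝ) {f : T → V3} {X A : T → FF} (hf : Continuous f) (hX : Continuous X)
    (hA : Continuous A) : Continuous fun x => Zt δ t (f x) (X x) (A x) := by
  unfold Zt
  exact (((P04_DP δ hf hX.fst hA.snd).sub (P04_DP δ hf hA.fst hX.snd)).sub
    ((P04_det3 hf hX.fst hA.fst).smul (P04_WW δ hf))).sub
    (P04_cr (P04_CC δ t hf hX.snd) (P04_CC δ t hf hA.snd))

theorem P04_Hh (δ : ℝ) {f : T → V3} {X A : T → FF} (hf : Continuous f) (hX : Continuous X)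
    (hA : Continuous A) : Continuous fun x => Hh δ (f x) (X x) (A x) := by
  unfold Hh
  exact ((((P04_dot (P04_WW δ hf) hA.snd).div_const 2).smul (P04_cr hf hX.fst)).add
    (((P04_dot (P04_WW δ hf) hX.snd).div_const 2).smul (P04_cr hf hA.fst))).add
    (P04_csm _ (P04_gr δ hf hX.snd hA.snd))

theorem P04_Sg (δ t : ℝ) {f g h : T → V3} (hf : Continuous f) (hg : Continuous g)
    (hh : Continuous h) : Continuous fun x => Sg δ t (f x) (g x) (h x) := by
  unfold Sg
  exact P04_csm _ ((P04_cr hh (P04_CC δ t hf hg)).add (P04_cr hg (P04_CC δ t hf hh)))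

theorem P04_Sp (δ t : ℝ) {f g h : T → V3} (hf : Continuous f) (hg : Continuous g)
    (hh : Continuous h) : Continuous fun x => Sp δ t (f x) (g x) (h x) := by
  unfold Sp
  exact P04_csm _ ((P04_cr (P04_CC δ t hf hg) hh).add (P04_cr hg (P04_CC δ t hf hh)))

end cont

theorem R4_cont {δ t : ℝ} (hδ : |δ| ≤ 1) (ht : 1 < t) :
    Continuous fun q : V3 × FF × FF => R4 δ t q.1 q.2.1 q.2.2 := by
  have hy : Continuous fun q : V3 × FF × FF => q.1 := continuous_fst
  have hX : Continuous fun q : V3 × FF × FF => q.2.1 := continuous_fst.comp continuous_snd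
  have hA : Continuous fun q : V3 × FF × FF => q.2.2 := continuous_snd.comp continuous_snd
  have n1 : Continuous fun q : V3 × FF × FF => q.2.1.1 := hX.fst
  have p1 : Continuous fun q : V3 × FF × FF => q.2.1.2 := hX.snd
  have n2 : Continuous fun q : V3 × FF × FF => q.2.2.1 := hA.fst
  have p2 : Continuous fun q : V3 × FF × FF => q.2.2.2 := hA.snd
  have hw := P04_det3 hy n1 n2
  have hW := P04_WW δ hy
  have hK := P04_KK δ hy
  have c1 := P04_CC δ t hy p1
  have c2 := P04_CC δ t hy p2
  have hZ := P04_Zt δ t hy hX hA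
  have hQ : Continuous fun q : V3 × FF × FF => QQ δ t q.1 := (QQ_smooth hδ ht).continuous.comp hy
  have hQZ : Continuous fun q : V3 × FF × FF => QQ δ t q.1 (Zt δ t q.1 q.2.1 q.2.2) :=
    hQ.clm_apply hZ
  have hS := P04_Sg δ t hy p1 p2
  unfold R4
  refine ((((((((?_ : Continuous _).add ?_).add ?_).sub ?_).sub ?_).add ?_).sub ?_).add
    ?_).sub ?_ |>.sub ?_
  · exact hK.mul (hw.pow 2)
  · exact hw.mul (P04_dot (P04_cr hW p2) c1)
  · exact ((((hw.mul (P04_dot (P04_DW δ hy n1) p2)).neg).add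
      (continuous_const.mul (P04_dot p2 (P04_D2P δ hy n1 n1 p2)))).add
      (P04_dot (P04_cr p2 (P04_DP δ hy n1 p2)) c1)).add
      (P04_dot (P04_cr p2 c2) (P04_DP δ hy n1 p1))
  · exact ((((((hw.mul (P04_dot (P04_DW δ hy n2) p1)).neg).add
      (P04_dot p1 (P04_D2P δ hy n2 n1 p2))).sub
      (continuous_const.mul (P04_dot p1 (P04_D2P δ hy n2 n2 p1)))).sub
      (P04_dot (P04_cr (P04_DP δ hy n2 p1) c2) p1)).sub
      (P04_dot (P04_cr c1 (P04_DP δ hy n2 p2)) p1))
  · exact P04_dot (P04_Hh δ hy hX hX) (P04_Hh δ hy hA hA)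
  · exact P04_dot (P04_Hh δ hy hX hA) (P04_Hh δ hy hX hA)
  · exact P04_dot (P04_cr p1 c1) (P04_CC δ t hy (P04_cr p2 c2))
  · exact P04_dot hS (P04_CC δ t hy hS)
  · exact continuous_const.mul (P04_dot hZ hQZ)
  · exact P04_dot hZ (P04_Sp δ t hy p1 p2)

theorem P04_norm_sq (a : V3) : ‖a‖ ^ 2 = dot a a := by
  rw [EuclideanSpace.norm_sq_eq]
  simp [Fin.sum_univ_three, dot]
  ring

theorem P04_norm_le {a : V3} (h : dot a a ≤ 1) : ‖a‖ ≤ 1 := by
  rw [← P04_norm_sq] at h
  have := norm_nonneg a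
  nlinarith

theorem P04_dot_nonneg (a : V3) : 0 ≤ dot a a := by
  rw [← P04_norm_sq]
  positivity

theorem compact_ortho : IsCompact {q : V3 × FF × FF | OrthoPair q.1 q.2.1 q.2.2} := by
  apply Metric.isCompact_of_isClosed_isBounded
  · have hy : Continuous fun q : V3 × FF × FF => q.1 := continuous_fst
    have hX : Continuous fun q : V3 × FF × FF => q.2.1 := continuous_fst.comp continuous_snd
    have hA : Continuous fun q : V3 × FF × FF => q.2.2 := continuous_snd.comp continuous_snd
    have n1 : Continuous fun q : V3 × FF × FF => q.2.1.1 := hX.fst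
    have p1 : Continuous fun q : V3 × FF × FF => q.2.1.2 := hX.snd
    have n2 : Continuous fun q : V3 × FF × FF => q.2.2.1 := hA.fst
    have p2 : Continuous fun q : V3 × FF × FF => q.2.2.2 := hA.snd
    have hs : {q : V3 × FF × FF | OrthoPair q.1 q.2.1 q.2.2}
        = {q : V3 × FF × FF | dot q.1 q.1 = 1} ∩ ({q | dot q.2.1.1 q.1 = 0} ∩
          ({q | dot q.2.2.1 q.1 = 0} ∩ ({q | dot q.2.1.1 q.2.1.1 + dot q.2.1.2 q.2.1.2 = 1} ∩
          ({q | dot q.2.2.1 q.2.2.1 + dot q.2.2.2 q.2.2.2 = 1} ∩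
          {q | dot q.2.1.1 q.2.2.1 + dot q.2.1.2 q.2.2.2 = 0})))) := by
      ext q
      constructor
      · intro h
        exact ⟨h.yy, h.h1, h.h2, h.e11, h.e22, h.e12⟩
      · rintro ⟨a, b, c, d, e, f⟩
        exact ⟨a, b, c, d, e, f⟩
    rw [hs]
    refine (isClosed_eq (P04_dot hy hy) continuous_const).inter
      ((isClosed_eq (P04_dot n1 hy) continuous_const).inter
      ((isClosed_eq (P04_dot n2 hy) continuous_const).inter
      ((isClosed_eq ((P04_dot n1 n1).add (P04_dot p1 p1)) continuous_const).inter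
      ((isClosed_eq ((P04_dot n2 n2).add (P04_dot p2 p2)) continuous_const).inter
      (isClosed_eq ((P04_dot n1 n2).add (P04_dot p1 p2)) continuous_const)))))
  · rw [isBounded_iff_forall_norm_le]
    refine ⟨1, ?_⟩
    rintro ⟨y, ⟨a, b⟩, ⟨c, d⟩⟩ ⟨hyy, -, -, h1, h2, -⟩
    simp only at hyy h1 h2
    have ha := P04_dot_nonneg a
    have hb := P04_dot_nonneg b
    have hc := P04_dot_nonneg c
    have hd := P04_dot_nonneg d
    simp only [Prod.norm_def]
    exact max_le (P04_norm_le hyy.le) (max_le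
      (max_le (P04_norm_le (by linarith)) (P04_norm_le (by linarith)))
      (max_le (P04_norm_le (by linarith)) (P04_norm_le (by linarith))))

/-- the set of triples with positive curvature at the parameter `n + 2` -/
def P04_U (δ : ℝ) (n : ℕ) : Set (V3 × FF × FF) :=
  {q | 0 < R4 δ ((n : ℝ) + 2) q.1 q.2.1 q.2.2}

theorem P04_mem_U (δ : ℝ) (n : ℕ) (y : V3) (X A : FF) :
    ((y, X, A) : V3 × FF × FF) ∈ P04_U δ n ↔ 0 < R4 δ ((n : ℝ) + 2) y X A := Iff.rfl

theorem P04_one_lt (n : ℕ) : (1 : ℝ) < (n : ℝ) + 2 := by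
  have : (0 : ℝ) ≤ n := Nat.cast_nonneg n
  linarith

theorem P04_U_mono {δ : ℝ} (hδ : |δ| ≤ 1) {n m : ℕ} (h : n ≤ m) : P04_U δ n ⊆ P04_U δ m := by
  rintro ⟨y, X, A⟩ hq
  rw [P04_mem_U] at hq ⊢
  have h1 : (n : ℝ) ≤ (m : ℝ) := Nat.cast_le.2 h
  exact lt_of_lt_of_le hq (R4_mono hδ (P04_one_lt n) (by linarith) y X A)

theorem P04_U_open {δ : ℝ} (hδ : |δ| ≤ 1) (n : ℕ) : IsOpen (P04_U δ n) :=
  isOpen_lt continuous_const (R4_cont hδ (P04_one_lt n))

theorem exists_t {δ : ℝ} (hδ : |δ| ≤ 1 / 10) (hS : Star δ) :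
    ∃ t > 1, ∀ (y : V3) (X1 X2 : FF), OrthoPair y X1 X2 → 0 < R4 δ t y X1 X2 := by
  have hδ1 : |δ| ≤ 1 := hδ.trans (by norm_num)
  have hcov : {q : V3 × FF × FF | OrthoPair q.1 q.2.1 q.2.2} ⊆ ⋃ n : ℕ, P04_U δ n := by
    rintro ⟨y, X, A⟩ hq
    obtain ⟨t₀, ht₀, ht⟩ := R4_pointwise hδ hS (y := y) (X1 := X) (X2 := A) hq
    obtain ⟨n, hn⟩ := exists_nat_ge t₀
    rw [Set.mem_iUnion]
    refine ⟨n, ?_⟩
    rw [P04_mem_U]
    exact ht _ (by linarith)
  have hdir : Directed (· ⊆ ·) (P04_U δ) := by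
    intro n m
    exact ⟨max n m, P04_U_mono hδ1 (le_max_left _ _), P04_U_mono hδ1 (le_max_right _ _)⟩
  obtain ⟨n, hn⟩ := compact_ortho.elim_directed_cover (P04_U δ) (P04_U_open hδ1) hcov hdir
  refine ⟨(n : ℝ) + 2, P04_one_lt n, ?_⟩
  intro y X A h
  have h1 : ((y, X, A) : V3 × FF × FF) ∈ {q : V3 × FF × FF | OrthoPair q.1 q.2.1 q.2.2} := h
  exact (P04_mem_U δ n y X A).1 (hn h1)

end

end MP_1b4d75_gt
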