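import Pool.Agent.Lib.MP_1b4d75_gt.A07

/-!
# MP_1b4d75_gt, module P01

Monotonicity of the curvature in the parameter `t`.

`R4 t` is the infimum over `u` of `Phi t u`, where `Phi` is obtained from `R4` by replacing the term with the
inverse `QQ` by `(3/4) (⟨u, C u⟩ - 2 ⟨u, Z⟩)`; the optimum is `u = QQ Z`.  For fixed `u`
`Phi t u - Phi s u = (t - s) (|a|² + ⟨a, b⟩ + |b|²)` with `a = S'(s) + u/2`, `b = S'(t) + u/2`.
-/

open scoped Quaternion Topology
open Filter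

namespace MP_1b4d75_gt

noncomputable section

/-- `R4` with the term containing the inverse replaced by its Legendre form. -/
def Phi (δ t : ℝ) (y : V3) (X A : FF) (u : V3) : ℝ :=
  R4 δ t y X A + 3 / 4 * dot (Zt δ t y X A) (QQ δ t y (Zt δ t y X A))
    + 3 / 4 * (dot u (CC δ t y u) - 2 * dot u (Zt δ t y X A))

theorem CC_nonneg {δ t : ℝ} (hδ : |δ| ≤ 1) (ht : 1 < t) (y v : V3) : 0 ≤ dot v (CC δ t y v) := by
  have h1 := CC_pos (t := t) hδ y v
  have h2 : 0 ≤ dot v v := by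
    simp only [dot]
    nlinarith [mul_self_nonneg (v 0), mul_self_nonneg (v 1), mul_self_nonneg (v 2)]
  nlinarith

theorem R4_le_Phi {δ t : ℝ} (hδ : |δ| ≤ 1) (ht : 1 < t) (y : V3) (X A : FF) (u : V3) :
    R4 δ t y X A ≤ Phi δ t y X A u := by
  have h := CC_nonneg hδ ht y (u - QQ δ t y (Zt δ t y X A))
  rw [CC_sub, CC_QQ hδ ht, dot_sub_left, dot_sub_right, dot_sub_right] at h
  have h2 : dot (QQ δ t y (Zt δ t y X A)) (CC δ t y u) = dot (Zt δ t y X A) u := by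
    rw [← CC_symm, CC_QQ hδ ht]
  have h3 := dot_comm (Zt δ t y X A) u
  have h4 := dot_comm (QQ δ t y (Zt δ t y X A)) (Zt δ t y X A)
  unfold Phi
  linarith

theorem R4_eq_Phi {δ t : ℝ} (hδ : |δ| ≤ 1) (ht : 1 < t) (y : V3) (X A : FF) :
    Phi δ t y X A (QQ δ t y (Zt δ t y X A)) = R4 δ t y X A := by
  have h4 := dot_comm (QQ δ t y (Zt δ t y X A)) (Zt δ t y X A)
  unfold Phi
  rw [CC_QQ hδ ht, h4]
  ring

theorem CC_shift (δ s t : ℝ) (y v : V3) : CC δ t y v = CC δ s y v + (t - s) • v := by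
  simp only [CC]
  module

/-- the algebraic identity behind the monotonicity -/
theorem P01_alg (p1 p2 Y1 Y2 u D12 D21 W c1 c2 c3 : V3) (w r : ℝ) :
    (w * dot (cr W p2) (Y1 + r • p1) + dot (cr p2 D12) (Y1 + r • p1)
      + dot (cr D21 (Y2 + r • p2)) p1
      - dot (cr p1 Y1) (c1 + r • cr p2 Y2)
      + dot ((1 / 2 : ℝ) • (cr p2 Y1 + cr p1 Y2)) (c2 + r • ((1 / 2 : ℝ) • (cr p2 Y1 + cr p1 Y2)))
      - dot (D12 - D21 - w • W - cr (Y1 + r • p1) (Y2 + r • p2))
          ((1 / 2 : ℝ) • (cr (Y1 + r • p1) p2 + cr p1 (Y2 + r • p2)))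
      + 3 / 4 * (dot u (c3 + r • u)
          - 2 * dot u (D12 - D21 - w • W - cr (Y1 + r • p1) (Y2 + r • p2))))
    - (w * dot (cr W p2) Y1 + dot (cr p2 D12) Y1
      + dot (cr D21 Y2) p1
      - dot (cr p1 Y1) c1
      + dot ((1 / 2 : ℝ) • (cr p2 Y1 + cr p1 Y2)) c2
      - dot (D12 - D21 - w • W - cr Y1 Y2)
          ((1 / 2 : ℝ) • (cr Y1 p2 + cr p1 Y2))
      + 3 / 4 * (dot u c3 - 2 * dot u (D12 - D21 - w • W - cr Y1 Y2)))
    = r * (dot ((1 / 2 : ℝ) • (cr Y1 p2 + cr p1 Y2) + (1 / 2 : ℝ) • u)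
            ((1 / 2 : ℝ) • (cr Y1 p2 + cr p1 Y2) + (1 / 2 : ℝ) • u)
        + dot ((1 / 2 : ℝ) • (cr Y1 p2 + cr p1 Y2) + (1 / 2 : ℝ) • u)
            ((1 / 2 : ℝ) • (cr (Y1 + r • p1) p2 + cr p1 (Y2 + r • p2)) + (1 / 2 : ℝ) • u)
        + dot ((1 / 2 : ℝ) • (cr (Y1 + r • p1) p2 + cr p1 (Y2 + r • p2)) + (1 / 2 : ℝ) • u)
            ((1 / 2 : ℝ) • (cr (Y1 + r • p1) p2 + cr p1 (Y2 + r • p2)) + (1 / 2 : ℝ) • u)) := by
  simp only [dot, cr, mk3_0, mk3_1, mk3_2, PiLp.add_apply, PiLp.sub_apply, PiLp.smul_apply,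
    smul_eq_mul]
  ring

/-- difference of `Phi` at two parameters -/
theorem Phi_sub (δ s t : ℝ) (y : V3) (X A : FF) (u : V3) :
    Phi δ t y X A u - Phi δ s y X A u
      = (t - s) * (dot (Sp δ s y X.2 A.2 + (1 / 2 : ℝ) • u) (Sp δ s y X.2 A.2 + (1 / 2 : ℝ) • u)
        + dot (Sp δ s y X.2 A.2 + (1 / 2 : ℝ) • u) (Sp δ t y X.2 A.2 + (1 / 2 : ℝ) • u)
        + dot (Sp δ t y X.2 A.2 + (1 / 2 : ℝ) • u) (Sp δ t y X.2 A.2 + (1 / 2 : ℝ) • u)) := by
  have e1 := CC_shift δ s t y X.2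
  have e2 := CC_shift δ s t y A.2
  have eS : Sg δ t y X.2 A.2 = Sg δ s y X.2 A.2 := by
    simp only [Sg]
    rw [e1, e2, cr_add_right, cr_add_right, cr_smul_right, cr_smul_right, cr_anti X.2 A.2]
    module
  have e3 : cr X.2 (CC δ t y X.2) = cr X.2 (CC δ s y X.2) := by
    rw [e1, cr_add_right, cr_smul_right, cr_self, smul_zero, add_zero]
  have e4 : cr A.2 (CC δ t y A.2) = cr A.2 (CC δ s y A.2) := by
    rw [e2, cr_add_right, cr_smul_right, cr_self, smul_zero, add_zero]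
  have e5 : dot (cr (CC δ t y X.2) (DP δ y A.1 A.2)) X.2
      = dot (cr (CC δ s y X.2) (DP δ y A.1 A.2)) X.2 := by
    rw [e1, cr_add_left, cr_smul_left, dot_add_left, dot_smul_left, dot_cr_left']
    ring
  have e6 := CC_shift δ s t y (cr A.2 (CC δ s y A.2))
  have e7 := CC_shift δ s t y (Sg δ s y X.2 A.2)
  have e8 := CC_shift δ s t y u
  have key := P01_alg X.2 A.2 (CC δ s y X.2) (CC δ s y A.2) u (DP δ y X.1 A.2) (DP δ y A.1 X.2)
    (WW δ y) (CC δ s y (cr A.2 (CC δ s y A.2))) (CC δ s y (Sg δ s y X.2 A.2)) (CC δ s y u)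
    (det3 y X.1 A.1) (t - s)
  unfold Phi R4
  rw [e3, e4, e5, eS, e6, e7, e8]
  simp only [Zt, Sp]
  rw [e1, e2]
  simp only [Sg] at key ⊢
  linear_combination key

/-- the curvature is nondecreasing in `t` -/
theorem R4_mono {δ : ℝ} (hδ : |δ| ≤ 1) {s t : ℝ} (hs : 1 < s) (hst : s ≤ t) (y : V3) (X A : FF) :
    R4 δ s y X A ≤ R4 δ t y X A := by
  have ht : 1 < t := lt_of_lt_of_le hs hst
  have h1 := R4_le_Phi hδ hs y X A (QQ δ t y (Zt δ t y X A))
  have h2 := R4_eq_Phi hδ ht y X A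
  have h3 := Phi_sub δ s t y X A (QQ δ t y (Zt δ t y X A))
  set a := Sp δ s y X.2 A.2 + (1 / 2 : ℝ) • (QQ δ t y (Zt δ t y X A)) with ha
  set b := Sp δ t y X.2 A.2 + (1 / 2 : ℝ) • (QQ δ t y (Zt δ t y X A)) with hb
  have h4 : 0 ≤ dot a a + dot a b + dot b b := by
    simp only [dot]
    nlinarith [mul_self_nonneg (a 0 + b 0), mul_self_nonneg (a 1 + b 1),
      mul_self_nonneg (a 2 + b 2), mul_self_nonneg (a 0), mul_self_nonneg (a 1),
      mul_self_nonneg (a 2), mul_self_nonneg (b 0), mul_self_nonneg (b 1),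
      mul_self_nonneg (b 2)]
  have h5 : 0 ≤ (t - s) * (dot a a + dot a b + dot b b) :=
    mul_nonneg (sub_nonneg.2 hst) h4
  linarith

/-- cubic growth in `t` -/
theorem R4_growth {δ : ℝ} (hδ : |δ| ≤ 1) {s t : ℝ} (hs : 1 < s) (hst : s ≤ t) (y : V3)
    (X A : FF) :
    R4 δ s y X A + (t - s) ^ 3 / 4 * dot (cr X.2 A.2) (cr X.2 A.2) ≤ R4 δ t y X A := by
  have ht : 1 < t := lt_of_lt_of_le hs hst
  have h1 := R4_le_Phi hδ hs y X A (QQ δ t y (Zt δ t y X A))
  have h2 := R4_eq_Phi hδ ht y X A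
  have h3 := Phi_sub δ s t y X A (QQ δ t y (Zt δ t y X A))
  have hb : Sp δ t y X.2 A.2 + (1 / 2 : ℝ) • (QQ δ t y (Zt δ t y X A))
      = Sp δ s y X.2 A.2 + (1 / 2 : ℝ) • (QQ δ t y (Zt δ t y X A)) + (t - s) • cr X.2 A.2 := by
    simp only [Sp]
    rw [CC_shift δ s t y X.2, CC_shift δ s t y A.2, cr_add_left, cr_add_right, cr_smul_left,
      cr_smul_right]
    module
  rw [hb] at h3
  generalize Sp δ s y X.2 A.2 + (1 / 2 : ℝ) • (QQ δ t y (Zt δ t y X A)) = a at *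
  have hr : 0 ≤ t - s := sub_nonneg.2 hst
  generalize t - s = r at *
  generalize cr X.2 A.2 = m at *
  have h4 : r ^ 2 / 4 * dot m m ≤ dot a a + dot a (a + r • m) + dot (a + r • m) (a + r • m) := by
    simp only [dot, PiLp.add_apply, PiLp.smul_apply, smul_eq_mul]
    nlinarith [mul_self_nonneg (2 * a 0 + r * m 0), mul_self_nonneg (2 * a 1 + r * m 1),
      mul_self_nonneg (2 * a 2 + r * m 2)]
  have h5 := mul_le_mul_of_nonneg_left h4 hr
  have h6 : r * (r ^ 2 / 4 * dot m m) = r ^ 3 / 4 * dot m m := by ring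
  linarith

/-- if the momenta are not collinear, the curvature is positive for large `t` -/
theorem R4_large {δ : ℝ} (hδ : |δ| ≤ 1) (y : V3) (X A : FF) (h : cr X.2 A.2 ≠ 0) :
    ∃ t₀ : ℝ, 2 ≤ t₀ ∧ ∀ t, t₀ ≤ t → 0 < R4 δ t y X A := by
  have hm : 0 < dot (cr X.2 A.2) (cr X.2 A.2) := by
    generalize cr X.2 A.2 = m at *
    rcases lt_or_eq_of_le (show 0 ≤ dot m m by
      simp only [dot]
      nlinarith [mul_self_nonneg (m 0), mul_self_nonneg (m 1), mul_self_nonneg (m 2)]) with h1 | h1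
    · exact h1
    · exfalso
      apply h
      simp only [dot] at h1
      have a0 : m 0 * m 0 = 0 := by
        nlinarith [mul_self_nonneg (m 0), mul_self_nonneg (m 1), mul_self_nonneg (m 2)]
      have a1 : m 1 * m 1 = 0 := by
        nlinarith [mul_self_nonneg (m 0), mul_self_nonneg (m 1), mul_self_nonneg (m 2)]
      have a2 : m 2 * m 2 = 0 := by
        nlinarith [mul_self_nonneg (m 0), mul_self_nonneg (m 1), mul_self_nonneg (m 2)]
      apply ext3
      · simpa using mul_self_eq_zero.1 a0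
      · simpa using mul_self_eq_zero.1 a1
      · simpa using mul_self_eq_zero.1 a2
  set c := dot (cr X.2 A.2) (cr X.2 A.2) with hc
  refine ⟨max 3 (2 + (4 * (|R4 δ 2 y X A| + 1) / c)), le_trans (by norm_num) (le_max_left _ _), ?_⟩
  intro t ht
  have h3 : 3 ≤ t := le_trans (le_max_left _ _) ht
  have h4 : 4 * (|R4 δ 2 y X A| + 1) / c ≤ t - 2 := by
    have := le_trans (le_max_right 3 (2 + (4 * (|R4 δ 2 y X A| + 1) / c))) ht
    linarith
  have hg := R4_growth hδ (s := 2) (t := t) (by norm_num) (by linarith) y X A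
  rw [← hc] at hg
  have h5 : 4 * (|R4 δ 2 y X A| + 1) ≤ (t - 2) * c := (div_le_iff₀ hm).1 h4
  have h6 : (t - 2) * c ≤ (t - 2) ^ 3 * c := by
    apply mul_le_mul_of_nonneg_right _ hm.le
    have : 1 ≤ t - 2 := by linarith
    nlinarith [mul_self_nonneg (t - 2 - 1)]
  have h7 := neg_abs_le (R4 δ 2 y X A)
  have h8 := abs_nonneg (R4 δ 2 y X A)
  nlinarith

/-- the case of a horizontal first vector -/
theorem R4_horizontal (δ t : ℝ) (y : V3) (n : V3) (A : FF) (hn : dot n n = 1)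
    (hy : dot y y = 1) (hny : dot n y = 0) :
    R4 δ t y (n, 0) A = stf δ y n (-det3 y n A.1) A.2
      - 3 / 4 * dot (Zt δ t y (n, 0) A) (QQ δ t y (Zt δ t y (n, 0) A)) := by
  have c0 : CC δ t y 0 = 0 := by
    have := CC_smul δ t y 0 0
    simpa using this
  have d0 : ∀ m, DP δ y m 0 = 0 := by
    intro m
    have := DP_smul δ y 0 m 0
    simpa using this
  have g0 : ∀ q, gr δ y 0 q = 0 := by
    intro q
    have := gr_smul_left δ y 0 0 q
    simpa using this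
  have hH : Hh δ y (n, 0) (n, 0) = 0 := by
    simp only [Hh, g0, dot_zero_right]
    simp
  have hH2 : Hh δ y (n, 0) A = (dot (WW δ y) A.2 / 2) • cr y n := by
    simp only [Hh, g0, dot_zero_right]
    simp
  have hS : Sg δ t y 0 A.2 = 0 := by
    simp only [Sg, c0, cr_zero_right, cr_zero_left]
    simp
  have hSp : Sp δ t y 0 A.2 = 0 := by
    simp only [Sp, c0, cr_zero_left]
    simp
  have hcc : dot (cr y n) (cr y n) = 1 := by
    have := dot_cr_cr y n y n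
    rw [hy, hn, dot_comm y n, hny] at this
    rw [this]; ring
  have hD : ∀ m, dot (DP δ y m A.2) 0 = 0 := fun m => dot_zero_right _
  unfold R4 stf
  simp only [hH, hH2, hS, hSp, c0, d0, dot_zero_left, dot_zero_right, cr_zero_left, cr_zero_right,
    dot_smul_left, dot_smul_right, hcc]
  ring

/-- for a horizontal first vector the curvature is positive for large `t` if the criterion form is
positive -/
theorem R4_horizontal_large {δ : ℝ} (hδ : |δ| ≤ 1) (y : V3) (n : V3) (A : FF) (hn : dot n n = 1)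
    (hy : dot y y = 1) (hny : dot n y = 0) (hst : 0 < stf δ y n (-det3 y n A.1) A.2) :
    ∃ t₀ : ℝ, 2 ≤ t₀ ∧ ∀ t, t₀ ≤ t → 0 < R4 δ t y (n, 0) A := by
  have c0 : ∀ t, CC δ t y 0 = 0 := by
    intro t
    have := CC_smul δ t y 0 0
    simpa using this
  have hZ : ∀ t, Zt δ t y (n, 0) A = Zt δ 2 y (n, 0) A := by
    intro t
    simp only [Zt, c0, cr_zero_left]
  set Z := Zt δ 2 y (n, 0) A with hZdef
  set b := stf δ y n (-det3 y n A.1) A.2 with hb
  have hZZ : 0 ≤ dot Z Z := by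
    simp only [dot]
    nlinarith [mul_self_nonneg (Z 0), mul_self_nonneg (Z 1), mul_self_nonneg (Z 2)]
  refine ⟨2 + dot Z Z / b, by
    have := div_nonneg hZZ hst.le
    linarith, ?_⟩
  intro t ht
  have ht2 : 2 ≤ t := by
    have := div_nonneg hZZ hst.le
    linarith
  have h1 : dot Z Z / b ≤ t - 2 := by linarith
  have h2 : dot Z Z ≤ (t - 2) * b := (div_le_iff₀ hst).1 h1
  have h3 := QQ_le hδ (show 1 < t by linarith) y Z
  rw [R4_horizontal δ t y n A hn hy hny, hZ t]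
  have h4 : dot Z Z / (t - 1) < b := by
    rw [div_lt_iff₀ (by linarith)]
    nlinarith
  have h5 : 0 ≤ dot Z Z / (t - 1) := div_nonneg hZZ (by linarith)
  linarith

end

end MP_1b4d75_gt
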