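import Pool.Agent.Lib.MP_1b4d75_gt.P02
import Pool.Agent.Lib.MP_1b4d75_gt.P01
import Pool.Agent.Lib.MP_1b4d75_gt.A07

/-!
# MP_1b4d75_gt, module P03

Pointwise positivity for large t, under the criterion `Star δ`.

Case cr p1 p2 ≠ 0: R4_large (P01).  Case cr p1 p2 = 0: there are p, l1, l2 with p_i = l_i p (if p1 ≠ 0 take p = p1,
l1 = 1, l2 = dot p1 p2 / dot p1 p1; else p = p2).  R4_coll (P02).  N = l2 n1 - l1 n2, w = det3 y n1 n2.
If N ≠ 0: with r = |N|, n = N/r: the first four terms are stf δ y n (-w) (r p); this is > 0 unless w = 0 and p = 0,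
and p = 0, w = 0 contradicts the independence of X1, X2 (n1, n2 ∈ y^⊥ dependent and p1 = p2 = 0).
If N = 0: then (independence) l1 = l2 = 0 or p = 0, w ≠ 0, and the terms are K w² with K > 0 (Star with V = 0).
The Q-term is ≤ ¾ |Zc|²/(t-1) (QQ_le, A07), Zc independent of t.
Independence is used in the form: orthonormal for dot n n' + dot p p'.
-/

open scoped Quaternion Topology
open Filter

namespace MP_1b4d75_gt

noncomputable section

/-- the criterion -/
def Star (δ : ℝ) : Prop :=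
  ∀ (y n : V3) (x : ℝ) (V : V3), dot y y = 1 → dot n n = 1 → dot n y = 0 → (x ≠ 0 ∨ V ≠ 0) →
    0 < stf δ y n x V

/-- orthonormal pairs of admissible vectors -/
structure OrthoPair (y : V3) (X1 X2 : FF) : Prop where
  yy : dot y y = 1
  h1 : dot X1.1 y = 0
  h2 : dot X2.1 y = 0
  e11 : dot X1.1 X1.1 + dot X1.2 X1.2 = 1
  e22 : dot X2.1 X2.1 + dot X2.2 X2.2 = 1
  e12 : dot X1.1 X2.1 + dot X1.2 X2.2 = 0

theorem P03_dot_nonneg (a : V3) : 0 ≤ dot a a := by
  simp only [dot]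
  nlinarith [mul_self_nonneg (a 0), mul_self_nonneg (a 1), mul_self_nonneg (a 2)]

/-- collinear vectors are multiples of one vector -/
theorem P03_coll {p1 p2 : V3} (h : cr p1 p2 = 0) : ∃ (p : V3) (l1 l2 : ℝ),
    p1 = l1 • p ∧ p2 = l2 • p := by
  by_cases h1 : dot p1 p1 = 0
  · have h2 : p1 = 0 := A07_dot_pos h1.le
    exact ⟨p2, 0, 1, by rw [h2, zero_smul], by rw [one_smul]⟩
  · refine ⟨p1, 1, dot p1 p2 / dot p1 p1, by rw [one_smul], ?_⟩
    have h3 := cr_cr_right p1 p1 p2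
    rw [h, cr_zero_right] at h3
    have h4 : dot p1 p1 • p2 = dot p1 p2 • p1 := (sub_eq_zero.mp h3.symm).symm
    calc p2 = (dot p1 p1)⁻¹ • (dot p1 p1 • p2) := by
          rw [smul_smul, inv_mul_cancel₀ h1, one_smul]
      _ = (dot p1 p1)⁻¹ • (dot p1 p2 • p1) := by rw [h4]
      _ = (dot p1 p2 / dot p1 p1) • p1 := by
          rw [smul_smul, div_eq_inv_mul]

/-- Gram determinant for vectors orthogonal to the unit vector `y` -/
theorem P03_gram {y a b : V3} (hy : dot y y = 1) (ha : dot a y = 0) (hb : dot b y = 0) :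
    det3 y a b ^ 2 = dot a a * dot b b - dot a b ^ 2 := by
  have h1 : cr y (cr a b) = 0 := by
    rw [cr_cr_right, dot_comm y b, hb, dot_comm y a, ha, zero_smul, zero_smul, sub_zero]
  have h2 := dot_cr_cr y (cr a b) y (cr a b)
  rw [h1, dot_zero_left, hy, dot_cr_cr] at h2
  have h3 : det3 y a b = dot y (cr a b) := rfl
  rw [h3, dot_comm b a] at *
  have h4 := dot_comm (cr a b) y
  rw [h4] at h2
  linarith

/-- the four main terms are positive -/
theorem P03_main {δ : ℝ} (hS : Star δ) {y n1 n2 p : V3} {l1 l2 : ℝ}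
    (hy : dot y y = 1) (h1 : dot n1 y = 0) (h2 : dot n2 y = 0)
    (e11 : dot n1 n1 + l1 ^ 2 * dot p p = 1) (e22 : dot n2 n2 + l2 ^ 2 * dot p p = 1)
    (e12 : dot n1 n2 + l1 * l2 * dot p p = 0) :
    0 < KK δ y * det3 y n1 n2 ^ 2
        - det3 y n1 n2 * dot (DW δ y (l2 • n1 - l1 • n2)) p
        + 1 / 2 * dot p (D2P δ y (l2 • n1 - l1 • n2) (l2 • n1 - l1 • n2) p)
        + 1 / 4 * dot (WW δ y) p ^ 2 * dot (l2 • n1 - l1 • n2) (l2 • n1 - l1 • n2) := by
  have hg := P03_gram hy h1 h2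
  have hw : det3 y n1 n2 ^ 2 = 1 - (l1 ^ 2 + l2 ^ 2) * dot p p := by
    rw [hg]
    have a1 : dot n1 n1 = 1 - l1 ^ 2 * dot p p := by linarith
    have a2 : dot n2 n2 = 1 - l2 ^ 2 * dot p p := by linarith
    have a3 : dot n1 n2 = -(l1 * l2 * dot p p) := by linarith
    rw [a1, a2, a3]
    ring
  have hN : dot (l2 • n1 - l1 • n2) (l2 • n1 - l1 • n2) = l1 ^ 2 + l2 ^ 2 := by
    have a1 : dot n1 n1 = 1 - l1 ^ 2 * dot p p := by linarith
    have a2 : dot n2 n2 = 1 - l2 ^ 2 * dot p p := by linarith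
    have a3 : dot n1 n2 = -(l1 * l2 * dot p p) := by linarith
    simp only [dot_sub_left, dot_sub_right, dot_smul_left, dot_smul_right]
    rw [dot_comm n2 n1, a1, a2, a3]
    ring
  by_cases hl : l1 ^ 2 + l2 ^ 2 = 0
  · have hl1 : l1 = 0 := by nlinarith [sq_nonneg l1, sq_nonneg l2]
    have hl2 : l2 = 0 := by nlinarith [sq_nonneg l1, sq_nonneg l2]
    subst hl1 hl2
    have hN0 : (0 : ℝ) • n1 - (0 : ℝ) • n2 = (0 : ℝ) • n1 := by simp
    rw [hN0, DW_smul, D2P_smul_m, dot_smul_left, dot_smul_right, dot_smul_left, hw]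
    have hn1 : dot n1 n1 = 1 := by nlinarith
    have hs := hS y n1 1 0 hy hn1 h1 (Or.inl one_ne_zero)
    unfold stf at hs
    simp only [dot_zero_left, dot_zero_right] at hs
    norm_num at hs ⊢
    exact hs
  · have hpos : 0 < l1 ^ 2 + l2 ^ 2 :=
      lt_of_le_of_ne (by positivity) (Ne.symm hl)
    set N := l2 • n1 - l1 • n2 with hNd
    set r := Real.sqrt (l1 ^ 2 + l2 ^ 2) with hr
    have hr0 : 0 < r := Real.sqrt_pos.mpr hpos
    have hr2 : r ^ 2 = l1 ^ 2 + l2 ^ 2 := Real.sq_sqrt hpos.le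
    have hNr : N = r • (r⁻¹ • N) := by
      rw [smul_smul, mul_inv_cancel₀ hr0.ne', one_smul]
    have hnn : dot (r⁻¹ • N) (r⁻¹ • N) = 1 := by
      rw [dot_smul_left, dot_smul_right, hN, ← hr2]
      field_simp
    have hny : dot (r⁻¹ • N) y = 0 := by
      rw [dot_smul_left, hNd, dot_sub_left, dot_smul_left, dot_smul_left, h1, h2]
      ring
    have hs := hS y (r⁻¹ • N) (-det3 y n1 n2) (r • p) hy hnn hny (by
      by_contra hc
      push Not at hc
      obtain ⟨c1, c2⟩ := hc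
      have hp : p = 0 := by
        rcases smul_eq_zero.mp c2 with h | h
        · exact absurd h hr0.ne'
        · exact h
      have hw0 : det3 y n1 n2 = 0 := by linarith
      rw [hw0, hp, dot_zero_left] at hw
      norm_num at hw)
    have e1 : DW δ y N = r • DW δ y (r⁻¹ • N) := by
      conv_lhs => rw [hNr]
      rw [DW_smul]
    have e2 : D2P δ y N N p = r • r • D2P δ y (r⁻¹ • N) (r⁻¹ • N) p := by
      conv_lhs => rw [hNr]
      rw [D2P_smul_m, D2P_smul_n]
    rw [hN, ← hr2, e1, e2]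
    unfold stf at hs
    rw [D2P_smul] at hs
    simp only [dot_smul_left, dot_smul_right] at hs ⊢
    calc (0 : ℝ) < _ := hs
      _ = _ := by ring

theorem R4_pointwise {δ : ℝ} (hδ : |δ| ≤ 1 / 10) (hS : Star δ) {y : V3} {X1 X2 : FF}
    (h : OrthoPair y X1 X2) : ∃ t₀ > 1, ∀ t ≥ t₀, 0 < R4 δ t y X1 X2 := by
  have hδ1 : |δ| ≤ 1 := by linarith
  by_cases hc : cr X1.2 X2.2 = 0
  · obtain ⟨n1, p1⟩ := X1
    obtain ⟨n2, p2⟩ := X2
    obtain ⟨hy, h1, h2, e11, e22, e12⟩ := h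
    simp only at hc h1 h2 e11 e22 e12
    obtain ⟨p, l1, l2, rfl, rfl⟩ := P03_coll hc
    simp only [dot_smul_left, dot_smul_right] at e11 e22 e12
    have hm := P03_main (p := p) (l1 := l1) (l2 := l2) hS hy h1 h2 (by linarith) (by linarith)
      (by linarith)
    set Z := DP δ y (l2 • n1 - l1 • n2) p - det3 y n1 n2 • WW δ y with hZ
    set A := KK δ y * det3 y n1 n2 ^ 2
        - det3 y n1 n2 * dot (DW δ y (l2 • n1 - l1 • n2)) p
        + 1 / 2 * dot p (D2P δ y (l2 • n1 - l1 • n2) (l2 • n1 - l1 • n2) p)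
        + 1 / 4 * dot (WW δ y) p ^ 2 * dot (l2 • n1 - l1 • n2) (l2 • n1 - l1 • n2) with hA
    have hZZ := P03_dot_nonneg Z
    have hd := div_nonneg hZZ hm.le
    refine ⟨2 + dot Z Z / A, by linarith, fun t ht => ?_⟩
    have ht1 : 1 < t := by linarith
    rw [R4_coll hδ ht1 hy h1 h2 p l1 l2, ← hZ, ← hA]
    have h3 := QQ_le hδ1 ht1 y Z
    have h4 : dot Z Z / (t - 1) < A := by
      rw [div_lt_iff₀ (by linarith)]
      have h5 : dot Z Z / A ≤ t - 2 := by linarith
      have h6 : dot Z Z ≤ (t - 2) * A := (div_le_iff₀ hm).1 h5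
      nlinarith
    have h5 : 0 ≤ dot Z Z / (t - 1) := div_nonneg hZZ (by linarith)
    linarith
  · obtain ⟨t₀, h1, h2⟩ := R4_large hδ1 y X1 X2 hc
    exact ⟨t₀, by linarith, fun t ht => h2 t ht⟩

end

end MP_1b4d75_gt
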