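import Pool.Agent.Lib.MP_1b4d75_gt.S02
import Pool.Agent.Lib.MP_1b4d75_gt.P03
import Pool.Agent.Lib.MP_1b4d75_gt.Cont

/-!
# MP_1b4d75_gt, module S03

Compactness in δ: the criterion holds for some δ in (0, 1/10].

Let F(δ; y,n,x,r,V) = stf δ y n x V + x r b1 + 2 r b2 V + r² b3, continuous in all variables (polynomial).  On the compact
set K = {|y| = |n| = 1, n ⊥ y, V ⊥ n, x² + |V|² + r² = 1}, F(0,·) > 0 (limit_pos).  By the
tube lemma there is δ ∈ (0, 1/10] with F(δ,·) > 0 on K.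
F is homogeneous of degree 2 in (x,V,r), so F > 0 for all (x,V,r) ≠ 0 with V ⊥ n.  For arbitrary V: r = δ³ dot V n,
V₀ = V - dot V n n, stf δ y n x V = F(δ; y,n,x,r,V₀) (stf_split, S01).
-/

open scoped Quaternion Topology
open Filter

namespace MP_1b4d75_gt

noncomputable section

theorem stf_hom (δ : ℝ) (y n : V3) (c x : ℝ) (V : V3) :
    stf δ y n (c * x) (c • V) = c ^ 2 * stf δ y n x V := by
  unfold stf
  simp only [D2P_smul, dot_smul_left, dot_smul_right]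
  ring

/-- parameter space: `((y, n), (x, r, V))` -/
abbrev S03_Q : Type := (V3 × V3) × (ℝ × ℝ × V3)

/-- the function of the criterion, with the degenerate direction split off -/
def S03_F (δ : ℝ) (q : S03_Q) : ℝ :=
  stf δ q.1.1 q.1.2 q.2.1 q.2.2.2 + q.2.1 * q.2.2.1 * b1 δ q.1.1 q.1.2
    + 2 * q.2.2.1 * b2 δ q.1.1 q.1.2 q.2.2.2 + q.2.2.1 ^ 2 * b3 δ q.1.1 q.1.2

/-- the compact set of normalised parameters -/
def S03_K : Set S03_Q :=
  {q | dot q.1.1 q.1.1 = 1 ∧ dot q.1.2 q.1.2 = 1 ∧ dot q.1.2 q.1.1 = 0 ∧ dot q.2.2.2 q.1.2 = 0 ∧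
    q.2.1 ^ 2 + dot q.2.2.2 q.2.2.2 + q.2.2.1 ^ 2 = 1}

theorem S03_F_cont : Continuous fun p : ℝ × S03_Q => S03_F p.1 p.2 := by
  unfold S03_F b1 b2 b3 D2z D2qn Dz aP np2 np1 GG4
  fun_prop

theorem S03_K_compact : IsCompact S03_K := by
  apply Metric.isCompact_of_isClosed_isBounded
  · unfold S03_K
    simp only [Set.ofPred_and]
    refine IsClosed.inter ?_ (IsClosed.inter ?_ (IsClosed.inter ?_ (IsClosed.inter ?_ ?_)))
    all_goals
      apply isClosed_eq
      · fun_prop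
      · fun_prop
  · refine (Metric.isBounded_closedBall (x := (0 : S03_Q)) (r := 1)).subset ?_
    rintro ⟨⟨y, n⟩, x, r, V⟩ ⟨h1, h2, -, -, h5⟩
    simp only at h1 h2 h5
    have hV := dot_self_nonneg V
    have hx : ‖x‖ ≤ 1 := by
      rw [Real.norm_eq_abs, abs_le_one_iff_mul_self_le_one]
      nlinarith [sq_nonneg r]
    have hr : ‖r‖ ≤ 1 := by
      rw [Real.norm_eq_abs, abs_le_one_iff_mul_self_le_one]
      nlinarith [sq_nonneg x]
    have hV' : ‖V‖ ≤ 1 := norm_le_one_of_dot (by nlinarith [sq_nonneg x, sq_nonneg r])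
    have hy : ‖y‖ ≤ 1 := norm_le_one_of_dot h1.le
    have hn : ‖n‖ ≤ 1 := norm_le_one_of_dot h2.le
    rw [mem_closedBall_zero_iff]
    simp only [Prod.norm_def]
    exact max_le (max_le hy hn) (max_le hx (max_le hr hV'))

theorem S03_F_apply (δ : ℝ) (y n : V3) (x r : ℝ) (V : V3) :
    S03_F δ ((y, n), (x, r, V)) = stf δ y n x V + x * r * b1 δ y n + 2 * r * b2 δ y n V
      + r ^ 2 * b3 δ y n := rfl

attribute [local irreducible] S03_F

theorem S03_limit (q : S03_Q) (hq : q ∈ S03_K) : 0 < S03_F 0 q := by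
  obtain ⟨⟨y, n⟩, x, r, V⟩ := q
  obtain ⟨h1, h2, h3, h4, h5⟩ := hq
  rw [S03_F_apply]
  exact limit_pos h1 h2 h3 x r V h4 h5

theorem S03_delta : ∃ δ : ℝ, 0 < δ ∧ δ ≤ 1 / 10 ∧ ∀ q ∈ S03_K, 0 < S03_F δ q := by
  have hU : IsOpen {p : ℝ × S03_Q | 0 < S03_F p.1 p.2} := isOpen_lt continuous_const S03_F_cont
  have hsub : ({(0 : ℝ)} : Set ℝ) ×ˢ S03_K ⊆ {p : ℝ × S03_Q | 0 < S03_F p.1 p.2} := by
    rintro ⟨d, q⟩ ⟨hd, hq⟩
    have hd' : d = 0 := hd
    subst hd'
    exact S03_limit q hq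
  obtain ⟨u, v, hu, -, hu0, hv, huv⟩ :=
    generalized_tube_lemma isCompact_singleton S03_K_compact hU hsub
  obtain ⟨ε, hε, hball⟩ := Metric.isOpen_iff.1 hu 0 (hu0 rfl)
  refine ⟨min (ε / 2) (1 / 10), lt_min (by linarith) (by norm_num), min_le_right _ _, ?_⟩
  intro q hq
  have hmem : min (ε / 2) (1 / 10) ∈ u := by
    apply hball
    rw [Metric.mem_ball, dist_zero_right, Real.norm_eq_abs,
      abs_of_pos (lt_min (by linarith) (by norm_num))]
    exact lt_of_le_of_lt (min_le_left _ _) (by linarith)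
  exact huv (Set.mk_mem_prod hmem (hv hq))

theorem exists_star : ∃ δ : ℝ, 0 < δ ∧ δ ≤ 1 / 10 ∧ Star δ := by
  obtain ⟨δ, hδ, hδ', hF⟩ := S03_delta
  refine ⟨δ, hδ, hδ', ?_⟩
  intro y n x V hy hn h hne
  have hδ3 : δ ^ 3 ≠ 0 := by positivity
  set a : ℝ := dot V n with ha
  set r : ℝ := δ ^ 3 * a with hr
  set V0 : V3 := V + (-a) • n with hV0
  have hra : r / δ ^ 3 = a := by
    rw [hr]
    field_simp
  have hVV : V = V0 + (r / δ ^ 3) • n := by
    rw [hra, hV0]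
    module
  have hperp : dot V0 n = 0 := by
    rw [hV0, dot_add_left, dot_smul_left, hn, ← ha]
    ring
  have hV0n := dot_self_nonneg V0
  have hpos : 0 < x ^ 2 + dot V0 V0 + r ^ 2 := by
    rcases lt_or_eq_of_le (show 0 ≤ x ^ 2 + dot V0 V0 + r ^ 2 by positivity) with h' | h'
    · exact h'
    · exfalso
      have hx2 : x ^ 2 = 0 := by nlinarith [sq_nonneg x, sq_nonneg r]
      have hr2 : r ^ 2 = 0 := by nlinarith [sq_nonneg x, sq_nonneg r]
      have hv2 : dot V0 V0 = 0 := by nlinarith [sq_nonneg x, sq_nonneg r]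
      have hx0 : x = 0 := pow_eq_zero_iff (two_ne_zero) |>.1 hx2
      have hr0 : r = 0 := pow_eq_zero_iff (two_ne_zero) |>.1 hr2
      have hv0 : V0 = 0 := dot_self_eq_zero hv2
      rcases hne with h1 | h1
      · exact h1 hx0
      · apply h1
        rw [hVV, hv0, hr0]
        simp
  set s : ℝ := Real.sqrt (x ^ 2 + dot V0 V0 + r ^ 2) with hs
  have hspos : 0 < s := Real.sqrt_pos.2 hpos
  have hs2 : s ^ 2 = x ^ 2 + dot V0 V0 + r ^ 2 := Real.sq_sqrt hpos.le
  set c : ℝ := 1 / s with hc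
  have hcpos : 0 < c := by positivity
  have hc2 : c ^ 2 * (x ^ 2 + dot V0 V0 + r ^ 2) = 1 := by
    rw [← hs2, hc]
    field_simp
  have hmem : (((y, n), (c * x, c * r, c • V0)) : S03_Q) ∈ S03_K := by
    refine ⟨hy, hn, h, ?_, ?_⟩
    · change dot (c • V0) n = 0
      rw [dot_smul_left, hperp, mul_zero]
    · change (c * x) ^ 2 + dot (c • V0) (c • V0) + (c * r) ^ 2 = 1
      rw [dot_smul_left, dot_smul_right]
      linear_combination hc2
  have hFp := hF _ hmem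
  rw [S03_F_apply, ← stf_split hδ.ne' hy hn h (c * x) (c * r) (c • V0)] at hFp
  have hcV : c • V0 + (c * r / δ ^ 3) • n = c • V := by
    calc c • V0 + (c * r / δ ^ 3) • n = c • (V0 + (r / δ ^ 3) • n) := by
          rw [mul_div_assoc, smul_add c V0 ((r / δ ^ 3) • n), smul_smul]
      _ = c • V := by rw [← hVV]
  rw [hcV, stf_hom] at hFp
  exact pos_of_mul_pos_right hFp (by positivity)

end

end MP_1b4d75_gt
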