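import Pool.Agent.Lib.MP_1b4d75_gt.E05
import Pool.Agent.Lib.MP_1b4d75_gt.E06
import Pool.Agent.Lib.MP_1b4d75_gt.P04
import Pool.Agent.Lib.MP_1b4d75_gt.S03

/-!
# MP_1b4d75_gt, module F01

Assembly of the local statement.
-/

open scoped Quaternion Topology
open Filter

namespace MP_1b4d75_gt

noncomputable section

variable {E : Type*} [NormedAddCommGroup E] [NormedSpace ℝ E]

lemma F01_dot_nonneg (a : V3) : 0 ≤ dot a a := by
  have h0 := mul_self_nonneg (a 0)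
  have h1 := mul_self_nonneg (a 1)
  have h2 := mul_self_nonneg (a 2)
  simp only [dot]
  linarith

lemma F01_dot_eq_zero {a : V3} (h : dot a a = 0) : a = 0 := by
  simp only [dot] at h
  have h0 : a 0 = 0 := by nlinarith [mul_self_nonneg (a 0), mul_self_nonneg (a 1), mul_self_nonneg (a 2)]
  have h1 : a 1 = 0 := by nlinarith [mul_self_nonneg (a 0), mul_self_nonneg (a 1), mul_self_nonneg (a 2)]
  have h2 : a 2 = 0 := by nlinarith [mul_self_nonneg (a 0), mul_self_nonneg (a 1), mul_self_nonneg (a 2)]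
  exact ext3 (by simpa using h0) (by simpa using h1) (by simpa using h2)

/-- the model scalar product pulled back by a linear map -/
def F01q (L : E →L[ℝ] FF) : E →ₗ[ℝ] E →ₗ[ℝ] ℝ :=
  LinearMap.mk₂ ℝ (fun a b => dot (L a).1 (L b).1 + dot (L a).2 (L b).2)
    (by intro a b c; simp only [map_add, Prod.fst_add, Prod.snd_add, dot_add_left]; ring)
    (by intro r a b; simp only [map_smul, Prod.smul_fst, Prod.smul_snd, dot_smul_left, smul_eq_mul]
        ring)
    (by intro a b c; simp only [map_add, Prod.fst_add, Prod.snd_add, dot_add_right]; ring)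
    (by intro r a b; simp only [map_smul, Prod.smul_fst, Prod.smul_snd, dot_smul_right, smul_eq_mul]
        ring)

lemma F01q_apply (L : E →L[ℝ] FF) (a b : E) :
    F01q L a b = dot (L a).1 (L b).1 + dot (L a).2 (L b).2 := rfl

theorem local_pos {δ t : ℝ} (hδ : |δ| ≤ 1 / 10) (ht : 1 < t)
    (hpos : ∀ (y : V3) (X1 X2 : FF), OrthoPair y X1 X2 → 0 < R4 δ t y X1 X2)
    {ψ : E → AA} {x₀ : E} (h : GoodChart ψ x₀) (hinj : Function.Injective (fderiv ℝ ψ x₀))
    {g : E → E →L[ℝ] E →L[ℝ] ℝ}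
    (hg : ∀ᶠ x in 𝓝 x₀, ∀ u v, g x u v = SS δ t (ψ x).1 (ThE δ t ψ x u) (ThE δ t ψ x v))
    {Γ : E → E → E} (hΓ : IsChristoffel g x₀ Γ) {u v : E} (huv : LinearIndependent ℝ ![u, v]) :
    0 < curvNumWith g x₀ Γ u v := by
  have hs : ∀ a b, F01q (ThE δ t ψ x₀) a b = F01q (ThE δ t ψ x₀) b a := by
    intro a b
    rw [F01q_apply, F01q_apply, dot_comm, dot_comm (ThE δ t ψ x₀ a).2]
  have hp : ∀ a, a ≠ 0 → 0 < F01q (ThE δ t ψ x₀) a a := by
    intro a ha
    rw [F01q_apply]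
    rcases (add_nonneg (F01_dot_nonneg (ThE δ t ψ x₀ a).1)
      (F01_dot_nonneg (ThE δ t ψ x₀ a).2)).lt_or_eq with h1 | h1
    · exact h1
    · exfalso
      have h2 := F01_dot_nonneg (ThE δ t ψ x₀ a).1
      have h3 := F01_dot_nonneg (ThE δ t ψ x₀ a).2
      have h4 : (ThE δ t ψ x₀ a).1 = 0 := F01_dot_eq_zero (by linarith)
      have h5 : (ThE δ t ψ x₀ a).2 = 0 := F01_dot_eq_zero (by linarith)
      have h6 : ThE δ t ψ x₀ a = 0 := Prod.ext h4 h5
      have h7 := h.Th_zero hδ ht h6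
      exact ha (hinj (by rw [h7, map_zero]))
  obtain ⟨a, b, c, ha, hb, q1, q2, q3⟩ := gram_schmidt2 (F01q (ThE δ t ψ x₀)) hs hp huv
  have ho : OrthoPair (ψ x₀).1 (ThE δ t ψ x₀ (a • u)) (ThE δ t ψ x₀ (b • v + c • u)) :=
    ⟨h.y1, h.Th_perp _, h.Th_perp _, q1, q2, q3⟩
  have h1 := hpos _ _ _ ho
  rw [← h.curv_chart hδ ht hg hΓ] at h1
  have hgs : ∀ᶠ y in 𝓝 x₀, ∀ u v, g y u v = g y v u := by
    filter_upwards [hg] with y hy u v
    rw [hy, hy, SS_symm]
  rw [curvNum_tri (h.g_smooth hδ ht hg) hgs hΓ] at h1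
  exact (pos_iff_pos_of_mul_pos h1).1 (by positivity)

/-- constants for which the metric has positive curvature -/
theorem exists_local : ∃ δ t : ℝ, |δ| ≤ 1 / 10 ∧ 1 < t ∧
    ∀ (y : V3) (X1 X2 : FF), OrthoPair y X1 X2 → 0 < R4 δ t y X1 X2 := by
  obtain ⟨δ, h0, h1, hS⟩ := exists_star
  have hδ : |δ| ≤ 1 / 10 := by rw [abs_of_pos h0]; exact h1
  obtain ⟨t, ht, hpos⟩ := exists_t hδ hS
  exact ⟨δ, t, hδ, ht, hpos⟩

end

end MP_1b4d75_gt
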