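import Pool.Agent.Lib.MP_1b4d75_gt.MS23
import Pool.Agent.Lib.MP_1b4d75_gt.A02
import Pool.Agent.Lib.MP_1b4d75_gt.A07

/-!
# The metric on `S² × S³` given by the data of `Defs`
-/

set_option autoImplicit false
set_option maxSynthPendingDepth 3

open scoped Manifold ContDiff Topology Quaternion RealInnerProductSpace
open Bundle Filter Metric Module

noncomputable section

namespace MP_1b4d75_gt

open PosCurv

/-! ### Smoothness -/

lemma mg_CCL_smooth (δ t : ℝ) : ContDiff ℝ ∞ (CCL δ t) := by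
  rw [contDiff_clm_apply_iff]
  intro p
  have : (fun y => CCL δ t y p) = fun y => CC δ t y p := rfl
  rw [this, contDiff_euclidean]
  intro i
  fin_cases i <;>
  · simp only [CC, PP, dot, qq, zz, e3]
    simp
    fun_prop

lemma mg_QQ_smooth {δ t : ℝ} (hδ : |δ| ≤ 1) (ht : 1 < t) : ContDiff ℝ ∞ (QQ δ t) := by
  rw [contDiff_iff_contDiffAt]
  intro y
  obtain ⟨e, he⟩ := A07_equiv hδ ht y
  have h1 : ContDiffAt ℝ ∞ ContinuousLinearMap.inverse (e : V3 →L[ℝ] V3) :=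
    contDiffAt_map_inverse e
  rw [he] at h1
  exact ContDiffAt.comp y h1 (mg_CCL_smooth δ t).contDiffAt

lemma mg_Del_smooth (δ : ℝ) : ContDiff ℝ ∞ (Del δ) := by
  unfold Del ty dot TT
  simp
  fun_prop

lemma mg_NN_smooth (δ : ℝ) {m : AA} (hm : Del δ m.1 ≠ 0) (v : V3) :
    ContDiffAt ℝ ∞ (fun m : AA => NN δ m.1 v) m := by
  have h1 : ContDiffAt ℝ ∞ (fun m : AA => (Del δ m.1)⁻¹) m :=
    ((mg_Del_smooth δ).comp contDiff_fst).contDiffAt.inv hm
  have h2 : ContDiff ℝ ∞ (fun m : AA => pr m.1 (TT δ (cr m.1 v))) := by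
    rw [contDiff_euclidean]
    intro i
    fin_cases i <;>
    · simp only [pr, TT, cr, dot]
      simp
      fun_prop
  exact h1.smul h2.contDiffAt

lemma mg_aa_smooth (δ : ℝ) {f : AA → V3} {m : AA} (hf : ContDiffAt ℝ ∞ f m) :
    ContDiffAt ℝ ∞ (fun m : AA => aa δ m.1 (f m)) m := by
  have h1 : ∀ i, ContDiffAt ℝ ∞ (fun m : AA => f m i) m := fun i => by
    exact contDiffAt_euclidean.1 hf i
  rw [contDiffAt_euclidean]
  intro i
  have h0 := h1 0
  have h2 := h1 1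
  have h3 := h1 2
  fin_cases i <;>
  · simp only [aa, om, sg, ty, TT, dot]
    simp
    fun_prop

lemma mg_th_smooth (b : ℍ[ℝ]) : ContDiff ℝ ∞ (fun m : AA => th m.2 b) := by
  have h2 : ContDiff ℝ ∞ (fun x : ℍ[ℝ] => star x) := (LinearMap.toContinuousLinearMap
      ({ toFun := fun x : ℍ[ℝ] => star x
         map_add' := star_add
         map_smul' := fun r x => Quaternion.star_smul r x } : ℍ[ℝ] →ₗ[ℝ] ℍ[ℝ])).contDiff
  have h3 : ContDiff ℝ ∞ (fun m : AA => star m.2 * b) :=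
    (h2.comp contDiff_snd).mul contDiff_const
  have h4 : ContDiff ℝ ∞ im3 := (LinearMap.toContinuousLinearMap
      ({ toFun := im3
         map_add' := im3_add
         map_smul' := im3_smul } : ℍ[ℝ] →ₗ[ℝ] V3)).contDiff
  exact (h4.comp h3).const_smul (-2 : ℝ)

lemma mg_TH_smooth {δ t : ℝ} (hδ : |δ| ≤ 1) (ht : 1 < t) {m : AA} (hm : Del δ m.1 ≠ 0) (a : AA) :
    ContDiffAt ℝ ∞ (fun m : AA => TH δ t m a) m := by
  have h1 := mg_NN_smooth δ hm a.1
  have h2 : ContDiffAt ℝ ∞ (fun m : AA => th m.2 a.2 + aa δ m.1 (NN δ m.1 a.1)) m :=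
    (mg_th_smooth a.2).contDiffAt.add (mg_aa_smooth δ h1)
  have h3 : ContDiffAt ℝ ∞ (fun m : AA => QQ δ t m.1) m :=
    ((mg_QQ_smooth hδ ht).comp contDiff_fst).contDiffAt
  exact h1.prodMk (h3.clm_apply h2)

lemma mg_THb_smooth {δ t : ℝ} (hδ : |δ| ≤ 1) (ht : 1 < t) {m : AA} (hm : Del δ m.1 ≠ 0) :
    ContDiffAt ℝ ∞ (THb δ t) m := by
  have hU : IsOpen {m : AA | Del δ m.1 ≠ 0} :=
    isOpen_ne_fun ((mg_Del_smooth δ).continuous.comp continuous_fst) continuous_const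
  have h1 : ContDiffOn ℝ ∞ (THb δ t) {m : AA | Del δ m.1 ≠ 0} := by
    rw [contDiffOn_clm_apply]
    intro a m hm
    exact (mg_TH_smooth hδ ht hm a).contDiffWithinAt
  exact h1.contDiffAt (hU.mem_nhds hm)

lemma mg_SSb_smooth (δ t : ℝ) : ContDiff ℝ ∞ (fun m : AA => SSb δ t m.1) := by
  rw [contDiff_clm_apply_iff]
  intro X
  rw [contDiff_clm_apply_iff]
  intro A
  have : (fun m : AA => SSb δ t m.1 X A) = fun m : AA => dot X.1 A.1 + dot X.2 (CC δ t m.1 A.2) :=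
    rfl
  rw [this]
  simp only [CC, PP, dot, qq, zz, e3]
  simp
  fun_prop

lemma mg_bilinearComp {X F A : Type*} [NormedAddCommGroup X] [NormedSpace ℝ X]
    [NormedAddCommGroup F] [NormedSpace ℝ F] [NormedAddCommGroup A] [NormedSpace ℝ A]
    {S : X → F →L[ℝ] F →L[ℝ] ℝ} {T : X → A →L[ℝ] F} {x : X} (hS : ContDiffAt ℝ ∞ S x)
    (hT : ContDiffAt ℝ ∞ T x) : ContDiffAt ℝ ∞ (fun x => (S x).bilinearComp (T x) (T x)) x := by
  have h3 : ContDiffAt ℝ ∞ (fun y => (S y).comp (T y)) x := hS.clm_comp hT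
  have h4 : ContDiffAt ℝ ∞ (fun y => ContinuousLinearMap.flipₗᵢ ℝ A F ℝ ((S y).comp (T y))) x :=
    (ContinuousLinearMap.flipₗᵢ ℝ A F ℝ).toContinuousLinearEquiv.contDiff.contDiffAt.comp x h3
  have h5 : ContDiffAt ℝ ∞ (fun y => (ContinuousLinearMap.flipₗᵢ ℝ A F ℝ
      ((S y).comp (T y))).comp (T y)) x := h4.clm_comp hT
  exact (ContinuousLinearMap.flipₗᵢ ℝ A A ℝ).toContinuousLinearEquiv.contDiff.contDiffAt.comp x h5

/-- The metric on `S² × S³` as an ambient bilinear form. -/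
def GGb (δ t : ℝ) (m : AA) : AA →L[ℝ] AA →L[ℝ] ℝ :=
  (SSb δ t m.1).bilinearComp (THb δ t m) (THb δ t m)

lemma GGb_apply (δ t : ℝ) (m a b : AA) : GGb δ t m a b = GG δ t m a b := rfl

lemma mg_GGb_smooth {δ t : ℝ} (hδ : |δ| ≤ 1) (ht : 1 < t) {m : AA} (hm : Del δ m.1 ≠ 0) :
    ContDiffAt ℝ ∞ (GGb δ t) m :=
  mg_bilinearComp (mg_SSb_smooth δ t).contDiffAt (mg_THb_smooth hδ ht hm)

/-! ### Inner products -/

lemma mg_inner (a b : V3) : ⟪a, b⟫ = dot a b := by
  rw [PiLp.inner_apply, Fin.sum_univ_three]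
  simp [dot]
  try ring

lemma mg_norm {a : V3} (h : ‖a‖ = 1) : dot a a = 1 := by
  rw [← mg_inner, real_inner_self_eq_norm_sq, h]
  norm_num

lemma mg_innerH (a b : ℍ[ℝ]) : ⟪a, b⟫ = (star a * b).re := by
  rw [Quaternion.inner_def]
  simp

lemma mg_normH {z : ℍ[ℝ]} (h : ‖z‖ = 1) : star z * z = 1 := by
  rw [Quaternion.star_mul_self, Quaternion.normSq_eq_norm_mul_self, h, one_mul]
  rfl

lemma mg_dot_nonneg (a : V3) : 0 ≤ dot a a := by
  simp only [dot]
  nlinarith [sq_nonneg (a 0), sq_nonneg (a 1), sq_nonneg (a 2)]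

lemma mg_dot_eq_zero {a : V3} (h : dot a a = 0) : a = 0 := A07_dot_pos h.le

/-! ### The metric -/

lemma mg_SS_symm (δ t : ℝ) (y : V3) (X A : FF) : SS δ t y X A = SS δ t y A X := by
  unfold SS
  rw [dot_comm X.1, dot_comm X.2, CC_symm]

lemma mg_SS_pos {δ t : ℝ} (hδ : |δ| ≤ 1) (ht : 1 < t) (y : V3) {X : FF} (hX : X ≠ 0) :
    0 < SS δ t y X X := by
  have h1 := CC_pos (t := t) hδ y X.2
  have h2 := mg_dot_nonneg X.1
  have h3 := mg_dot_nonneg X.2
  have h4 : 0 ≤ (t - 1) * dot X.2 X.2 := mul_nonneg (by linarith) h3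
  unfold SS
  rcases h2.lt_or_eq with h5 | h5
  · linarith
  · rcases h3.lt_or_eq with h6 | h6
    · have : 0 < (t - 1) * dot X.2 X.2 := mul_pos (by linarith) h6
      linarith
    · exact absurd (Prod.ext (mg_dot_eq_zero h5.symm) (mg_dot_eq_zero h6.symm)) hX

lemma mg_aa_zero (δ : ℝ) (y : V3) : aa δ y 0 = 0 := by
  have := aa_smul δ y 0 0
  rwa [zero_smul, zero_smul] at this

lemma mg_LL_zero (δ : ℝ) (y : V3) : LL δ y 0 = 0 := by
  have := LL_smul δ y 0 0
  rwa [zero_smul, zero_smul] at this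

lemma mg_CC_zero (δ t : ℝ) (y : V3) : CC δ t y 0 = 0 := by
  have := CC_smul δ t y 0 0
  rwa [zero_smul, zero_smul] at this

/-- The soldering form is injective on tangent vectors. -/
lemma mg_TH_inj {δ t : ℝ} (hδ : |δ| ≤ 1 / 10) (ht : 1 < t) {y a : V3} {z b : ℍ[ℝ]}
    (hy : dot y y = 1) (hz : star z * z = 1) (ha : dot a y = 0) (hb : (star z * b).re = 0)
    (h : TH δ t (y, z) (a, b) = 0) : (a, b) = ((0 : V3), (0 : ℍ[ℝ])) := by
  have hδ1 : |δ| ≤ 1 := hδ.trans (by norm_num)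
  have h1 : NN δ y a = 0 := congrArg Prod.fst h
  have ha0 : a = 0 := by
    rw [← LL_NN hδ hy ha, h1, mg_LL_zero]
  have h2 : QQ δ t y (th z b + aa δ y (NN δ y a)) = 0 := congrArg Prod.snd h
  rw [h1, mg_aa_zero, add_zero] at h2
  have h3 : th z b = 0 := by
    rw [← CC_QQ hδ1 ht y (th z b), h2, mg_CC_zero]
  have h4 : im3 (star z * b) = 0 := by
    unfold th at h3
    exact (smul_eq_zero.1 h3).resolve_left (by norm_num)
  have h5 : star z * b = 0 := by
    have e0 : (im3 (star z * b)) 0 = 0 := by rw [h4]; rfl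
    have e1 : (im3 (star z * b)) 1 = 0 := by rw [h4]; rfl
    have e2 : (im3 (star z * b)) 2 = 0 := by rw [h4]; rfl
    exact QuaternionAlgebra.ext hb e0 e1 e2
  have h6 : z * star z = 1 := by
    have hn : Quaternion.normSq z = 1 := by
      have := hz
      rw [Quaternion.star_mul_self] at this
      exact Quaternion.coe_injective this
    rw [Quaternion.self_mul_star, hn]
    rfl
  have h7 : b = 0 := by
    calc b = (z * star z) * b := by rw [h6, one_mul]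
      _ = z * (star z * b) := mul_assoc _ _ _
      _ = 0 := by rw [h5, mul_zero]
  rw [ha0, h7]

/-- The form `GGb` induces a metric on `S² × S³`. -/
theorem amb23_GGb {δ t : ℝ} (hδ : |δ| ≤ 1 / 10) (ht : 1 < t) : Amb23 (GGb δ t) where
  smoothB y z hy hz := by
    have hδ1 : |δ| ≤ 1 := hδ.trans (by norm_num)
    exact mg_GGb_smooth hδ1 ht (Del_pos hδ (mg_norm hy)).ne'
  symm y z hy hz a b := mg_SS_symm δ t y _ _
  pos y z hy hz a b ha hb hab := by
    have hδ1 : |δ| ≤ 1 := hδ.trans (by norm_num)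
    refine mg_SS_pos hδ1 ht y ?_
    intro h
    apply hab
    rw [mg_inner, dot_comm] at ha
    rw [mg_innerH] at hb
    exact mg_TH_inj hδ ht (mg_norm hy) (mg_normH hz) ha hb h

/-- The metric on `S² × S³`. -/
def gM {δ t : ℝ} (hδ : |δ| ≤ 1 / 10) (ht : 1 < t) : RMetric IM M5 := (amb23_GGb hδ ht).metric

/-- The unit quaternions act by isometries. -/
theorem gM_preserves {δ t : ℝ} (hδ : |δ| ≤ 1 / 10) (ht : 1 < t) (q : S3) :
    PosCurv.PreservesMetric (gM hδ ht) (act q) := by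
  refine (amb23_GGb hδ ht).preserves ?_ q
  intro q y z _ _ a a' b b'
  have h1 : ∀ c : ℍ[ℝ], th ((q : ℍ[ℝ]) * z) ((q : ℍ[ℝ]) * c) = th z c := by
    intro c
    unfold th
    rw [star_mul_left]
  have h2 : ∀ (a : V3) (b : ℍ[ℝ]), TH δ t (y, (q : ℍ[ℝ]) * z) (a, (q : ℍ[ℝ]) * b)
      = TH δ t (y, z) (a, b) := by
    intro a b
    unfold TH
    simp only [h1]
  rw [GGb_apply, GGb_apply]
  unfold GG
  rw [h2, h2]

/-- Positive curvature of the metric follows from the positivity of the curvature numbers in good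
charts. -/
theorem gM_positivelyCurved {δ t : ℝ} (hδ : |δ| ≤ 1 / 10) (ht : 1 < t)
    (hloc : ∀ (ψ : E5 → AA) (x : E5), GoodChart ψ x → Function.Injective (fderiv ℝ ψ x) →
      ∀ Γ : E5 → E5 → E5, IsChristoffel (pull (GGb δ t) ψ) x Γ →
      ∀ u v : E5, LinearIndependent ℝ ![u, v] →
        0 < curvNumWith (pull (GGb δ t) ψ) x Γ u v) :
    PositivelyCurved (gM hδ ht) := by
  refine (amb23_GGb hδ ht).positivelyCurved ?_
  intro ψ x h1 h2 Γ hΓ u v huv
  refine hloc ψ x ⟨?_, ?_, ?_, ?_⟩ h2.self_of_nhds.2.2.1 Γ hΓ u v huv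
  · exact h1.self_of_nhds.of_le (WithTop.coe_le_coe.2 (le_top : (3 : ℕ∞) ≤ ⊤))
  · filter_upwards [h2] with y hy
    exact mg_norm hy.1
  · filter_upwards [h2] with y hy
    exact mg_normH hy.2.1
  · filter_upwards [h2] with y hy
    intro v ζ hv hζ
    refine (hy.2.2.2 v ζ).2 ⟨?_, ?_⟩
    · rw [mg_inner, dot_comm]; exact hv
    · rw [mg_innerH]; exact hζ

end MP_1b4d75_gt
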