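import Pool.Agent.Lib.MP_1b4d75_gt.MS23

/-!
# MP_1b4d75_gt: the objects of the statement

* `ClosedPositivelyCurved n g`: the Riemannian manifold `(M, g)` is a closed (compact, without
  boundary), connected manifold of dimension `n`, all of whose sectional curvatures are positive.
  It is complete because it is compact.
* `FreeIsometricAction J g φ`: the map `φ : G → M → M` is a smooth action of the Lie group `G` on `M`,
  each group element preserves `g`, and all isotropy groups are trivial.
-/

set_option autoImplicit false

open scoped Manifold ContDiff Topology
open Bundle

noncomputable section

namespace PosCurv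

variable {E : Type*} [NormedAddCommGroup E] [NormedSpace ℝ E]
  {H : Type*} [TopologicalSpace H] {I : ModelWithCorners ℝ E H}
  {M : Type*} [TopologicalSpace M] [ChartedSpace H M] [IsManifold I ∞ M]

/-- `(M, g)` is a closed connected Riemannian manifold of dimension `n` all of whose sectional
curvatures are positive. -/
structure ClosedPositivelyCurved (n : ℕ) (g : RMetric I M) : Prop where
  /-- the dimension is `n` -/
  dim : Module.finrank ℝ E = n
  /-- there is no boundary -/
  boundaryless : I.Boundaryless
  /-- `M` is compact (so `g` is complete) -/
  compact : CompactSpace M
  /-- `M` is Hausdorff -/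
  hausdorff : T2Space M
  /-- `M` is connected -/
  connected : ConnectedSpace M
  /-- the sectional curvatures are positive -/
  positive : PositivelyCurved g

/-- `φ` is a smooth free action of the Lie group `G` on `M` by isometries of `g`. -/
structure FreeIsometricAction {EG : Type*} [NormedAddCommGroup EG] [NormedSpace ℝ EG]
    {HG : Type*} [TopologicalSpace HG] (J : ModelWithCorners ℝ EG HG)
    {G : Type*} [TopologicalSpace G] [ChartedSpace HG G] [Group G]
    (g : RMetric I M) (φ : G → M → M) : Prop where
  /-- the unit element acts trivially -/
  one : ∀ p, φ 1 p = p
  /-- `φ` is an action -/
  mul : ∀ a b p, φ (a * b) p = φ a (φ b p)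
  /-- the action is smooth -/
  smooth : ContMDiff (J.prod I) I ∞ (fun x : G × M => φ x.1 x.2)
  /-- every group element preserves the metric -/
  isometric : ∀ a, PreservesMetric g (φ a)
  /-- all isotropy groups are trivial -/
  free : ∀ a p, φ a p = p → a = 1

end PosCurv

namespace MP_1b4d75_gt

open PosCurv

/-- Everything except the positivity of the curvature and the invariance of the metric. -/
theorem closed_of_positive {g : RMetric IM M5} (h : PositivelyCurved g) :
    ClosedPositivelyCurved 5 g where
  dim := by simp
  boundaryless := inferInstance
  compact := inferInstance
  hausdorff := inferInstance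
  connected := inferInstance
  positive := h

theorem action_of_preserves {g : RMetric IM M5} (h : ∀ q, PreservesMetric g (act q)) :
    FreeIsometricAction (𝓡 3) g act where
  one := act_one
  mul := act_mul
  smooth := act_smooth
  isometric := h
  free := act_free

end MP_1b4d75_gt
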