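import Pool.Agent.Lib.MP_1b4d75_gt.F01
import Pool.Agent.Lib.MP_1b4d75_gt.MGood
import Pool.Agent.Lib.MP_1b4d75_gt.Stmt

/-!
# MP_1b4d75_gt: the metric on `S² × S³`

Assembly: the metric `gM hδ ht` (MGood) with the constants of `exists_local` (F01) has positive
curvature and is invariant under left translation of the second factor.
-/

set_option autoImplicit false

open scoped Manifold ContDiff Topology Quaternion
open PosCurv

namespace MP_1b4d75_gt

theorem exists_metric : ∃ g : RMetric IM M5,
    PositivelyCurved g ∧ ∀ q : S3, PosCurv.PreservesMetric g (act q) := by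
  obtain ⟨δ, t, hδ, ht, hpos⟩ := exists_local
  refine ⟨gM hδ ht, gM_positivelyCurved hδ ht ?_, gM_preserves hδ ht⟩
  intro ψ x h hinj Γ hΓ u v huv
  exact local_pos hδ ht hpos h hinj (Filter.Eventually.of_forall fun y a b => rfl) hΓ huv

theorem exists_closed_metric : ∃ g : RMetric IM M5,
    ClosedPositivelyCurved 5 g ∧ FreeIsometricAction (𝓡 3) g act := by
  obtain ⟨g, h1, h2⟩ := exists_metric
  exact ⟨g, closed_of_positive h1, action_of_preserves h2⟩

end MP_1b4d75_gt
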