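import Mathlib

/-!
# MP_1b4d75_gt, Lemma U: coordinate curvature from a metric torsion free connection form

Let `g x u v = S x (Θ x u) (Θ x v)` near `x₀`, with `Ω` a connection form which is torsion free,
metric and preserves the range of `Θ`.  Then the coordinate curvature number of `g` at `x₀` is
`S (Θ u) (R(u,v) (Θ v))`, where `R` is the curvature of `Ω`.
-/

open scoped Topology
open Filter

namespace MP_1b4d75_gt

noncomputable section

variable {E : Type*} [NormedAddCommGroup E] [NormedSpace ℝ E]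
variable {F : Type*} [NormedAddCommGroup F] [NormedSpace ℝ F]

/-- shortcut instance -/
local instance instNACG2 : NormedAddCommGroup (E →L[ℝ] E →L[ℝ] ℝ) := inferInstance
/-- shortcut instance -/
local instance instNS2 : NormedSpace ℝ (E →L[ℝ] E →L[ℝ] ℝ) := inferInstance

/-- Christoffel symbol of the first kind of a coordinate metric `g`. -/
def chr (g : E → E →L[ℝ] E →L[ℝ] ℝ) (x u v w : E) : ℝ :=
  (1 / 2) * (fderiv ℝ g x u v w + fderiv ℝ g x v u w - fderiv ℝ g x w u v)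

/-- Second derivative of the metric coefficients. -/
def d2 (g : E → E →L[ℝ] E →L[ℝ] ℝ) (x a b u v : E) : ℝ :=
  fderiv ℝ (fderiv ℝ g) x a b u v

/-- `Γ u v` is the Christoffel vector of the pair `u, v` at `x`. -/
def IsChristoffel (g : E → E →L[ℝ] E →L[ℝ] ℝ) (x : E) (Γ : E → E → E) : Prop :=
  ∀ u v w, g x (Γ u v) w = chr g x u v w

/-- Curvature number `R(u,v,v,u)` in coordinates (with the Christoffel vectors `Γ`). -/
def curvNumWith (g : E → E →L[ℝ] E →L[ℝ] ℝ) (x : E) (Γ : E → E → E) (u v : E) : ℝ :=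
  -(1 / 2) * (d2 g x u u v v + d2 g x v v u u - 2 * d2 g x u v u v)
    + g x (Γ u v) (Γ u v) - g x (Γ u u) (Γ v v)

/-- covariant derivative of the soldering form -/
def sU (Θ : E → E →L[ℝ] F) (Ω : E → E →L[ℝ] F →L[ℝ] F) (x u v : E) : F :=
  fderiv ℝ Θ x u v + Ω x u (Θ x v)

/-- curvature of the connection form -/
def RU (Ω : E → E →L[ℝ] F →L[ℝ] F) (x u v : E) (a : F) : F :=
  fderiv ℝ Ω x u v a - fderiv ℝ Ω x v u a + Ω x u (Ω x v a) - Ω x v (Ω x u a)

lemma fderiv_bil {x : E} {A : E → F →L[ℝ] F →L[ℝ] ℝ} {b c : E → F}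
    (hA : DifferentiableAt ℝ A x) (hb : DifferentiableAt ℝ b x) (hc : DifferentiableAt ℝ c x)
    (a : E) :
    fderiv ℝ (fun x => A x (b x) (c x)) x a
      = fderiv ℝ A x a (b x) (c x) + A x (fderiv ℝ b x a) (c x) + A x (b x) (fderiv ℝ c x a) := by
  have h1 : HasFDerivAt (fun x => A x (b x)) _ x := hA.hasFDerivAt.clm_apply hb.hasFDerivAt
  have h2 := h1.clm_apply hc.hasFDerivAt
  rw [h2.fderiv]
  simp
  ring

lemma fderiv_eval {G : Type*} [NormedAddCommGroup G] [NormedSpace ℝ G] {x : E}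
    {A : E → E →L[ℝ] G} (hA : DifferentiableAt ℝ A x) (v a : E) :
    fderiv ℝ (fun x => A x v) x a = fderiv ℝ A x a v := by
  have h1 := hA.hasFDerivAt.clm_apply (hasFDerivAt_const v x)
  rw [h1.fderiv]
  simp

lemma fderiv_eval2 {G : Type*} [NormedAddCommGroup G] [NormedSpace ℝ G]
    {x : E} {A : E → E →L[ℝ] E →L[ℝ] G} (hA : DifferentiableAt ℝ A x) (v w a : E) :
    fderiv ℝ (fun x => A x v w) x a = fderiv ℝ A x a v w := by
  have h1 : DifferentiableAt ℝ (fun x => A x v) x := hA.clm_apply (differentiableAt_const v)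
  rw [fderiv_eval h1, fderiv_eval hA]

theorem lemmaU {g : E → E →L[ℝ] E →L[ℝ] ℝ} {Θ : E → E →L[ℝ] F}
    {S : E → F →L[ℝ] F →L[ℝ] ℝ} {Ω : E → E →L[ℝ] F →L[ℝ] F} {x₀ : E}
    (hg : ContDiffAt ℝ 2 g x₀) (hΘ : ContDiffAt ℝ 2 Θ x₀) (hS : ContDiffAt ℝ 2 S x₀)
    (hΩ : ContDiffAt ℝ 1 Ω x₀)
    (hgS : ∀ᶠ x in 𝓝 x₀, ∀ u v, g x u v = S x (Θ x u) (Θ x v))
    (hsymm : ∀ᶠ x in 𝓝 x₀, ∀ a b, S x a b = S x b a)
    (htf : ∀ᶠ x in 𝓝 x₀, ∀ u v, sU Θ Ω x u v = sU Θ Ω x v u)
    (hmet : ∀ᶠ x in 𝓝 x₀, ∀ u v w, fderiv ℝ S x u (Θ x v) (Θ x w)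
        = S x (Ω x u (Θ x v)) (Θ x w) + S x (Θ x v) (Ω x u (Θ x w)))
    (hrg : ∀ᶠ x in 𝓝 x₀, ∀ u v, ∃ c, sU Θ Ω x u v = Θ x c)
    {Γ : E → E → E} (hΓ : IsChristoffel g x₀ Γ) (u v : E) :
    curvNumWith g x₀ Γ u v = S x₀ (Θ x₀ u) (RU Ω x₀ u v (Θ x₀ v)) := by
  -- differentiability near x₀
  have hg1 : ∀ᶠ x in 𝓝 x₀, DifferentiableAt ℝ g x :=
    (hg.eventually (by simp)).mono fun x hx => hx.differentiableAt (by norm_num)
  have hΘ1 : ∀ᶠ x in 𝓝 x₀, DifferentiableAt ℝ Θ x :=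
    (hΘ.eventually (by simp)).mono fun x hx => hx.differentiableAt (by norm_num)
  have hS1 : ∀ᶠ x in 𝓝 x₀, DifferentiableAt ℝ S x :=
    (hS.eventually (by simp)).mono fun x hx => hx.differentiableAt (by norm_num)
  -- first derivative of g near x₀
  have step1 : ∀ᶠ x in 𝓝 x₀, ∀ a b c, fderiv ℝ g x a b c
      = S x (sU Θ Ω x a b) (Θ x c) + S x (Θ x b) (sU Θ Ω x a c) := by
    have hev := hgS.eventually_nhds
    filter_upwards [hg1, hΘ1, hS1, hmet, hev] with x h1 h2 h3 h4 h5 a b c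
    have e1 : fderiv ℝ (fun y => g y b c) x a = fderiv ℝ g x a b c := fderiv_eval2 h1 b c a
    have e2 : (fun y => g y b c) =ᶠ[𝓝 x] fun y => S y (Θ y b) (Θ y c) := by
      filter_upwards [h5] with y hy using hy b c
    have hb : DifferentiableAt ℝ (fun y => Θ y b) x := h2.clm_apply (differentiableAt_const b)
    have hc : DifferentiableAt ℝ (fun y => Θ y c) x := h2.clm_apply (differentiableAt_const c)
    rw [← e1, e2.fderiv_eq, fderiv_bil h3 hb hc, fderiv_eval h2, fderiv_eval h2, h4 a b c]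
    simp only [sU, map_add, _root_.add_apply]
    ring
  have hs1 : ∀ a b, DifferentiableAt ℝ (fun x => sU Θ Ω x a b) x₀ := by
    intro a b
    have h1 : DifferentiableAt ℝ (fderiv ℝ Θ) x₀ :=
      (hΘ.fderiv_right (m := 1) (by norm_num)).differentiableAt (by norm_num)
    have h2 : DifferentiableAt ℝ Ω x₀ := hΩ.differentiableAt (by norm_num)
    have h3 : DifferentiableAt ℝ Θ x₀ := hΘ.differentiableAt (by norm_num)
    unfold sU
    exact ((h1.clm_apply (differentiableAt_const a)).clm_apply (differentiableAt_const b)).add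
      ((h2.clm_apply (differentiableAt_const a)).clm_apply
        (h3.clm_apply (differentiableAt_const b)))
  -- the value at x₀
  have g0 := hgS.self_of_nhds
  have sy0 := hsymm.self_of_nhds
  have tf0 := htf.self_of_nhds
  have met0 := hmet.self_of_nhds
  have rg0 := hrg.self_of_nhds
  have st0 := step1.self_of_nhds
  have S0 : DifferentiableAt ℝ S x₀ := hS1.self_of_nhds
  have Θ0 : DifferentiableAt ℝ Θ x₀ := hΘ1.self_of_nhds
  have dg0 : DifferentiableAt ℝ (fderiv ℝ g) x₀ :=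
    (hg.fderiv_right (m := 1) (by norm_num)).differentiableAt (by norm_num)
  set N : E → E → E → F := fun a b c =>
    fderiv ℝ (fun x => sU Θ Ω x b c) x₀ a + Ω x₀ a (sU Θ Ω x₀ b c) with hN
  -- second derivative of g
  have step2 : ∀ a b c d, d2 g x₀ a b c d
      = S x₀ (N a b c) (Θ x₀ d) + S x₀ (sU Θ Ω x₀ b c) (sU Θ Ω x₀ a d)
        + S x₀ (sU Θ Ω x₀ a c) (sU Θ Ω x₀ b d) + S x₀ (Θ x₀ c) (N a b d) := by
    intro a b c d
    have e0 : fderiv ℝ (fun x => fderiv ℝ g x b c d) x₀ a = d2 g x₀ a b c d := by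
      have h1 : DifferentiableAt ℝ (fun x => fderiv ℝ g x b) x₀ :=
        dg0.clm_apply (differentiableAt_const b)
      rw [fderiv_eval2 h1, fderiv_eval dg0]
      rfl
    have e1 : (fun x => fderiv ℝ g x b c d) =ᶠ[𝓝 x₀] fun x =>
        S x (sU Θ Ω x b c) (Θ x d) + S x (Θ x c) (sU Θ Ω x b d) := by
      filter_upwards [step1] with x hx using hx b c d
    have hc : DifferentiableAt ℝ (fun y => Θ y c) x₀ := Θ0.clm_apply (differentiableAt_const c)
    have hd : DifferentiableAt ℝ (fun y => Θ y d) x₀ := Θ0.clm_apply (differentiableAt_const d)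
    have e2 : DifferentiableAt ℝ (fun x => S x (sU Θ Ω x b c) (Θ x d)) x₀ :=
      (S0.clm_apply (hs1 b c)).clm_apply hd
    have e3 : DifferentiableAt ℝ (fun x => S x (Θ x c) (sU Θ Ω x b d)) x₀ :=
      (S0.clm_apply hc).clm_apply (hs1 b d)
    rw [← e0, e1.fderiv_eq, fderiv_fun_add e2 e3, _root_.add_apply,
      fderiv_bil S0 (hs1 b c) hd, fderiv_bil S0 hc (hs1 b d), fderiv_eval Θ0, fderiv_eval Θ0]
    obtain ⟨p, hp⟩ := rg0 b c
    obtain ⟨q, hq⟩ := rg0 b d
    have m1 := met0 a p d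
    have m2 := met0 a c q
    rw [← hp] at m1
    rw [← hq] at m2
    have f1 : fderiv ℝ Θ x₀ a d = sU Θ Ω x₀ a d - Ω x₀ a (Θ x₀ d) := by simp [sU]
    have f2 : fderiv ℝ Θ x₀ a c = sU Θ Ω x₀ a c - Ω x₀ a (Θ x₀ c) := by simp [sU]
    rw [m1, m2, f1, f2, hN]
    simp only [map_add, map_sub, _root_.add_apply, _root_.sub_apply]
    ring
  -- Christoffel vectors
  choose Γ' hΓ' using rg0
  have hK : ∀ a b c, chr g x₀ a b c = S x₀ (sU Θ Ω x₀ a b) (Θ x₀ c) := by
    intro a b c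
    unfold chr
    rw [st0 a b c, st0 b a c, st0 c a b, tf0 b a, tf0 c a, tf0 c b,
      sy0 (Θ x₀ b) (sU Θ Ω x₀ a c), sy0 (Θ x₀ a) (sU Θ Ω x₀ b c)]
    ring
  have hGg : ∀ a b c, g x₀ (Γ a b) c = S x₀ (sU Θ Ω x₀ a b) (Θ x₀ c) := by
    intro a b c
    rw [hΓ a b c, hK]
  have hgsy : ∀ a b, g x₀ a b = g x₀ b a := by
    intro a b
    rw [g0, g0, sy0]
  have hGG : ∀ a b c d, g x₀ (Γ a b) (Γ c d) = S x₀ (sU Θ Ω x₀ a b) (sU Θ Ω x₀ c d) := by
    intro a b c d
    rw [hGg a b (Γ c d)]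
    have : S x₀ (sU Θ Ω x₀ a b) (Θ x₀ (Γ c d)) = g x₀ (Γ c d) (Γ' a b) := by
      rw [g0, ← hΓ', sy0]
    rw [this, hGg, ← hΓ', sy0]
  -- symmetric second derivative of Θ and of g
  have symg : ∀ a b c d, d2 g x₀ a b c d = d2 g x₀ b a c d := by
    intro a b c d
    have := (hg.isSymmSndFDerivAt (by simp)).eq a b
    unfold d2
    rw [this]
  have hNs : N u v v - N v u v = RU Ω x₀ u v (Θ x₀ v) := by
    have h1 : DifferentiableAt ℝ (fderiv ℝ Θ) x₀ :=
      (hΘ.fderiv_right (m := 1) (by norm_num)).differentiableAt (by norm_num)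
    have h2 : DifferentiableAt ℝ Ω x₀ := hΩ.differentiableAt (by norm_num)
    have hds : ∀ a b c, fderiv ℝ (fun x => sU Θ Ω x b c) x₀ a
        = fderiv ℝ (fderiv ℝ Θ) x₀ a b c + fderiv ℝ Ω x₀ a b (Θ x₀ c)
          + Ω x₀ b (fderiv ℝ Θ x₀ a c) := by
      intro a b c
      have k1 : DifferentiableAt ℝ (fun x => fderiv ℝ Θ x b) x₀ :=
        h1.clm_apply (differentiableAt_const b)
      have k2 : DifferentiableAt ℝ (fun x => fderiv ℝ Θ x b c) x₀ :=
        k1.clm_apply (differentiableAt_const c)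
      have k3 : DifferentiableAt ℝ (fun x => Ω x b) x₀ := h2.clm_apply (differentiableAt_const b)
      have k4 : DifferentiableAt ℝ (fun x => Θ x c) x₀ := Θ0.clm_apply (differentiableAt_const c)
      have k5 : HasFDerivAt (fun x => Ω x b (Θ x c)) _ x₀ :=
        k3.hasFDerivAt.clm_apply k4.hasFDerivAt
      unfold sU
      rw [fderiv_fun_add k2 k5.differentiableAt, _root_.add_apply, k5.fderiv,
        fderiv_eval2 h1]
      simp only [_root_.add_apply, ContinuousLinearMap.comp_apply,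
        ContinuousLinearMap.flip_apply]
      rw [fderiv_eval h2, fderiv_eval Θ0]
      abel
    have hsym : fderiv ℝ (fderiv ℝ Θ) x₀ u v v = fderiv ℝ (fderiv ℝ Θ) x₀ v u v := by
      have := (hΘ.isSymmSndFDerivAt (by simp)).eq u v
      rw [this]
    simp only [hN]
    rw [hds u v v, hds v u v, hsym]
    simp only [RU, sU, map_add]
    abel
  unfold curvNumWith
  rw [hGG, hGG, ← hNs]
  have a1 := step2 u u v v
  have a2 := step2 v v u u
  have a3 := step2 u v u v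
  have a4 := step2 v u u v
  have a5 := symg u v u v
  have hNtf : ∀ a b c, N a b c = N a c b := by
    intro a b c
    simp only [hN]
    rw [tf0 b c]
    have : (fun x => sU Θ Ω x b c) =ᶠ[𝓝 x₀] fun x => sU Θ Ω x c b := by
      filter_upwards [htf] with x hx using hx b c
    rw [this.fderiv_eq]
  have c1 := hNtf u v u
  have c2 := hNtf v v u
  have c3 := tf0 v u
  have c4 := sy0 (Θ x₀ v) (N u u v)
  have c5 := sy0 (N v u v) (Θ x₀ u)
  rw [map_sub]
  rw [a1, a2, a3, c1, c2, c3, c4, c5]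
  ring

end

end MP_1b4d75_gt
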