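import Pool.Agent.Lib.MP_1b4d75_gt.MDefs

/-!
# Riemannian metrics induced by an immersion and an ambient bilinear form

`ι : M → A` is a smooth immersion into a normed space, `B : A → (A → A → ℝ)` is smooth at the points
of `ι(M)`, symmetric there and positive on the tangent vectors of `M`.
-/

set_option autoImplicit false
set_option maxSynthPendingDepth 3

open scoped Manifold ContDiff Topology
open Bundle

noncomputable section

namespace PosCurv

variable {E : Type*} [NormedAddCommGroup E] [NormedSpace ℝ E]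
  {H : Type*} [TopologicalSpace H] {I : ModelWithCorners ℝ E H}
  {M : Type*} [TopologicalSpace M] [ChartedSpace H M]
  {A : Type*} [NormedAddCommGroup A] [NormedSpace ℝ A]

variable (I) in
/-- The derivative of `ι` at `p`. -/
def jac (ι : M → A) (p : M) : E →L[ℝ] A := mfderiv I 𝓘(ℝ, A) ι p

variable (I) in
/-- The data of an induced metric. -/
structure AmbData (ι : M → A) (B : A → A →L[ℝ] A →L[ℝ] ℝ) : Prop where
  smooth : ContMDiff I 𝓘(ℝ, A) ∞ ι
  smoothB : ∀ p, ContDiffAt ℝ ∞ B (ι p)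
  symm : ∀ p a b, B (ι p) a b = B (ι p) b a
  pos : ∀ p (v : E), v ≠ 0 → 0 < B (ι p) (jac I ι p v) (jac I ι p v)

/-- A positive definite form on a finite dimensional space has a bounded unit ball. -/
lemma isVonNBounded_of_pos [FiniteDimensional ℝ E] {B : E →L[ℝ] E →L[ℝ] ℝ}
    (hp : ∀ v, v ≠ 0 → 0 < B v v) : Bornology.IsVonNBounded ℝ {v : E | B v v < 1} := by
  have : ProperSpace E := FiniteDimensional.proper ℝ E
  rw [NormedSpace.isVonNBounded_iff]
  have hc : Continuous (fun v : E => B v v) := by fun_prop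
  have hK : IsCompact (Metric.sphere (0 : E) 1) := isCompact_sphere 0 1
  by_cases hne : (Metric.sphere (0 : E) 1).Nonempty
  · obtain ⟨v₀, hv₀, hmin⟩ := hK.exists_isMinOn hne hc.continuousOn
    have hv₀' : v₀ ≠ 0 := by
      intro h
      rw [h] at hv₀
      simp at hv₀
    have hm : 0 < B v₀ v₀ := hp v₀ hv₀'
    rw [isBounded_iff_forall_norm_le]
    refine ⟨Real.sqrt (1 / B v₀ v₀), fun v hv => ?_⟩
    have hv1 : B v v < 1 := hv
    by_cases hv0 : v = 0
    · rw [hv0, norm_zero]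
      exact Real.sqrt_nonneg _
    · have hn : 0 < ‖v‖ := norm_pos_iff.2 hv0
      have h1 : (‖v‖⁻¹ • v) ∈ Metric.sphere (0 : E) 1 := by
        rw [mem_sphere_zero_iff_norm, norm_smul, norm_inv, norm_norm, inv_mul_cancel₀ hn.ne']
      have h2 : B v₀ v₀ ≤ B (‖v‖⁻¹ • v) (‖v‖⁻¹ • v) := hmin h1
      simp only [map_smul, _root_.smul_apply, smul_eq_mul] at h2
      apply Real.le_sqrt_of_sq_le
      rw [le_div_iff₀ hm]
      have h3 : ‖v‖ ^ 2 * B v₀ v₀ ≤ ‖v‖ ^ 2 * (‖v‖⁻¹ * (‖v‖⁻¹ * B v v)) :=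
        mul_le_mul_of_nonneg_left h2 (by positivity)
      have h4 : ‖v‖ ^ 2 * (‖v‖⁻¹ * (‖v‖⁻¹ * B v v)) = B v v := by
        field_simp
      linarith
  · have hsub : ∀ v : E, v = 0 := by
      intro v
      by_contra hv
      apply hne
      have hn : 0 < ‖v‖ := norm_pos_iff.2 hv
      exact ⟨‖v‖⁻¹ • v, by
        rw [mem_sphere_zero_iff_norm, norm_smul, norm_inv, norm_norm, inv_mul_cancel₀ hn.ne']⟩
    rw [isBounded_iff_forall_norm_le]
    exact ⟨0, fun v _ => by rw [hsub v, norm_zero]⟩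

variable (I) in
/-- The induced bilinear form. -/
def ambInner (ι : M → A) (B : A → A →L[ℝ] A →L[ℝ] ℝ) (p : M) : E →L[ℝ] E →L[ℝ] ℝ :=
  (B (ι p)).bilinearComp (jac I ι p) (jac I ι p)

variable [IsManifold I ∞ M]

/-- Smoothness of the induced bilinear form. -/
lemma AmbData.contMDiff_aux {ι : M → A} {B : A → A →L[ℝ] A →L[ℝ] ℝ} (h : AmbData I ι B) :
    ContMDiff I (I.prod 𝓘(ℝ, E →L[ℝ] E →L[ℝ] ℝ)) ∞
      (fun p => (TotalSpace.mk' (E →L[ℝ] E →L[ℝ] ℝ) p (ambInner (E := E) I ι B p) :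
        TotalSpace (E →L[ℝ] E →L[ℝ] ℝ)
          (fun p : M => TangentSpace I p →L[ℝ] TangentSpace I p →L[ℝ] ℝ))) := by
  intro p₀
  rw [contMDiffAt_section]
  -- the derivative of `ι` in coordinates
  have hJ : ContMDiffAt I 𝓘(ℝ, E →L[ℝ] A) ∞
      (inTangentCoordinates I 𝓘(ℝ, A) id ι (mfderiv I 𝓘(ℝ, A) ι) p₀) p₀ :=
    (h.smooth p₀).mfderiv_const (m := ∞) (n := ∞) (by simp)
  have hB : ContMDiffAt I 𝓘(ℝ, A →L[ℝ] A →L[ℝ] ℝ) ∞ (fun p => B (ι p)) p₀ :=
    ((h.smoothB p₀).contMDiffAt).comp p₀ (h.smooth p₀)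
  have h1 : ContMDiffAt I 𝓘(ℝ, E →L[ℝ] A →L[ℝ] ℝ) ∞ (fun p => (B (ι p)).comp
      (inTangentCoordinates I 𝓘(ℝ, A) id ι (mfderiv I 𝓘(ℝ, A) ι) p₀ p)) p₀ := hB.clm_comp hJ
  have h2 : ContMDiffAt I 𝓘(ℝ, A →L[ℝ] E →L[ℝ] ℝ) ∞ (fun p => ContinuousLinearMap.flipₗᵢ ℝ E A ℝ
      ((B (ι p)).comp
      (inTangentCoordinates I 𝓘(ℝ, A) id ι (mfderiv I 𝓘(ℝ, A) ι) p₀ p))) p₀ :=
    (ContinuousLinearMap.flipₗᵢ ℝ E A ℝ).toContinuousLinearEquiv.contDiff.contMDiff.contMDiffAt.comp
      p₀ h1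
  have h3 : ContMDiffAt I 𝓘(ℝ, E →L[ℝ] E →L[ℝ] ℝ) ∞ (fun p => (ContinuousLinearMap.flipₗᵢ ℝ E A ℝ
      ((B (ι p)).comp
      (inTangentCoordinates I 𝓘(ℝ, A) id ι (mfderiv I 𝓘(ℝ, A) ι) p₀ p))).comp
      (inTangentCoordinates I 𝓘(ℝ, A) id ι (mfderiv I 𝓘(ℝ, A) ι) p₀ p)) p₀ := h2.clm_comp hJ
  have h4 : ContMDiffAt I 𝓘(ℝ, E →L[ℝ] E →L[ℝ] ℝ) ∞ (fun p =>
    ContinuousLinearMap.flipₗᵢ ℝ E E ℝ ((ContinuousLinearMap.flipₗᵢ ℝ E A ℝ
      ((B (ι p)).comp
      (inTangentCoordinates I 𝓘(ℝ, A) id ι (mfderiv I 𝓘(ℝ, A) ι) p₀ p))).comp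
      (inTangentCoordinates I 𝓘(ℝ, A) id ι (mfderiv I 𝓘(ℝ, A) ι) p₀ p))) p₀ :=
    (ContinuousLinearMap.flipₗᵢ ℝ E E ℝ).toContinuousLinearEquiv.contDiff.contMDiff.contMDiffAt.comp
      p₀ h3
  refine h4.congr_of_eventuallyEq ?_
  have hbase : ∀ᶠ p in 𝓝 p₀, p ∈ (trivializationAt E (TangentSpace I : M → Type _) p₀).baseSet :=
    (trivializationAt E (TangentSpace I : M → Type _) p₀).open_baseSet.mem_nhds
      (FiberBundle.mem_baseSet_trivializationAt' p₀)
  filter_upwards [hbase] with p hp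
  ext v w
  rw [hom_trivializationAt_apply]
  simp only
  rw [inCoordinates_apply_eq₂ hp hp (by simp)]
  have hJ1 : ∀ v : E, inTangentCoordinates I 𝓘(ℝ, A) id ι (mfderiv I 𝓘(ℝ, A) ι) p₀ p v
      = jac I ι p ((trivializationAt E (TangentSpace I : M → Type _) p₀).symm p v) := by
    intro v
    have e1 : inTangentCoordinates I 𝓘(ℝ, A) id ι (mfderiv I 𝓘(ℝ, A) ι) p₀ p v
      = (trivializationAt A (TangentSpace 𝓘(ℝ, A)) (ι p₀)).continuousLinearMapAt ℝ (ι p)
        (mfderiv I 𝓘(ℝ, A) ι p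
          ((trivializationAt E (TangentSpace I : M → Type _) p₀).symmL ℝ p v)) := rfl
    rw [e1, TangentBundle.continuousLinearMapAt_model_space]
    have e2 : (trivializationAt E (TangentSpace I : M → Type _) p₀).symmL ℝ p v
      = (trivializationAt E (TangentSpace I : M → Type _) p₀).symm p v := by
      rw [Trivialization.symmL_apply _ hp]
    rw [e2]
    rfl
  simp only [ContinuousLinearMap.flipₗᵢ]
  simp [hJ1, ambInner]
  rfl

/-- The induced metric. -/
def AmbData.metric [FiniteDimensional ℝ E] {ι : M → A} {B : A → A →L[ℝ] A →L[ℝ] ℝ}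
    (h : AmbData I ι B) : RMetric I M where
  inner p := ambInner (E := E) I ι B p
  symm p _ _ := h.symm p _ _
  pos p v hv := h.pos p v hv
  isVonNBounded p := isVonNBounded_of_pos (B := ambInner (E := E) I ι B p) (h.pos p)
  contMDiff := h.contMDiff_aux

lemma AmbData.metric_inner [FiniteDimensional ℝ E] {ι : M → A} {B : A → A →L[ℝ] A →L[ℝ] ℝ}
    (h : AmbData I ι B) (p : M) (u v : E) :
    bil h.metric p u v = B (ι p) (jac I ι p u) (jac I ι p v) := rfl

/-! ### Coordinates -/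

section Chart

variable [I.Boundaryless] {ι : M → A} {e : OpenPartialHomeomorph M H}

omit [ChartedSpace H M] [IsManifold I ∞ M] in
lemma extend_target_nhds {y : E} (hy : y ∈ (e.extend I).target) : (e.extend I).target ∈ 𝓝 y :=
  e.isOpen_extend_target.mem_nhds hy

omit [IsManifold I ∞ M] in
/-- The inverse of a chart is smooth. -/
lemma contMDiffAt_extend_symm (he : e ∈ IsManifold.maximalAtlas I ∞ M) {y : E}
    (hy : y ∈ (e.extend I).target) : ContMDiffAt 𝓘(ℝ, E) I ∞ (e.extend I).symm y := by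
  have h1 := contMDiffOn_extend_symm he
  rw [← e.extend_target'] at h1
  exact h1.contMDiffAt (extend_target_nhds hy)

/-- The embedding in coordinates is smooth. -/
lemma contDiffAt_psi (hι : ContMDiff I 𝓘(ℝ, A) ∞ ι) (he : e ∈ IsManifold.maximalAtlas I ∞ M)
    {y : E} (hy : y ∈ (e.extend I).target) : ContDiffAt ℝ ∞ (fun y => ι ((e.extend I).symm y)) y :=
  ((hι _).comp y (contMDiffAt_extend_symm he hy)).contDiffAt

/-- Chain rule. -/
lemma fderiv_psi (hι : ContMDiff I 𝓘(ℝ, A) ∞ ι) (he : e ∈ IsManifold.maximalAtlas I ∞ M)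
    {y : E} (hy : y ∈ (e.extend I).target) :
    fderiv ℝ (fun y => ι ((e.extend I).symm y)) y
      = (jac I ι ((e.extend I).symm y)).comp (dinv I e y) := by
  rw [← mfderiv_eq_fderiv]
  exact mfderiv_comp y ((hι _).mdifferentiableAt (by simp))
    ((contMDiffAt_extend_symm he hy).mdifferentiableAt (by simp))

/-- The derivative of the inverse of a chart is bijective. -/
lemma dinv_bijective [FiniteDimensional ℝ E] (he : e ∈ IsManifold.maximalAtlas I ∞ M)
    {y : E} (hy : y ∈ (e.extend I).target) : Function.Bijective (dinv I e y) := by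
  have hsrc : (e.extend I).symm y ∈ e.source := by
    have := (e.extend I).map_target hy
    rwa [e.extend_source] at this
  have h1 : MDifferentiableAt 𝓘(ℝ, E) I (e.extend I).symm y :=
    (contMDiffAt_extend_symm he hy).mdifferentiableAt (by simp)
  have h2 : MDifferentiableAt I 𝓘(ℝ, E) (e.extend I) ((e.extend I).symm y) :=
    (e.contMDiffAt_extend he hsrc).mdifferentiableAt (by simp)
  have h3 := mfderiv_comp y h2 h1
  have h4 : (e.extend I) ∘ (e.extend I).symm =ᶠ[𝓝 y] id := by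
    filter_upwards [extend_target_nhds hy] with z hz
    exact (e.extend I).right_inv hz
  rw [h4.mfderiv_eq, mfderiv_id] at h3
  have hinj : Function.Injective (dinv I e y) := by
    intro u v huv
    have e1 := congrArg (fun L : E →L[ℝ] E => L u) h3
    have e2 := congrArg (fun L : E →L[ℝ] E => L v) h3
    have e3 : u = mfderiv I 𝓘(ℝ, E) (e.extend I) ((e.extend I).symm y) (dinv I e y u) := e1
    have e4 : v = mfderiv I 𝓘(ℝ, E) (e.extend I) ((e.extend I).symm y) (dinv I e y v) := e2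
    rw [e3, e4, huv]
  exact ⟨hinj, (LinearMap.injective_iff_surjective (f := (dinv I e y).toLinearMap)).1 hinj⟩

/-- The induced metric in coordinates. -/
lemma coordMetric_eq [FiniteDimensional ℝ E] {B : A → A →L[ℝ] A →L[ℝ] ℝ} (h : AmbData I ι B)
    (he : e ∈ IsManifold.maximalAtlas I ∞ M) {y : E} (hy : y ∈ (e.extend I).target) :
    coordMetric h.metric e y = (B (ι ((e.extend I).symm y))).bilinearComp
      (fderiv ℝ (fun y => ι ((e.extend I).symm y)) y)
      (fderiv ℝ (fun y => ι ((e.extend I).symm y)) y) := by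
  rw [fderiv_psi h.smooth he hy]
  rfl

/-- Injectivity and range of the derivative of the embedding in coordinates. -/
lemma fderiv_psi_range [FiniteDimensional ℝ E] (hι : ContMDiff I 𝓘(ℝ, A) ∞ ι)
    (hinj : ∀ p, Function.Injective (jac I ι p))
    (he : e ∈ IsManifold.maximalAtlas I ∞ M) {y : E} (hy : y ∈ (e.extend I).target) :
    Function.Injective (fderiv ℝ (fun y => ι ((e.extend I).symm y)) y) ∧
    ∀ a, (∃ u, fderiv ℝ (fun y => ι ((e.extend I).symm y)) y u = a) ↔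
      ∃ u, jac I ι ((e.extend I).symm y) u = a := by
  rw [fderiv_psi hι he hy]
  have hb := dinv_bijective he hy
  refine ⟨(hinj _).comp hb.1, fun a => ⟨?_, ?_⟩⟩
  · rintro ⟨u, hu⟩
    exact ⟨dinv I e y u, hu⟩
  · rintro ⟨u, hu⟩
    obtain ⟨w, rfl⟩ := hb.2 u
    exact ⟨w, hu⟩

end Chart

end PosCurv
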