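import Pool.Agent.Lib.MP_1b4d75_gt.MSec
import Pool.Agent.Lib.MP_1b4d75_gt.MAmb

/-!
# Positive curvature of an induced metric from a statement on immersions of open sets
-/

set_option autoImplicit false
set_option maxSynthPendingDepth 3

open scoped Manifold ContDiff Topology
open Bundle Filter

noncomputable section

namespace PosCurv

open MP_1b4d75_gt

section Congr

variable {E : Type*} [NormedAddCommGroup E] [NormedSpace ℝ E]

lemma isChristoffel_congr {G G' : E → E →L[ℝ] E →L[ℝ] ℝ} {x : E} (h : G =ᶠ[𝓝 x] G')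
    {Γ : E → E → E} : IsChristoffel G x Γ ↔ IsChristoffel G' x Γ := by
  unfold IsChristoffel chr
  rw [h.fderiv_eq, h.eq_of_nhds]

lemma curvNumWith_congr {G G' : E → E →L[ℝ] E →L[ℝ] ℝ} {x : E} (h : G =ᶠ[𝓝 x] G')
    (Γ : E → E → E) (u v : E) : curvNumWith G x Γ u v = curvNumWith G' x Γ u v := by
  unfold curvNumWith d2
  rw [h.fderiv.fderiv_eq, h.eq_of_nhds]

end Congr

variable {E : Type*} [NormedAddCommGroup E] [NormedSpace ℝ E]
  {H : Type*} [TopologicalSpace H] {I : ModelWithCorners ℝ E H}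
  {M : Type*} [TopologicalSpace M] [ChartedSpace H M] [IsManifold I ∞ M]
  {A : Type*} [NormedAddCommGroup A] [NormedSpace ℝ A]

/-- The form `B` pulled back by `ψ`. -/
def pull (B : A → A →L[ℝ] A →L[ℝ] ℝ) (ψ : E → A) (y : E) : E →L[ℝ] E →L[ℝ] ℝ :=
  (B (ψ y)).bilinearComp (fderiv ℝ ψ y) (fderiv ℝ ψ y)

lemma pull_apply (B : A → A →L[ℝ] A →L[ℝ] ℝ) (ψ : E → A) (y u v : E) :
    pull B ψ y u v = B (ψ y) (fderiv ℝ ψ y u) (fderiv ℝ ψ y v) := rfl

lemma contDiffAt_pull {B : A → A →L[ℝ] A →L[ℝ] ℝ} {ψ : E → A} {x : E}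
    (hψ : ContDiffAt ℝ ∞ ψ x) (hB : ContDiffAt ℝ ∞ B (ψ x)) : ContDiffAt ℝ ∞ (pull B ψ) x := by
  have h1 : ContDiffAt ℝ ∞ (fun y => B (ψ y)) x := hB.comp x hψ
  have h2 : ContDiffAt ℝ ∞ (fderiv ℝ ψ) x := hψ.fderiv_right (by simp)
  have h3 : ContDiffAt ℝ ∞ (fun y => (B (ψ y)).comp (fderiv ℝ ψ y)) x := h1.clm_comp h2
  have h4 : ContDiffAt ℝ ∞ (fun y => ContinuousLinearMap.flipₗᵢ ℝ E A ℝ
      ((B (ψ y)).comp (fderiv ℝ ψ y))) x :=
    (ContinuousLinearMap.flipₗᵢ ℝ E A ℝ).toContinuousLinearEquiv.contDiff.contDiffAt.comp x h3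
  have h5 : ContDiffAt ℝ ∞ (fun y => (ContinuousLinearMap.flipₗᵢ ℝ E A ℝ
      ((B (ψ y)).comp (fderiv ℝ ψ y))).comp (fderiv ℝ ψ y)) x := h4.clm_comp h2
  have h6 : ContDiffAt ℝ ∞ (fun y => ContinuousLinearMap.flipₗᵢ ℝ E E ℝ
      ((ContinuousLinearMap.flipₗᵢ ℝ E A ℝ
      ((B (ψ y)).comp (fderiv ℝ ψ y))).comp (fderiv ℝ ψ y))) x :=
    (ContinuousLinearMap.flipₗᵢ ℝ E E ℝ).toContinuousLinearEquiv.contDiff.contDiffAt.comp x h5
  exact h6

/-- Criterion for positive curvature of an induced metric. -/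
theorem positivelyCurved_of_local [FiniteDimensional ℝ E] [I.Boundaryless] {ι : M → A}
    {B : A → A →L[ℝ] A →L[ℝ] ℝ} (h : AmbData I ι B)
    (hinj : ∀ p, Function.Injective (jac I ι p))
    (hloc : ∀ (ψ : E → A) (x : E), (∀ᶠ y in 𝓝 x, ContDiffAt ℝ ∞ ψ y) →
      (∀ᶠ y in 𝓝 x, ∃ p : M, ψ y = ι p ∧ Function.Injective (fderiv ℝ ψ y) ∧
        ∀ a, (∃ u, fderiv ℝ ψ y u = a) ↔ ∃ u, jac I ι p u = a) →
      ∀ Γ : E → E → E, IsChristoffel (pull B ψ) x Γ →
      ∀ u v : E, LinearIndependent ℝ ![u, v] → 0 < curvNumWith (pull B ψ) x Γ u v) :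
    PositivelyCurved h.metric := by
  intro e he p hp u v huv
  have hx : e.extend I p ∈ (e.extend I).target :=
    (e.extend I).map_source (by rwa [e.extend_source])
  set x := e.extend I p with hxdef
  set ψ : E → A := fun y => ι ((e.extend I).symm y) with hψdef
  have hnh : ∀ᶠ y in 𝓝 x, y ∈ (e.extend I).target := extend_target_nhds hx
  have hG : coordMetric h.metric e =ᶠ[𝓝 x] pull B ψ := by
    filter_upwards [hnh] with y hy
    exact coordMetric_eq h he hy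
  have hsm : ∀ᶠ y in 𝓝 x, ContDiffAt ℝ ∞ ψ y := by
    filter_upwards [hnh] with y hy
    exact contDiffAt_psi h.smooth he hy
  have hrg : ∀ᶠ y in 𝓝 x, ∃ p : M, ψ y = ι p ∧ Function.Injective (fderiv ℝ ψ y) ∧
        ∀ a, (∃ u, fderiv ℝ ψ y u = a) ↔ ∃ u, jac I ι p u = a := by
    filter_upwards [hnh] with y hy
    have h1 := fderiv_psi_range h.smooth hinj he hy
    exact ⟨(e.extend I).symm y, rfl, h1.1, h1.2⟩
  have hsymm : ∀ᶠ y in 𝓝 x, ∀ v w, pull B ψ y v w = pull B ψ y w v :=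
    Eventually.of_forall fun y v w => h.symm _ _ _
  have hpos : ∀ᶠ y in 𝓝 x, ∀ v, v ≠ 0 → 0 < pull B ψ y v v := by
    filter_upwards [hnh] with y hy v hv
    rw [pull_apply]
    have h1 : fderiv ℝ ψ y = (jac I ι ((e.extend I).symm y)).comp (dinv I e y) :=
      fderiv_psi h.smooth he hy
    rw [h1]
    refine h.pos _ (dinv I e y v) ?_
    intro h2
    apply hv
    apply (dinv_bijective he hy).1
    rw [h2, map_zero]
  have hC : ContDiffAt ℝ 2 (pull B ψ) x :=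
    (contDiffAt_pull hsm.self_of_nhds (h.smoothB _)).of_le (WithTop.coe_le_coe.2 (le_top : (2 : ℕ∞) ≤ ⊤))
  have hΓ : IsChristoffel (pull B ψ) x (christoffel (pull B ψ) x) :=
    exists_isChristoffel (hC.differentiableAt (by norm_num)) hpos.self_of_nhds
  have key := hloc ψ x hsm hrg _ hΓ u v huv
  refine secCoord_pos (hC.congr_of_eventuallyEq hG) ?_ ?_ ((isChristoffel_congr hG).2 hΓ) huv ?_
  · filter_upwards [hG, hsymm] with y h1 h2 v w
    rw [h1]
    exact h2 v w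
  · filter_upwards [hG, hpos] with y h1 h2 v hv
    rw [h1]
    exact h2 v hv
  · rw [curvNumWith_congr hG]
    exact key

end PosCurv
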