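import Pool.Agent.Lib.MP_1b4d75_gt.MPos
import Pool.Agent.Lib.MP_1b4d75_gt.Act2

/-!
# Induced metrics on `S² × S³`
-/

set_option autoImplicit false
set_option maxSynthPendingDepth 3

open scoped Manifold ContDiff Topology Quaternion RealInnerProductSpace
open Bundle Filter Metric Module

noncomputable section

namespace PosCurv

open MP_1b4d75_gt

/-- The model space of `S² × S³`. -/
abbrev E5 : Type := EuclideanSpace ℝ (Fin 2) × EuclideanSpace ℝ (Fin 3)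

lemma jac_incl_fst (p : M5) (v : E5) :
    (jac IM incl p v).1 = mfderiv (𝓡 2) 𝓘(ℝ, R3) ((↑) : S2 → R3) p.1 v.1 := by
  have h1 : MDifferentiableAt IM 𝓘(ℝ, R3 × ℍ[ℝ]) incl p :=
    (incl_smooth p).mdifferentiableAt (by simp)
  have h2 : MDifferentiableAt 𝓘(ℝ, R3 × ℍ[ℝ]) 𝓘(ℝ, R3) (ContinuousLinearMap.fst ℝ R3 ℍ[ℝ])
      (incl p) := (ContinuousLinearMap.fst ℝ R3 ℍ[ℝ]).differentiableAt.mdifferentiableAt
  have h3 := mfderiv_comp p h2 h1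
  have h4 : mfderiv 𝓘(ℝ, R3 × ℍ[ℝ]) 𝓘(ℝ, R3) (ContinuousLinearMap.fst ℝ R3 ℍ[ℝ]) (incl p) =
      ContinuousLinearMap.fst ℝ R3 ℍ[ℝ] := by
    rw [mfderiv_eq_fderiv]
    exact (ContinuousLinearMap.fst ℝ R3 ℍ[ℝ]).fderiv
  rw [h4] at h3
  have h5 : MDifferentiableAt (𝓡 2) 𝓘(ℝ, R3) ((↑) : S2 → R3) p.1 :=
    (contMDiff_coe_sphere (m := ∞) p.1).mdifferentiableAt (by simp)
  have h6 : MDifferentiableAt IM (𝓡 2) (Prod.fst : M5 → S2) p :=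
    (contMDiff_fst (n := ∞) p).mdifferentiableAt (by simp)
  have h7 := mfderiv_comp p h5 h6
  have h8 : (ContinuousLinearMap.fst ℝ R3 ℍ[ℝ]) ∘ incl = ((↑) : S2 → R3) ∘ Prod.fst := rfl
  rw [h8, h7, mfderiv_fst] at h3
  exact (congrArg (fun L : E5 →L[ℝ] R3 => L v) h3).symm

lemma jac_incl_snd (p : M5) (v : E5) :
    (jac IM incl p v).2 = mfderiv (𝓡 3) 𝓘(ℝ, ℍ[ℝ]) ((↑) : S3 → ℍ[ℝ]) p.2 v.2 := by
  have h1 : MDifferentiableAt IM 𝓘(ℝ, R3 × ℍ[ℝ]) incl p :=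
    (incl_smooth p).mdifferentiableAt (by simp)
  have h2 : MDifferentiableAt 𝓘(ℝ, R3 × ℍ[ℝ]) 𝓘(ℝ, ℍ[ℝ]) (ContinuousLinearMap.snd ℝ R3 ℍ[ℝ])
      (incl p) := (ContinuousLinearMap.snd ℝ R3 ℍ[ℝ]).differentiableAt.mdifferentiableAt
  have h3 := mfderiv_comp p h2 h1
  have h4 : mfderiv 𝓘(ℝ, R3 × ℍ[ℝ]) 𝓘(ℝ, ℍ[ℝ]) (ContinuousLinearMap.snd ℝ R3 ℍ[ℝ]) (incl p) =
      ContinuousLinearMap.snd ℝ R3 ℍ[ℝ] := by
    rw [mfderiv_eq_fderiv]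
    exact (ContinuousLinearMap.snd ℝ R3 ℍ[ℝ]).fderiv
  rw [h4] at h3
  have h5 : MDifferentiableAt (𝓡 3) 𝓘(ℝ, ℍ[ℝ]) ((↑) : S3 → ℍ[ℝ]) p.2 :=
    (contMDiff_coe_sphere (m := ∞) p.2).mdifferentiableAt (by simp)
  have h6 : MDifferentiableAt IM (𝓡 3) (Prod.snd : M5 → S3) p :=
    (contMDiff_snd (n := ∞) p).mdifferentiableAt (by simp)
  have h7 := mfderiv_comp p h5 h6
  have h8 : (ContinuousLinearMap.snd ℝ R3 ℍ[ℝ]) ∘ incl = ((↑) : S3 → ℍ[ℝ]) ∘ Prod.snd := rfl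
  rw [h8, h7, mfderiv_snd] at h3
  exact (congrArg (fun L : E5 →L[ℝ] ℍ[ℝ] => L v) h3).symm

/-- The inclusion is an immersion. -/
lemma jac_incl_injective (p : M5) : Function.Injective (jac IM incl p) := by
  intro u v huv
  have h1 : (jac IM incl p u).1 = (jac IM incl p v).1 := by rw [huv]
  have h2 : (jac IM incl p u).2 = (jac IM incl p v).2 := by rw [huv]
  rw [jac_incl_fst, jac_incl_fst] at h1
  rw [jac_incl_snd, jac_incl_snd] at h2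
  exact Prod.ext (mfderiv_coe_sphere_injective p.1 h1) (mfderiv_coe_sphere_injective p.2 h2)

lemma range_coe_sphere {F : Type*} [NormedAddCommGroup F] [InnerProductSpace ℝ F] {n : ℕ}
    [Fact (finrank ℝ F = n + 1)] (v : sphere (0 : F) 1) (a : F) :
    (∃ u : EuclideanSpace ℝ (Fin n),
      mfderiv (𝓡 n) 𝓘(ℝ, F) ((↑) : sphere (0 : F) 1 → F) v u = a) ↔ ⟪(v : F), a⟫ = 0 := by
  have h := range_mfderiv_coe_sphere (n := n) v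
  have h1 : a ∈ (mfderiv (𝓡 n) 𝓘(ℝ, F) ((↑) : sphere (0 : F) 1 → F) v :
      TangentSpace (𝓡 n) v →L[ℝ] F).range ↔ a ∈ (Submodule.span ℝ {(v : F)})ᗮ := by
    rw [h]
    exact Iff.rfl
  rw [Submodule.mem_orthogonal_singleton_iff_inner_right] at h1
  rw [← h1]
  rfl

/-- The tangent vectors of `S² × S³` in the ambient space. -/
lemma jac_incl_range (p : M5) (a : R3 × ℍ[ℝ]) :
    (∃ u, jac IM incl p u = a) ↔ ⟪(p.1 : R3), a.1⟫ = 0 ∧ ⟪(p.2 : ℍ[ℝ]), a.2⟫ = 0 := by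
  rw [← range_coe_sphere (n := 2) p.1 a.1, ← range_coe_sphere (n := 3) p.2 a.2]
  constructor
  · rintro ⟨u, rfl⟩
    exact ⟨⟨u.1, (jac_incl_fst p u).symm⟩, ⟨u.2, (jac_incl_snd p u).symm⟩⟩
  · rintro ⟨⟨u, hu⟩, ⟨w, hw⟩⟩
    refine ⟨(u, w), Prod.ext ?_ ?_⟩
    · rw [jac_incl_fst]; exact hu
    · rw [jac_incl_snd]; exact hw

/-- An ambient bilinear form on `ℝ³ × ℍ` that is smooth and symmetric at the points of `S² × S³` and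
positive on its tangent vectors. -/
structure Amb23 (B : R3 × ℍ[ℝ] → R3 × ℍ[ℝ] →L[ℝ] R3 × ℍ[ℝ] →L[ℝ] ℝ) : Prop where
  smoothB : ∀ y z, ‖y‖ = 1 → ‖z‖ = 1 → ContDiffAt ℝ ∞ B (y, z)
  symm : ∀ y z, ‖y‖ = 1 → ‖z‖ = 1 → ∀ a b, B (y, z) a b = B (y, z) b a
  pos : ∀ y z, ‖y‖ = 1 → ‖z‖ = 1 → ∀ a b, ⟪y, a⟫ = 0 → ⟪z, b⟫ = 0 → (a, b) ≠ 0 →
    0 < B (y, z) (a, b) (a, b)

lemma Amb23.ambData {B : R3 × ℍ[ℝ] → R3 × ℍ[ℝ] →L[ℝ] R3 × ℍ[ℝ] →L[ℝ] ℝ} (h : Amb23 B) :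
    AmbData IM incl B where
  smooth := incl_smooth
  smoothB p := h.smoothB _ _ (norm_eq_of_mem_sphere p.1) (norm_eq_of_mem_sphere p.2)
  symm p a b := h.symm _ _ (norm_eq_of_mem_sphere p.1) (norm_eq_of_mem_sphere p.2) a b
  pos p v hv := by
    have h1 := (jac_incl_range p (jac IM incl p v)).1 ⟨v, rfl⟩
    refine h.pos _ _ (norm_eq_of_mem_sphere p.1) (norm_eq_of_mem_sphere p.2) _ _ h1.1 h1.2 ?_
    intro h2
    apply hv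
    apply jac_incl_injective p
    rw [map_zero]
    exact h2

/-- The metric on `S² × S³` induced by an ambient bilinear form. -/
def Amb23.metric {B : R3 × ℍ[ℝ] → R3 × ℍ[ℝ] →L[ℝ] R3 × ℍ[ℝ] →L[ℝ] ℝ} (h : Amb23 B) :
    RMetric IM M5 := h.ambData.metric

/-- Positive curvature of the metric on `S² × S³` induced by an ambient bilinear form follows from
the positivity of the curvature numbers for all local parametrisations. -/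
theorem Amb23.positivelyCurved {B : R3 × ℍ[ℝ] → R3 × ℍ[ℝ] →L[ℝ] R3 × ℍ[ℝ] →L[ℝ] ℝ} (h : Amb23 B)
    (hloc : ∀ (ψ : E5 → R3 × ℍ[ℝ]) (x : E5), (∀ᶠ y in 𝓝 x, ContDiffAt ℝ ∞ ψ y) →
      (∀ᶠ y in 𝓝 x, ‖(ψ y).1‖ = 1 ∧ ‖(ψ y).2‖ = 1 ∧ Function.Injective (fderiv ℝ ψ y) ∧
        ∀ a b, (∃ u, fderiv ℝ ψ y u = (a, b)) ↔ ⟪(ψ y).1, a⟫ = 0 ∧ ⟪(ψ y).2, b⟫ = 0) →
      ∀ Γ : E5 → E5 → E5, IsChristoffel (pull B ψ) x Γ →
      ∀ u v : E5, LinearIndependent ℝ ![u, v] → 0 < curvNumWith (pull B ψ) x Γ u v) :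
    PositivelyCurved h.metric := by
  refine positivelyCurved_of_local h.ambData jac_incl_injective ?_
  intro ψ x h1 h2 Γ hΓ u v huv
  refine hloc ψ x h1 ?_ Γ hΓ u v huv
  filter_upwards [h2] with y hy
  obtain ⟨p, hp, hinj, hrg⟩ := hy
  refine ⟨?_, ?_, hinj, fun a b => ?_⟩
  · rw [hp]; exact norm_eq_of_mem_sphere p.1
  · rw [hp]; exact norm_eq_of_mem_sphere p.2
  · rw [hrg, jac_incl_range, hp]
    rfl

/-- The metric is invariant under the unit quaternions if the ambient form is. -/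
theorem Amb23.preserves {B : R3 × ℍ[ℝ] → R3 × ℍ[ℝ] →L[ℝ] R3 × ℍ[ℝ] →L[ℝ] ℝ} (h : Amb23 B)
    (hinv : ∀ (q : S3) (y : R3) (z : ℍ[ℝ]), ‖y‖ = 1 → ‖z‖ = 1 → ∀ (a a' : R3) (b b' : ℍ[ℝ]),
      B (y, (q : ℍ[ℝ]) * z) (a, (q : ℍ[ℝ]) * b) (a', (q : ℍ[ℝ]) * b') = B (y, z) (a, b) (a', b'))
    (q : S3) : PosCurv.PreservesMetric h.metric (act q) :=
  act_preserves h.metric (fun p a b => B p a b) (fun _ _ _ => rfl)
    (fun q p a b => hinv q p.1 p.2 (norm_eq_of_mem_sphere p.1) (norm_eq_of_mem_sphere p.2)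
      a.1 b.1 a.2 b.2) q

end PosCurv
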