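import Pool.Agent.Lib.MP_1b4d75_gt.LemmaU
import Pool.Agent.Lib.MP_1b4d75_gt.MDefs

/-!
# From the curvature number of `LemmaU` to the sectional curvature of `MDefs`
-/

set_option autoImplicit false
set_option maxSynthPendingDepth 3

open scoped Topology
open Filter

namespace PosCurv

open MP_1b4d75_gt

variable {E : Type*} [NormedAddCommGroup E] [NormedSpace ℝ E]

noncomputable section

lemma koszul_eq_chr {G : E → E →L[ℝ] E →L[ℝ] ℝ} {x : E} (hG : DifferentiableAt ℝ G x)
    (u v w : E) : koszul G x u v w = chr G x u v w := by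
  unfold koszul chr
  rw [fderiv_eval2 hG, fderiv_eval2 hG, fderiv_eval2 hG]
  ring

/-- A metric that is symmetric and positive definite is an isomorphism onto the dual. -/
lemma exists_equiv [FiniteDimensional ℝ E] {B : E →L[ℝ] E →L[ℝ] ℝ}
    (hpos : ∀ v, v ≠ 0 → 0 < B v v) : ∃ e : E ≃L[ℝ] (E →L[ℝ] ℝ), (e : E →L[ℝ] E →L[ℝ] ℝ) = B := by
  have hinj : Function.Injective B := by
    intro v w hvw
    by_contra hne
    have h0 : B (v - w) = 0 := by rw [map_sub, hvw, sub_self]
    have h1 : B (v - w) (v - w) = 0 := by rw [h0]; rfl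
    have h2 := hpos (v - w) (sub_ne_zero.2 hne)
    linarith
  have hdim : Module.finrank ℝ E = Module.finrank ℝ (E →L[ℝ] ℝ) := by
    have h1 : Module.finrank ℝ (E →ₗ[ℝ] ℝ) = Module.finrank ℝ (E →L[ℝ] ℝ) :=
      LinearEquiv.finrank_eq (LinearMap.toContinuousLinearMap : (E →ₗ[ℝ] ℝ) ≃ₗ[ℝ] (E →L[ℝ] ℝ))
    rw [← h1]
    exact (Subspace.dual_finrank_eq (K := ℝ) (V := E)).symm
  let e1 : E ≃ₗ[ℝ] (E →L[ℝ] ℝ) :=
    LinearEquiv.ofInjectiveOfFinrankEq (B : E →ₗ[ℝ] (E →L[ℝ] ℝ)) hinj hdim
  refine ⟨e1.toContinuousLinearEquiv, ?_⟩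
  ext v w
  rfl

/-- The Christoffel vectors satisfy Koszul's formula. -/
lemma christoffel_spec [FiniteDimensional ℝ E] {G : E → E →L[ℝ] E →L[ℝ] ℝ} {x : E}
    (hG : DifferentiableAt ℝ G x) (hpos : ∀ v, v ≠ 0 → 0 < G x v v) (u v w : E) :
    G x (christoffel G x u v) w = chr G x u v w := by
  obtain ⟨e, he⟩ := exists_equiv hpos
  have hex : ∃ z : E, ∀ w : E, G x z w = koszul G x u v w := by
    let φ : E →L[ℝ] ℝ := (1 / 2 : ℝ) • (fderiv ℝ G x u v + fderiv ℝ G x v u
      - ((fderiv ℝ G x).flip u).flip v)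
    refine ⟨e.symm φ, fun w => ?_⟩
    have h1 : G x (e.symm φ) = φ := by
      rw [← he]
      exact e.apply_symm_apply φ
    rw [h1, koszul_eq_chr hG]
    simp [φ, chr]
  unfold christoffel
  rw [dif_pos hex]
  rw [hex.choose_spec w, koszul_eq_chr hG]

/-- The Christoffel vectors depend differentiably on the point. -/
lemma christoffel_diff [FiniteDimensional ℝ E] {G : E → E →L[ℝ] E →L[ℝ] ℝ} {x : E}
    (hG : ContDiffAt ℝ 2 G x) (hpos : ∀ᶠ y in 𝓝 x, ∀ v, v ≠ 0 → 0 < G y v v) (u v : E) :
    DifferentiableAt ℝ (fun y => christoffel G y u v) x := by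
  have : CompleteSpace E := FiniteDimensional.complete ℝ E
  have hG1 : ∀ᶠ y in 𝓝 x, DifferentiableAt ℝ G y :=
    (hG.eventually (by simp)).mono fun y hy => hy.differentiableAt (by norm_num)
  let φ : E → (E →L[ℝ] ℝ) := fun y => (1 / 2 : ℝ) • (fderiv ℝ G y u v + fderiv ℝ G y v u
      - ((fderiv ℝ G y).flip u).flip v)
  have dG : DifferentiableAt ℝ (fderiv ℝ G) x :=
    (hG.fderiv_right (m := 1) (by norm_num)).differentiableAt (by norm_num)
  have hφ : DifferentiableAt ℝ φ x := by
    have h1 : DifferentiableAt ℝ (fun y => fderiv ℝ G y u v) x :=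
      (dG.clm_apply (differentiableAt_const u)).clm_apply (differentiableAt_const v)
    have h2 : DifferentiableAt ℝ (fun y => fderiv ℝ G y v u) x :=
      (dG.clm_apply (differentiableAt_const v)).clm_apply (differentiableAt_const u)
    have h3 : DifferentiableAt ℝ (fun y => ((fderiv ℝ G y).flip u).flip v) x := by
      have e1 : (fun y => ((fderiv ℝ G y).flip u).flip v) = fun y =>
          (((ContinuousLinearMap.apply ℝ (E →L[ℝ] ℝ) u).comp (fderiv ℝ G y)).flip v) := by
        funext y
        ext w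
        rfl
      rw [e1]
      have h4 : DifferentiableAt ℝ (fun y => (ContinuousLinearMap.apply ℝ (E →L[ℝ] ℝ) u).comp
          (fderiv ℝ G y)) x := (differentiableAt_const _).clm_comp dG
      have h5 : DifferentiableAt ℝ (fun y => ((ContinuousLinearMap.flipₗᵢ ℝ E E ℝ)
          ((ContinuousLinearMap.apply ℝ (E →L[ℝ] ℝ) u).comp (fderiv ℝ G y)))) x :=
        ((ContinuousLinearMap.flipₗᵢ ℝ E E ℝ).toContinuousLinearEquiv.toContinuousLinearMap.differentiableAt).comp x h4
      exact h5.clm_apply (differentiableAt_const v)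
    exact ((h1.add h2).sub h3).const_smul (1 / 2 : ℝ)
  have hev : (fun y => christoffel G y u v) =ᶠ[𝓝 x] fun y => (G y).inverse (φ y) := by
    filter_upwards [hG1, hpos] with y h1 h2
    obtain ⟨e, he⟩ := exists_equiv h2
    have h3 : G y (christoffel G y u v) = φ y := by
      ext w
      rw [christoffel_spec h1 h2]
      simp [φ, chr]
    rw [← he, ContinuousLinearMap.inverse_equiv]
    have h4 : e (christoffel G y u v) = φ y := by
      rw [← h3, ← he]
      rfl
    rw [← h4]
    exact (e.symm_apply_apply _).symm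
  obtain ⟨e, he⟩ := exists_equiv hpos.self_of_nhds
  have hinv : DifferentiableAt ℝ (fun y => (G y).inverse) x := by
    have h1 : DifferentiableAt ℝ (ContinuousLinearMap.inverse : (E →L[ℝ] E →L[ℝ] ℝ) → _) (G x) := by
      rw [← he]
      exact (contDiffAt_map_inverse (n := 1) e).differentiableAt (by norm_num)
    have h2 : DifferentiableAt ℝ G x := hG1.self_of_nhds
    exact DifferentiableAt.comp (g := (ContinuousLinearMap.inverse : (E →L[ℝ] E →L[ℝ] ℝ) → _)) x h1 h2
  exact (hinv.clm_apply hφ).congr_of_eventuallyEq hev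

/-- The numerator of the sectional curvature is the curvature number. -/
lemma riem_eq_curvNum [FiniteDimensional ℝ E] {G : E → E →L[ℝ] E →L[ℝ] ℝ} {x : E}
    (hG : ContDiffAt ℝ 2 G x) (hsymm : ∀ᶠ y in 𝓝 x, ∀ v w, G y v w = G y w v)
    (hpos : ∀ᶠ y in 𝓝 x, ∀ v, v ≠ 0 → 0 < G y v v) (u v : E) :
    G x (riem G x u v v) u = curvNumWith G x (christoffel G x) u v := by
  have hG1 : ∀ᶠ y in 𝓝 x, DifferentiableAt ℝ G y :=
    (hG.eventually (by simp)).mono fun y hy => hy.differentiableAt (by norm_num)
  have dG : DifferentiableAt ℝ (fderiv ℝ G) x :=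
    (hG.fderiv_right (m := 1) (by norm_num)).differentiableAt (by norm_num)
  have s0 := hsymm.self_of_nhds
  have p0 := hpos.self_of_nhds
  have g0 := hG1.self_of_nhds
  have spec := fun a b c => christoffel_spec (G := G) (x := x) g0 p0 a b c
  -- symmetry of the derivatives
  have sy1 : ∀ a b c, fderiv ℝ G x a b c = fderiv ℝ G x a c b := by
    intro a b c
    rw [← fderiv_eval2 g0, ← fderiv_eval2 g0]
    have h : (fun y => G y b c) =ᶠ[𝓝 x] fun y => G y c b := hsymm.mono fun y hy => hy b c
    rw [h.fderiv_eq]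
  have sy2 : ∀ a b c d, d2 G x a b c d = d2 G x b a c d := by
    intro a b c d
    unfold d2
    rw [(hG.isSymmSndFDerivAt (by simp)).eq a b]
  have evd : ∀ a b c d, fderiv ℝ (fun y => fderiv ℝ G y b c d) x a = d2 G x a b c d := by
    intro a b c d
    have h1 : DifferentiableAt ℝ (fun y => fderiv ℝ G y b) x :=
      dG.clm_apply (differentiableAt_const b)
    rw [fderiv_eval2 h1, fderiv_eval dG]
    rfl
  have sy3 : ∀ a b c d, d2 G x a b c d = d2 G x a b d c := by
    intro a b c d
    rw [← evd, ← evd]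
    have h2 : (fun y => fderiv ℝ G y b c d) =ᶠ[𝓝 x] fun y => fderiv ℝ G y b d c := by
      filter_upwards [hG1, hsymm.eventually_nhds] with y h1 h2
      rw [← fderiv_eval2 h1, ← fderiv_eval2 h1]
      have h : (fun y => G y c d) =ᶠ[𝓝 y] fun y => G y d c := h2.mono fun y hy => hy c d
      rw [h.fderiv_eq]
    rw [h2.fderiv_eq]
  -- derivative of the Koszul identity
  have key : ∀ a b c d, fderiv ℝ G x a (christoffel G x b c) d
      + G x (fderiv ℝ (fun y => christoffel G y b c) x a) d
      = (1 / 2) * (d2 G x a b c d + d2 G x a c b d - d2 G x a d b c) := by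
    intro a b c d
    have hc := christoffel_diff hG hpos b c
    have h1 : (fun y => G y (christoffel G y b c) d) =ᶠ[𝓝 x] fun y => chr G y b c d := by
      filter_upwards [hG1, hpos] with y h1 h2
      exact christoffel_spec h1 h2 b c d
    have h2 : fderiv ℝ (fun y => G y (christoffel G y b c) d) x a =
        fderiv ℝ (fun y => chr G y b c d) x a := by rw [h1.fderiv_eq]
    rw [fderiv_bil g0 hc (differentiableAt_const d)] at h2
    have h3 : fderiv ℝ (fun y => chr G y b c d) x a
        = (1 / 2) * (d2 G x a b c d + d2 G x a c b d - d2 G x a d b c) := by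
      have e : ∀ p q r : E, DifferentiableAt ℝ (fun y => fderiv ℝ G y p q r) x := fun p q r =>
        ((dG.clm_apply (differentiableAt_const p)).clm_apply (differentiableAt_const q)).clm_apply
          (differentiableAt_const r)
      unfold chr
      rw [fderiv_const_mul (((e b c d).fun_add (e c b d)).fun_sub (e d b c)),
        fderiv_fun_sub ((e b c d).fun_add (e c b d)) (e d b c), fderiv_fun_add (e b c d) (e c b d)]
      simp only [_root_.smul_apply, _root_.sub_apply, _root_.add_apply, smul_eq_mul, evd]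
    rw [h3] at h2
    simpa using h2
  have k1 := key u v v u
  have k2 := key v u v u
  have m1 := spec u (christoffel G x v v) u
  have m2 := spec v (christoffel G x u v) u
  have n1 := spec u u (christoffel G x v v)
  have n2 := spec u v (christoffel G x u v)
  unfold chr at m1 m2 n1 n2
  unfold riem curvNumWith
  simp only [map_add, map_sub, _root_.add_apply, _root_.sub_apply]
  have t1 := sy2 u v v u
  have t2 := sy3 u v v u
  have t3 := sy3 v u v u
  have t4 := sy2 v u u v
  have a1 := sy1 u u (christoffel G x v v)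
  have a2 := sy1 v u (christoffel G x u v)
  have a3 := sy1 u v (christoffel G x u v)
  have a4 := sy1 (christoffel G x u v) u v
  have b1 := s0 (christoffel G x u u) (christoffel G x v v)
  linarith

/-- Strict Cauchy-Schwarz inequality. -/
lemma gram_pos {B : E →L[ℝ] E →L[ℝ] ℝ} (hs : ∀ v w, B v w = B w v)
    (hp : ∀ v, v ≠ 0 → 0 < B v v) {u v : E} (huv : LinearIndependent ℝ ![u, v]) :
    0 < B u u * B v v - B u v ^ 2 := by
  have hv : v ≠ 0 := by
    have := huv.ne_zero 1
    simpa using this
  have hBv := hp v hv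
  have hw : B v v • u - B u v • v ≠ 0 := by
    intro h
    have h1 := LinearIndependent.pair_iff.1 huv (B v v) (-B u v) (by
      rw [neg_smul, ← sub_eq_add_neg]
      exact h)
    exact hBv.ne' h1.1
  have h2 := hp _ hw
  have h3 : B (B v v • u - B u v • v) (B v v • u - B u v • v)
      = B v v * (B u u * B v v - B u v ^ 2) := by
    simp only [map_sub, map_smul, _root_.sub_apply, _root_.smul_apply, smul_eq_mul]
    rw [hs v u]
    ring
  rw [h3] at h2
  exact (pos_iff_pos_of_mul_pos h2).1 hBv

/-- Positivity of the curvature number gives positivity of the sectional curvature. -/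
theorem secCoord_pos [FiniteDimensional ℝ E] {G : E → E →L[ℝ] E →L[ℝ] ℝ} {x : E}
    (hG : ContDiffAt ℝ 2 G x) (hsymm : ∀ᶠ y in 𝓝 x, ∀ v w, G y v w = G y w v)
    (hpos : ∀ᶠ y in 𝓝 x, ∀ v, v ≠ 0 → 0 < G y v v) {Γ : E → E → E} (hΓ : IsChristoffel G x Γ)
    {u v : E} (huv : LinearIndependent ℝ ![u, v]) (h : 0 < curvNumWith G x Γ u v) :
    0 < secCoord G x u v := by
  have g0 : DifferentiableAt ℝ G x := hG.differentiableAt (by norm_num)
  have p0 := hpos.self_of_nhds
  have hΓ' : Γ = christoffel G x := by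
    funext a b
    have h1 : ∀ w, G x (Γ a b - christoffel G x a b) w = 0 := by
      intro w
      rw [map_sub, _root_.sub_apply, hΓ a b w, christoffel_spec g0 p0, sub_self]
    by_contra hne
    have h2 := p0 _ (sub_ne_zero.2 hne)
    rw [h1] at h2
    exact lt_irrefl _ h2
  unfold secCoord
  refine div_pos ?_ (gram_pos hsymm.self_of_nhds p0 huv)
  rw [riem_eq_curvNum hG hsymm hpos u v, ← hΓ']
  exact h

/-- A Christoffel vector field exists. -/
lemma exists_isChristoffel [FiniteDimensional ℝ E] {G : E → E →L[ℝ] E →L[ℝ] ℝ} {x : E}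
    (hG : DifferentiableAt ℝ G x) (hpos : ∀ v, v ≠ 0 → 0 < G x v v) :
    IsChristoffel G x (christoffel G x) :=
  fun a b c => christoffel_spec hG hpos a b c

end

end PosCurv
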