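import Pool.Agent.Lib.MP_1b4d75_gt.A11
import Pool.Agent.Lib.MP_1b4d75_gt.A03
import Pool.Agent.Lib.MP_1b4d75_gt.A05
import Pool.Agent.Lib.MP_1b4d75_gt.D04

/-!
# MP_1b4d75_gt, module P02

The curvature for collinear fibre components.

p_i = l_i p.  CC (l p) = l CC p, cr (l p) (CC (l' p)) = l l' cr p (CC p).  In R4: the DP-terms cancel
(<p x a, b> + <p x b, a> = 0); D2P N N p expanded bilinearly, D2P n2 n1 exchanged by ricci (A11, hypotheses A03, A05):
½ l1 l2 <p,(D2P n1 n2 - D2P n2 n1) p> = - w l1 l2 <W x p, P p>, which cancels w <W x p2, C p1>.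
H: with c = <W,p>, g = gr p p: |H12|² - <H11,H22> = ¼ c² |N|² (|cr y N|² = |N|² as N ⊥ y).
S-terms cancel; Zt = Zc; Sp = 0.
-/

open scoped Quaternion Topology
open Filter

namespace MP_1b4d75_gt

noncomputable section

lemma P02_gr (δ : ℝ) (y p : V3) (a b : ℝ) : gr δ y (a • p) (b • p) = (a * b) • gr δ y p p := by
  have e1 : dot (zz δ y) (b • p) • (a • p) + dot (zz δ y) (a • p) • (b • p)
      = (a * b) • (dot (zz δ y) p • p + dot (zz δ y) p • p) := by
    simp only [dot_smul_right]; module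
  have e2 : cr (PP δ y (b • p)) (a • p) + cr (PP δ y (a • p)) (b • p)
      = (a * b) • (cr (PP δ y p) p + cr (PP δ y p) p) := by
    simp only [PP_smul, cr_smul_left, cr_smul_right]; module
  unfold gr
  rw [e1, e2, pr_smul, TT_smul, cr_smul_right, TT_smul, ← pr_smul]
  congr 1
  module

lemma P02_Hh (δ : ℝ) (y n1 n2 p : V3) (l1 l2 : ℝ) :
    Hh δ y (n1, l1 • p) (n2, l2 • p)
      = (l2 * dot (WW δ y) p / 2) • cr y n1 + (l1 * dot (WW δ y) p / 2) • cr y n2
        + (l1 * l2 / 2) • gr δ y p p := by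
  unfold Hh
  simp only [P02_gr, dot_smul_right]
  module

lemma P02_cr_sq {y N : V3} (hy : dot y y = 1) (h : dot N y = 0) :
    dot (cr y N) (cr y N) = dot N N := by
  rw [dot_cr_cr, hy, dot_comm y N, h]; ring

theorem R4_coll {δ t : ℝ} (hδ : |δ| ≤ 1 / 10) (ht : 1 < t) {y n1 n2 : V3} (hy : dot y y = 1)
    (h1 : dot n1 y = 0) (h2 : dot n2 y = 0) (p : V3) (l1 l2 : ℝ) :
    R4 δ t y (n1, l1 • p) (n2, l2 • p)
      = KK δ y * det3 y n1 n2 ^ 2
        - det3 y n1 n2 * dot (DW δ y (l2 • n1 - l1 • n2)) p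
        + 1 / 2 * dot p (D2P δ y (l2 • n1 - l1 • n2) (l2 • n1 - l1 • n2) p)
        + 1 / 4 * dot (WW δ y) p ^ 2 * dot (l2 • n1 - l1 • n2) (l2 • n1 - l1 • n2)
        - 3 / 4 * dot (DP δ y (l2 • n1 - l1 • n2) p - det3 y n1 n2 • WW δ y)
            (QQ δ t y (DP δ y (l2 • n1 - l1 • n2) p - det3 y n1 n2 • WW δ y)) := by
  have hN : dot (l2 • n1 - l1 • n2) y = 0 := by
    simp only [dot_sub_left, dot_smul_left, h1, h2]; ring
  -- subtraction as addition of a negative multiple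
  have hNs : l2 • n1 - l1 • n2 = l2 • n1 + (-l1) • n2 := by module
  -- the terms in `Zt`
  have hZ : Zt δ t y (n1, l1 • p) (n2, l2 • p)
      = DP δ y (l2 • n1 - l1 • n2) p - det3 y n1 n2 • WW δ y := by
    unfold Zt
    simp only [CC_smul, cr_smul_left, cr_smul_right, cr_self, smul_zero, sub_zero, DP_smul, hNs,
      DP_add_n, DP_smul_n]
    module
  have hSp : Sp δ t y (l1 • p) (l2 • p) = 0 := by
    unfold Sp
    simp only [CC_smul, cr_smul_left, cr_smul_right]
    rw [cr_anti (CC δ t y p) p]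
    module
  have hSg : Sg δ t y (l1 • p) (l2 • p) = (l1 * l2) • cr p (CC δ t y p) := by
    unfold Sg
    simp only [CC_smul, cr_smul_left, cr_smul_right]
    module
  -- the second derivatives
  have hD2 : dot p (D2P δ y (l2 • n1 - l1 • n2) (l2 • n1 - l1 • n2) p)
      = l2 ^ 2 * dot p (D2P δ y n1 n1 p) - l1 * l2 * dot p (D2P δ y n1 n2 p)
        - l1 * l2 * dot p (D2P δ y n2 n1 p) + l1 ^ 2 * dot p (D2P δ y n2 n2 p) := by
    simp only [hNs, D2P_add_m, D2P_add_n, D2P_smul_m, D2P_smul_n, dot_add_right, dot_smul_right]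
    ring
  have hric : dot p (D2P δ y n1 n2 p) - dot p (D2P δ y n2 n1 p)
      = -2 * det3 y n1 n2 * dot (cr (WW δ y) p) (PP δ y p) := by
    rw [← dot_sub_right, ricci hy h1 h2 (tors hy h1 h2) (curv_aa hy h1 h2) p, dot_sub_right,
      ← PP_symm, cr_smul_left, cr_smul_left, dot_smul_right, dot_smul_right]
    have e1 := dot_rot (WW δ y) p (PP δ y p)
    have e2 := dot_comm (PP δ y p) (cr (WW δ y) p)
    rw [e2]
    linear_combination det3 y n1 n2 * e1
  have hDW : dot (DW δ y (l2 • n1 - l1 • n2)) p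
      = l2 * dot (DW δ y n1) p - l1 * dot (DW δ y n2) p := by
    simp only [hNs, DW_add, DW_smul, dot_add_left, dot_smul_left]
    ring
  have hC : dot (cr (WW δ y) p) (CC δ t y p) = dot (cr (WW δ y) p) (PP δ y p) := by
    unfold CC
    rw [dot_add_right, dot_smul_right, dot_cr_right']; ring
  -- the cross terms
  have hc1 : dot (cr p (DP δ y n1 p)) (CC δ t y p) + dot (cr p (CC δ t y p)) (DP δ y n1 p) = 0 := by
    have e1 := dot_rot p (DP δ y n1 p) (CC δ t y p)
    rw [dot_comm (cr p (CC δ t y p))]; exact e1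
  have hc2 : dot (cr (DP δ y n2 p) (CC δ t y p)) p + dot (cr (CC δ t y p) (DP δ y n2 p)) p = 0 := by
    rw [cr_anti (CC δ t y p), dot_neg_left]; ring
  -- the terms in `H`
  have hyN := P02_cr_sq hy hN
  have hcrN : cr y (l2 • n1 - l1 • n2) = l2 • cr y n1 - l1 • cr y n2 := by
    rw [cr_sub_right, cr_smul_right, cr_smul_right]
  rw [hcrN] at hyN
  simp only [dot_sub_left, dot_sub_right, dot_smul_left, dot_smul_right] at hyN
  have hH : - dot (Hh δ y (n1, l1 • p) (n1, l1 • p)) (Hh δ y (n2, l2 • p) (n2, l2 • p))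
      + dot (Hh δ y (n1, l1 • p) (n2, l2 • p)) (Hh δ y (n1, l1 • p) (n2, l2 • p))
      = 1 / 4 * dot (WW δ y) p ^ 2 * dot (l2 • n1 - l1 • n2) (l2 • n1 - l1 • n2) := by
    simp only [P02_Hh, dot_add_left, dot_add_right, dot_sub_left, dot_sub_right, dot_smul_left,
      dot_smul_right]
    rw [dot_comm (gr δ y p p) (cr y n1), dot_comm (gr δ y p p) (cr y n2),
      dot_comm (cr y n2) (cr y n1)]
    rw [dot_comm (cr y n2) (cr y n1)] at hyN
    linear_combination (1 / 4 * dot (WW δ y) p ^ 2) * hyN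
  unfold R4
  simp only
  rw [hZ, hSp, hSg, hD2, hDW]
  simp only [CC_smul, DP_smul, cr_smul_left, cr_smul_right, dot_smul_left, dot_smul_right,
    dot_zero_right, D2P_smul]
  rw [hC]
  linear_combination hH + (l1 * l2 ^ 2) * hc1 + (l1 ^ 2 * l2) * hc2 + (1 / 2 * l1 * l2) * hric

end

end MP_1b4d75_gt
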