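import Pool.Agent.Lib.MP_1b4d75_gt.P01
import Pool.Agent.Lib.MP_1b4d75_gt.A03
import Pool.Agent.Lib.MP_1b4d75_gt.A05
import Pool.Agent.Lib.MP_1b4d75_gt.A11

/-!
# MP_1b4d75_gt, module P02s

Invariance of the curvature expression `R4` under changes of the basis of the plane.
-/

open scoped Quaternion Topology
open Filter

namespace MP_1b4d75_gt

noncomputable section

theorem P02_det_smul (r : ℝ) (a b c : V3) : dot (r • a) (cr b c) = r * dot a (cr b c) :=
  dot_smul_left _ _ _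

/-- antisymmetric part of the second covariant derivative, paired with two momenta -/
theorem P02_ricci {δ : ℝ} {y n1 n2 : V3} (hy : dot y y = 1) (h1 : dot n1 y = 0)
    (h2 : dot n2 y = 0) (p q : V3) :
    dot p (D2P δ y n1 n2 q) - dot p (D2P δ y n2 n1 q)
      = -det3 y n1 n2 * (dot (WW δ y) (cr p (PP δ y q)) + dot (WW δ y) (cr q (PP δ y p))) := by
  have h := ricci (δ := δ) hy h1 h2 (tors hy h1 h2) (curv_aa hy h1 h2) q
  rw [← dot_sub_right, h, dot_sub_right, ← PP_symm, cr_smul_left, cr_smul_left, dot_smul_right,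
    dot_smul_right]
  have e1 : dot p (cr (WW δ y) (PP δ y q)) = -dot (WW δ y) (cr p (PP δ y q)) := by
    simp only [dot, cr, mk3_0, mk3_1, mk3_2]; ring
  have e2 : dot (PP δ y p) (cr (WW δ y) q) = dot (WW δ y) (cr q (PP δ y p)) := by
    simp only [dot, cr, mk3_0, mk3_1, mk3_2]; ring
  rw [e1, e2]
  ring

/-- symmetry in the two vectors -/
theorem R4_swap {δ : ℝ} {y : V3} (hy : dot y y = 1) (t : ℝ) (X A : FF) (hX : dot X.1 y = 0)
    (hA : dot A.1 y = 0) : R4 δ t y A X = R4 δ t y X A := by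
  have eZ : Zt δ t y A X = -Zt δ t y X A := by
    simp only [Zt]
    rw [det3_swap y A.1 X.1, cr_anti (CC δ t y A.2)]
    module
  have eH : Hh δ y A X = Hh δ y X A := by
    simp only [Hh]
    rw [gr_symm δ y A.2 X.2]
    abel
  have eS : Sg δ t y A.2 X.2 = Sg δ t y X.2 A.2 := Sg_symm _ _ _ _ _
  have eP : Sp δ t y A.2 X.2 = -Sp δ t y X.2 A.2 := by
    simp only [Sp]
    rw [cr_anti (CC δ t y A.2) X.2, cr_anti A.2 (CC δ t y X.2)]
    module
  have ew : det3 y A.1 X.1 = -det3 y X.1 A.1 := det3_swap _ _ _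
  have hr := P02_ricci (δ := δ) hy hX hA X.2 A.2
  have s1 := D2P_symm δ y X.1 A.1 A.2 X.2
  have s2 := dot_comm (D2P δ y X.1 A.1 A.2) X.2
  have c1 : dot (cr X.2 (CC δ t y X.2)) (CC δ t y (cr A.2 (CC δ t y A.2)))
      = dot (cr A.2 (CC δ t y A.2)) (CC δ t y (cr X.2 (CC δ t y X.2))) := by
    rw [← CC_symm, dot_comm]
  have hCX : CC δ t y X.2 = t • X.2 + PP δ y X.2 := rfl
  have hCA : CC δ t y A.2 = t • A.2 + PP δ y A.2 := rfl
  have f1 : dot (cr (WW δ y) X.2) (CC δ t y A.2) + dot (cr (WW δ y) A.2) (CC δ t y X.2)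
      = dot (WW δ y) (cr X.2 (PP δ y A.2)) + dot (WW δ y) (cr A.2 (PP δ y X.2)) := by
    rw [hCX, hCA]
    simp only [dot, cr, mk3_0, mk3_1, mk3_2, PiLp.add_apply, PiLp.smul_apply, smul_eq_mul]; ring
  unfold R4
  rw [eZ, eH, eS, eP, ew, c1]
  simp only [map_neg, dot_neg_left, dot_neg_right]
  have g1 : ∀ a b c : V3, dot (cr a b) c = dot a (cr b c) := dot_cr_swap
  have d1 : dot (cr X.2 (DP δ y A.1 X.2)) (CC δ t y A.2)
      = dot (cr (DP δ y A.1 X.2) (CC δ t y A.2)) X.2 := by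
    simp only [dot, cr, mk3_0, mk3_1, mk3_2]; ring
  have d2 : dot (cr X.2 (CC δ t y X.2)) (DP δ y A.1 A.2)
      = dot (cr (CC δ t y X.2) (DP δ y A.1 A.2)) X.2 := by
    simp only [dot, cr, mk3_0, mk3_1, mk3_2]; ring
  have d3 : dot (cr (DP δ y X.1 A.2) (CC δ t y X.2)) A.2
      = dot (cr A.2 (DP δ y X.1 A.2)) (CC δ t y X.2) := by
    simp only [dot, cr, mk3_0, mk3_1, mk3_2]; ring
  have d4 : dot (cr (CC δ t y A.2) (DP δ y X.1 X.2)) A.2
      = dot (cr A.2 (CC δ t y A.2)) (DP δ y X.1 X.2) := by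
    simp only [dot, cr, mk3_0, mk3_1, mk3_2]; ring
  have d5 : dot (Hh δ y A A) (Hh δ y X X) = dot (Hh δ y X X) (Hh δ y A A) := dot_comm _ _
  rw [d1, d2, d3, d4, d5]
  linear_combination (-det3 y X.1 A.1) * f1 - hr - s1 - s2

/-- homogeneity in the first vector -/
theorem R4_smul_left (δ t : ℝ) (y : V3) (r : ℝ) (X A : FF) :
    R4 δ t y (r • X) A = r ^ 2 * R4 δ t y X A := by
  have eZ : Zt δ t y (r • X) A = r • Zt δ t y X A := (Zt_bil δ t y).smul_left r X A
  have eH1 : Hh δ y (r • X) A = r • Hh δ y X A := (Hh_bil δ y).smul_left r X A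
  have eH2 : Hh δ y (r • X) (r • X) = (r ^ 2) • Hh δ y X X := by
    rw [(Hh_bil δ y).smul_left, (Hh_bil δ y).smul_right, smul_smul, sq]
  have eP : Sp δ t y (r • X.2) A.2 = r • Sp δ t y X.2 A.2 := by
    simp only [Sp, CC_smul, cr_smul_left]
    module
  unfold R4
  simp only [Prod.smul_fst, Prod.smul_snd, eZ, eH1, eH2, eP, Sg_smul_left, CC_smul, DP_smul_n,
    DP_smul, D2P_smul_m, D2P_smul_n, D2P_smul, DW_smul, cr_smul_left, cr_smul_right, det3_smul_2,
    dot_smul_left, dot_smul_right, map_smul]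
  ring

/-- homogeneity in the second vector -/
theorem R4_smul_right (δ t : ℝ) (y : V3) (r : ℝ) (X A : FF) :
    R4 δ t y X (r • A) = r ^ 2 * R4 δ t y X A := by
  have eZ : Zt δ t y X (r • A) = r • Zt δ t y X A := (Zt_bil δ t y).smul_right r X A
  have eH1 : Hh δ y X (r • A) = r • Hh δ y X A := (Hh_bil δ y).smul_right r X A
  have eH2 : Hh δ y (r • A) (r • A) = (r ^ 2) • Hh δ y A A := by
    rw [(Hh_bil δ y).smul_left, (Hh_bil δ y).smul_right, smul_smul, sq]
  have eP : Sp δ t y X.2 (r • A.2) = r • Sp δ t y X.2 A.2 := by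
    simp only [Sp, CC_smul, cr_smul_right]
    module
  unfold R4
  simp only [Prod.smul_fst, Prod.smul_snd, eZ, eH1, eH2, eP, Sg_smul_right, CC_smul, DP_smul_n,
    DP_smul, D2P_smul_m, D2P_smul_n, D2P_smul, DW_smul, cr_smul_left, cr_smul_right, det3_smul_3,
    dot_smul_left, dot_smul_right, map_smul]
  ring

/-- invariance under `A ↦ A + c X` -/
theorem R4_shear {δ : ℝ} {y : V3} (hy : dot y y = 1) (t : ℝ) (X A : FF) (hX : dot X.1 y = 0)
    (hA : dot A.1 y = 0) (c : ℝ) : R4 δ t y X (A + c • X) = R4 δ t y X A := by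
  have ew : det3 y X.1 (A.1 + c • X.1) = det3 y X.1 A.1 := by
    rw [det3_add_3, det3_smul_3, det3_self_right]; ring
  have eZ : Zt δ t y X (A + c • X) = Zt δ t y X A := by
    simp only [Zt, Prod.fst_add, Prod.snd_add, Prod.smul_fst, Prod.smul_snd, ew, DP_add, DP_smul,
      DP_add_n, DP_smul_n, CC_add, CC_smul, cr_add_right, cr_smul_right, cr_self]
    module
  have eH1 : Hh δ y X (A + c • X) = Hh δ y X A + c • Hh δ y X X := by
    rw [(Hh_bil δ y).add_right, (Hh_bil δ y).smul_right]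
  have eHs : Hh δ y A X = Hh δ y X A := by
    simp only [Hh]
    rw [gr_symm δ y A.2 X.2]
    abel
  have eH2 : Hh δ y (A + c • X) (A + c • X)
      = Hh δ y A A + (2 * c) • Hh δ y X A + (c ^ 2) • Hh δ y X X := by
    rw [(Hh_bil δ y).add_left, (Hh_bil δ y).smul_left, (Hh_bil δ y).add_right,
      (Hh_bil δ y).add_right, (Hh_bil δ y).smul_right, (Hh_bil δ y).smul_right, eHs]
    module
  have eS : Sg δ t y X.2 (A.2 + c • X.2)
      = Sg δ t y X.2 A.2 + c • cr X.2 (CC δ t y X.2) := by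
    simp only [Sg, CC_add, CC_smul, cr_add_left, cr_add_right, cr_smul_left, cr_smul_right]
    module
  have eP : Sp δ t y X.2 (A.2 + c • X.2) = Sp δ t y X.2 A.2 := by
    simp only [Sp, CC_add, CC_smul, cr_add_right, cr_smul_right]
    rw [cr_anti X.2 (CC δ t y X.2)]
    module
  have eV : cr (A.2 + c • X.2) (CC δ t y (A.2 + c • X.2))
      = cr A.2 (CC δ t y A.2) + (2 * c) • Sg δ t y X.2 A.2 + (c ^ 2) • cr X.2 (CC δ t y X.2) := by
    simp only [Sg, CC_add, CC_smul, cr_add_left, cr_add_right, cr_smul_left, cr_smul_right]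
    module
  have hr := P02_ricci (δ := δ) hy hX hA X.2 X.2
  have s1 := D2P_symm δ y X.1 X.1 A.2 X.2
  have s2 := dot_comm (D2P δ y X.1 X.1 A.2) X.2
  have c1 := CC_symm δ t y (Sg δ t y X.2 A.2) (cr X.2 (CC δ t y X.2))
  have c2 := dot_comm (CC δ t y (Sg δ t y X.2 A.2)) (cr X.2 (CC δ t y X.2))
  have hd := dot_comm (Hh δ y X X) (Hh δ y X A)
  have eS0 : dot (Sg δ t y X.2 A.2) (DP δ y X.1 X.2)
      = 1 / 2 * (dot (cr A.2 (CC δ t y X.2)) (DP δ y X.1 X.2)
        + dot (cr X.2 (CC δ t y A.2)) (DP δ y X.1 X.2)) := by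
    simp only [Sg, dot_smul_left, dot_add_left]
  have hCX : CC δ t y X.2 = t • X.2 + PP δ y X.2 := rfl
  have f1 : dot (cr (WW δ y) X.2) (CC δ t y X.2) = dot (WW δ y) (cr X.2 (PP δ y X.2)) := by
    rw [hCX]
    simp only [dot, cr, mk3_0, mk3_1, mk3_2, PiLp.add_apply, PiLp.smul_apply, smul_eq_mul]; ring
  have k1 : dot (cr X.2 (DP δ y X.1 A.2)) (CC δ t y X.2)
      + dot (cr (CC δ t y X.2) (DP δ y X.1 A.2)) X.2 = 0 := by
    simp only [dot, cr, mk3_0, mk3_1, mk3_2]; ring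
  have k2 : dot (cr A.2 (DP δ y X.1 X.2)) (CC δ t y X.2)
      + dot (cr A.2 (CC δ t y X.2)) (DP δ y X.1 X.2) = 0 := by
    simp only [dot, cr, mk3_0, mk3_1, mk3_2]; ring
  have k3 : dot (cr X.2 (CC δ t y A.2)) (DP δ y X.1 X.2)
      + dot (cr (DP δ y X.1 X.2) (CC δ t y A.2)) X.2 = 0 := by
    simp only [dot, cr, mk3_0, mk3_1, mk3_2]; ring
  have k4 : dot (cr (DP δ y A.1 X.2) (CC δ t y X.2)) X.2
      + dot (cr (CC δ t y X.2) (DP δ y A.1 X.2)) X.2 = 0 := by
    simp only [dot, cr, mk3_0, mk3_1, mk3_2]; ring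
  have k5 : dot (cr X.2 (DP δ y X.1 X.2)) (CC δ t y X.2)
      + dot (cr X.2 (CC δ t y X.2)) (DP δ y X.1 X.2) = 0 := by
    simp only [dot, cr, mk3_0, mk3_1, mk3_2]; ring
  have k6 : dot (cr (DP δ y X.1 X.2) (CC δ t y X.2)) X.2
      + dot (cr (CC δ t y X.2) (DP δ y X.1 X.2)) X.2 = 0 := by
    simp only [dot, cr, mk3_0, mk3_1, mk3_2]; ring
  unfold R4
  simp only [Prod.fst_add, Prod.snd_add, Prod.smul_fst, Prod.smul_snd, eZ, eH1, eH2, eP, eS, ew,
    eV]
  simp only [CC_add, CC_smul, DP_add_n, DP_smul_n, DP_add, DP_smul, D2P_add_m, D2P_smul_m,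
    D2P_add_n, D2P_smul_n, D2P_add, D2P_smul, DW_add, DW_smul, cr_add_left, cr_add_right,
    cr_smul_left, cr_smul_right, dot_add_left, dot_add_right, dot_smul_left, dot_smul_right]
  linear_combination (c * det3 y X.1 A.1) * f1 + c / 2 * hr + c / 2 * s1 + c / 2 * s2
    + c * k1 + c * k2 + c * k3 + c * k4 + c ^ 2 * k5 + c ^ 2 * k6 - c * c1 + c * c2 - c * hd
    + 2 * c * eS0

end

end MP_1b4d75_gt
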