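import Pool.Agent.Lib.MP_1b4d75_gt.A01
import Pool.Agent.Lib.MP_1b4d75_gt.A11
import Pool.Agent.Lib.MP_1b4d75_gt.A06
import Pool.Agent.Lib.MP_1b4d75_gt.A02

/-!
# MP_1b4d75_gt, module S01

The criterion form near the degenerate direction: explicit formulas (all for |y| = |n| = 1, n ⊥ y).

The vector n is parallel along its own geodesic: cr (om n) n + cr (aa n) n = 0, cr (om n) n = cr n (T n) =: np1,
derivative of np1: np2.  aP is the derivative of aa y n.  Dz, D2z: first and second covariant derivative of z;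
P n = (1/4) <z,n> z + (δ^4/320) q n, <z,n> = 6 δ³ n₃.
DW_nn: DW = dWW (L n) + aa x W; W = -(K-σ²) y - gs: the y-terms are orthogonal to n after the cross product
(<aa x y, n> = det(...) and -(K-σ²)<Ln, n>: they cancel because aa n = σ n - om, L n = om x y); what remains is
δ³ b1.  D2P_n: V arbitrary.  Expand D2P, dDP, DP (vec by vec); the identity is polynomial; if a direct `ring` is
too big go through Dz, D2z: dPP y v p = 1/4 (<v,p> z + <z,p> v) + cr a (PP p) - PP (cr a p) = 1/4(<Dz,p> z + <z,p> Dz) +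
(δ^4/320)(cr a (q p) - q (cr a p)).
W_n: <W,n> = - δ³ <T pr y e3, n>.
-/

open scoped Quaternion Topology
open Filter

namespace MP_1b4d75_gt

noncomputable section

/-- `n'` -/
def np1 (δ : ℝ) (n : V3) : V3 := cr n (TT δ n)
/-- `n''` -/
def np2 (δ : ℝ) (n : V3) : V3 := cr (np1 δ n) (TT δ n) + cr n (TT δ (np1 δ n))
/-- coefficient of `⟨DW n, n⟩` -/
def b1 (δ : ℝ) (y n : V3) : ℝ :=
  -(dot (TT δ (dpr y (LL δ y n) e3)) n + dot (TT δ (pr y e3)) (np1 δ n))
/-- derivative of `aa y n` -/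
def aP (δ : ℝ) (y n : V3) : V3 := daa δ y (LL δ y n) n + aa δ y (np1 δ n)
/-- covariant derivative of `z` -/
def Dz (δ : ℝ) (y n : V3) : V3 := sg δ y • cr n y + (6 * δ ^ 3) • cr (aa δ y n) e3
/-- second covariant derivative of `z` -/
def D2z (δ : ℝ) (y n : V3) : V3 :=
  (δ ^ 3 * (LL δ y n) 2) • cr n y - (sg δ y ^ 2) • y
    + (6 * δ ^ 3) • (cr (aP δ y n) e3 + cr (aa δ y n) (cr (aa δ y n) e3))
/-- second covariant derivative of `q n` -/
def D2qn (δ : ℝ) (y n : V3) : V3 :=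
  qq (np2 δ n) + (2 : ℝ) • cr (aa δ y n) (qq (np1 δ n)) + cr (aP δ y n) (qq n)
    + cr (aa δ y n) (cr (aa δ y n) (qq n))
/-- mixed coefficient -/
def b2 (δ : ℝ) (y n V : V3) : ℝ :=
  1 / 2 * (3 / 2 * (n 2 * dot V (D2z δ y n) + 2 * (np1 δ n) 2 * dot V (Dz δ y n)
      + (np2 δ n) 2 * dot V (zz δ y)) + δ / 320 * dot V (D2qn δ y n))
    - 1 / 4 * dot (WW δ y) V * dot (TT δ (pr y e3)) n
/-- the quartic `G` -/
def GG4 (n : V3) : ℝ :=
  4 * n 0 ^ 4 - 38 * n 0 ^ 3 * n 2 + 8 * n 0 ^ 2 * n 1 ^ 2 - 40 * n 0 ^ 2 * n 2 ^ 2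
    + 18 * n 0 * n 1 ^ 2 * n 2 - 2 * n 0 * n 2 ^ 3 + 2 * n 1 ^ 4 + 2 * n 1 ^ 2 * n 2 ^ 2
    + 4 * n 2 ^ 4
/-- coefficient of the square -/
def b3 (δ : ℝ) (y n : V3) : ℝ :=
  1 / 2 * (18 * (n 2 * (np2 δ n) 2 + (np1 δ n) 2 ^ 2) + GG4 n / 320)
    + 1 / 4 * dot (TT δ (pr y e3)) n ^ 2

/-! ### vector facts at a point -/

lemma om_eq_aa (δ : ℝ) (y n : V3) : om δ y n = sg δ y • n - aa δ y n := by
  unfold aa; abel

lemma cr_om_self (δ : ℝ) (y n : V3) : cr (om δ y n) n = np1 δ n := by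
  simp only [om, np1, cr_sub_left, cr_smul_left, cr_self, smul_zero, zero_sub]
  rw [cr_anti n (TT δ n)]

lemma cr_aa_self (δ : ℝ) (y n : V3) : cr (aa δ y n) n = -np1 δ n := by
  rw [← cr_om_self δ y n, om_eq_aa, cr_sub_left, cr_smul_left, cr_self]
  simp

lemma LL_exact (δ : ℝ) (y n : V3) : LL δ y n = cr (om δ y n) y
    + (dot y y - 1) • cr n (TT δ y) - dot n y • cr y (TT δ y) := by
  apply ext3 <;> simp [LL, om, cr, dot, TT, pr, ty] <;> ring

lemma dLL_exact (δ : ℝ) (y v n : V3) : dLL δ y v n = cr (dom δ y v n) y + cr (om δ y n) v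
    + (2 * dot v y) • cr n (TT δ y) + (dot y y - 1) • cr n (TT δ v)
    - dot n v • cr y (TT δ y) - dot n y • (cr v (TT δ y) + cr y (TT δ v)) := by
  apply ext3 <;> simp [dLL, dpr, dom, dty, om, cr, dot, TT, pr, ty] <;> ring

/-- `⟨L n, n⟩ = -⟨y, n'⟩` -/
lemma dot_LL_n {δ : ℝ} {y n : V3} (hy : dot y y = 1) (h : dot n y = 0) :
    dot (LL δ y n) n + dot y (np1 δ n) = 0 := by
  rw [LL_eq hy h, ← cr_om_self δ y n]
  simp only [dot, cr, mk3_0, mk3_1, mk3_2]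
  ring

/-- covariant derivative of `y` -/
lemma Dy_eq {δ : ℝ} {y n : V3} (hy : dot y y = 1) (h : dot n y = 0) :
    LL δ y n + cr (aa δ y n) y = sg δ y • cr n y := by
  rw [LL_eq hy h, om_eq_aa, cr_sub_left, cr_smul_left]
  abel

/-- covariant derivative of `n × y` -/
lemma Dh_eq {δ : ℝ} {y n : V3} (hy : dot y y = 1) (hn : dot n n = 1) (h : dot n y = 0) :
    cr (np1 δ n) y + cr n (LL δ y n) + cr (aa δ y n) (cr n y) = -(sg δ y • y) := by
  have e1 := jacobi (aa δ y n) n y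
  have e2 : cr n (sg δ y • cr n y) = -(sg δ y • y) := by
    rw [cr_smul_right, cr_cr_right, h, hn]
    simp
  rw [e1, cr_aa_self, cr_neg_left, ← e2, ← Dy_eq hy h, cr_add_right]
  abel

lemma aP_eq (δ : ℝ) (y n : V3) : dom δ y (LL δ y n) n + om δ y (np1 δ n)
    = (δ ^ 3 * (LL δ y n) 2) • n + sg δ y • np1 δ n - aP δ y n := by
  unfold aP daa dom aa
  module

lemma cr_aP_n (δ : ℝ) (y n : V3) :
    cr (aP δ y n) n + cr (aa δ y n) (np1 δ n) = -np2 δ n := by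
  have e : aP δ y n = (δ ^ 3 * (LL δ y n) 2) • n + sg δ y • np1 δ n
      - (dom δ y (LL δ y n) n + om δ y (np1 δ n)) := by
    rw [aP_eq]; abel
  have e2 : cr n n = 0 := cr_self n
  rw [e]
  simp only [dom, om, aa, np2, cr_sub_left, cr_add_left, cr_smul_left, cr_neg_left, e2, smul_zero,
    zero_add]
  rw [cr_anti (np1 δ n) n, cr_anti (TT δ (np1 δ n)) n, cr_anti (TT δ n) (np1 δ n)]
  module

/-- the second derivative of `y` along the geodesic -/
lemma vp_eq {δ : ℝ} {y n : V3} (hy : dot y y = 1) (h : dot n y = 0) :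
    dLL δ y (LL δ y n) n + LL δ y (np1 δ n)
      = (δ ^ 3 * (LL δ y n) 2) • cr n y + sg δ y • (cr (np1 δ n) y + cr n (LL δ y n))
        - cr (aP δ y n) y - cr (aa δ y n) (LL δ y n) := by
  have h1 := dot_LL_n (δ := δ) hy h
  have h2 : dot (LL δ y n) y = 0 := LL_perp δ hy n
  have h3 : dot n (LL δ y n) = -dot (np1 δ n) y := by
    rw [dot_comm n, dot_comm (np1 δ n)]; linarith
  have e := aP_eq δ y n
  have e' : cr (dom δ y (LL δ y n) n) y + cr (om δ y (np1 δ n)) y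
      = (δ ^ 3 * (LL δ y n) 2) • cr n y + sg δ y • cr (np1 δ n) y - cr (aP δ y n) y := by
    rw [← cr_add_left, e]
    simp only [cr_add_left, cr_sub_left, cr_smul_left]
  rw [dLL_exact, LL_exact δ y (np1 δ n), h2, h3, hy, h]
  have e3 : cr (om δ y n) (LL δ y n) = sg δ y • cr n (LL δ y n) - cr (aa δ y n) (LL δ y n) := by
    rw [om_eq_aa, cr_sub_left, cr_smul_left]
  rw [e3]
  have e4 : cr (dom δ y (LL δ y n) n) y + (sg δ y • cr n (LL δ y n) - cr (aa δ y n) (LL δ y n))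
      + (2 * 0 : ℝ) • cr n (TT δ y) + (1 - 1 : ℝ) • cr n (TT δ (LL δ y n))
      - (-dot (np1 δ n) y) • cr y (TT δ y)
      - (0 : ℝ) • (cr (LL δ y n) (TT δ y) + cr y (TT δ (LL δ y n)))
      + (cr (om δ y (np1 δ n)) y + (1 - 1 : ℝ) • cr (np1 δ n) (TT δ y)
        - dot (np1 δ n) y • cr y (TT δ y))
      = (cr (dom δ y (LL δ y n) n) y + cr (om δ y (np1 δ n)) y)
        + sg δ y • cr n (LL δ y n) - cr (aa δ y n) (LL δ y n) := by
    module
  rw [e4, e']
  module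

/-- second covariant derivative of `y` -/
lemma D2y_eq {δ : ℝ} {y n : V3} (hy : dot y y = 1) (hn : dot n n = 1) (h : dot n y = 0) :
    dLL δ y (LL δ y n) n + LL δ y (np1 δ n) + cr (aP δ y n) y + (2 : ℝ) • cr (aa δ y n) (LL δ y n)
      + cr (aa δ y n) (cr (aa δ y n) y)
      = (δ ^ 3 * (LL δ y n) 2) • cr n y - (sg δ y ^ 2) • y := by
  have e1 := Dh_eq (δ := δ) hy hn h
  have e2 : cr (aa δ y n) (LL δ y n) + cr (aa δ y n) (cr (aa δ y n) y)
      = sg δ y • cr (aa δ y n) (cr n y) := by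
    rw [← cr_add_right, Dy_eq hy h, cr_smul_right]
  have e3 : sg δ y • cr (aa δ y n) (cr n y)
      = sg δ y • (-(sg δ y • y) - (cr (np1 δ n) y + cr n (LL δ y n))) := by
    rw [← e1]
    module
  rw [vp_eq hy h]
  have e4 : (δ ^ 3 * (LL δ y n) 2) • cr n y + sg δ y • (cr (np1 δ n) y + cr n (LL δ y n))
        - cr (aP δ y n) y - cr (aa δ y n) (LL δ y n) + cr (aP δ y n) y
        + (2 : ℝ) • cr (aa δ y n) (LL δ y n) + cr (aa δ y n) (cr (aa δ y n) y)
      = (δ ^ 3 * (LL δ y n) 2) • cr n y + sg δ y • (cr (np1 δ n) y + cr n (LL δ y n))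
        + (cr (aa δ y n) (LL δ y n) + cr (aa δ y n) (cr (aa δ y n) y)) := by
    module
  rw [e4, e2, e3]
  module

/-- covariant derivative of `z` -/
lemma Dz_eq {δ : ℝ} {y n : V3} (hy : dot y y = 1) (h : dot n y = 0) :
    LL δ y n + cr (aa δ y n) (zz δ y) = Dz δ y n := by
  unfold Dz
  rw [← Dy_eq hy h, zz, cr_add_right, cr_smul_right]
  abel

/-- second covariant derivative of `z` -/
lemma D2z_eq {δ : ℝ} {y n : V3} (hy : dot y y = 1) (hn : dot n n = 1) (h : dot n y = 0) :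
    dLL δ y (LL δ y n) n + LL δ y (np1 δ n) + cr (aP δ y n) (zz δ y)
      + (2 : ℝ) • cr (aa δ y n) (LL δ y n)
      + cr (aa δ y n) (cr (aa δ y n) (zz δ y)) = D2z δ y n := by
  unfold D2z
  rw [← D2y_eq hy hn h, zz]
  simp only [cr_add_right, cr_smul_right]
  module

/-- `P` and its first derivative -/
lemma DP_z {δ : ℝ} {y n : V3} (hy : dot y y = 1) (h : dot n y = 0) (p : V3) :
    DP δ y n p = (1 / 4 : ℝ) • (dot (Dz δ y n) p • zz δ y + dot (zz δ y) p • Dz δ y n)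
      + (δ ^ 4 / 320) • (cr (aa δ y n) (qq p) - qq (cr (aa δ y n) p)) := by
  have e : dot (zz δ y) (cr (aa δ y n) p) = -dot (cr (aa δ y n) (zz δ y)) p := by
    have := dot_rot (aa δ y n) (zz δ y) p
    linarith
  rw [← Dz_eq hy h]
  simp only [DP, dPP, PP, e, cr_add_right, cr_smul_right, dot_add_left]
  module

lemma dPP_z (δ : ℝ) (y v p : V3) :
    dPP δ y v p = (1 / 4 : ℝ) • (dot v p • zz δ y + dot (zz δ y) p • v) := rfl

lemma PP_z (δ : ℝ) (y p : V3) :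
    PP δ y p = (1 / 4 : ℝ) • (dot (zz δ y) p • zz δ y) + (δ ^ 4 / 320) • qq p := by
  unfold PP
  module

/-- the second covariant derivative of `P` -/
lemma D2P_z {δ : ℝ} {y n : V3} (hy : dot y y = 1) (hn : dot n n = 1) (h : dot n y = 0)
    (p : V3) :
    D2P δ y n n p = (1 / 4 : ℝ) • (dot (D2z δ y n) p • zz δ y
        + (2 * dot (Dz δ y n) p) • Dz δ y n + dot (zz δ y) p • D2z δ y n)
      + (δ ^ 4 / 320) • (cr (aP δ y n) (qq p) - qq (cr (aP δ y n) p)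
        + cr (aa δ y n) (cr (aa δ y n) (qq p)) - (2 : ℝ) • cr (aa δ y n) (qq (cr (aa δ y n) p))
        + qq (cr (aa δ y n) (cr (aa δ y n) p))) := by
  have eD := D2z_eq hy hn h (δ := δ)
  have e1 := Dz_eq hy h (δ := δ)
  -- second derivative along the geodesic
  have f1 : D2P δ y n n p = (1 / 4 : ℝ) • ((2 * dot (LL δ y n) p) • LL δ y n)
      + dPP δ y (dLL δ y (LL δ y n) n + LL δ y (np1 δ n)) p
      + (cr (aP δ y n) (PP δ y p) - PP δ y (cr (aP δ y n) p))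
      + (cr (aa δ y n) (dPP δ y (LL δ y n) p) - dPP δ y (LL δ y n) (cr (aa δ y n) p))
      + (cr (aa δ y n) (DP δ y n p) - DP δ y n (cr (aa δ y n) p)) := by
    have e2 : cr (aP δ y n) (PP δ y p) = cr (daa δ y (LL δ y n) n) (PP δ y p)
        + cr (aa δ y (np1 δ n)) (PP δ y p) := by
      unfold aP; rw [cr_add_left]
    have e3 : PP δ y (cr (aP δ y n) p) = PP δ y (cr (daa δ y (LL δ y n) n) p)
        + PP δ y (cr (aa δ y (np1 δ n)) p) := by
      unfold aP; rw [cr_add_left, PP_add]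
    have e4 : DP δ y (np1 δ n) p = dPP δ y (LL δ y (np1 δ n)) p
        + cr (aa δ y (np1 δ n)) (PP δ y p) - PP δ y (cr (aa δ y (np1 δ n)) p) := rfl
    unfold D2P dDP
    rw [cr_om_self, e4, e2, e3, dPP_add_v]
    module
  have f2 : dot (zz δ y) (cr (aa δ y n) p) = -dot (cr (aa δ y n) (zz δ y)) p := by
    have := dot_rot (aa δ y n) (zz δ y) p
    linarith
  have f3 : dot (zz δ y) (cr (aP δ y n) p) = -dot (cr (aP δ y n) (zz δ y)) p := by
    have := dot_rot (aP δ y n) (zz δ y) p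
    linarith
  have f4 : dot (LL δ y n) (cr (aa δ y n) p) = -dot (cr (aa δ y n) (LL δ y n)) p := by
    have := dot_rot (aa δ y n) (LL δ y n) p
    linarith
  have f5 : dot (cr (aa δ y n) (zz δ y)) (cr (aa δ y n) p)
      = -dot (cr (aa δ y n) (cr (aa δ y n) (zz δ y))) p := by
    have := dot_rot (aa δ y n) (cr (aa δ y n) (zz δ y)) p
    linarith
  rw [f1, DP_z hy h p, DP_z hy h (cr (aa δ y n) p), ← eD, ← e1]
  simp only [dPP, PP_z, dot_add_left, cr_add_right, cr_sub_right, cr_smul_right, f2, f3, f4, f5,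
    dot_smul_left]
  module

lemma e3_dot (n : V3) : dot e3 n = n 2 := by
  simp [e3, dot]

lemma cr_n_aa (δ : ℝ) (y n : V3) : cr n (aa δ y n) = np1 δ n := by
  rw [cr_anti, cr_aa_self, neg_neg]

lemma cr_n_aP (δ : ℝ) (y n : V3) :
    cr n (aP δ y n) = np2 δ n + cr (aa δ y n) (np1 δ n) := by
  have := cr_aP_n δ y n
  rw [cr_anti n]
  have e : cr (aP δ y n) n = -np2 δ n - cr (aa δ y n) (np1 δ n) := by
    rw [← this]; abel
  rw [e]; abel

lemma zz_n {δ : ℝ} {y n : V3} (h : dot n y = 0) : dot (zz δ y) n = 6 * δ ^ 3 * n 2 := by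
  rw [zz, dot_add_left, dot_smul_left, e3_dot, dot_comm, h]
  ring

lemma Dz_n (δ : ℝ) (y n : V3) : dot (Dz δ y n) n = 6 * δ ^ 3 * (np1 δ n) 2 := by
  have e : dot (cr (aa δ y n) e3) n = (np1 δ n) 2 := by
    rw [← e3_dot, ← cr_n_aa δ y n]
    simp only [dot, cr, mk3_0, mk3_1, mk3_2]
    ring
  rw [Dz, dot_add_left, dot_smul_left, dot_smul_left, e, dot_cr_left']
  ring

lemma D2z_n {δ : ℝ} {y n : V3} (h : dot n y = 0) :
    dot (D2z δ y n) n = 6 * δ ^ 3 * (np2 δ n) 2 := by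
  have e : dot (cr (aP δ y n) e3) n + dot (cr (aa δ y n) (cr (aa δ y n) e3)) n
      = (np2 δ n) 2 := by
    have h1 : dot (cr (aP δ y n) e3) n = dot e3 (cr n (aP δ y n)) := by
      simp only [dot, cr, mk3_0, mk3_1, mk3_2]
      ring
    have h2 : dot (cr (aa δ y n) (cr (aa δ y n) e3)) n
        = -dot e3 (cr (aa δ y n) (cr n (aa δ y n))) := by
      simp only [dot, cr, mk3_0, mk3_1, mk3_2]
      ring
    rw [h1, h2, cr_n_aP, cr_n_aa, dot_add_right, ← e3_dot (np2 δ n)]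
    ring
  have h' : dot y n = 0 := by rw [dot_comm]; exact h
  rw [D2z, dot_add_left, dot_sub_left, dot_smul_left, dot_smul_left, dot_smul_left, dot_add_left, e,
    dot_cr_left', h']
  ring

lemma D2P_n' {δ : ℝ} {y n : V3} (hy : dot y y = 1) (hn : dot n n = 1) (h : dot n y = 0) :
    D2P δ y n n n = (3 / 2 * δ ^ 3) • ((np2 δ n) 2 • zz δ y
        + (2 * (np1 δ n) 2) • Dz δ y n + n 2 • D2z δ y n)
      + (δ ^ 4 / 320) • D2qn δ y n := by
  have e1 : cr (aP δ y n) n = -np2 δ n - cr (aa δ y n) (np1 δ n) := by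
    rw [← cr_aP_n δ y n]; abel
  have e2 : qq (-np1 δ n) = -qq (np1 δ n) := by
    have := qq_smul (-1) (np1 δ n)
    simpa using this
  have e3' : qq (-np2 δ n - cr (aa δ y n) (np1 δ n))
      = -qq (np2 δ n) - qq (cr (aa δ y n) (np1 δ n)) := by
    rw [qq_sub]
    have := qq_smul (-1) (np2 δ n)
    have h1 : qq (-np2 δ n) = -qq (np2 δ n) := by simpa using this
    rw [h1]
  have e4 : qq (cr (aa δ y n) (-np1 δ n)) = -qq (cr (aa δ y n) (np1 δ n)) := by
    rw [cr_neg_right]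
    have := qq_smul (-1) (cr (aa δ y n) (np1 δ n))
    simpa using this
  rw [D2P_z hy hn h n, zz_n h, Dz_n, D2z_n h, e1, cr_aa_self, e2, e3', e4, cr_neg_right]
  unfold D2qn
  module

theorem W_n {δ : ℝ} {y n : V3} (h : dot n y = 0) :
    dot (WW δ y) n = -(δ ^ 3 * dot (TT δ (pr y e3)) n) := by
  have h' : dot y n = 0 := by rw [dot_comm]; exact h
  simp only [WW, gs, dot_sub_left, dot_smul_left, h', pr, mul_zero, zero_sub, sub_zero]

theorem DW_nn {δ : ℝ} {y n : V3} (hy : dot y y = 1) (hn : dot n n = 1) (h : dot n y = 0) :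
    dot (DW δ y n) n = δ ^ 3 * b1 δ y n := by
  have h' : dot y n = 0 := by rw [dot_comm]; exact h
  have e1 : dot (cr (aa δ y n) (WW δ y)) n = dot (WW δ y) (np1 δ n) := by
    rw [← cr_n_aa δ y n]
    simp only [dot, cr, mk3_0, mk3_1, mk3_2]
    ring
  have e2 := dot_LL_n (δ := δ) hy h
  rw [DW, dot_add_left, e1]
  unfold b1
  obtain ⟨w, hw⟩ : ∃ w, w = TT δ (pr y e3) := ⟨_, rfl⟩
  obtain ⟨u, hu⟩ : ∃ u, u = TT δ (dpr y (LL δ y n) e3) := ⟨_, rfl⟩
  have e3' : dot (dWW δ y (LL δ y n)) n = -(KK δ y - sg δ y ^ 2) * dot (LL δ y n) n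
      - δ ^ 3 * (-(dot w y) * dot (LL δ y n) n + dot u n) := by
    have g : dgs δ y (LL δ y n) = δ ^ 3 • (dpr y (LL δ y n) w + pr y u) := by
      rw [hw, hu]; rfl
    rw [dWW, g]
    simp only [dot_sub_left, dot_add_left, dot_smul_left, dpr, pr, h', dot_neg_left]
    ring
  have e4 : dot (WW δ y) (np1 δ n) = -(KK δ y - sg δ y ^ 2) * dot y (np1 δ n)
      - δ ^ 3 * (dot w (np1 δ n) - dot w y * dot y (np1 δ n)) := by
    have : gs δ y = δ ^ 3 • pr y w := by rw [hw]; rfl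
    rw [WW, this]
    simp only [pr, dot_sub_left, dot_smul_left]
  rw [e3', e4, ← hw, ← hu]
  have e5 : dot (LL δ y n) n = -dot y (np1 δ n) := by linarith
  rw [e5]
  ring

lemma D2qn_n (δ : ℝ) (y n : V3) : dot n (D2qn δ y n) = δ ^ 2 * GG4 n := by
  have h1 : dot n (cr (aa δ y n) (qq (np1 δ n))) = dot (np1 δ n) (qq (np1 δ n)) := by
    nth_rewrite 2 [← cr_n_aa δ y n]
    simp only [dot, cr, mk3_0, mk3_1, mk3_2]
    ring
  have h2 : dot n (cr (aP δ y n) (qq n)) = dot (np2 δ n) (qq n)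
      + dot (cr (aa δ y n) (np1 δ n)) (qq n) := by
    rw [← dot_add_left, ← cr_n_aP]
    simp only [dot, cr, mk3_0, mk3_1, mk3_2]
    ring
  have h3 : dot n (cr (aa δ y n) (cr (aa δ y n) (qq n)))
      = -dot (cr (aa δ y n) (np1 δ n)) (qq n) := by
    rw [← cr_n_aa δ y n]
    simp only [dot, cr, mk3_0, mk3_1, mk3_2]
    ring
  have h4 : dot n (qq (np2 δ n)) + 2 * dot (np1 δ n) (qq (np1 δ n)) + dot (np2 δ n) (qq n)
      = δ ^ 2 * GG4 n := by
    simp [GG4, np1, np2, TT, qq, dot, cr]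
    ring
  simp only [D2qn, dot_add_right, dot_smul_right]
  rw [h1, h2, h3, ← h4]
  ring

theorem D2P_n {δ : ℝ} {y n : V3} (hy : dot y y = 1) (hn : dot n n = 1) (h : dot n y = 0)
    (V : V3) :
    1 / 2 * dot V (D2P δ y n n n) + 1 / 4 * dot (WW δ y) V * dot (WW δ y) n
      = δ ^ 3 * b2 δ y n V := by
  rw [D2P_n' hy hn h, W_n h]
  simp only [b2, dot_add_right, dot_smul_right]
  ring

theorem D2P_nn {δ : ℝ} {y n : V3} (hy : dot y y = 1) (hn : dot n n = 1) (h : dot n y = 0) :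
    1 / 2 * dot n (D2P δ y n n n) + 1 / 4 * dot (WW δ y) n ^ 2 = δ ^ 6 * b3 δ y n := by
  have e1 : dot n (zz δ y) = 6 * δ ^ 3 * n 2 := by rw [dot_comm, zz_n h]
  have e2 : dot n (Dz δ y n) = 6 * δ ^ 3 * (np1 δ n) 2 := by rw [dot_comm, Dz_n]
  have e4 : dot n (D2z δ y n) = 6 * δ ^ 3 * (np2 δ n) 2 := by rw [dot_comm, D2z_n h]
  rw [D2P_n' hy hn h, W_n h]
  simp only [b3, dot_add_right, dot_smul_right, e1, e2, e4, D2qn_n]
  ring

theorem stf_split {δ : ℝ} (hδ : δ ≠ 0) {y n : V3} (hy : dot y y = 1) (hn : dot n n = 1)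
    (h : dot n y = 0) (x r : ℝ) (V : V3) :
    stf δ y n x (V + (r / δ ^ 3) • n)
      = stf δ y n x V + x * r * b1 δ y n + 2 * r * b2 δ y n V + r ^ 2 * b3 δ y n := by
  have e1 := DW_nn (δ := δ) hy hn h
  have e2 := D2P_n (δ := δ) hy hn h V
  have e3 := D2P_nn (δ := δ) hy hn h
  have e4 : dot n (D2P δ y n n V) = dot V (D2P δ y n n n) := by
    rw [D2P_symm, dot_comm]
  obtain ⟨ρ, hρ⟩ : ∃ ρ, ρ = r / δ ^ 3 := ⟨_, rfl⟩
  have hr : r = ρ * δ ^ 3 := by rw [hρ]; field_simp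
  rw [← hρ]
  unfold stf
  simp only [D2P_add, D2P_smul, dot_add_left, dot_add_right, dot_smul_left, dot_smul_right, e4]
  have k1 : x * r * b1 δ y n = x * ρ * dot (DW δ y n) n := by rw [e1, hr]; ring
  have k2 : 2 * r * b2 δ y n V = 2 * ρ * (1 / 2 * dot V (D2P δ y n n n)
      + 1 / 4 * dot (WW δ y) V * dot (WW δ y) n) := by rw [e2, hr]; ring
  have k3 : r ^ 2 * b3 δ y n = ρ ^ 2 * (1 / 2 * dot n (D2P δ y n n n)
      + 1 / 4 * dot (WW δ y) n ^ 2) := by rw [e3, hr]; ring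
  rw [k1, k2, k3]
  ring

end

end MP_1b4d75_gt
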