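import Pool.Agent.Lib.MP_1b4d75_gt.S01

/-!
# MP_1b4d75_gt, module S02

Values at δ = 0 and positivity of the limit form.

At δ = 0: T = 1, σ = 1/2, om = 2n - n = n (ty = 1), aa = -n/2, L n = n x y, K = 1, W = -(3/4) y, z = y, P p = 1/4 <y,p> y.
V = p y + q (n x y): stf 0 = x² - (3/8) x q + q²/16 + (5/64) p²; use the frame (y, cr n y, n) = frame_of (A01).
b1_zero, b2_zero, b3_zero: direct.  quartic_pos: 160 c²(a²+b²+c²) + G = (2a² - 19/2 ac)² + 119/4 a²c² - 2ac³ + 164c⁴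
 + 8a²b² + 18 ab²c + 162 b²c² + 2b⁴.
limit_pos: the 2x2 form x² - 3/8 xq + q²/16 is positive definite: (x - 3q/16)² + 7q²/256.
-/

open scoped Quaternion Topology
open Filter

namespace MP_1b4d75_gt

noncomputable section

theorem quartic_pos (a b c : ℝ) (h : a ^ 2 + b ^ 2 + c ^ 2 = 1) :
    0 < 160 * c ^ 2 + (4 * a ^ 4 - 38 * a ^ 3 * c + 8 * a ^ 2 * b ^ 2 - 40 * a ^ 2 * c ^ 2
      + 18 * a * b ^ 2 * c - 2 * a * c ^ 3 + 2 * b ^ 4 + 2 * b ^ 2 * c ^ 2 + 4 * c ^ 4) := by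
  have key : 160 * c ^ 2 + (4 * a ^ 4 - 38 * a ^ 3 * c + 8 * a ^ 2 * b ^ 2 - 40 * a ^ 2 * c ^ 2
      + 18 * a * b ^ 2 * c - 2 * a * c ^ 3 + 2 * b ^ 4 + 2 * b ^ 2 * c ^ 2 + 4 * c ^ 4)
      = (2 * a ^ 2 - 19 / 2 * a * c) ^ 2 + 28 * (a * c) ^ 2 + (a * c - c ^ 2) ^ 2
        + 3 / 4 * (a * c) ^ 2 + 163 * c ^ 4
        + b ^ 2 * ((a + 9 * c) ^ 2 + 7 * a ^ 2 + 81 * c ^ 2) + 2 * b ^ 4 := by
    have : 160 * c ^ 2 = 160 * c ^ 2 * (a ^ 2 + b ^ 2 + c ^ 2) := by rw [h, mul_one]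
    rw [this]
    ring
  rw [key]
  by_cases hb : b = 0
  · by_cases hc : c = 0
    · subst hb hc
      have ha : a ^ 2 = 1 := by linarith
      have : a ^ 4 = 1 := by
        have : a ^ 4 = (a ^ 2) ^ 2 := by ring
        rw [this, ha]
        norm_num
      nlinarith
    · have : 0 < c ^ 4 := by positivity
      positivity
  · have : 0 < b ^ 4 := by positivity
    positivity

theorem S02_TT (a : V3) : TT 0 a = a := by
  apply ext3 <;> simp [TT]

theorem S02_ty {y : V3} (hy : dot y y = 1) : ty 0 y = 1 := by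
  rw [ty, S02_TT, hy]

theorem S02_sg (y : V3) : sg 0 y = 1 / 2 := by
  simp [sg]

theorem S02_om {y : V3} (hy : dot y y = 1) (n : V3) : om 0 y n = n := by
  rw [om, S02_ty hy, S02_TT]
  module

theorem S02_aa {y : V3} (hy : dot y y = 1) (n : V3) : aa 0 y n = (-(1 / 2) : ℝ) • n := by
  rw [aa, S02_om hy, S02_sg]
  module

theorem S02_zz (y : V3) : zz 0 y = y := by
  simp [zz]

theorem S02_LL (y n : V3) : LL 0 y n = cr n y := by
  rw [LL, S02_TT]
  exact pr_of_perp (dot_cr_right' n y)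

theorem S02_PP (y p : V3) : PP 0 y p = (dot y p / 4) • y := by
  rw [PP, S02_zz]
  simp

theorem S02_dPP (y v p : V3) : dPP 0 y v p = (1 / 4 : ℝ) • (dot v p • y + dot y p • v) := by
  rw [dPP, S02_zz]

theorem S02_KK {y : V3} (hy : dot y y = 1) : KK 0 y = 1 := by
  rw [KK, S02_ty hy, S02_TT, hy]
  norm_num

theorem S02_gs (y : V3) : gs 0 y = 0 := by
  simp [gs]

theorem S02_WW {y : V3} (hy : dot y y = 1) : WW 0 y = (-(3 / 4) : ℝ) • y := by
  rw [WW, S02_KK hy, S02_sg, S02_gs]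
  module

theorem S02_np1 (n : V3) : np1 0 n = 0 := by
  rw [np1, S02_TT, cr_self]

theorem S02_np2 (n : V3) : np2 0 n = 0 := by
  rw [np2, S02_np1, cr_zero_left, TT_zero, cr_zero_right, add_zero]

theorem S02_pe {y n : V3} (h : dot n y = 0) : dot (TT 0 (pr y e3)) n = n 2 := by
  rw [S02_TT, pr, dot_sub_left, dot_smul_left, dot_comm y n, h]
  simp [dot, e3]

theorem b1_zero {y n : V3} (hy : dot y y = 1) (hn : dot n n = 1) (h : dot n y = 0) :
    b1 0 y n = 0 := by
  have _ := hy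
  have _ := hn
  rw [b1, S02_np1, dot_zero_right, S02_TT, S02_LL, dpr, dot_sub_left, dot_neg_left, dot_smul_left,
    dot_smul_left, dot_comm y n, h, dot_cr_left']
  ring

theorem b2_zero {y n : V3} (hy : dot y y = 1) (hn : dot n n = 1) (h : dot n y = 0) (V : V3) :
    b2 0 y n V = 0 := by
  have _ := hn
  have e1 : D2z 0 y n = (-(1 / 4) : ℝ) • y := by
    rw [D2z, S02_sg]
    have z1 : ((0 : ℝ) ^ 3 * (LL 0 y n) 2) = 0 := by ring
    have z2 : (6 * (0 : ℝ) ^ 3) = 0 := by ring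
    rw [z1, z2, zero_smul, zero_smul]
    module
  rw [b2, S02_np1, S02_np2, e1, S02_WW hy, S02_pe h, dot_smul_right, dot_smul_left, dot_comm V y]
  simp only [PiLp.zero_apply]
  ring

theorem b3_zero {y n : V3} (h : dot n y = 0) : b3 0 y n = n 2 ^ 2 / 4 + GG4 n / 640 := by
  rw [b3, S02_np1, S02_np2, S02_pe h]
  simp only [PiLp.zero_apply]
  ring

theorem S02_stf {y h n : V3} (F : Frame y h n) (x p q : ℝ) :
    stf 0 y n x (p • y + q • h)
      = x ^ 2 - 3 / 8 * x * q + q ^ 2 / 16 + 5 / 64 * p ^ 2 := by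
  obtain ⟨yy, hh, nn, yh, yn, hn, cyh, chn, cny⟩ := F
  have hy : dot h y = 0 := by rw [dot_comm]; exact yh
  have ny : dot n y = 0 := by rw [dot_comm]; exact yn
  have nh : dot n h = 0 := by rw [dot_comm]; exact hn
  have chy : cr h y = -n := by rw [cr_anti, cyh]
  have cnh : cr n h = -y := by rw [cr_anti, chn]
  have cyn : cr y n = -h := by rw [cr_anti, cny]
  have hL : LL 0 y n = h := by rw [S02_LL, cny]
  have hty : dty 0 y h = 0 := by rw [dty, S02_TT, hy, mul_zero]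
  have hdaa : daa 0 y h n = 0 := by
    rw [daa, hty]
    simp
  have hdgs : dgs 0 y h = 0 := by simp [dgs]
  have hdKK : dKK 0 y h = 0 := by
    rw [dKK, hty, S02_TT, S02_TT, hy]
    ring
  have hdWW : dWW 0 y h = (-(3 / 4) : ℝ) • h := by
    rw [dWW, hdKK, hdgs, S02_KK yy, S02_sg]
    have z1 : (-((0 : ℝ) - 2 * (1 / 2) * (0 ^ 3 * h 2))) = 0 := by ring
    rw [z1, zero_smul]
    module
  have hDW : DW 0 y n = (-(3 / 8) : ℝ) • h := by
    rw [DW, hL, hdWW, S02_aa yy, S02_WW yy, cr_smul_left, cr_smul_right, cny]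
    module
  have hdLL : dLL 0 y h n = -y := by
    rw [dLL, S02_TT, S02_TT, cny, cnh, dpr, pr, hh, hy, dot_neg_left, yy]
    module
  -- DP at n
  have hDP : ∀ a b : ℝ, DP 0 y n (a • y + b • h) = (b / 8) • y + (a / 8) • h := by
    intro a b
    rw [DP, hL, S02_dPP, S02_PP, S02_PP, S02_aa yy]
    simp only [dot_add_right, dot_smul_right, cr_add_right, cr_smul_right, cr_smul_left, yy, yh,
      hy, hh, cny, cnh, smul_add, smul_neg, dot_neg_right]
    module
  have hDP0 : ∀ w, DP 0 y 0 w = 0 := by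
    intro w
    have := DP_smul_n 0 y 0 0 w
    simpa using this
  have hdDP : dDP 0 y h n (p • y + q • h) = (q / 4) • h - (p / 4) • y := by
    rw [dDP, hL, hdLL, hdaa, cr_zero_left, cr_zero_left, S02_PP y 0, S02_aa yy]
    simp only [S02_dPP, dot_add_right, dot_smul_right, cr_add_right, cr_smul_right, cr_smul_left,
      yy, yh, hy, hh, cny, cnh, smul_add, smul_neg, dot_neg_right, dot_neg_left, dot_zero_right]
    module
  have hD2 : D2P 0 y n n (p • y + q • h) = (q / 8) • h - (p / 8) • y := by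
    rw [D2P, hL, S02_om yy, cr_self, hDP0, hdDP, hDP, S02_aa yy]
    have e1 : cr ((-(1 / 2) : ℝ) • n) (p • y + q • h) = (q / 2) • y + (-(p / 2)) • h := by
      simp only [cr_add_right, cr_smul_right, cr_smul_left, cny, cnh]
      module
    have e2 : cr ((-(1 / 2) : ℝ) • n) ((q / 8) • y + (p / 8) • h)
        = (p / 16) • y + (-(q / 16)) • h := by
      simp only [cr_add_right, cr_smul_right, cr_smul_left, cny, cnh]
      module
    rw [e1, e2, hDP]
    module
  rw [stf, S02_KK yy, hDW, hD2, S02_WW yy]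
  simp only [dot_add_right, dot_add_left, dot_sub_right, dot_smul_right, dot_smul_left, yy, yh,
    hy, hh]
  ring

theorem stf_zero {y n : V3} (hy : dot y y = 1) (hn : dot n n = 1) (h : dot n y = 0)
    (x p q : ℝ) :
    stf 0 y n x (p • y + q • cr n y)
      = x ^ 2 - 3 / 8 * x * q + q ^ 2 / 16 + 5 / 64 * p ^ 2 :=
  S02_stf (frame_of hy hn (by rw [dot_comm]; exact h)) x p q

/-- the limit form is positive -/
theorem limit_pos {y n : V3} (hy : dot y y = 1) (hn : dot n n = 1) (h : dot n y = 0)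
    (x r : ℝ) (V : V3) (hV : dot V n = 0) (hne : x ^ 2 + dot V V + r ^ 2 = 1) :
    0 < stf 0 y n x V + x * r * b1 0 y n + 2 * r * b2 0 y n V + r ^ 2 * b3 0 y n := by
  have F := frame_of hy hn (by rw [dot_comm]; exact h)
  have hVe : V = dot V y • y + dot V (cr n y) • cr n y := by
    conv_lhs => rw [frame_expand F V]
    rw [hV, zero_smul, add_zero]
  set p := dot V y with hp
  set q := dot V (cr n y) with hq
  have hVV : dot V V = p ^ 2 + q ^ 2 := by
    rw [frame_dot F V V, hV]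
    ring
  rw [hVe, stf_zero hy hn h, b1_zero hy hn h, b2_zero hy hn h, b3_zero h]
  have hn3 : n 0 ^ 2 + n 1 ^ 2 + n 2 ^ 2 = 1 := by
    have := hn
    simp only [dot] at this
    linarith
  have hQ := quartic_pos (n 0) (n 1) (n 2) hn3
  have hb : 0 < n 2 ^ 2 / 4 + GG4 n / 640 := by
    unfold GG4
    linarith
  have hform : x ^ 2 - 3 / 8 * x * q + q ^ 2 / 16 + 5 / 64 * p ^ 2
      = (x - 3 / 16 * q) ^ 2 + 7 / 256 * q ^ 2 + 5 / 64 * p ^ 2 := by ring
  rw [hform]
  by_cases hr : r = 0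
  · subst hr
    have : 0 < (x - 3 / 16 * q) ^ 2 + 7 / 256 * q ^ 2 + 5 / 64 * p ^ 2 := by
      by_contra hcon
      push Not at hcon
      have h1 : q ^ 2 = 0 := by nlinarith [sq_nonneg (x - 3 / 16 * q), sq_nonneg q, sq_nonneg p]
      have h2 : p ^ 2 = 0 := by nlinarith [sq_nonneg (x - 3 / 16 * q), sq_nonneg q, sq_nonneg p]
      have h3 : (x - 3 / 16 * q) ^ 2 = 0 := by
        nlinarith [sq_nonneg (x - 3 / 16 * q), sq_nonneg q, sq_nonneg p]
      have hq0 : q = 0 := pow_eq_zero_iff (two_ne_zero) |>.1 h1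
      have hp0 : p = 0 := pow_eq_zero_iff (two_ne_zero) |>.1 h2
      rw [hq0] at h3
      have hx0 : x = 0 := by
        have := pow_eq_zero_iff (two_ne_zero) |>.1 h3
        linarith
      rw [hVV, hq0, hp0, hx0] at hne
      norm_num at hne
    linarith
  · have hr2 : 0 < r ^ 2 := by positivity
    have := mul_pos hr2 hb
    have h1 := sq_nonneg (x - 3 / 16 * q)
    have h2 := sq_nonneg q
    have h3 := sq_nonneg p
    linarith

end

end MP_1b4d75_gt
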